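import Pool.Agent.Lib.MP_70d14f_gt.Lag

namespace Pool.Agent.MP_70d14f_gt

open Set Topology

noncomputable section

/-- gluing of functions defined on an open cover -/
lemma glue {X : Type} [Inhabited X] {ι : Type} (S : Set (ℝ × ℝ × ℝ × ℝ))
    (W : ι → Set (ℝ × ℝ × ℝ × ℝ)) (F : ι → ℝ × ℝ × ℝ × ℝ → X)
    (compat : ∀ i j q, q ∈ S → q ∈ W i → q ∈ W j → F i q = F j q) :
    ∃ G : ℝ × ℝ × ℝ × ℝ → X, ∀ i q, q ∈ S → q ∈ W i → G q = F i q := by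
  classical
  refine ⟨fun q => if h : ∃ i, q ∈ W i then F h.choose q else default, ?_⟩
  intro i q hS hi
  have h : ∃ i, q ∈ W i := ⟨i, hi⟩
  simp only [dif_pos h]
  exact compat _ _ q hS h.choose_spec hi

lemma glue_continuousOn {X : Type} [TopologicalSpace X] {ι : Type} {S : Set (ℝ × ℝ × ℝ × ℝ)}
    {W : ι → Set (ℝ × ℝ × ℝ × ℝ)} {F : ι → ℝ × ℝ × ℝ × ℝ → X} {G : ℝ × ℝ × ℝ × ℝ → X}
    (hW : ∀ i, IsOpen (W i)) (cover : ∀ q ∈ S, ∃ i, q ∈ W i)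
    (hG : ∀ i q, q ∈ S → q ∈ W i → G q = F i q)
    (hF : ∀ i q, q ∈ S → q ∈ W i → ContinuousAt (F i) q) : ContinuousOn G S := by
  intro q hq
  obtain ⟨i, hi⟩ := cover q hq
  refine ((hF i q hq hi).continuousWithinAt).congr_of_eventuallyEq ?_ (hG i q hq hi)
  have h1 : W i ∈ 𝓝[S] q := mem_nhdsWithin_of_mem_nhds ((hW i).mem_nhds hi)
  filter_upwards [h1, self_mem_nhdsWithin] with r hr hrS
  exact hG i r hrS hr

/-- atlas of pieces for a surface -/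
structure Atlas (S : Set (ℝ × ℝ × ℝ × ℝ)) where
  ι : Type
  D : ι → PD
  W : ι → Set (ℝ × ℝ × ℝ × ℝ)
  sgn : ι → ℝ
  open_W : ∀ i, IsOpen (W i)
  cover : ∀ q ∈ S, ∃ i, q ∈ W i
  loc : ∀ i, ∀ q ∈ W i, (q ∈ S ↔ q ∈ (D i).piece)
  reg : ∀ i, ∀ q ∈ W i, q ∈ S → (D i).reg (bp q)
  sgn_ne : ∀ i, sgn i ≠ 0
  compat : ∀ i j q, q ∈ S → q ∈ W i → q ∈ W j → sgn i • (D i).ori q = sgn j • (D j).ori q

namespace Atlas

variable {S : Set (ℝ × ℝ × ℝ × ℝ)} (A : Atlas S)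

lemma tangent {p : ℝ × ℝ × ℝ × ℝ} {i : A.ι} (hp : p ∈ S) (hi : p ∈ A.W i) :
    HasTangentSpace S p ((A.D i).tsp p) :=
  (A.D i).hasTangentSpace (A.open_W i) hi (A.loc i) hp (A.reg i p hi hp)

lemma piece {p : ℝ × ℝ × ℝ × ℝ} {i : A.ι} (hp : p ∈ S) (hi : p ∈ A.W i) :
    p ∈ (A.D i).piece := (A.loc i p hi).1 hp

/-- the orientation -/
lemma exists_ori : ∃ o : ℝ × ℝ × ℝ × ℝ → LinearMap.BilinForm ℝ (ℝ × ℝ × ℝ × ℝ),
    (∀ i q, q ∈ S → q ∈ A.W i → o q = A.sgn i • (A.D i).ori q) ∧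
    (∀ v w, ContinuousOn (fun p => o p v w) S) ∧
    (∀ p ∈ S, ∃ V, HasTangentSpace S p V ∧ (∀ v ∈ V, o p v v = 0) ∧
      ∀ v ∈ V, ∀ w ∈ V, LinearIndependent ℝ ![v, w] → o p v w ≠ 0) := by
  obtain ⟨o, ho⟩ := glue S A.W (fun i q => A.sgn i • (A.D i).ori q) A.compat
  refine ⟨o, ho, ?_, ?_⟩
  · intro v w
    refine glue_continuousOn (F := fun i q => (A.sgn i • (A.D i).ori q) v w) A.open_W A.cover ?_ ?_
    · intro i q hq hi
      simp only [ho i q hq hi]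
    · intro i q hq hi
      have := (A.D i).continuousAt_ori (A.reg i q hi hq).1 v w
      exact this.const_mul (A.sgn i)
  · intro p hp
    obtain ⟨i, hi⟩ := A.cover p hp
    refine ⟨(A.D i).tsp p, A.tangent hp hi, ?_, ?_⟩
    · intro v _
      rw [ho i p hp hi]
      simp [(A.D i).ori_self]
    · intro v hv w hw hl
      rw [ho i p hp hi]
      have := (A.D i).ori_ne_zero (A.reg i p hi hp) (A.piece hp hi) hv hw hl
      simpa using ⟨A.sgn_ne i, this⟩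

end Atlas

/-- flat values of the orientation form -/
lemma PD.ori_flat (D : PD) (q : ℝ × ℝ × ℝ × ℝ) (h1 : D.gx (bp q) = 0) (h2 : D.gt (bp q) = 0)
    (v w : ℝ × ℝ × ℝ × ℝ) : D.ori q v w = 2 * D.eta q * (v.1 * w.2.1 - v.2.1 * w.1) := by
  rw [PD.ori_apply, h1, h2]; ring

lemma deriv2_lam_of_gt {r : ℝ} (h : 1 < r) : lamS.d2 r = 0 := by
  have : deriv lam =ᶠ[𝓝 r] fun _ => 0 := by
    filter_upwards [lt_mem_nhds h] with y hy
    exact deriv_lam_of_ge hy.le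
  show deriv (deriv lam) r = 0
  rw [this.deriv_eq]; simp

/-- flat points of a Lagrangian piece -/
def LData.flat (A : LData) (b : ℝ × ℝ) : Prop :=
  1 < A.w b ∧ 0 < A.k.f b.2 ∧ A.k.d1 b.2 = 0 ∧ A.k.d2 b.2 = 0

namespace LData

variable (A : LData)

lemma flat_all {b : ℝ × ℝ} (h : A.flat b) : A.g b = 1 ∧ A.gt b = 0 ∧ A.gx b = 0 ∧ A.gtt b = 0 ∧
    A.gtx b = 0 ∧ A.gxx b = 0 ∧ A.P b = A.k.f b.2 ∧ A.Q b = 0 ∧ A.Pt b = 0 ∧ A.Px b = 0 ∧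
    A.Qt b = 0 ∧ A.Qx b = 0 ∧ A.Del b = 0 ∧ A.En b = 0 := by
  obtain ⟨h1, h2, h3, h4⟩ := h
  have e1 : lamS.d1 (A.w b) = 0 := deriv_lam_of_ge h1.le
  have e2 : lamS.d2 (A.w b) = 0 := deriv2_lam_of_gt h1
  have g1 : A.g b = 1 := lam_of_ge h1.le
  have g2 : A.gt b = 0 := by unfold gt; rw [e1]; ring
  have g3 : A.gx b = 0 := by unfold gx; rw [e1]; ring
  have g4 : A.gtt b = 0 := by unfold gtt; rw [e1, e2]; ring
  have g5 : A.gtx b = 0 := by unfold gtx; rw [e2]; ring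
  have g6 : A.gxx b = 0 := by unfold gxx; rw [e1, e2]; ring
  have p1 : A.P b = A.k.f b.2 := by rw [A.P_eq, g1, g2]; ring
  have p2 : A.Q b = 0 := by rw [A.Q_eq, g3, h3]; ring
  have p3 : A.Pt b = 0 := by unfold Pt; rw [g2, g4]; ring
  have p4 : A.Px b = 0 := by unfold Px; rw [g3, g5, h3]; ring
  have p5 : A.Qt b = 0 := by unfold Qt; rw [g5, h3]; ring
  have p6 : A.Qx b = 0 := by unfold Qx; rw [g6, h3, h4]; ring
  refine ⟨g1, g2, g3, g4, g5, g6, p1, p2, p3, p4, p5, p6, ?_, ?_⟩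
  · unfold Del; rw [p3, p5, p6, p4, p2, g2, g3]; ring
  · unfold En; rw [p2, g2, p6, p3]; ring

lemma flat_nd {b : ℝ × ℝ} (h : A.flat b) : A.pd.nd b := by
  obtain ⟨g1, g2, g3, g4, g5, g6, p1, p2, -⟩ := A.flat_all h
  show A.P b ^ 2 + A.Q b ^ 2 ≠ 0
  rw [p1, p2]
  have := h.2.1
  positivity

lemma flat_mem_iff {q : ℝ × ℝ × ℝ × ℝ} (h : A.flat (bp q)) : q ∈ A.pd.piece ↔
    (q.2.2.1 = 0 ∧ (q.2.2.2 = A.m + A.k.f q.2.1 ∨ q.2.2.2 = A.m - A.k.f q.2.1)) := by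
  obtain ⟨g1, g2, g3, g4, g5, g6, p1, p2, -⟩ := A.flat_all h
  have p1' : A.P (bp q) = A.k.f q.2.1 := p1
  show (∃ η : ℝ, η ^ 2 = A.g (bp q) ∧ q.2.2.1 = η * A.Q (bp q) ∧
    q.2.2.2 = A.m + η * A.P (bp q)) ↔ _
  rw [g1, p1', p2]
  constructor
  · rintro ⟨η, h1, h2, h3⟩
    refine ⟨by rw [h2]; ring, ?_⟩
    have : (η - 1) * (η + 1) = 0 := by linear_combination h1
    rcases mul_eq_zero.1 this with h | h
    · left; rw [h3]; linear_combination (A.k.f q.2.1) * h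
    · right; rw [h3]; linear_combination (A.k.f q.2.1) * h
  · rintro ⟨h1, h2 | h2⟩
    · exact ⟨1, by ring, by rw [h1]; ring, by rw [h2]; ring⟩
    · exact ⟨-1, by ring, by rw [h1]; ring, by rw [h2]; ring⟩

lemma flat_eta {q : ℝ × ℝ × ℝ × ℝ} (h : A.flat (bp q)) :
    A.pd.eta q = (q.2.2.2 - A.m) / A.k.f q.2.1 := by
  obtain ⟨g1, g2, g3, g4, g5, g6, p1, p2, -⟩ := A.flat_all h
  have p1' : A.P (bp q) = A.k.f q.2.1 := p1
  have hk : A.k.f q.2.1 ≠ 0 := h.2.1.ne'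
  show ((q.2.2.2 - A.m) * A.P (bp q) + q.2.2.1 * A.Q (bp q)) / (A.P (bp q) ^ 2 + A.Q (bp q) ^ 2) = _
  rw [p1', p2]
  field_simp
  ring

lemma flat_ori {q : ℝ × ℝ × ℝ × ℝ} (h : A.flat (bp q)) (v w : ℝ × ℝ × ℝ × ℝ) :
    A.pd.ori q v w = 2 * ((q.2.2.2 - A.m) / A.k.f q.2.1) * (v.1 * w.2.1 - v.2.1 * w.1) := by
  obtain ⟨g1, g2, g3, -⟩ := A.flat_all h
  rw [PD.ori_flat, A.flat_eta h]
  · show fderiv ℝ A.g (bp q) (0, 1) = 0
    rw [A.fderiv_g, g2, g3]; ring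
  · show fderiv ℝ A.g (bp q) (1, 0) = 0
    rw [A.fderiv_g, g2, g3]; ring

lemma flat_prim {q : ℝ × ℝ × ℝ × ℝ} (h : A.flat (bp q)) : A.prim q = 0 := by
  obtain ⟨g1, g2, -⟩ := A.flat_all h
  unfold prim; rw [g2]; ring

lemma flat_phase_pos {q : ℝ × ℝ × ℝ × ℝ} (h : A.flat (bp q)) {ε : ℝ} (n : ℤ)
    (he : ε * A.pd.eta q = 1) : A.phase ε n q = n * Real.pi := by
  obtain ⟨g1, g2, g3, g4, g5, g6, p1, p2, p3, p4, p5, p6, p7, p8⟩ := A.flat_all h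
  unfold phase Z
  rw [p7, p8]
  have hec : (ε : ℂ) * A.pd.eta q = 1 := by exact_mod_cast he
  have : (ε : ℂ) * (((0:ℝ) : ℂ) - 2 * A.pd.eta q * (1 - ((0:ℝ) : ℂ)) * Complex.I)
      = ((2 : ℝ) : ℂ) * (-Complex.I) := by
    push_cast
    linear_combination (-2 * Complex.I) * hec
  rw [this, Complex.arg_real_mul _ (by norm_num), Complex.arg_neg_I]
  ring

lemma flat_phase_neg {q : ℝ × ℝ × ℝ × ℝ} (h : A.flat (bp q)) {ε : ℝ} (n : ℤ)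
    (he : ε * A.pd.eta q = -1) : A.phase ε n q = (n + 1) * Real.pi := by
  obtain ⟨g1, g2, g3, g4, g5, g6, p1, p2, p3, p4, p5, p6, p7, p8⟩ := A.flat_all h
  unfold phase Z
  rw [p7, p8]
  have hec : (ε : ℂ) * A.pd.eta q = -1 := by exact_mod_cast he
  have : (ε : ℂ) * (((0:ℝ) : ℂ) - 2 * A.pd.eta q * (1 - ((0:ℝ) : ℂ)) * Complex.I)
      = ((2 : ℝ) : ℂ) * Complex.I := by
    push_cast
    linear_combination (-2 * Complex.I) * hec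
  rw [this, Complex.arg_real_mul _ (by norm_num), Complex.arg_I]
  ring

end LData

end

end Pool.Agent.MP_70d14f_gt
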