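import Pool.Agent.Lib.MP_70d14f_gt.Compat

namespace Pool.Agent.MP_70d14f_gt

open Set Topology

noncomputable section

lemma scale_aux (s : ℝ) {r : ℝ} (hr : 0 < r) : max (min s 0 + r * max s 0) 0 = r * max s 0 ∧
    min (min s 0 + r * max s 0) 0 = min s 0 := by
  rcases le_total 0 s with h | h
  · rw [min_eq_right h, max_eq_left h, zero_add]
    have : 0 ≤ r * s := mul_nonneg hr.le h
    exact ⟨max_eq_left this, min_eq_right this⟩
  · rw [min_eq_left h, max_eq_right h, mul_zero, add_zero]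
    exact ⟨max_eq_right h, min_eq_left h⟩

def nrm (P : ℝ × ℝ) : ℝ := |P.2| + max P.1 0

def rinv (n : ℝ) : ℝ := if 1 ≤ n then 1 else if 1 / 2 ≤ n then n / (7 - 6 * n) else 1 / 8

lemma nrm_scale {P Q : ℝ × ℝ} {r : ℝ} (hr : 0 < r)
    (h : Q = (min P.1 0 + r * max P.1 0, r * P.2)) : nrm Q = r * nrm P := by
  rw [h]
  unfold nrm
  simp only
  rw [(scale_aux P.1 hr).1, abs_mul, abs_of_pos hr]; ring

lemma co_M_fst (b : ℝ × ℝ) : (co .M b).1 = ss b.1 := rfl
lemma co_M_snd (b : ℝ × ℝ) : (co .M b).2 = ho (b.2 - 5) := rfl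

lemma nrm_M {b : ℝ × ℝ} (h : b.1 ≤ -1) : nrm (co .M b) = NN b := by
  rw [NN_eq h]; rfl

lemma r_M {b : ℝ × ℝ} (h : b ∈ Rg .M) : -9 ≤ (co .M b).2 ∧ (co .M b).2 ≤ 6 ∧ 1 ≤ nrm (co .M b) := by
  obtain ⟨h1, h2, h3⟩ := h
  refine ⟨?_, ?_, ?_⟩
  · have := ho_strictMono.monotone (by linarith : -9 ≤ b.2 - 5)
    rw [ho_of_le (by norm_num : (-9:ℝ) ≤ -(1 / 2))] at this
    exact this
  · have := ho_strictMono.monotone (by linarith : b.2 - 5 ≤ 6)
    rw [ho_of_ge (by norm_num : (1:ℝ) / 2 ≤ 6)] at this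
    exact this
  · rcases le_or_gt b.1 (-1) with h | h
    · rw [nrm_M h]; exact h3
    · have h6 := ss_ge_six h.le
      have h7 : 6 ≤ max (ss b.1) 0 := le_max_of_le_left h6
      have h8 := abs_nonneg (ho (b.2 - 5))
      show 1 ≤ |ho (b.2 - 5)| + max (ss b.1) 0
      linarith

lemma r_US {b : ℝ × ℝ} (h : b ∈ Rg .US) : nrm (co .US b) = 1 - (NN b - 1) / 6 := by
  obtain ⟨c1, c2, c3⟩ := NN_x4 h.2
  have := nrm_scale (P := co .M b) (Q := co .US b) (rho_pos h.1 h.2) rfl
  rw [this, nrm_M c3.le, rho_mul h.1]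

lemma r_LS {b : ℝ × ℝ} (h : b ∈ Rg .LS) : nrm (co .LS b) = 1 / 8 * NN b := by
  obtain ⟨c1, c2, c3⟩ := NN_x4 h
  have := nrm_scale (P := co .M b) (Q := co .LS b) (r := 1 / 8) (by norm_num) rfl
  rw [this, nrm_M c3.le]

lemma NN_nonneg (b : ℝ × ℝ) : 0 ≤ NN b := by
  unfold NN
  have h1 := hh_nonneg (b.2 - 5)
  have h2 := bet_nonneg b.1
  linarith

lemma abs_le_nrm (P : ℝ × ℝ) : |P.2| ≤ nrm P := by
  unfold nrm
  have := le_max_right P.1 0
  linarith

lemma W_US {b : ℝ × ℝ} (h : b ∈ Rg .US) : -1 ≤ (co .US b).2 ∧ (co .US b).2 ≤ 1 := by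
  have h1 := abs_le_nrm (co .US b)
  rw [r_US h] at h1
  have h2 : |(co .US b).2| ≤ 1 := by linarith [h.1]
  exact abs_le.1 h2

lemma W_LS {b : ℝ × ℝ} (h : b ∈ Rg .LS) : -1 ≤ (co .LS b).2 ∧ (co .LS b).2 ≤ 1 := by
  have h1 := abs_le_nrm (co .LS b)
  rw [r_LS h] at h1
  have h3 : NN b ≤ 4 := h
  have h2 : |(co .LS b).2| ≤ 1 := by linarith
  exact abs_le.1 h2

lemma W_T {b : ℝ × ℝ} (h : b ∈ Rg .T) : 6 ≤ (co .T b).2 ∧ (co .T b).2 ≤ 25 := by
  rw [co_T]
  exact ⟨by show 6 ≤ 17 - b.2; linarith [h.2], by show 17 - b.2 ≤ 25; linarith [h.1]⟩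

lemma UO_aux {b : ℝ × ℝ} : (co .UO b).2 * (cc b.1 + 4) = 32 * (cc b.1 + 4) + 3 * (cc b.1 - b.2) := by
  rw [co_UO]
  have : cc b.1 + 4 ≠ 0 := by linarith [cc_ge b.1]
  show (32 + 3 * (cc b.1 - b.2) / (cc b.1 + 4)) * (cc b.1 + 4) = _
  field_simp

lemma LO_aux {b : ℝ × ℝ} : (co .LO b).2 * (cc b.1 + 8) = 25 * (cc b.1 + 8) + 7 * (b.2 + 8) := by
  rw [co_LO]
  have : cc b.1 + 8 ≠ 0 := by linarith [cc_ge b.1]
  show (25 + 7 * (b.2 + 8) / (cc b.1 + 8)) * (cc b.1 + 8) = _
  field_simp

lemma W_UO {b : ℝ × ℝ} (h : b ∈ Rg .UO) : 32 ≤ (co .UO b).2 ∧ (co .UO b).2 ≤ 35 := by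
  have h0 := cc_ge b.1
  have e := UO_aux (b := b)
  constructor
  · by_contra hc
    push Not at hc
    nlinarith [h.2]
  · by_contra hc
    push Not at hc
    nlinarith [h.1]

lemma W_LO {b : ℝ × ℝ} (h : b ∈ Rg .LO) : 25 ≤ (co .LO b).2 ∧ (co .LO b).2 ≤ 32 := by
  have h0 := cc_ge b.1
  have e := LO_aux (b := b)
  constructor
  · by_contra hc
    push Not at hc
    nlinarith [h.1]
  · by_contra hc
    push Not at hc
    nlinarith [h.2]

/-- the radial group of sheets -/
def G1 : Sh → Prop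
  | .M => True
  | .US => True
  | .LS => True
  | _ => False

lemma G1_spec {k : Sh} (hk : G1 k) {b : ℝ × ℝ} (h : b ∈ Rg k) :
    0 < rinv (nrm (co k b)) ∧ co k b = (min (ss b.1) 0 + rinv (nrm (co k b)) * max (ss b.1) 0,
      rinv (nrm (co k b)) * ho (b.2 - 5)) := by
  cases k
  · have := (r_M h).2.2
    have e : rinv (nrm (co .M b)) = 1 := by unfold rinv; rw [if_pos this]
    rw [e, one_mul, one_mul, min_add_max, add_zero]
    exact ⟨one_pos, rfl⟩
  · exact hk.elim
  · exact hk.elim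
  · exact hk.elim
  · have hn := r_US h
    have hN := h.1
    have hN4 := h.2
    have e : rinv (nrm (co .US b)) = rho (NN b) := by
      rw [hn]
      unfold rinv
      split_ifs with h1 h2
      · have : NN b = 1 := by linarith
        rw [this, rho_one]
      · have e2 : 7 - 6 * (1 - (NN b - 1) / 6) = NN b := by ring
        rw [e2]
        unfold rho
        rw [max_eq_left hN]
      · exfalso; apply h2; linarith
    rw [e]
    exact ⟨rho_pos hN hN4, rfl⟩
  · have hn := r_LS h
    have hN4 : NN b ≤ 4 := h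
    have e : rinv (nrm (co .LS b)) = 1 / 8 := by
      rw [hn]
      unfold rinv
      split_ifs with h1 h2
      · exfalso; linarith
      · have : NN b = 4 := by linarith
        rw [this]; norm_num
      · rfl
    rw [e]
    exact ⟨by norm_num, rfl⟩

lemma G1_inj {k l : Sh} (hk : G1 k) (hl : G1 l) {b b' : ℝ × ℝ} (h : b ∈ Rg k) (h' : b' ∈ Rg l)
    (he : co k b = co l b') : b = b' := by
  obtain ⟨p1, e1⟩ := G1_spec hk h
  obtain ⟨p2, e2⟩ := G1_spec hl h'
  rw [← he] at e2 p2
  generalize rinv (nrm (co k b)) = r at e1 e2 p1 p2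
  have e3 := e2.symm.trans e1
  have f1 : min (ss b'.1) 0 + r * max (ss b'.1) 0 = min (ss b.1) 0 + r * max (ss b.1) 0 :=
    congrArg Prod.fst e3
  have f2 : r * ho (b'.2 - 5) = r * ho (b.2 - 5) := congrArg Prod.snd e3
  have g2 : ho (b'.2 - 5) = ho (b.2 - 5) := mul_left_cancel₀ p1.ne' f2
  have g3 : b'.2 - 5 = b.2 - 5 := ho_strictMono.injective g2
  obtain ⟨a1, a2⟩ := scale_aux (ss b.1) p1
  obtain ⟨a3, a4⟩ := scale_aux (ss b'.1) p1
  rw [f1, a1] at a3
  rw [f1, a2] at a4
  have a5 : max (ss b.1) 0 = max (ss b'.1) 0 := mul_left_cancel₀ p1.ne' a3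
  have a6 : ss b.1 = ss b'.1 := by
    have x1 := min_add_max (ss b.1) 0
    have x2 := min_add_max (ss b'.1) 0
    linarith
  have a7 := ss_strictMono.injective a6
  exact Prod.ext a7 (by linarith)

lemma G1_sc {k l : Sh} (hk : G1 k) (hl : G1 l) {b b' : ℝ × ℝ} (h : b ∈ Rg k) (h' : b' ∈ Rg l)
    (he : co k b = co l b') : sc k b = sc l b' := by
  have hb := G1_inj hk hl h h' he
  subst hb
  cases k
  · cases l
    · rfl
    · exact hl.elim
    · exact hl.elim
    · exact hl.elim
    · apply j_MUS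
      have := (r_M h).2.2
      rw [he, r_US h'] at this
      linarith [h'.1]
    · exfalso
      have := (r_M h).2.2
      rw [he, r_LS h'] at this
      have h4 : NN b ≤ 4 := h'
      linarith
  · exact hk.elim
  · exact hk.elim
  · exact hk.elim
  · cases l
    · refine (j_MUS ?_).symm
      have := (r_M h').2.2
      rw [← he, r_US h] at this
      linarith [h.1]
    · exact hl.elim
    · exact hl.elim
    · exact hl.elim
    · rfl
    · apply j_ULS
      have := r_US h
      rw [he, r_LS h'] at this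
      linarith
  · cases l
    · exfalso
      have := (r_M h').2.2
      rw [← he, r_LS h] at this
      have h4 : NN b ≤ 4 := h
      linarith
    · exact hl.elim
    · exact hl.elim
    · exact hl.elim
    · refine (j_ULS ?_).symm
      have := r_US h'
      rw [← he, r_LS h] at this
      linarith
    · rfl

lemma ss_inj {b b' : ℝ × ℝ} (h : ss b.1 = ss b'.1) : b.1 = b'.1 := ss_strictMono.injective h

lemma W_ge (k : Sh) {b : ℝ × ℝ} (h : b ∈ Rg k) : -9 ≤ (co k b).2 ∧ (co k b).2 ≤ 35 := by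
  cases k
  · have := r_M h; exact ⟨this.1, by linarith [this.2.1]⟩
  · have := W_T h; constructor <;> linarith [this.1, this.2]
  · have := W_UO h; constructor <;> linarith [this.1, this.2]
  · have := W_LO h; constructor <;> linarith [this.1, this.2]
  · have := W_US h; constructor <;> linarith [this.1, this.2]
  · have := W_LS h; constructor <;> linarith [this.1, this.2]

/-- sheets whose coordinate is at most 6 -/
lemma G1_or (k : Sh) : G1 k ∨ k = .T ∨ k = .LO ∨ k = .UO := by
  cases k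
  · exact Or.inl trivial
  · exact Or.inr (Or.inl rfl)
  · exact Or.inr (Or.inr (Or.inr rfl))
  · exact Or.inr (Or.inr (Or.inl rfl))
  · exact Or.inl trivial
  · exact Or.inl trivial

lemma G1_le {k : Sh} (hk : G1 k) {b : ℝ × ℝ} (h : b ∈ Rg k) : (co k b).2 ≤ 6 ∧
    ((co k b).2 = 6 → k = .M ∧ b.2 = 11) ∧ ((co k b).2 = -9 → k = .M ∧ b.2 = -4) := by
  cases k
  · refine ⟨(r_M h).2.1, ?_, ?_⟩
    · intro he
      refine ⟨rfl, ?_⟩
      have h1 : ho (b.2 - 5) = ho 6 := by rw [ho_of_ge (by norm_num : (1:ℝ) / 2 ≤ 6)]; exact he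
      have := ho_strictMono.injective h1
      linarith
    · intro he
      refine ⟨rfl, ?_⟩
      have h1 : ho (b.2 - 5) = ho (-9) := by
        rw [ho_of_le (by norm_num : (-9:ℝ) ≤ -(1 / 2))]; exact he
      have := ho_strictMono.injective h1
      linarith
  · exact hk.elim
  · exact hk.elim
  · exact hk.elim
  · have := W_US h
    refine ⟨by linarith [this.2], ?_, ?_⟩ <;> intro he <;> exfalso <;> linarith [this.1, this.2]
  · have := W_LS h
    refine ⟨by linarith [this.2], ?_, ?_⟩ <;> intro he <;> exfalso <;> linarith [this.1, this.2]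

/-- injectivity of planar coordinates -/
lemma co_inj {k l : Sh} {b b' : ℝ × ℝ} (h : b ∈ Rg k) (h' : b' ∈ Rg l)
    (he : co k b = co l b') : sc k b = sc l b' := by
  have key : ∀ k l : Sh, ∀ b b' : ℝ × ℝ, b ∈ Rg k → b' ∈ Rg l → co k b = co l b' → G1 k →
      sc k b = sc l b' := by
    intro k l b b' h h' he hk
    rcases G1_or l with hl | rfl | rfl | rfl
    · exact G1_sc hk hl h h' he
    · have h1 := G1_le hk h
      have h2 := W_T h'
      rw [he] at h1
      have h6 : (co .T b').2 = 6 := by linarith [h1.1, h2.1]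
      obtain ⟨rfl, h11⟩ := h1.2.1 h6
      have ht : b.1 = b'.1 := ss_inj (congrArg Prod.fst he)
      have hx : b'.2 = 11 := by
        have : 17 - b'.2 = 6 := h6
        linarith
      have eb : b = (b.1, 11) := Prod.ext rfl h11
      have eb' : b' = (b.1, 11) := Prod.ext ht.symm hx
      rw [eb', eb]
      exact j_MT
    · exfalso
      have h1 := (G1_le hk h).1
      rw [he] at h1
      linarith [(W_LO h').1]
    · exfalso
      have h1 := (G1_le hk h).1
      rw [he] at h1
      linarith [(W_UO h').1]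
  have keyT : ∀ l : Sh, ∀ b b' : ℝ × ℝ, b ∈ Rg .T → b' ∈ Rg l → co .T b = co l b' →
      sc .T b = sc l b' := by
    intro l b b' h h' he
    rcases G1_or l with hl | rfl | rfl | rfl
    · exact (key l .T b' b h' h he.symm hl).symm
    · have ht : b.1 = b'.1 := ss_inj (congrArg Prod.fst he)
      have hx : 17 - b.2 = 17 - b'.2 := congrArg Prod.snd he
      have : b = b' := Prod.ext ht (by linarith)
      rw [this]
    · have ht : b.1 = b'.1 := ss_inj (congrArg Prod.fst he)
      have h1 := W_T h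
      have h2 := W_LO h'
      have e2 : (co .T b).2 = (co .LO b').2 := congrArg Prod.snd he
      have h25 : (co .LO b').2 = 25 := by linarith [h1.2, h2.1]
      have hx : b.2 = -8 := by
        have : 17 - b.2 = 25 := by rw [← h25, ← e2]; rfl
        linarith
      have hx' : b'.2 = -8 := by
        have := LO_aux (b := b')
        rw [h25] at this
        linarith
      have eb : b = (b.1, -8) := Prod.ext rfl hx
      have eb' : b' = (b.1, -8) := Prod.ext ht.symm hx'
      rw [eb', eb]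
      exact j_LT.symm
    · exfalso
      have e2 : (co .T b).2 = (co .UO b').2 := congrArg Prod.snd he
      linarith [(W_T h).2, (W_UO h').1]
  rcases G1_or k with hk | rfl | rfl | rfl
  · exact key k l b b' h h' he hk
  · exact keyT l b b' h h' he
  · rcases G1_or l with hl | rfl | rfl | rfl
    · exact (key l .LO b' b h' h he.symm hl).symm
    · exact (keyT .LO b' b h' h he.symm).symm
    · have ht : b.1 = b'.1 := ss_inj (congrArg Prod.fst he)
      have e2 : (co .LO b).2 = (co .LO b').2 := congrArg Prod.snd he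
      have a1 := LO_aux (b := b)
      have a2 := LO_aux (b := b')
      rw [e2, ht] at a1
      have : b = b' := Prod.ext ht (by linarith)
      rw [this]
    · have ht : b.1 = b'.1 := ss_inj (congrArg Prod.fst he)
      have e2 : (co .LO b).2 = (co .UO b').2 := congrArg Prod.snd he
      have h32 : (co .LO b).2 = 32 := by linarith [(W_LO h).2, (W_UO h').1]
      have h32' : (co .UO b').2 = 32 := by linarith
      have a1 := LO_aux (b := b)
      have a2 := UO_aux (b := b')
      rw [h32] at a1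
      rw [h32'] at a2
      have hx : b.2 = cc b.1 := by linarith
      have hx' : b'.2 = cc b.1 := by rw [ht]; linarith
      have eb : b = (b.1, cc b.1) := Prod.ext rfl hx
      have eb' : b' = (b.1, cc b.1) := Prod.ext ht.symm hx'
      rw [eb', eb]
      exact j_UL.symm
  · rcases G1_or l with hl | rfl | rfl | rfl
    · exact (key l .UO b' b h' h he.symm hl).symm
    · exact (keyT .UO b' b h' h he.symm).symm
    · have ht : b.1 = b'.1 := ss_inj (congrArg Prod.fst he)
      have e2 : (co .UO b).2 = (co .LO b').2 := congrArg Prod.snd he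
      have h32 : (co .UO b).2 = 32 := by linarith [(W_LO h').2, (W_UO h).1]
      have h32' : (co .LO b').2 = 32 := by linarith
      have a1 := UO_aux (b := b)
      have a2 := LO_aux (b := b')
      rw [h32] at a1
      rw [h32'] at a2
      have hx : b.2 = cc b.1 := by linarith
      have hx' : b'.2 = cc b.1 := by rw [ht]; linarith
      have eb : b = (b.1, cc b.1) := Prod.ext rfl hx
      have eb' : b' = (b.1, cc b.1) := Prod.ext ht.symm hx'
      rw [eb', eb]
      exact j_UL
    · have ht : b.1 = b'.1 := ss_inj (congrArg Prod.fst he)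
      have e2 : (co .UO b).2 = (co .UO b').2 := congrArg Prod.snd he
      have a1 := UO_aux (b := b)
      have a2 := UO_aux (b := b')
      rw [e2, ht] at a1
      have : b = b' := Prod.ext ht (by linarith)
      rw [this]

/-- the seam -/
lemma seam {k l : Sh} {b b' : ℝ × ℝ} (h : b ∈ Rg k) (h' : b' ∈ Rg l)
    (h1 : (co k b).1 = (co l b').1) (h2 : (co k b).2 = -9) (h3 : (co l b').2 = 35) :
    sc k b = sc l b' := by
  have hk : k = .M ∧ b.2 = -4 := by
    rcases G1_or k with hk | rfl | rfl | rfl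
    · exact (G1_le hk h).2.2 h2
    · exfalso; linarith [(W_T h).1]
    · exfalso; linarith [(W_LO h).1]
    · exfalso; linarith [(W_UO h).1]
  have hl : l = .UO ∧ b'.2 = -4 := by
    rcases G1_or l with hl | rfl | rfl | rfl
    · exfalso; linarith [(G1_le hl h').1]
    · exfalso; linarith [(W_T h').2]
    · exfalso; linarith [(W_LO h').2]
    · refine ⟨rfl, ?_⟩
      have := UO_aux (b := b')
      rw [h3] at this
      linarith
  obtain ⟨rfl, hx⟩ := hk
  obtain ⟨rfl, hx'⟩ := hl
  have ht : b.1 = b'.1 := ss_inj h1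
  have eb : b = (b.1, -4) := Prod.ext rfl hx
  have eb' : b' = (b.1, -4) := Prod.ext ht.symm hx'
  rw [eb', eb]
  exact j_MU

theorem EE_inj {k l : Sh} {b b' : ℝ × ℝ} (h : b ∈ Rg k) (h' : b' ∈ Rg l)
    (he : EE (co k b) = EE (co l b')) : sc k b = sc l b' := by
  obtain ⟨h1, n, h2⟩ := EE_eq_iff.1 he
  obtain ⟨w1, w2⟩ := W_ge k h
  obtain ⟨w3, w4⟩ := W_ge l h'
  have n1 : (-2 : ℝ) < n := by linarith
  have n2 : (n : ℝ) < 2 := by linarith
  have n1' : -2 < n := by exact_mod_cast n1
  have n2' : n < 2 := by exact_mod_cast n2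
  have n3 : n = -1 ∨ n = 0 ∨ n = 1 := by omega
  rcases n3 with rfl | rfl | rfl
  · push_cast at h2
    exact seam h h' h1 (by linarith) (by linarith)
  · refine co_inj h h' (Prod.ext h1 ?_)
    rw [h2]; simp
  · push_cast at h2
    exact (seam h' h h1.symm (by linarith) (by linarith)).symm

/-- surjectivity of the radial part -/
lemma radial_surj {P : ℝ × ℝ} {r : ℝ} (hr : 0 < r) (hn : nrm P / r < 6) :
    ∃ b : ℝ × ℝ, NN b = nrm P / r ∧ P = (min (ss b.1) 0 + r * max (ss b.1) 0, r * ho (b.2 - 5)) := by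
  obtain ⟨t, ht⟩ := ss_surj (min P.1 0 + 1 / r * max P.1 0)
  obtain ⟨u, hu⟩ := ho_surj (1 / r * P.2)
  have hr' : 0 < 1 / r := by positivity
  obtain ⟨a1, a2⟩ := scale_aux P.1 hr'
  have hP1 : max (ss t) 0 = 1 / r * max P.1 0 := by rw [ht, a1]
  have hP2 : min (ss t) 0 = min P.1 0 := by rw [ht, a2]
  have hn' : |ho u| + max (ss t) 0 = nrm P / r := by
    rw [hu, hP1, abs_mul, abs_of_pos hr']
    unfold nrm
    field_simp
  have ht1 : t < -1 := by
    apply ss_lt_six
    have h1 := abs_nonneg (ho u)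
    have h2 := le_max_left (ss t) 0
    linarith
  refine ⟨(t, u + 5), ?_, ?_⟩
  · rw [NN_eq ht1.le]
    show |ho (u + 5 - 5)| + max (ss t) 0 = _
    rw [add_sub_cancel_right]
    exact hn'
  · show P = (min (ss t) 0 + r * max (ss t) 0, r * ho (u + 5 - 5))
    rw [add_sub_cancel_right, hP1, hP2, hu]
    ext
    · have : r * (1 / r * max P.1 0) = max P.1 0 := by field_simp
      simp only
      rw [this, min_add_max, add_zero]
    · simp only
      field_simp

theorem co_surj {P : ℝ × ℝ} (h1 : -9 ≤ P.2) (h2 : P.2 ≤ 35) : ∃ k b, b ∈ Rg k ∧ co k b = P := by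
  obtain ⟨t, ht⟩ := ss_surj P.1
  have h0 := cc_ge t
  have c4 : 0 < cc t + 4 := by linarith
  have c8 : 0 < cc t + 8 := by linarith
  rcases le_or_gt 32 P.2 with h3 | h3
  · refine ⟨.UO, (t, cc t - (P.2 - 32) * (cc t + 4) / 3), ⟨?_, ?_⟩, ?_⟩
    · show -4 ≤ cc t - (P.2 - 32) * (cc t + 4) / 3
      nlinarith
    · show cc t - (P.2 - 32) * (cc t + 4) / 3 ≤ cc t
      nlinarith
    · rw [co_UO]
      refine Prod.ext ht ?_
      show 32 + 3 * (cc t - (cc t - (P.2 - 32) * (cc t + 4) / 3)) / (cc t + 4) = P.2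
      have := c4.ne'
      field_simp
      ring
  rcases le_or_gt 25 P.2 with h4 | h4
  · refine ⟨.LO, (t, (P.2 - 25) * (cc t + 8) / 7 - 8), ⟨?_, ?_⟩, ?_⟩
    · show -8 ≤ (P.2 - 25) * (cc t + 8) / 7 - 8
      nlinarith
    · show (P.2 - 25) * (cc t + 8) / 7 - 8 ≤ cc t
      nlinarith
    · rw [co_LO]
      refine Prod.ext ht ?_
      show 25 + 7 * ((P.2 - 25) * (cc t + 8) / 7 - 8 + 8) / (cc t + 8) = P.2
      have := c8.ne'
      field_simp
      ring
  rcases le_or_gt 6 P.2 with h5 | h5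
  · refine ⟨.T, (t, 17 - P.2), ⟨?_, ?_⟩, ?_⟩
    · show -8 ≤ 17 - P.2
      linarith
    · show 17 - P.2 ≤ 11
      linarith
    · rw [co_T]
      refine Prod.ext ht ?_
      show 17 - (17 - P.2) = P.2
      ring
  have hn0 : 0 ≤ nrm P := (abs_nonneg _).trans (abs_le_nrm P)
  rcases le_or_gt 1 (nrm P) with h6 | h6
  · obtain ⟨u, hu⟩ := ho_surj P.2
    refine ⟨.M, (t, u + 5), ⟨?_, ?_, ?_⟩, ?_⟩
    · show -4 ≤ u + 5
      by_contra hc
      push Not at hc
      have := ho_strictMono (by linarith : u < -9)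
      rw [ho_of_le (by norm_num : (-9:ℝ) ≤ -(1 / 2)), hu] at this
      linarith
    · show u + 5 ≤ 11
      by_contra hc
      push Not at hc
      have := ho_strictMono (by linarith : 6 < u)
      rw [ho_of_ge (by norm_num : (1:ℝ) / 2 ≤ 6), hu] at this
      linarith
    · show 1 ≤ NN (t, u + 5)
      rcases le_or_gt t (-1) with h7 | h7
      · rw [NN_eq h7]
        show 1 ≤ |ho (u + 5 - 5)| + max (ss t) 0
        rw [add_sub_cancel_right, hu, ht]
        exact h6
      · unfold NN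
        show 1 ≤ hh (u + 5 - 5) + bet t
        rw [bet_of_ge h7.le]
        linarith [hh_nonneg (u + 5 - 5)]
    · rw [co_M]
      refine Prod.ext ht ?_
      show ho (u + 5 - 5) = P.2
      rw [add_sub_cancel_right, hu]
  rcases le_or_gt (1 / 2) (nrm P) with h7 | h7
  · have hd : 0 < 7 - 6 * nrm P := by linarith
    have hr : 0 < nrm P / (7 - 6 * nrm P) := by
      apply div_pos _ hd
      linarith
    have hq : nrm P / (nrm P / (7 - 6 * nrm P)) = 7 - 6 * nrm P := by
      have : nrm P ≠ 0 := by linarith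
      field_simp
    obtain ⟨b, hb1, hb2⟩ := radial_surj (P := P) hr (by rw [hq]; linarith)
    rw [hq] at hb1
    have hrho : rho (NN b) = nrm P / (7 - 6 * nrm P) := by
      rw [hb1]
      unfold rho
      rw [max_eq_left (by linarith)]
      congr 1
      ring
    refine ⟨.US, b, ⟨by rw [hb1]; linarith, by rw [hb1]; linarith⟩, ?_⟩
    rw [co_US, hrho, ← hb2]
  · have hq : nrm P / (1 / 8) = 8 * nrm P := by ring
    obtain ⟨b, hb1, hb2⟩ := radial_surj (P := P) (r := 1 / 8) (by norm_num) (by rw [hq]; linarith)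
    rw [hq] at hb1
    refine ⟨.LS, b, by show NN b ≤ 4; rw [hb1]; linarith, ?_⟩
    rw [co_LS, ← hb2]

end

end Pool.Agent.MP_70d14f_gt
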