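import Mathlib

namespace Pool.Agent.MP_70d14f_gt

open Set Topology

noncomputable section

/-- smooth step function -/
def st (x : ℝ) : ℝ := Real.smoothTransition x

lemma st_contDiff : ContDiff ℝ (⊤ : ℕ∞) st := Real.smoothTransition.contDiff
lemma st_continuous : Continuous st := st_contDiff.continuous
lemma st_zero {x : ℝ} (h : x ≤ 0) : st x = 0 := Real.smoothTransition.zero_of_nonpos h
lemma st_one {x : ℝ} (h : 1 ≤ x) : st x = 1 := Real.smoothTransition.one_of_one_le h
lemma st_nonneg (x : ℝ) : 0 ≤ st x := Real.smoothTransition.nonneg x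
lemma st_le_one (x : ℝ) : st x ≤ 1 := Real.smoothTransition.le_one x
lemma st_pos {x : ℝ} (h : 0 < x) : 0 < st x := Real.smoothTransition.pos_of_pos h
lemma st_lt_one {x : ℝ} (h : x < 1) : st x < 1 := Real.smoothTransition.lt_one_of_lt_one h
lemma st_mono : Monotone st := Real.smoothTransition.monotone

lemma st_symm (x : ℝ) : st (1 - x) = 1 - st x := by
  unfold st Real.smoothTransition
  have h := Real.smoothTransition.pos_denom x
  have h2 : expNegInvGlue (1 - x) + expNegInvGlue (1 - (1 - x)) ≠ 0 := by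
    rw [sub_sub_cancel, add_comm]; exact h.ne'
  rw [sub_sub_cancel] at h2 ⊢
  field_simp
  ring

lemma st_half : st (1 / 2) = 1 / 2 := by
  have := st_symm (1 / 2)
  norm_num at this
  norm_num
  linarith

lemma st_hasDerivAt (x : ℝ) : HasDerivAt st (deriv st x) x :=
  ((st_contDiff.differentiable (by simp)) x).hasDerivAt

lemma deriv_st_zero {x : ℝ} (h : x ≤ 0) : deriv st x = 0 := by
  apply IsLocalMin.deriv_eq_zero
  refine Filter.Eventually.of_forall fun y => ?_
  rw [st_zero h]; exact st_nonneg y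

lemma deriv_st_zero' {x : ℝ} (h : 1 ≤ x) : deriv st x = 0 := by
  apply IsLocalMax.deriv_eq_zero
  refine Filter.Eventually.of_forall fun y => ?_
  rw [st_one h]; exact st_le_one y

lemma glue_hasDerivAt {x : ℝ} (h : 0 < x) :
    HasDerivAt expNegInvGlue (Real.exp (-x⁻¹) * (x ^ 2)⁻¹) x := by
  have h1 : HasDerivAt (fun y : ℝ => Real.exp (-y⁻¹)) (Real.exp (-x⁻¹) * (x ^ 2)⁻¹) x := by
    have h2 : HasDerivAt (fun y : ℝ => -y⁻¹) ((x ^ 2)⁻¹) x := by
      have := (hasDerivAt_inv h.ne').neg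
      rw [neg_neg] at this
      exact this
    exact h2.exp
  refine h1.congr_of_eventuallyEq ?_
  filter_upwards [lt_mem_nhds h] with y hy
  simp [expNegInvGlue, not_le.mpr hy]

lemma deriv_st_pos {x : ℝ} (h0 : 0 < x) (h1 : x < 1) : 0 < deriv st x := by
  have hx1 : 0 < 1 - x := by linarith
  have e0 := glue_hasDerivAt h0
  have e1 : HasDerivAt (fun y => expNegInvGlue (1 - y))
      (-(Real.exp (-(1 - x)⁻¹) * ((1 - x) ^ 2)⁻¹)) x := by
    have h2 : HasDerivAt (fun y : ℝ => 1 - y) (-1) x := by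
      simpa using (hasDerivAt_id x).const_sub 1
    have := (glue_hasDerivAt hx1).comp x h2
    rw [mul_neg_one] at this
    exact this
  have hd := (e0.add e1)
  have hq := e0.div hd (Real.smoothTransition.pos_denom x).ne'
  have hq' : HasDerivAt st _ x := hq
  rw [hq'.deriv]
  have p0 := expNegInvGlue.pos_of_pos h0
  have p1 := expNegInvGlue.pos_of_pos hx1
  have q0 : 0 < Real.exp (-x⁻¹) * (x ^ 2)⁻¹ := by positivity
  have q1 : 0 < Real.exp (-(1 - x)⁻¹) * ((1 - x) ^ 2)⁻¹ := by positivity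
  apply div_pos
  · simp only [Pi.add_apply]
    nlinarith [mul_pos q0 p1, mul_pos p0 q1]
  · have := Real.smoothTransition.pos_denom x
    simp only [Pi.add_apply]
    positivity

lemma deriv_st_nonneg (x : ℝ) : 0 ≤ deriv st x := by
  rcases le_or_gt x 0 with h | h
  · rw [deriv_st_zero h]
  rcases le_or_gt 1 x with h' | h'
  · rw [deriv_st_zero' h']
  exact (deriv_st_pos h h').le

lemma st_strictMonoOn : StrictMonoOn st (Icc 0 1) := by
  apply strictMonoOn_of_deriv_pos (convex_Icc 0 1) st_continuous.continuousOn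
  intro x hx
  rw [interior_Icc] at hx
  exact deriv_st_pos hx.1 hx.2

/-- if the derivative of the step vanishes then the value is 0 or 1 -/
lemma st_of_deriv_zero {x : ℝ} (h : deriv st x = 0) : st x = 0 ∨ st x = 1 := by
  rcases le_or_gt x 0 with h1 | h1
  · exact Or.inl (st_zero h1)
  rcases le_or_gt 1 x with h' | h'
  · exact Or.inr (st_one h')
  exact absurd h (deriv_st_pos h1 h').ne'

/-- truncated identity -/
def lam (r : ℝ) : ℝ := 1 - (1 - r) * (1 - st (2 * r - 1))

lemma lam_contDiff : ContDiff ℝ (⊤ : ℕ∞) lam := by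
  unfold lam
  have := st_contDiff
  fun_prop

lemma lam_continuous : Continuous lam := lam_contDiff.continuous

lemma lam_of_le {r : ℝ} (h : r ≤ 1 / 2) : lam r = r := by
  unfold lam; rw [st_zero (by linarith)]; ring

lemma lam_of_ge {r : ℝ} (h : 1 ≤ r) : lam r = 1 := by
  unfold lam; rw [st_one (by linarith)]; ring

lemma lam_le_one (r : ℝ) : lam r ≤ 1 := by
  rcases le_or_gt 1 r with h | h
  · rw [lam_of_ge h]
  · unfold lam
    nlinarith [st_le_one (2 * r - 1)]

lemma lam_ge {r : ℝ} (h : r ≤ 1) : r ≤ lam r := by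
  unfold lam
  nlinarith [st_nonneg (2 * r - 1)]

lemma lam_pos {r : ℝ} (h : 0 < r) : 0 < lam r := by
  rcases le_or_gt 1 r with h1 | h1
  · rw [lam_of_ge h1]; norm_num
  · exact lt_of_lt_of_le h (lam_ge h1.le)

lemma lam_nonneg_iff {r : ℝ} : 0 ≤ lam r ↔ 0 ≤ r := by
  constructor
  · intro h
    by_contra hr
    push Not at hr
    rw [lam_of_le (by linarith)] at h
    linarith
  · intro h
    rcases h.eq_or_lt with h | h
    · rw [← h, lam_of_le (by norm_num)]
    · exact (lam_pos h).le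

lemma lam_eq_zero_iff {r : ℝ} : lam r = 0 ↔ r = 0 := by
  constructor
  · intro h
    rcases lt_trichotomy r 0 with hr | hr | hr
    · rw [lam_of_le (by linarith)] at h; exact h
    · exact hr
    · exact absurd h (lam_pos hr).ne'
  · rintro rfl; exact lam_of_le (by norm_num)

lemma lam_hasDerivAt (x : ℝ) : HasDerivAt lam (deriv lam x) x :=
  ((lam_contDiff.differentiable (by simp)) x).hasDerivAt

lemma deriv_lam (r : ℝ) :
    deriv lam r = (1 - st (2 * r - 1)) + 2 * (1 - r) * deriv st (2 * r - 1) := by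
  have h1 : HasDerivAt (fun r : ℝ => 2 * r - 1) 2 r := by
    simpa using ((hasDerivAt_id r).const_mul 2).sub_const 1
  have h2 := (st_hasDerivAt (2 * r - 1)).comp r h1
  have h3 : HasDerivAt (fun r : ℝ => 1 - r) (-1) r := by
    simpa using (hasDerivAt_id r).const_sub 1
  have h4 := (h3.mul (h2.const_sub 1)).const_sub 1
  have h5 : HasDerivAt lam _ r := h4
  rw [h5.deriv]
  simp only [Function.comp]
  ring

lemma deriv_lam_of_ge {r : ℝ} (h : 1 ≤ r) : deriv lam r = 0 := by
  rw [deriv_lam, st_one (by linarith), deriv_st_zero' (by linarith)]; ring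

lemma deriv_lam_of_le {r : ℝ} (h : r ≤ 1 / 2) : deriv lam r = 1 := by
  rw [deriv_lam, st_zero (by linarith), deriv_st_zero (by linarith)]; ring

lemma deriv_lam_nonneg (r : ℝ) : 0 ≤ deriv lam r := by
  rcases le_or_gt 1 r with h | h
  · rw [deriv_lam_of_ge h]
  · rw [deriv_lam]
    have := st_le_one (2 * r - 1)
    have h2 := mul_nonneg (mul_nonneg zero_le_two (by linarith : (0:ℝ) ≤ 1 - r))
      (deriv_st_nonneg (2 * r - 1))
    linarith

/-- smooth version of the absolute value -/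
def hh (x : ℝ) : ℝ := x * (2 * st (x + 1 / 2) - 1)

lemma hh_contDiff : ContDiff ℝ (⊤ : ℕ∞) hh := by
  unfold hh
  have := st_contDiff
  fun_prop

lemma hh_of_ge {x : ℝ} (h : 1 / 2 ≤ x) : hh x = x := by
  unfold hh; rw [st_one (by linarith)]; ring

lemma hh_of_le {x : ℝ} (h : x ≤ -(1 / 2)) : hh x = -x := by
  unfold hh; rw [st_zero (by linarith)]; ring

lemma st_ge_half {x : ℝ} (h : 0 ≤ x) : 1 / 2 ≤ st (x + 1 / 2) := by
  have := st_mono (by linarith : (1 / 2 : ℝ) ≤ x + 1 / 2)
  rwa [st_half] at this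

lemma st_le_half {x : ℝ} (h : x ≤ 0) : st (x + 1 / 2) ≤ 1 / 2 := by
  have := st_mono (by linarith : x + 1 / 2 ≤ (1 / 2 : ℝ))
  rwa [st_half] at this

lemma hh_nonneg (x : ℝ) : 0 ≤ hh x := by
  unfold hh
  rcases le_total 0 x with h | h
  · exact mul_nonneg h (by linarith [st_ge_half h])
  · exact mul_nonneg_of_nonpos_of_nonpos h (by linarith [st_le_half h])

lemma hh_le_abs (x : ℝ) : hh x ≤ |x| := by
  unfold hh
  have h0 := st_nonneg (x + 1 / 2)
  have h1 := st_le_one (x + 1 / 2)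
  rcases le_total 0 x with h | h
  · rw [abs_of_nonneg h]; nlinarith
  · rw [abs_of_nonpos h]; nlinarith

lemma hh_hasDerivAt (x : ℝ) : HasDerivAt hh (deriv hh x) x :=
  ((hh_contDiff.differentiable (by simp)) x).hasDerivAt

/-- if `hh x ≥ 1/2` (say), then `|x| ≥ 1/2` and `hh x = |x|` -/
lemma hh_eq_abs {x : ℝ} (h : 1 / 2 ≤ |x|) : hh x = |x| := by
  rcases le_total 0 x with h0 | h0
  · rw [abs_of_nonneg h0] at h ⊢; exact hh_of_ge h
  · rw [abs_of_nonpos h0] at h ⊢; exact hh_of_le (by linarith)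

lemma hh_abs_of_half_le {x : ℝ} (h : 1 / 2 ≤ hh x) : hh x = |x| :=
  hh_eq_abs (h.trans (hh_le_abs x))

lemma hh_lt_half {x : ℝ} (h : |x| < 1 / 2) : hh x < 1 / 2 := lt_of_le_of_lt (hh_le_abs x) h

/-- twist function -/
def kt (x : ℝ) : ℝ := 2 * st ((x + 6) / 2) - 1

lemma kt_contDiff : ContDiff ℝ (⊤ : ℕ∞) kt := by
  unfold kt
  have := st_contDiff
  fun_prop

lemma kt_of_le {x : ℝ} (h : x ≤ -6) : kt x = -1 := by
  unfold kt; rw [st_zero (by linarith)]; ring

lemma kt_of_ge {x : ℝ} (h : -4 ≤ x) : kt x = 1 := by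
  unfold kt; rw [st_one (by linarith)]; ring

lemma kt_abs_le (x : ℝ) : |kt x| ≤ 1 := by
  unfold kt
  rw [abs_le]; constructor <;> linarith [st_nonneg ((x + 6) / 2), st_le_one ((x + 6) / 2)]

lemma kt_hasDerivAt (x : ℝ) : HasDerivAt kt (deriv kt x) x :=
  ((kt_contDiff.differentiable (by simp)) x).hasDerivAt

lemma deriv_kt (x : ℝ) : deriv kt x = deriv st ((x + 6) / 2) := by
  have h1 : HasDerivAt (fun x : ℝ => (x + 6) / 2) (1 / 2) x := by
    simpa using ((hasDerivAt_id x).add_const 6).div_const 2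
  have h2 := (((st_hasDerivAt ((x + 6) / 2)).comp x h1).const_mul 2).sub_const 1
  have h5 : HasDerivAt kt _ x := h2
  rw [h5.deriv]
  ring

lemma deriv_kt_ne {x : ℝ} (h : kt x = 0) : deriv kt x ≠ 0 := by
  rw [deriv_kt]
  intro h0
  rcases st_of_deriv_zero h0 with h1 | h1 <;> · unfold kt at h; rw [h1] at h; norm_num at h

lemma exists_bound_of_zero {f : ℝ → ℝ} (hf : Continuous f) (h : ∀ x, x < 0 ∨ 1 < x → f x = 0) :
    ∃ B, ∀ x, |f x| ≤ B := by
  obtain ⟨B, hB⟩ := (isCompact_Icc (a := (0:ℝ)) (b := 1)).exists_bound_of_continuousOn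
    hf.continuousOn
  refine ⟨B, fun x => ?_⟩
  by_cases hx : x ∈ Icc (0:ℝ) 1
  · exact hB x hx
  · have : x < 0 ∨ 1 < x := by
      rw [mem_Icc, not_and_or, not_le, not_le] at hx; exact hx
    rw [h x this, abs_zero]
    exact le_trans (norm_nonneg _) (hB 0 (by simp))

lemma deriv_st_continuous : Continuous (deriv st) :=
  st_contDiff.continuous_deriv (by simp)

lemma deriv_st_contDiff : ContDiff ℝ (⊤ : ℕ∞) (deriv st) := by
  have := st_contDiff
  exact (contDiff_infty_iff_deriv.1 this).2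

lemma deriv2_st_zero {x : ℝ} (h : x < 0 ∨ 1 < x) : deriv (deriv st) x = 0 := by
  rcases h with h | h
  · have : deriv st =ᶠ[𝓝 x] fun _ => 0 := by
      filter_upwards [gt_mem_nhds h] with y hy
      exact deriv_st_zero hy.le
    rw [this.deriv_eq]; simp
  · have : deriv st =ᶠ[𝓝 x] fun _ => 0 := by
      filter_upwards [lt_mem_nhds h] with y hy
      exact deriv_st_zero' hy.le
    rw [this.deriv_eq]; simp

lemma exists_st_bound : ∃ B : ℝ, 1 ≤ B ∧ ∀ x, |deriv st x| ≤ B ∧ |deriv (deriv st) x| ≤ B := by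
  obtain ⟨B1, h1⟩ := exists_bound_of_zero deriv_st_continuous (by
    intro x hx
    rcases hx with h | h
    · exact deriv_st_zero h.le
    · exact deriv_st_zero' h.le)
  obtain ⟨B2, h2⟩ := exists_bound_of_zero
    (deriv_st_contDiff.continuous_deriv (by simp)) (fun x hx => deriv2_st_zero hx)
  refine ⟨max 1 (max B1 B2), le_max_left _ _, fun x => ⟨(h1 x).trans ?_, (h2 x).trans ?_⟩⟩
  · exact (le_max_left _ _).trans (le_max_right _ _)
  · exact (le_max_right _ _).trans (le_max_right _ _)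

end

end Pool.Agent.MP_70d14f_gt
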