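import Pool.Agent.Lib.MP_70d14f_gt.Plane

namespace Pool.Agent.MP_70d14f_gt

open Set Topology

noncomputable section

/-- heights in the left zone -/
lemma zl_UMl {b : ℝ × ℝ} (h : -4 ≤ b.2) : ∃ μ : ℝ, 0 ≤ μ ∧ μ ≤ 1 ∧ (-4 < b.2 → 0 < μ) ∧
    ∀ s : ℝ, ((sD .UMl).sh s b).2.2.2 = 2 + s * μ := by
  have hw : dUMl.w b = b.2 + 4 := by simp only [dUMl, LData.w, aS_f, cS_f]; ring
  obtain ⟨m1, m2, m3⟩ := mu_aux dUMl (b := b) (by rw [hw]; linarith)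
  refine ⟨_, m1, m2, fun h => m3 (by rw [hw]; linarith), ?_⟩
  intro s
  have := dUMl.sh_z (b := b) (cS_d1 _ _) s
  simp only [dUMl, cS_f, mul_one] at this
  exact this

lemma zl_TM {b : ℝ × ℝ} (h : b.2 ≤ 11) : ∃ μ : ℝ, 0 ≤ μ ∧ μ ≤ 3 ∧ (b.2 < 11 → 0 < μ) ∧
    ∀ s : ℝ, ((sD .TM).sh s b).2.2.2 = s * μ := by
  have hw : dTM.w b = 11 - b.2 := by simp only [dTM, LData.w, aS_f, cS_f]; ring
  obtain ⟨m1, m2, m3⟩ := mu_aux dTM (b := b) (by rw [hw]; linarith)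
  refine ⟨√(dTM.g b) * dTM.g b * 3, by linarith, by linarith,
    fun h => by have := m3 (by rw [hw]; linarith); linarith, ?_⟩
  intro s
  have := dTM.sh_z (b := b) (cS_d1 _ _) s
  have e1 : dTM.m = 0 := rfl
  have e2 : dTM.k.f b.2 = 3 := rfl
  rw [e1, e2, zero_add] at this
  exact this

lemma zl_TL {b : ℝ × ℝ} (h : -8 ≤ b.2) (s : ℝ) (hs : s ^ 2 = 1) :
    -3 ≤ ((sD .TL).sh s b).2.2.2 ∧ ((sD .TL).sh s b).2.2.2 ≤ -1 := by
  have hw : 0 ≤ (sD .TL).g b := lam_nonneg_iff.2 (by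
    show 0 ≤ dTL.w b
    simp only [dTL, LData.w, aS_f, cS_f]; linarith)
  have := z_TL ((sD .TL).sh_mem hw hs)
  exact ⟨this.1, this.2.1⟩

lemma TL_eq {b : ℝ × ℝ} (h : -8 ≤ b.2) (he : (sD .TL).sh 1 b = (sD .TL).sh (-1) b) : b.2 = -8 := by
  by_contra hne
  have hlt : -8 < b.2 := lt_of_le_of_ne h (Ne.symm hne)
  have hw : 0 < dTL.w b := by
    simp only [dTL, LData.w, aS_f, cS_f]; linarith
  have hg : 0 < (sD .TL).g b := lam_pos hw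
  have hmem := (sD .TL).sh_mem hg.le (s := 1) (by norm_num)
  have hr := (s_reg .TL _ hmem).1
  rw [PD.bp_sh] at hr
  have h3 := congrArg (fun q : ℝ × ℝ × ℝ × ℝ => q.2.2.1) he
  have h4 := congrArg (fun q : ℝ × ℝ × ℝ × ℝ => q.2.2.2) he
  simp only [PD.sh] at h3 h4
  have hs : √((sD .TL).g b) ≠ 0 := (Real.sqrt_pos.2 hg).ne'
  apply hr
  have hQ : (sD .TL).Q b = 0 := by
    have : √((sD .TL).g b) * (sD .TL).Q b = 0 := by linarith
    rcases mul_eq_zero.1 this with h | h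
    · exact absurd h hs
    · exact h
  have hP : (sD .TL).P b = 0 := by
    have : √((sD .TL).g b) * (sD .TL).P b = 0 := by linarith
    rcases mul_eq_zero.1 this with h | h
    · exact absurd h hs
    · exact h
  rw [hP, hQ]; ring

lemma zl_UMN {b : ℝ × ℝ} (h : 1 ≤ NN b) : ∃ μ : ℝ, 0 ≤ μ ∧ μ ≤ 1 ∧ (1 < NN b → 0 < μ) ∧
    ∀ s : ℝ, ((sD .UMN).sh s b).2.2.2 = 2 + s * μ := by
  obtain ⟨μ, m1, m2, m3, m4⟩ := lUN.spd_sh_z kapS (b := b) (by rw [w_lUN]; linarith)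
    (kap_nonneg _) (kap_le_one _)
  exact ⟨μ, m1, m2, fun h => m3 (by rw [w_lUN]; linarith), m4⟩

lemma zl_D4 {b : ℝ × ℝ} (h : NN b ≤ 4) : ∃ μ : ℝ, 0 ≤ μ ∧ μ ≤ 1 ∧ (NN b < 4 → 0 < μ) ∧
    ∀ s : ℝ, ((sD .D4).sh s b).2.2.2 = s * μ := by
  obtain ⟨μ, m1, m2, m3, m4⟩ := lD4.spd_sh_z kapS (b := b) (by rw [w_lD4]; linarith)
    (kap_nonneg _) (kap_le_one _)
  refine ⟨μ, m1, m2, fun h => m3 (by rw [w_lD4]; linarith), ?_⟩
  intro s
  have := m4 s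
  have e : lD4.m = 0 := rfl
  rw [e, zero_add] at this
  exact this

lemma zl_Dc {b : ℝ × ℝ} (h : b.2 ≤ cc b.1) : ∃ μ : ℝ, 0 ≤ μ ∧ μ ≤ 1 ∧ (b.2 < cc b.1 → 0 < μ) ∧
    ∀ s : ℝ, ((sD .Dc).sh s b).2.2.2 = s * μ := by
  have hw : lDc.w b = cc b.1 - b.2 := by rw [w_lDc]; unfold cc; ring
  obtain ⟨μ, m1, m2, m3, m4⟩ := lDc.spd_sh_z (cS 0) (b := b) (by rw [hw]; linarith)
    (by simp) (by simp)
  refine ⟨μ, m1, m2, fun h => m3 (by rw [hw]; linarith), ?_⟩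
  intro s
  have := m4 s
  have e : lDc.m = 0 := rfl
  rw [e, zero_add] at this
  exact this

/-- zone of a base point -/
lemma zone_cases (b : ℝ × ℝ) : b.2 ≤ -(5 / 2) ∨ (-(5 / 2) < b.2 ∧ NN b ≤ 5 / 2) ∨
    (-(5 / 2) < b.2 ∧ 5 / 2 < NN b) := by
  rcases le_or_gt b.2 (-(5 / 2)) with h | h
  · exact Or.inl h
  · rcases le_or_gt (NN b) (5 / 2) with h' | h'
    · exact Or.inr (Or.inl ⟨h, h'⟩)
    · exact Or.inr (Or.inr ⟨h, h'⟩)

lemma no_O {b : ℝ × ℝ} (h : NN b ≤ 4) : ¬ b.2 ≤ cc b.1 := by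
  obtain ⟨c1, c2, c3⟩ := NN_x4 h
  rw [cc_neg (by linarith)]
  linarith

/-- heights of the sheets -/
lemma z_M {b : ℝ × ℝ} (h : b ∈ Rg .M) (hx : b.2 < 10) : 2 ≤ (sc .M b).2.2.2 ∧
    (5 / 2 < NN b → -(5 / 2) < b.2 → (sc .M b).2.2.2 = 3) := by
  rcases zone_cases b with hz | ⟨hz, hz'⟩ | ⟨hz, hz'⟩
  · obtain ⟨μ, m1, m2, m3, m4⟩ := zl_UMl h.1
    rw [sc_M, Z3_1 hz, m4]
    exact ⟨by linarith, fun _ h => absurd h (not_lt.2 hz)⟩
  · obtain ⟨μ, m1, m2, m3, m4⟩ := zl_UMN h.2.2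
    rw [sc_M, Z3_2 hz hz', m4]
    exact ⟨by linarith, fun h => absurd h (not_lt.2 hz')⟩
  · rw [sc_M, Z3_3 hz hz', h_TM hx]
    norm_num

lemma z_T {b : ℝ × ℝ} (h : b ∈ Rg .T) (hx : b.2 < 10) : (sc .T b).2.2.2 ≤ -1 ∧
    (-4 < b.2 → (sc .T b).2.2.2 = -3) := by
  rcases zone_cases b with hz | ⟨hz, hz'⟩ | ⟨hz, hz'⟩
  · rw [sc_T, Z3_1 hz]
    refine ⟨(zl_TL h.1 _ (by norm_num)).2, ?_⟩
    intro h4
    rw [h_TL h4]; norm_num
  · rw [sc_T, Z3_2 hz hz', h_TL (by linarith)]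
    norm_num
  · rw [sc_T, Z3_3 hz hz', h_TM hx]
    norm_num

lemma z_UO {b : ℝ × ℝ} (h : b ∈ Rg .UO) : 0 ≤ (sc .UO b).2.2.2 ∧
    (b.2 ≤ -(5 / 2) → 1 ≤ (sc .UO b).2.2.2) ∧ (-(5 / 2) < b.2 → (sc .UO b).2.2.2 ≤ 1) := by
  rcases zone_cases b with hz | ⟨hz, hz'⟩ | ⟨hz, hz'⟩
  · obtain ⟨μ, m1, m2, m3, m4⟩ := zl_UMl h.1
    rw [sc_UO, Z3_1 hz, m4]
    exact ⟨by linarith, fun _ => by linarith, fun h => absurd h (not_lt.2 hz)⟩
  · obtain ⟨μ, m1, m2, m3, m4⟩ := zl_Dc h.2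
    rw [sc_UO, Z3_2 hz hz', m4]
    exact ⟨by linarith, fun h => absurd h (not_le.2 hz), fun _ => by linarith⟩
  · obtain ⟨μ, m1, m2, m3, m4⟩ := zl_Dc h.2
    rw [sc_UO, Z3_3 hz hz', m4]
    exact ⟨by linarith, fun h => absurd h (not_le.2 hz), fun _ => by linarith⟩

lemma z_LO {b : ℝ × ℝ} (h : b ∈ Rg .LO) : (sc .LO b).2.2.2 ≤ 0 ∧
    (b.2 ≤ -(5 / 2) → (sc .LO b).2.2.2 ≤ -1) ∧ (-(5 / 2) < b.2 → -1 ≤ (sc .LO b).2.2.2) := by
  rcases zone_cases b with hz | ⟨hz, hz'⟩ | ⟨hz, hz'⟩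
  · have := zl_TL h.1 1 (by norm_num)
    rw [sc_LO, Z3_1 hz]
    exact ⟨by linarith, fun _ => by linarith, fun h => absurd h (not_lt.2 hz)⟩
  · obtain ⟨μ, m1, m2, m3, m4⟩ := zl_Dc h.2
    rw [sc_LO, Z3_2 hz hz', m4]
    exact ⟨by linarith, fun h => absurd h (not_le.2 hz), fun _ => by linarith⟩
  · obtain ⟨μ, m1, m2, m3, m4⟩ := zl_Dc h.2
    rw [sc_LO, Z3_3 hz hz', m4]
    exact ⟨by linarith, fun h => absurd h (not_le.2 hz), fun _ => by linarith⟩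

lemma z_US {b : ℝ × ℝ} (h : b ∈ Rg .US) : 0 ≤ (sc .US b).2.2.2 ∧
    (NN b ≤ 5 / 2 → 1 ≤ (sc .US b).2.2.2) ∧ (5 / 2 < NN b → (sc .US b).2.2.2 ≤ 1) := by
  obtain ⟨c1, c2, c3⟩ := NN_x4 h.2
  rcases zone_cases b with hz | ⟨hz, hz'⟩ | ⟨hz, hz'⟩
  · linarith
  · obtain ⟨μ, m1, m2, m3, m4⟩ := zl_UMN h.1
    rw [sc_US, Z3_2 hz hz', m4]
    exact ⟨by linarith, fun _ => by linarith, fun h => absurd h (not_lt.2 hz')⟩
  · obtain ⟨μ, m1, m2, m3, m4⟩ := zl_D4 h.2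
    rw [sc_US, Z3_3 hz hz', m4]
    exact ⟨by linarith, fun h => absurd h (not_le.2 hz'), fun _ => by linarith⟩

lemma z_LS {b : ℝ × ℝ} (h : b ∈ Rg .LS) : (sc .LS b).2.2.2 ≤ 0 ∧ -1 ≤ (sc .LS b).2.2.2 := by
  obtain ⟨c1, c2, c3⟩ := NN_x4 h
  rcases zone_cases b with hz | ⟨hz, hz'⟩ | ⟨hz, hz'⟩
  · linarith
  · rw [sc_LS, Z3_2 hz hz', h_TL (by linarith)]
    norm_num
  · obtain ⟨μ, m1, m2, m3, m4⟩ := zl_D4 h
    rw [sc_LS, Z3_3 hz hz', m4]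
    exact ⟨by linarith, by linarith⟩

/-- compatibility on common points: the nontrivial cases -/
lemma cp_MT {b : ℝ × ℝ} (h1 : b ∈ Rg .M) (h2 : b ∈ Rg .T) (he : sc .M b = sc .T b) :
    EE (co .M b) = EE (co .T b) := by
  have hz := congrArg (fun q : ℝ × ℝ × ℝ × ℝ => q.2.2.2) he
  rcases lt_or_ge b.2 10 with hx | hx
  · exfalso
    linarith [(z_M h1 hx).1, (z_T h2 hx).1]
  · have hN : 5 / 2 < NN b := by
      have := bet_nonneg b.1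
      unfold NN
      rw [hh_of_ge (by linarith)]
      linarith
    obtain ⟨μ, m1, m2, m3, m4⟩ := zl_TM h1.2.1
    rw [sc_M, sc_T, Z3_3 (by linarith) hN, Z3_3 (by linarith) hN, m4, m4] at hz
    have h11 : b.2 = 11 := by
      by_contra hne
      have := m3 (lt_of_le_of_ne h1.2.1 hne)
      linarith
    rw [co_M, co_T, h11, ho_of_ge (by norm_num)]
    norm_num

lemma cp_MUO {b : ℝ × ℝ} (h1 : b ∈ Rg .M) (h2 : b ∈ Rg .UO) (he : sc .M b = sc .UO b) :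
    EE (co .M b) = EE (co .UO b) := by
  have hz := congrArg (fun q : ℝ × ℝ × ℝ × ℝ => q.2.2.2) he
  have hx : b.2 < 10 := by linarith [h2.2, cc_le b.1]
  rcases zone_cases b with hy | ⟨hy, hy'⟩ | ⟨hy, hy'⟩
  · obtain ⟨μ, m1, m2, m3, m4⟩ := zl_UMl h1.1
    rw [sc_M, sc_UO, Z3_1 hy, Z3_1 hy, m4, m4] at hz
    have h4 : b.2 = -4 := by
      by_contra hne
      have := m3 (lt_of_le_of_ne h1.1 (Ne.symm hne))
      linarith
    rw [EE_eq_iff]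
    refine ⟨rfl, -1, ?_⟩
    rw [co_M, co_UO, h4, ho_of_le (by norm_num)]
    have : cc b.1 + 4 ≠ 0 := by linarith [cc_ge b.1]
    show (-4 - 5 : ℝ) = 32 + 3 * (cc b.1 - -4) / (cc b.1 + 4) + 44 * ((-1 : ℤ) : ℝ)
    push_cast
    field_simp
    ring
  · exact absurd h2.2 (no_O (by linarith))
  · exfalso
    linarith [(z_M h1 hx).2 hy' hy, (z_UO h2).2.2 hy]

lemma cp_MUS {b : ℝ × ℝ} (h1 : b ∈ Rg .M) (h2 : b ∈ Rg .US) (he : sc .M b = sc .US b) :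
    EE (co .M b) = EE (co .US b) := by
  have hz := congrArg (fun q : ℝ × ℝ × ℝ × ℝ => q.2.2.2) he
  obtain ⟨c1, c2, c3⟩ := NN_x4 h2.2
  rcases zone_cases b with hy | ⟨hy, hy'⟩ | ⟨hy, hy'⟩
  · linarith
  · obtain ⟨μ, m1, m2, m3, m4⟩ := zl_UMN h2.1
    rw [sc_M, sc_US, Z3_2 hy hy', Z3_2 hy hy', m4, m4] at hz
    have h4 : NN b = 1 := by
      by_contra hne
      have := m3 (lt_of_le_of_ne h2.1 (Ne.symm hne))
      linarith
    rw [co_M, co_US, h4, rho_one, one_mul, one_mul, min_add_max, add_zero]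
  · exfalso
    linarith [(z_M h1 (by linarith)).2 hy' hy, (z_US h2).2.2 hy']

lemma cp_TLO {b : ℝ × ℝ} (h1 : b ∈ Rg .T) (h2 : b ∈ Rg .LO) (he : sc .T b = sc .LO b) :
    EE (co .T b) = EE (co .LO b) := by
  have hx : b.2 < 10 := by linarith [h2.2, cc_le b.1]
  rcases le_or_gt b.2 (-(5 / 2)) with hy | hy
  · have he' := he
    rw [sc_T, sc_LO, Z3_1 hy, Z3_1 hy] at he'
    have h8 := TL_eq h1.1 he'.symm
    rw [co_T, co_LO, h8]
    norm_num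
  · exfalso
    have hz := congrArg (fun q : ℝ × ℝ × ℝ × ℝ => q.2.2.2) he
    linarith [(z_T h1 hx).2 (by linarith), (z_LO h2).2.2 hy]

lemma cp_ULO {b : ℝ × ℝ} (h1 : b ∈ Rg .UO) (h2 : b ∈ Rg .LO) (he : sc .UO b = sc .LO b) :
    EE (co .UO b) = EE (co .LO b) := by
  have hz := congrArg (fun q : ℝ × ℝ × ℝ × ℝ => q.2.2.2) he
  rcases le_or_gt b.2 (-(5 / 2)) with hy | hy
  · exfalso
    linarith [(z_UO h1).2.1 hy, (z_LO h2).2.1 hy]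
  · obtain ⟨μ, m1, m2, m3, m4⟩ := zl_Dc h1.2
    have hz' : 1 * μ = -1 * μ := by
      rcases le_or_gt (NN b) (5 / 2) with hy' | hy'
      · rw [sc_UO, sc_LO, Z3_2 hy hy', Z3_2 hy hy', m4, m4] at hz
        exact hz
      · rw [sc_UO, sc_LO, Z3_3 hy hy', Z3_3 hy hy', m4, m4] at hz
        exact hz
    have h4 : b.2 = cc b.1 := by
      by_contra hne
      have := m3 (lt_of_le_of_ne h1.2 hne)
      linarith
    rw [co_UO, co_LO, h4]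
    have : cc b.1 + 8 ≠ 0 := by linarith [cc_ge b.1]
    congr 2
    field_simp
    ring

lemma cp_ULS {b : ℝ × ℝ} (h1 : b ∈ Rg .US) (h2 : b ∈ Rg .LS) (he : sc .US b = sc .LS b) :
    EE (co .US b) = EE (co .LS b) := by
  have hz := congrArg (fun q : ℝ × ℝ × ℝ × ℝ => q.2.2.2) he
  obtain ⟨c1, c2, c3⟩ := NN_x4 h1.2
  rcases zone_cases b with hy | ⟨hy, hy'⟩ | ⟨hy, hy'⟩
  · linarith
  · exfalso
    linarith [(z_US h1).2.1 hy', (z_LS h2).1]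
  · obtain ⟨μ, m1, m2, m3, m4⟩ := zl_D4 h1.2
    rw [sc_US, sc_LS, Z3_3 hy hy', Z3_3 hy hy', m4, m4] at hz
    have h4 : NN b = 4 := by
      by_contra hne
      have := m3 (lt_of_le_of_ne h1.2 hne)
      linarith
    rw [co_US, co_LS, h4, rho_four]

/-- compatibility of the planar coordinates -/
lemma compat_EE (k l : Sh) {b : ℝ × ℝ} (h1 : b ∈ Rg k) (h2 : b ∈ Rg l) (he : sc k b = sc l b) :
    EE (co k b) = EE (co l b) := by
  have hz := congrArg (fun q : ℝ × ℝ × ℝ × ℝ => q.2.2.2) he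
  have hM : ∀ l : Sh, b ∈ Rg .M → b ∈ Rg l → sc .M b = sc l b → EE (co .M b) = EE (co l b) := by
    intro l h1 h2 he
    have hz := congrArg (fun q : ℝ × ℝ × ℝ × ℝ => q.2.2.2) he
    cases l
    · rfl
    · exact cp_MT h1 h2 he
    · exact cp_MUO h1 h2 he
    · exfalso
      linarith [(z_M h1 (by linarith [h2.2, cc_le b.1])).1, (z_LO h2).1]
    · exact cp_MUS h1 h2 he
    · exfalso
      obtain ⟨c1, c2, c3⟩ := NN_x4 h2
      linarith [(z_M h1 (by linarith)).1, (z_LS h2).1]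
  have hT : ∀ l : Sh, b ∈ Rg .T → b ∈ Rg l → sc .T b = sc l b → EE (co .T b) = EE (co l b) := by
    intro l h1 h2 he
    have hz := congrArg (fun q : ℝ × ℝ × ℝ × ℝ => q.2.2.2) he
    cases l
    · exact (hM .T h2 h1 he.symm).symm
    · rfl
    · exfalso
      linarith [(z_T h1 (by linarith [h2.2, cc_le b.1])).1, (z_UO h2).1]
    · exact cp_TLO h1 h2 he
    · exfalso
      obtain ⟨c1, c2, c3⟩ := NN_x4 h2.2
      linarith [(z_T h1 (by linarith)).1, (z_US h2).1]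
    · exfalso
      obtain ⟨c1, c2, c3⟩ := NN_x4 h2
      linarith [(z_T h1 (by linarith)).2 (by linarith), (z_LS h2).2]
  cases k
  · exact hM l h1 h2 he
  · exact hT l h1 h2 he
  · cases l
    · exact (hM .UO h2 h1 he.symm).symm
    · exact (hT .UO h2 h1 he.symm).symm
    · rfl
    · exact cp_ULO h1 h2 he
    · exact absurd h1.2 (no_O h2.2)
    · exact absurd h1.2 (no_O h2)
  · cases l
    · exact (hM .LO h2 h1 he.symm).symm
    · exact (hT .LO h2 h1 he.symm).symm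
    · exact (cp_ULO h2 h1 he.symm).symm
    · rfl
    · exact absurd h1.2 (no_O h2.2)
    · exact absurd h1.2 (no_O h2)
  · cases l
    · exact (hM .US h2 h1 he.symm).symm
    · exact (hT .US h2 h1 he.symm).symm
    · exact absurd h2.2 (no_O h1.2)
    · exact absurd h2.2 (no_O h1.2)
    · rfl
    · exact cp_ULS h1 h2 he
  · cases l
    · exact (hM .LS h2 h1 he.symm).symm
    · exact (hT .LS h2 h1 he.symm).symm
    · exact absurd h2.2 (no_O h1)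
    · exact absurd h2.2 (no_O h1)
    · exact (cp_ULS h2 h1 he.symm).symm
    · rfl

end

end Pool.Agent.MP_70d14f_gt
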