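import Mathlib

namespace Pool.Agent.MP_70d14f_gt

open Set Topology

/-- `V` is the tangent space at `p` of the smooth codimension-two submanifold `S`: near `p` the set
`S` is the zero set of a smooth map `h` to the plane whose derivative at `p` is onto, and `V` is the
kernel of this derivative. -/
def HasTangentSpace {E : Type} [NormedAddCommGroup E] [NormedSpace ℝ E] (S : Set E) (p : E)
    (V : Submodule ℝ E) : Prop :=
  ∃ (U : Set E) (h : E → ℝ × ℝ), IsOpen U ∧ p ∈ U ∧ ContDiffOn ℝ (⊤ : ℕ∞) h U ∧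
    (∀ q ∈ U, q ∈ S ↔ h q = 0) ∧ Function.Surjective (fderiv ℝ h p) ∧
    V = LinearMap.ker (fderiv ℝ h p : E →ₗ[ℝ] ℝ × ℝ)

/-- A smooth oriented knot in three-space: a compact connected one-dimensional smooth submanifold
with a continuous nowhere zero tangent direction `dir` (its orientation).  Points are `(x, y, z)`. -/
structure OrientedKnot where
  carrier : Set (ℝ × ℝ × ℝ)
  dir : ℝ × ℝ × ℝ → ℝ × ℝ × ℝ
  isCompact : IsCompact carrier
  isConnected : IsConnected carrier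
  continuousOn_dir : ContinuousOn dir carrier
  tangent : ∀ p ∈ carrier, dir p ≠ 0 ∧ ∃ V, HasTangentSpace carrier p V ∧ dir p ∈ V

/-- The standard contact form `dz - y dx` at the point `p` evaluated on the vector `v`. -/
def alpha (p v : ℝ × ℝ × ℝ) : ℝ := v.2.2 - p.2.1 * v.1

/-- A Legendrian knot: an oriented knot whose tangent direction is annihilated by `alpha`. -/
structure LegendrianKnot extends OrientedKnot where
  legendrian : ∀ p ∈ carrier, alpha p (dir p) = 0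

/-- The symplectic form `d (e^t alpha) = e^t (dt ∧ alpha + dx ∧ dy)` at `p` on the vectors `v`, `w`.
Points and vectors are written `(t, x, y, z)`. -/
noncomputable def omega (p v w : ℝ × ℝ × ℝ × ℝ) : ℝ :=
  Real.exp p.1 * (v.1 * alpha p.2 w.2 - w.1 * alpha p.2 v.2
    + (v.2.1 * w.2.2.1 - w.2.1 * v.2.2.1))

/-- The complex area form `(dt + i alpha) ∧ (dx + i dy)` of the symplectization, with respect to the
symplectic trivialisation `∂_t, ∂_z, ∂_x + y ∂_z, ∂_y` of its tangent bundle. -/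
noncomputable def complexArea (p v w : ℝ × ℝ × ℝ × ℝ) : ℂ :=
  ((v.1 : ℂ) + alpha p.2 v.2 * Complex.I) * ((w.2.1 : ℂ) + w.2.2.1 * Complex.I)
    - ((w.1 : ℂ) + alpha p.2 w.2 * Complex.I) * ((v.2.1 : ℂ) + v.2.2.1 * Complex.I)

/-- `S` is a properly embedded smooth connected oriented surface in `ℝ × ℝ³` which is a cobordism
from the oriented knot `Km` to the oriented knot `Kp`, cylindrical outside `(-T, T)`. The orientation
is a continuous family `o` of bilinear forms which are alternating on the tangent planes and nonzero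
on every basis of a tangent plane. -/
structure IsCobordism (Km Kp : OrientedKnot) (T : ℝ) (S : Set (ℝ × ℝ × ℝ × ℝ)) : Prop where
  pos : 0 < T
  isClosed : IsClosed S
  isConnected : IsConnected S
  isCompact_mid : IsCompact (S ∩ {q | -T ≤ q.1 ∧ q.1 ≤ T})
  left_end : ∀ q : ℝ × ℝ × ℝ × ℝ, q.1 ≤ -T → (q ∈ S ↔ q.2 ∈ Km.carrier)
  right_end : ∀ q : ℝ × ℝ × ℝ × ℝ, T ≤ q.1 → (q ∈ S ↔ q.2 ∈ Kp.carrier)
  oriented : ∃ o : ℝ × ℝ × ℝ × ℝ → LinearMap.BilinForm ℝ (ℝ × ℝ × ℝ × ℝ),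
    (∀ v w, ContinuousOn (fun p => o p v w) S) ∧
    (∀ p ∈ S, ∃ V, HasTangentSpace S p V ∧ (∀ v ∈ V, o p v v = 0) ∧
      ∀ v ∈ V, ∀ w ∈ V, LinearIndependent ℝ ![v, w] → o p v w ≠ 0) ∧
    (∀ p ∈ S, p.1 ≤ -T → 0 < o p (1, 0) (0, Km.dir p.2)) ∧
    (∀ p ∈ S, T ≤ p.1 → 0 < o p (1, 0) (0, Kp.dir p.2))

/-- `L` is Lagrangian, exact (`e^t alpha` restricted to `L` is `df` for a smooth function `f` on `L`
which is constant on each end) and has vanishing Maslov class (the Lagrangian phase lifts to a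
continuous real function `θ`). -/
structure IsExactMaslovZero (T : ℝ) (L : Set (ℝ × ℝ × ℝ × ℝ)) : Prop where
  lagrangian : ∀ p ∈ L, ∃ V, HasTangentSpace L p V ∧ ∀ v ∈ V, ∀ w ∈ V, omega p v w = 0
  exact : ∃ f : ℝ × ℝ × ℝ × ℝ → ℝ,
    (∀ p ∈ L, ∃ V, HasTangentSpace L p V ∧ ∃ F : ℝ × ℝ × ℝ × ℝ → ℝ,
      ContDiffAt ℝ (⊤ : ℕ∞) F p ∧ (∀ᶠ q in 𝓝[L] p, F q = f q) ∧
      ∀ v ∈ V, fderiv ℝ F p v = Real.exp p.1 * alpha p.2 v.2) ∧
    (∃ a, ∀ p ∈ L, p.1 ≤ -T → f p = a) ∧ (∃ b, ∀ p ∈ L, T ≤ p.1 → f p = b)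
  maslov : ∃ θ : ℝ × ℝ × ℝ × ℝ → ℝ, ContinuousOn θ L ∧
    ∀ p ∈ L, ∃ V, HasTangentSpace L p V ∧ ∀ v ∈ V, ∀ w ∈ V,
      (complexArea p v w * Complex.exp (-(θ p * Complex.I))).im = 0

/-- A simple closed curve in `ℝ × ℝ³`. -/
def IsSimpleClosedCurve (c : Set (ℝ × ℝ × ℝ × ℝ)) : Prop :=
  ∃ γ : Circle → ℝ × ℝ × ℝ × ℝ, Continuous γ ∧ Function.Injective γ ∧ Set.range γ = c

/-- The genus of the compact surface `S ∩ ([-T, T] × ℝ³)` with boundary in `{-T, T} × ℝ³`: the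
largest number of pairwise disjoint simple closed curves in its interior which together do not
disconnect it. -/
noncomputable def genus (T : ℝ) (S : Set (ℝ × ℝ × ℝ × ℝ)) : ℕ∞ :=
  ⨆ n : {n : ℕ // ∃ c : Fin n → Set (ℝ × ℝ × ℝ × ℝ),
    (∀ i, IsSimpleClosedCurve (c i) ∧ c i ⊆ S ∩ {q | -T < q.1 ∧ q.1 < T}) ∧
    Pairwise (fun i j => Disjoint (c i) (c j)) ∧
    IsConnected ((S ∩ {q | -T ≤ q.1 ∧ q.1 ≤ T}) \ ⋃ i, c i)}, ((n : ℕ) : ℕ∞)

/-- The minimal genus of a smooth cobordism between two oriented knots. -/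
noncomputable def relFourGenus (Km Kp : OrientedKnot) : ℕ∞ :=
  ⨅ TS : {TS : ℝ × Set (ℝ × ℝ × ℝ × ℝ) // IsCobordism Km Kp TS.1 TS.2}, genus TS.1.1 TS.1.2

end Pool.Agent.MP_70d14f_gt
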