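import Pool.Agent.Lib.MP_70d14f_gt.Tangent

namespace Pool.Agent.MP_70d14f_gt

open Set Topology

noncomputable section

/-- tangent vectors at the cylindrical end -/
lemma end_tangent {S : Set (ℝ × ℝ × ℝ × ℝ)} {K : OrientedKnot} {J : Set ℝ} (hJ : IsOpen J)
    (cyl : ∀ q : ℝ × ℝ × ℝ × ℝ, q.1 ∈ J → (q ∈ S ↔ q.2 ∈ K.carrier))
    {p : ℝ × ℝ × ℝ × ℝ} (hp : p ∈ S) (hpJ : p.1 ∈ J) {V : Submodule ℝ (ℝ × ℝ × ℝ × ℝ)}
    (hV : HasTangentSpace S p V) :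
    ((1, 0) : ℝ × ℝ × ℝ × ℝ) ∈ V ∧ ((0, K.dir p.2) : ℝ × ℝ × ℝ × ℝ) ∈ V := by
  have hK : p.2 ∈ K.carrier := (cyl p hpJ).1 hp
  constructor
  · have hc : HasDerivAt (fun s : ℝ => ((p.1 + s, p.2) : ℝ × ℝ × ℝ × ℝ)) (1, 0) 0 := by
      exact ((hasDerivAt_id (0 : ℝ)).const_add p.1).prodMk (hasDerivAt_const (0 : ℝ) p.2)
    refine curve_mem hV hc (by simp) ?_
    have h1 : ∀ᶠ s in 𝓝 (0 : ℝ), p.1 + s ∈ J := by
      have : ContinuousAt (fun s : ℝ => p.1 + s) 0 := by fun_prop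
      exact this.eventually_mem (by simpa using hJ.mem_nhds hpJ)
    filter_upwards [h1] with s hs
    exact (cyl (p.1 + s, p.2) hs).2 hK
  · obtain ⟨-, W, hW, hdir⟩ := K.tangent p.2 hK
    obtain ⟨c, c1, c2, c3⟩ := tangent_curve hW hK hdir
    have hc : HasDerivAt (fun s : ℝ => ((p.1, c s) : ℝ × ℝ × ℝ × ℝ)) (0, K.dir p.2) 0 :=
      (hasDerivAt_const (0 : ℝ) p.1).prodMk c1
    refine curve_mem hV hc (by rw [c2]) ?_
    filter_upwards [c3] with s hs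
    exact (cyl (p.1, c s) hpJ).2 hs

lemma end_indep (w : ℝ × ℝ × ℝ) (hw : w ≠ 0) :
    LinearIndependent ℝ ![((1, 0) : ℝ × ℝ × ℝ × ℝ), ((0, w) : ℝ × ℝ × ℝ × ℝ)] := by
  rw [LinearIndependent.pair_iff]
  intro s r h
  have h1 : s = 0 := by
    have := congrArg Prod.fst h
    simpa using this
  have h2 : r • w = 0 := by
    have := congrArg Prod.snd h
    simpa using this
  refine ⟨h1, ?_⟩
  rcases smul_eq_zero.1 h2 with h | h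
  · exact h
  · exact absurd h hw

/-- the orientation of an end has a constant sign -/
lemma end_sign {S : Set (ℝ × ℝ × ℝ × ℝ)} {K : OrientedKnot} {I J : Set ℝ} (hJ : IsOpen J)
    (hIJ : I ⊆ J) (hI : IsPreconnected I)
    (cyl : ∀ q : ℝ × ℝ × ℝ × ℝ, q.1 ∈ J → (q ∈ S ↔ q.2 ∈ K.carrier))
    {o : ℝ × ℝ × ℝ × ℝ → LinearMap.BilinForm ℝ (ℝ × ℝ × ℝ × ℝ)}
    (hoc : ∀ v w, ContinuousOn (fun p => o p v w) S)
    (ho : ∀ p ∈ S, ∃ V, HasTangentSpace S p V ∧ (∀ v ∈ V, o p v v = 0) ∧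
      ∀ v ∈ V, ∀ w ∈ V, LinearIndependent ℝ ![v, w] → o p v w ≠ 0)
    {p0 : ℝ × ℝ × ℝ × ℝ} (hp0 : p0 ∈ S) (hp0I : p0.1 ∈ I)
    (hpos : 0 < o p0 (1, 0) (0, K.dir p0.2)) :
    ∀ p ∈ S, p.1 ∈ I → 0 < o p (1, 0) (0, K.dir p.2) := by
  set X : Set (ℝ × ℝ × ℝ × ℝ) := I ×ˢ K.carrier with hX
  have hXS : X ⊆ S := fun p hp => (cyl p (hIJ hp.1)).2 hp.2
  have hXc : IsPreconnected X := hI.prod K.isConnected.isPreconnected
  have hF : ContinuousOn (fun p : ℝ × ℝ × ℝ × ℝ => o p (1, 0) (0, K.dir p.2)) X := by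
    have e : ∀ p : ℝ × ℝ × ℝ × ℝ, o p (1, 0) (0, K.dir p.2) =
        (K.dir p.2).1 * o p (1, 0) (0, 1, 0, 0) + (K.dir p.2).2.1 * o p (1, 0) (0, 0, 1, 0)
          + (K.dir p.2).2.2 * o p (1, 0) (0, 0, 0, 1) := by
      intro p
      have : ((0, K.dir p.2) : ℝ × ℝ × ℝ × ℝ) = (K.dir p.2).1 • ((0, 1, 0, 0) : ℝ × ℝ × ℝ × ℝ)
          + (K.dir p.2).2.1 • ((0, 0, 1, 0) : ℝ × ℝ × ℝ × ℝ)
          + (K.dir p.2).2.2 • ((0, 0, 0, 1) : ℝ × ℝ × ℝ × ℝ) := by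
        ext <;> simp
      rw [this, map_add, map_add, map_smul, map_smul, map_smul, smul_eq_mul, smul_eq_mul,
        smul_eq_mul]
    simp only [e]
    have hd : ContinuousOn (fun p : ℝ × ℝ × ℝ × ℝ => K.dir p.2) X :=
      K.continuousOn_dir.comp continuous_snd.continuousOn (fun p hp => hp.2)
    have h1 := fun v w => (hoc v w).mono hXS
    exact (((hd.fst).mul (h1 _ _)).add ((hd.snd.fst).mul (h1 _ _))).add ((hd.snd.snd).mul (h1 _ _))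
  have hne : ∀ p ∈ X, o p (1, 0) (0, K.dir p.2) ≠ 0 := by
    intro p hp
    obtain ⟨V, hV, -, h2⟩ := ho p (hXS hp)
    obtain ⟨t1, t2⟩ := end_tangent hJ cyl (hXS hp) (hIJ hp.1) hV
    exact h2 _ t1 _ t2 (end_indep _ (K.tangent p.2 hp.2).1)
  intro p hp hpI
  by_contra hcon
  push Not at hcon
  have hpX : p ∈ X := ⟨hpI, (cyl p (hIJ hpI)).1 hp⟩
  have hp0X : p0 ∈ X := ⟨hp0I, (cyl p0 (hIJ hp0I)).1 hp0⟩
  have := hXc.intermediate_value hpX hp0X hF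
  obtain ⟨r, hr, hr0⟩ := this ⟨hcon, hpos.le⟩
  exact hne r hr hr0

end

end Pool.Agent.MP_70d14f_gt
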