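import Pool.Agent.Lib.MP_70d14f_gt.LSurf

namespace Pool.Agent.MP_70d14f_gt

open Set Topology

noncomputable section

/-- good parameters -/
structure Good (δ B : ℝ) : Prop where
  hB : 1 ≤ B
  hδ : 0 < δ
  hδB : 1000 * B ^ 9 * δ ≤ 1
  lam1 : ∀ r, 0 ≤ r → |lamS.d1 r| ≤ B ∧ |lamS.d2 r| ≤ B
  hh1 : ∀ x, |x| ≤ 3 → |deriv hh x| ≤ B ∧ |deriv (deriv hh) x| ≤ B
  st1 : ∀ x, |deriv st x| ≤ B ∧ |deriv (deriv st) x| ≤ B

lemma exists_good : ∃ δ B, Good δ B := by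
  obtain ⟨B1, hB1, h1⟩ := exists_st_bound
  have c1 : ContinuousOn lamS.d1 (Icc 0 2) := lamS.hd1.continuous.continuousOn
  have c2 : ContinuousOn lamS.d2 (Icc 0 2) := lamS.hd2.continuous.continuousOn
  obtain ⟨B2, h2⟩ := isCompact_Icc.exists_bound_of_continuousOn c1
  obtain ⟨B3, h3⟩ := isCompact_Icc.exists_bound_of_continuousOn c2
  have hd : ContDiff ℝ (⊤ : ℕ∞) (deriv hh) := (contDiff_infty_iff_deriv.1 hh_contDiff).2
  have hdd : ContDiff ℝ (⊤ : ℕ∞) (deriv (deriv hh)) := (contDiff_infty_iff_deriv.1 hd).2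
  obtain ⟨B4, h4⟩ := (isCompact_Icc (a := (-3:ℝ)) (b := 3)).exists_bound_of_continuousOn
    hd.continuous.continuousOn
  obtain ⟨B5, h5⟩ := (isCompact_Icc (a := (-3:ℝ)) (b := 3)).exists_bound_of_continuousOn
    hdd.continuous.continuousOn
  set B := max B1 (max B2 (max B3 (max B4 B5))) with hBdef
  have b1 : B1 ≤ B := le_max_left _ _
  have b2 : B2 ≤ B := (le_max_left _ _).trans (le_max_right _ _)
  have b3 : B3 ≤ B := ((le_max_left _ _).trans (le_max_right _ _)).trans (le_max_right _ _)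
  have b4 : B4 ≤ B :=
    (((le_max_left _ _).trans (le_max_right _ _)).trans (le_max_right _ _)).trans (le_max_right _ _)
  have b5 : B5 ≤ B :=
    (((le_max_right _ _).trans (le_max_right _ _)).trans (le_max_right _ _)).trans (le_max_right _ _)
  have hB : 1 ≤ B := hB1.trans b1
  refine ⟨1 / (1000 * B ^ 9), B, hB, by positivity, ?_, ?_, ?_, ?_⟩
  · field_simp
    exact le_refl _
  · intro r hr
    by_cases hr2 : r ≤ 2
    · exact ⟨(h2 r ⟨hr, hr2⟩).trans b2, (h3 r ⟨hr, hr2⟩).trans b3⟩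
    · push Not at hr2
      have e1 : lamS.d1 r = 0 := deriv_lam_of_ge (by linarith)
      have e2 : lamS.d2 r = 0 := deriv2_lam_of_gt (by linarith)
      rw [e1, e2, abs_zero]
      exact ⟨by linarith, by linarith⟩
  · intro x hx
    rw [abs_le] at hx
    exact ⟨(h4 x hx).trans b4, (h5 x hx).trans b5⟩
  · intro x
    exact ⟨(h1 x).1.trans b1, (h1 x).2.trans b1⟩

/-- height of points of a piece -/
lemma LData.height (A : LData) {q : ℝ × ℝ × ℝ × ℝ} (hq : q ∈ A.pd.piece) {K c : ℝ}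
    (hK : |A.k.f q.2.1| ≤ K) (hc : |A.gt (bp q)| ≤ c) : |q.2.2.2 - A.m| ≤ (1 + 3 / 2 * c) * K := by
  obtain ⟨η, h1, h2, h3⟩ := hq
  have h1' : η ^ 2 = A.g (bp q) := h1
  have h3' : q.2.2.2 = A.m + η * A.P (bp q) := h3
  have hg : A.g (bp q) ≤ 1 := lam_le_one _
  have hg0 : 0 ≤ A.g (bp q) := by rw [← h1']; positivity
  have hη : |η| ≤ 1 := by
    rw [← sq_le_one_iff_abs_le_one]; linarith
  rw [h3', A.P_eq]
  have : A.m + η * ((A.g (bp q) + 3 / 2 * A.gt (bp q)) * A.k.f (bp q).2) - A.m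
      = η * ((A.g (bp q) + 3 / 2 * A.gt (bp q)) * A.k.f q.2.1) := by
    show _ = η * ((A.g (bp q) + 3 / 2 * A.gt (bp q)) * A.k.f (bp q).2)
    ring
  rw [this, abs_mul, abs_mul]
  have h4 : |A.g (bp q) + 3 / 2 * A.gt (bp q)| ≤ 1 + 3 / 2 * c := by
    refine (abs_add_le _ _).trans ?_
    rw [abs_mul, abs_of_nonneg hg0]
    have : |(3 / 2 : ℝ)| = 3 / 2 := by norm_num
    rw [this]
    linarith
  have h5 : 0 ≤ |A.g (bp q) + 3 / 2 * A.gt (bp q)| := abs_nonneg _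
  have h6 : |A.g (bp q) + 3 / 2 * A.gt (bp q)| * |A.k.f q.2.1| ≤ (1 + 3 / 2 * c) * K :=
    mul_le_mul h4 hK (abs_nonneg _) (h5.trans h4)
  calc |η| * (|A.g (bp q) + 3 / 2 * A.gt (bp q)| * |A.k.f q.2.1|)
      ≤ 1 * (|A.g (bp q) + 3 / 2 * A.gt (bp q)| * |A.k.f q.2.1|) :=
        mul_le_mul_of_nonneg_right hη (by positivity)
    _ ≤ _ := by rw [one_mul]; exact h6

lemma LData.w_nonneg (A : LData) {q : ℝ × ℝ × ℝ × ℝ} (hq : q ∈ A.pd.piece) : 0 ≤ A.w (bp q) := by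
  obtain ⟨η, h1, -⟩ := hq
  have h1' : η ^ 2 = A.g (bp q) := h1
  apply lam_nonneg_iff.1
  show 0 ≤ A.g (bp q)
  rw [← h1']; positivity

lemma height_UMl {q : ℝ × ℝ × ℝ × ℝ} (hq : q ∈ dUMl.pd.piece) :
    1 ≤ q.2.2.2 ∧ q.2.2.2 ≤ 3 ∧ -4 ≤ q.2.1 := by
  have h := dUMl.height hq (K := 1) (c := 0) (by simp [dUMl]) (by simp [dUMl, LData.gt])
  simp [dUMl] at h
  rw [abs_le] at h
  have hw := dUMl.w_nonneg hq
  simp [dUMl, LData.w, bp] at hw
  refine ⟨by linarith, by linarith, by linarith⟩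

lemma height_TL {q : ℝ × ℝ × ℝ × ℝ} (hq : q ∈ dTL.pd.piece) :
    -3 ≤ q.2.2.2 ∧ q.2.2.2 ≤ -1 ∧ -8 ≤ q.2.1 := by
  have h := dTL.height hq (K := 1) (c := 0) (kt_abs_le _) (by simp [dTL, LData.gt])
  simp [dTL] at h
  rw [abs_le] at h
  have hw := dTL.w_nonneg hq
  simp [dTL, LData.w, bp] at hw
  refine ⟨by linarith, by linarith, by linarith⟩

lemma height_TM {q : ℝ × ℝ × ℝ × ℝ} (hq : q ∈ dTM.pd.piece) :
    -3 ≤ q.2.2.2 ∧ q.2.2.2 ≤ 3 ∧ q.2.1 ≤ 11 := by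
  have h := dTM.height hq (K := 3) (c := 0) (by simp [dTM]) (by simp [dTM, LData.gt])
  simp [dTM] at h
  rw [abs_le] at h
  have hw := dTM.w_nonneg hq
  simp [dTM, LData.w, bp] at hw
  refine ⟨by linarith, by linarith, by linarith⟩

lemma height_LUr {q : ℝ × ℝ × ℝ × ℝ} (hq : q ∈ dLUr.pd.piece) :
    -1 ≤ q.2.2.2 ∧ q.2.2.2 ≤ 1 ∧ q.2.1 ≤ 9 := by
  have h := dLUr.height hq (K := 1) (c := 0) (by simp [dLUr]) (by simp [dLUr, LData.gt])
  simp [dLUr] at h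
  rw [abs_le] at h
  have hw := dLUr.w_nonneg hq
  simp [dLUr, LData.w, bp] at hw
  refine ⟨by linarith, by linarith, by linarith⟩

lemma small_gt {δ B : ℝ} (G : Good δ B) (e w t : ℝ) (hw : 0 ≤ w) :
    |lamS.d1 w * (rS δ e).d1 t| ≤ 1 / 10 := by
  rw [rS_d1, abs_mul]
  have hB := G.hB
  have hδ := G.hδ
  have h1 := (G.lam1 w hw).1
  have h2 : |2 * δ * deriv st (δ * t + e)| ≤ 2 * δ * B := by
    rw [abs_mul, abs_of_pos (by positivity : 0 < 2 * δ)]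
    exact mul_le_mul_of_nonneg_left (G.st1 _).1 (by positivity)
  have h3 : |lamS.d1 w| * |2 * δ * deriv st (δ * t + e)| ≤ B * (2 * δ * B) :=
    mul_le_mul h1 h2 (abs_nonneg _) (by linarith)
  refine h3.trans ?_
  have h4 : B ^ 2 ≤ B ^ 9 := pow_le_pow_right₀ hB (by norm_num)
  have h5 := G.hδB
  have h6 : B ^ 2 * δ ≤ B ^ 9 * δ := mul_le_mul_of_nonneg_right h4 hδ.le
  nlinarith

lemma height_LU {δ B : ℝ} (G : Good δ B) {q : ℝ × ℝ × ℝ × ℝ} (hq : q ∈ (dLU δ).pd.piece) :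
    -(3 / 2) ≤ q.2.2.2 ∧ q.2.2.2 ≤ 3 / 2 := by
  have hw := (dLU δ).w_nonneg hq
  have h := (dLU δ).height hq (K := 1) (c := 1 / 10) (by simp [dLU]) (small_gt G _ _ _ hw)
  simp [dLU] at h
  rw [abs_le] at h
  constructor <;> linarith [h.1, h.2]

lemma height_UM {δ B : ℝ} (G : Good δ B) {q : ℝ × ℝ × ℝ × ℝ} (hq : q ∈ (dUM δ).pd.piece) :
    1 / 2 ≤ q.2.2.2 ∧ q.2.2.2 ≤ 7 / 2 := by
  have hw := (dUM δ).w_nonneg hq
  have h := (dUM δ).height hq (K := 1) (c := 1 / 10) (by simp [dUM]) (small_gt G _ _ _ hw)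
  simp [dUM] at h
  rw [abs_le] at h
  constructor <;> linarith [h.1, h.2]

end

end Pool.Agent.MP_70d14f_gt
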