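import Pool.Agent.Lib.MP_70d14f_gt.LAtlas

namespace Pool.Agent.MP_70d14f_gt

open Set Topology

noncomputable section

def chD (δ : ℝ) : Ch → LData
  | .UMl => dUMl
  | .TL => dTL
  | .LU => dLU δ
  | .TM => dTM
  | .UM => dUM δ
  | .LUr => dLUr

def chW : Ch → Set (ℝ × ℝ × ℝ × ℝ)
  | .UMl => {q | q.2.1 < -2 ∧ -(1 / 2) < q.2.2.2}
  | .TL => {q | (q.2.1 < -2 ∨ (2 < q.2.1 ∧ q.2.1 < 8)) ∧ q.2.2.2 < -(1 / 2)}
  | .LU => {q | (-3 < q.2.1 ∧ q.2.1 < 3) ∧ (-(5 / 2) < q.2.2.2 ∧ q.2.2.2 < 5 / 2)}
  | .TM => {q | ((-3 < q.2.1 ∧ q.2.1 < 3) ∧ (5 / 2 < q.2.2.2 ∨ q.2.2.2 < -(5 / 2))) ∨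
      (7 < q.2.1 ∧ ((5 / 2 < q.2.2.2 ∨ q.2.2.2 < -(5 / 2)) ∨ 19 / 2 < q.2.1))}
  | .UM => {q | (2 < q.2.1 ∧ q.2.1 < 8) ∧ -(1 / 2) < q.2.2.2}
  | .LUr => {q | (7 < q.2.1 ∧ q.2.1 < 19 / 2) ∧ (-(5 / 2) < q.2.2.2 ∧ q.2.2.2 < 5 / 2)}

def chS : Ch → ℝ
  | .UMl => 1
  | .TL => 1
  | .LU => -1
  | .TM => 1
  | .UM => 1
  | .LUr => -1

def chE : Ch → ℝ
  | .UMl => 1
  | .TL => -1
  | .LU => 1
  | .TM => 1
  | .UM => 1
  | .LUr => 1

def chN : Ch → ℤ
  | .UMl => -2
  | .TL => -1
  | .LU => -1
  | .TM => -2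
  | .UM => -2
  | .LUr => -1

lemma chW_open (i : Ch) : IsOpen (chW i) := by
  have hx : Continuous fun q : ℝ × ℝ × ℝ × ℝ => q.2.1 := by fun_prop
  have hz : Continuous fun q : ℝ × ℝ × ℝ × ℝ => q.2.2.2 := by fun_prop
  have a1 : ∀ c : ℝ, IsOpen {q : ℝ × ℝ × ℝ × ℝ | q.2.1 < c} := fun c => isOpen_lt hx continuous_const
  have a2 : ∀ c : ℝ, IsOpen {q : ℝ × ℝ × ℝ × ℝ | c < q.2.1} := fun c => isOpen_lt continuous_const hx
  have a3 : ∀ c : ℝ, IsOpen {q : ℝ × ℝ × ℝ × ℝ | q.2.2.2 < c} := fun c => isOpen_lt hz continuous_const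
  have a4 : ∀ c : ℝ, IsOpen {q : ℝ × ℝ × ℝ × ℝ | c < q.2.2.2} := fun c => isOpen_lt continuous_const hz
  cases i
  · exact (a1 _).inter (a4 _)
  · exact ((a1 _).union ((a2 _).inter (a1 _))).inter (a3 _)
  · exact ((a2 _).inter (a1 _)).inter ((a4 _).inter (a3 _))
  · exact ((((a2 _).inter (a1 _)).inter ((a4 _).union (a3 _))).union
      ((a2 _).inter (((a4 _).union (a3 _)).union (a2 _))))
  · exact ((a2 _).inter (a1 _)).inter (a4 _)
  · exact ((a2 _).inter (a1 _)).inter ((a4 _).inter (a3 _))

variable {δ B : ℝ}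

lemma ch_loc (G : Good δ B) (i : Ch) : ∀ q ∈ chW i, (q ∈ LL δ ↔ q ∈ (chD δ i).pd.piece) := by
  cases i
  · rintro q ⟨h1, h2⟩
    rw [zone1 h1]
    constructor
    · rintro (h | h)
      · exact h
      · linarith [(height_TL h).2.1]
    · exact Or.inl
  · rintro q ⟨h1 | h1, h2⟩
    · rw [zone1 h1]
      constructor
      · rintro (h | h)
        · linarith [(height_UMl h).1]
        · exact h
      · exact Or.inr
    · rw [zone3 h1.1 h1.2]
      constructor
      · rintro (h | h)
        · linarith [(height_UM G h).1]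
        · exact h
      · exact Or.inr
  · rintro q ⟨h1, h2⟩
    rw [zone2 h1.1 h1.2]
    constructor
    · rintro (h | h)
      · exact h
      · rw [mem_TM_flat (by linarith [h1.2])] at h
        rcases h.2 with h | h <;> linarith [h2.1, h2.2]
    · exact Or.inl
  · rintro q (⟨h1, h2⟩ | ⟨h1, h2⟩)
    · rw [zone2 h1.1 h1.2]
      constructor
      · rintro (h | h)
        · have := height_LU G h
          rcases h2 with h2 | h2 <;> linarith [this.1, this.2]
        · exact h
      · exact Or.inr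
    · rw [zone4 h1]
      constructor
      · rintro (h | h)
        · have := height_LUr h
          rcases h2 with (h2 | h2) | h2 <;> linarith [this.1, this.2.1, this.2.2]
        · exact h
      · exact Or.inr
  · rintro q ⟨h1, h2⟩
    rw [zone3 h1.1 h1.2]
    constructor
    · rintro (h | h)
      · exact h
      · linarith [(height_TL h).2.1]
    · exact Or.inl
  · rintro q ⟨h1, h2⟩
    rw [zone4 h1.1]
    constructor
    · rintro (h | h)
      · exact h
      · rw [mem_TM_flat (by linarith [h1.2])] at h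
        rcases h.2 with h | h <;> linarith [h2.1, h2.2]
    · exact Or.inl

lemma ch_cover (G : Good δ B) : ∀ q ∈ LL δ, ∃ i, q ∈ chW i := by
  intro q hq
  rcases lt_or_ge q.2.1 (-2) with h1 | h1
  · rcases (zone1 h1).1 hq with h | h
    · exact ⟨.UMl, h1, by linarith [(height_UMl h).1]⟩
    · exact ⟨.TL, Or.inl h1, by linarith [(height_TL h).2.1]⟩
  rcases lt_or_ge q.2.1 3 with h2 | h2
  · rcases (zone2 (by linarith) h2).1 hq with h | h
    · exact ⟨.LU, ⟨by linarith, h2⟩, by linarith [(height_LU G h).1], by linarith [(height_LU G h).2]⟩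
    · have h' := h
      rw [mem_TM_flat (by linarith)] at h'
      refine ⟨.TM, Or.inl ⟨⟨by linarith, h2⟩, ?_⟩⟩
      rcases h'.2 with h3 | h3
      · left; rw [h3]; norm_num
      · right; rw [h3]; norm_num
  rcases lt_or_ge q.2.1 8 with h3 | h3
  · rcases (zone3 (by linarith) h3).1 hq with h | h
    · exact ⟨.UM, ⟨by linarith, h3⟩, by linarith [(height_UM G h).1]⟩
    · exact ⟨.TL, Or.inr ⟨by linarith, h3⟩, by linarith [(height_TL h).2.1]⟩
  · rcases (zone4 (by linarith)).1 hq with h | h
    · have := height_LUr h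
      exact ⟨.LUr, ⟨by linarith, by linarith⟩, by linarith, by linarith⟩
    · rcases lt_or_ge q.2.1 10 with h4 | h4
      · have h' := h
        rw [mem_TM_flat h4] at h'
        refine ⟨.TM, Or.inr ⟨by linarith, Or.inl ?_⟩⟩
        rcases h'.2 with h3 | h3
        · left; rw [h3]; norm_num
        · right; rw [h3]; norm_num
      · exact ⟨.TM, Or.inr ⟨by linarith, Or.inr (by linarith)⟩⟩

lemma step_reg (δ e t c x : ℝ) (hδ : 0 < δ) (hw : hh (x - c) - 1 + 2 * st (δ * t + e) = 0) :
    (rS δ e).d1 t ≠ 0 ∨ (hS c).d1 x ≠ 0 := by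
  by_cases h : (rS δ e).d1 t = 0
  · right
    rw [rS_d1] at h
    have h' : deriv st (δ * t + e) = 0 := by
      rcases mul_eq_zero.1 h with h | h
      · exact absurd h (by positivity)
      · exact h
    rw [hS_d1]
    rcases st_of_deriv_zero h' with h1 | h1
    · rw [h1] at hw
      have h2 : hh (x - c) = 1 := by linarith
      have h3 := hh_abs_of_half_le (x := x - c) (by rw [h2]; norm_num)
      rw [h2] at h3
      rcases le_total 0 (x - c) with h4 | h4
      · rw [abs_of_nonneg h4] at h3
        rw [deriv_hh_of_gt (by linarith)]; norm_num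
      · rw [abs_of_nonpos h4] at h3
        rw [deriv_hh_of_lt (by linarith)]; norm_num
    · rw [h1] at hw
      have := hh_nonneg (x - c)
      linarith
  · left; exact h

lemma rS_d1_nonneg (δ e t : ℝ) (hδ : 0 < δ) : 0 ≤ (rS δ e).d1 t := by
  rw [rS_d1]
  have := deriv_st_nonneg (δ * t + e)
  positivity

lemma ch_reg (G : Good δ B) (i : Ch) (q : ℝ × ℝ × ℝ × ℝ) (hq : q ∈ (chD δ i).pd.piece) :
    (chD δ i).pd.reg (bp q) := by
  have hw := (chD δ i).w_nonneg hq
  have hδ := G.hδ
  cases i
  · refine LData.reg _ hw ?_ ?_ ?_ <;> simp [chD, dUMl]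
  · refine LData.reg _ hw ?_ ?_ ?_
    · simp [chD, dTL]
    · by_cases hk : kt q.2.1 = 0
      · right
        refine ⟨deriv_kt_ne hk, ?_⟩
        have : -6 < q.2.1 := by
          by_contra h
          push Not at h
          rw [kt_of_le h] at hk; norm_num at hk
        simp [chD, dTL, LData.w, bp]
        linarith
      · left; exact hk
    · simp [chD, dTL]
  · refine LData.reg _ hw ?_ ?_ ?_
    · exact rS_d1_nonneg _ _ _ hδ
    · simp [chD, dLU]
    · intro h0
      exact step_reg δ 0 _ 0 _ hδ h0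
  · refine LData.reg _ hw ?_ ?_ ?_ <;> simp [chD, dTM]
  · refine LData.reg _ hw ?_ ?_ ?_
    · exact rS_d1_nonneg _ _ _ hδ
    · simp [chD, dUM]
    · intro h0
      exact step_reg δ 1 _ 5 _ hδ h0
  · refine LData.reg _ hw ?_ ?_ ?_ <;> simp [chD, dLUr]

/-- overlaps of different charts consist of flat points on the four strands -/
lemma ch_overlap {i j : Ch} (hij : i ≠ j) {q : ℝ × ℝ × ℝ × ℝ}
    (hi : q ∈ chW i) (hj : q ∈ chW j) : (chD δ i).flat (bp q) ∧ (chD δ j).flat (bp q) := by
  have key : ∀ i j : Ch, q ∈ chW i → q ∈ chW j → i ≠ j → (chD δ i).flat (bp q) := by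
    intro i j hi hj hij
    cases i
    · have h : -3 < q.2.1 := by
        cases j
        · exact absurd rfl hij
        · exact absurd hj.2 (not_lt.2 hi.2.le)
        · exact hj.1.1
        · rcases hj with h | h
          · exact h.1.1
          · linarith [h.1]
        · linarith [hj.1.1]
        · linarith [hj.1.1]
      exact flat_UMl h
    · have h : -4 < q.2.1 := by
        cases j
        · exact absurd hi.2 (not_lt.2 hj.2.le)
        · exact absurd rfl hij
        · linarith [hj.1.1]
        · rcases hj with h | h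
          · linarith [h.1.1]
          · linarith [h.1]
        · linarith [hj.1.1]
        · linarith [hj.1.1]
      exact flat_TL h
    · have h : q.2.1 < -2 ∨ 2 < q.2.1 := by
        cases j
        · exact Or.inl hj.1
        · rcases hj.1 with h | h
          · exact Or.inl h
          · exact Or.inr h.1
        · exact absurd rfl hij
        · rcases hj with h | h
          · exfalso
            rcases h.2 with h2 | h2 <;> linarith [hi.2.1, hi.2.2]
          · right; linarith [h.1]
        · exact Or.inr hj.1.1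
        · right; linarith [hj.1.1]
      refine flat_LU ?_
      show 2 < |q.2.1|
      rcases h with h | h
      · rw [abs_of_neg (by linarith)]; linarith
      · rw [abs_of_pos (by linarith)]; linarith
    · have h : q.2.1 < 10 := by
        cases j
        · linarith [hj.1]
        · rcases hj.1 with h | h
          · linarith
          · linarith [h.2]
        · linarith [hj.1.2]
        · exact absurd rfl hij
        · linarith [hj.1.2]
        · linarith [hj.1.2]
      exact flat_TM h
    · have h : q.2.1 < 3 ∨ 7 < q.2.1 := by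
        cases j
        · left; linarith [hj.1]
        · exact absurd hj.2 (not_lt.2 hi.2.le)
        · left; exact hj.1.2
        · rcases hj with h | h
          · exact Or.inl h.1.2
          · exact Or.inr h.1
        · exact absurd rfl hij
        · right; exact hj.1.1
      refine flat_UM ?_
      show 2 < |q.2.1 - 5|
      rcases h with h | h
      · rw [abs_of_neg (by linarith)]; linarith
      · rw [abs_of_pos (by linarith)]; linarith
    · have h : q.2.1 < 8 := by
        cases j
        · linarith [hj.1]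
        · rcases hj.1 with h | h
          · linarith
          · linarith [h.2]
        · linarith [hj.1.2]
        · rcases hj with h | h
          · linarith [h.1.2]
          · exfalso
            rcases h.2 with (h2 | h2) | h2 <;> linarith [hi.2.1, hi.2.2, hi.1.2]
        · exact hj.1.2
        · exact absurd rfl hij
      exact flat_LUr h
  exact ⟨key i j hi hj hij, key j i hj hi hij.symm⟩

/-- direction of the strand at height `z` -/
def sz (z : ℝ) : ℝ := if z = -3 ∨ z = 1 then -1 else 1

/-- phase of the strand at height `z` -/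
def pz (z : ℝ) : ℝ := if z = -1 then 0 else if z = 3 then -2 * Real.pi else -Real.pi

lemma kt_flat {x : ℝ} (h1 : 0 < kt x) (h2 : kS.d1 x = 0) : kt x = 1 := by
  have h2' : deriv kt x = 0 := h2
  rw [deriv_kt] at h2'
  rcases st_of_deriv_zero h2' with h | h
  · unfold kt at h1; rw [h] at h1; norm_num at h1
  · unfold kt; rw [h]; norm_num

def chK : Ch → ℝ
  | .UMl => 1
  | .TL => 1
  | .LU => 1
  | .TM => 3
  | .UM => 1
  | .LUr => 1

lemma ch_flat_k (i : Ch) {b : ℝ × ℝ} (hf : (chD δ i).flat b) :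
    (chD δ i).k.f b.2 = chK i := by
  cases i
  case TL => exact kt_flat hf.2.1 hf.2.2.1
  all_goals rfl

lemma ch_flat_values (i : Ch) {q : ℝ × ℝ × ℝ × ℝ} (hq : q ∈ (chD δ i).pd.piece)
    (hf : (chD δ i).flat (bp q)) :
    chS i • (chD δ i).pd.ori q = (2 * sz q.2.2.2) • wedge dt dx ∧
      (chD δ i).phase (chE i) (chN i) q = pz q.2.2.2 ∧ (chD δ i).prim q = 0 := by
  have hk := ch_flat_k i hf
  have hk' : (chD δ i).k.f q.2.1 = chK i := hk
  have he := (chD δ i).flat_eta hf
  have hq' := ((chD δ i).flat_mem_iff hf).1 hq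
  obtain ⟨-, h⟩ := hq'
  rw [hk'] at h he
  refine ⟨?_, ?_, LData.flat_prim _ hf⟩
  · apply LinearMap.ext₂
    intro v w
    simp only [LinearMap.smul_apply, smul_eq_mul, LData.flat_ori _ hf, wedge_apply, dt_apply, dx_apply]
    rw [hk']
    have key : chS i * ((q.2.2.2 - (chD δ i).m) / chK i) = sz q.2.2.2 := by
      rcases h with h | h <;> rw [h] <;> cases i <;>
        norm_num [chD, dUMl, dTL, dLU, dTM, dUM, dLUr, chS, sz, chK]
    rw [← key]; ring
  · have key : (chE i * ((q.2.2.2 - (chD δ i).m) / chK i) = 1 ∧ (chN i : ℝ) * Real.pi = pz q.2.2.2) ∨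
        (chE i * ((q.2.2.2 - (chD δ i).m) / chK i) = -1 ∧
          ((chN i : ℝ) + 1) * Real.pi = pz q.2.2.2) := by
      rcases h with h | h <;> rw [h] <;> cases i <;>
        norm_num [chD, dUMl, dTL, dLU, dTM, dUM, dLUr, chE, chN, pz, chK]
    rcases key with ⟨k1, k2⟩ | ⟨k1, k2⟩
    · rw [LData.flat_phase_pos _ hf _ (by rw [he]; exact k1), k2]
    · rw [LData.flat_phase_neg _ hf _ (by rw [he]; exact k1), k2]

end

end Pool.Agent.MP_70d14f_gt
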