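import Pool.Agent.Lib.MP_70d14f_gt.LTop

namespace Pool.Agent.MP_70d14f_gt

open Set Topology

noncomputable section

/-- the cutting curve -/
def cutc (δ : ℝ) : Set (ℝ × ℝ × ℝ × ℝ) :=
  {q | q ∈ LL δ ∧ q.1 = 0 ∧ 1 ≤ q.2.1 ∧ q.2.1 ≤ 9 ∧ |q.2.2.2| ≤ 3 / 2}

variable {δ B : ℝ}

lemma sh_UM_zero {x : ℝ} (s : ℝ) : ((dUM δ).pd.sh s (0, x)).2.2.2 = 2 + s := by
  have hw : 1 ≤ (dUM δ).w (0, x) := by
    simp only [dUM, LData.w, hS_f, rS_f]
    rw [mul_zero, zero_add, st_one (le_refl _)]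
    have := hh_nonneg (x - 5)
    linarith
  have hg : (dUM δ).g (0, x) = 1 := lam_of_ge hw
  have hv : (dUM δ).v.d1 0 = 0 := by
    show (rS δ 1).d1 0 = 0
    exact rS_d1_zero (Or.inr (by simp))
  have hP : (dUM δ).P (0, x) = 1 := by
    rw [LData.P_eq, hg]
    have : (dUM δ).gt (0, x) = 0 := by unfold LData.gt; rw [hv, mul_zero]
    rw [this]; simp [dUM]
  show (dUM δ).m + s * √((dUM δ).g (0, x)) * (dUM δ).P (0, x) = 2 + s
  rw [hg, hP]; simp [dUM]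

lemma LData.sh_z (A : LData) {b : ℝ × ℝ} (h : A.v.d1 b.1 = 0) (s : ℝ) :
    (A.pd.sh s b).2.2.2 = A.m + s * (√(A.g b) * A.g b * A.k.f b.2) := by
  have : A.gt b = 0 := by unfold LData.gt; rw [h, mul_zero]
  show A.m + s * √(A.g b) * A.P b = _
  rw [A.P_eq, this]; ring

lemma mu_aux (A : LData) {b : ℝ × ℝ} (hw : 0 ≤ A.w b) :
    0 ≤ √(A.g b) * A.g b ∧ √(A.g b) * A.g b ≤ 1 ∧ (0 < A.w b → 0 < √(A.g b) * A.g b) := by
  have h0 : 0 ≤ A.g b := lam_nonneg_iff.2 hw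
  have h1 : A.g b ≤ 1 := lam_le_one _
  have h2 : √(A.g b) ≤ 1 := Real.sqrt_le_one.2 h1
  have h3 := Real.sqrt_nonneg (A.g b)
  refine ⟨mul_nonneg h3 h0, by nlinarith, ?_⟩
  intro hw
  have : 0 < A.g b := lam_pos hw
  exact mul_pos (Real.sqrt_pos.2 this) this

lemma mu_spec {x : ℝ} (h1 : 1 ≤ x) (h9 : x ≤ 9) : ∃ μ : ℝ, 0 ≤ μ ∧ μ ≤ 1 ∧
    (secU δ (0, x)).2.2.2 = μ ∧ (secL δ (0, x)).2.2.2 = -μ ∧ (1 < x → x < 9 → 0 < μ) := by
  rcases le_or_gt x (5 / 2) with h | h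
  · have hw : (dLU δ).w (0, x) = x - 1 := by
      simp only [dLU, LData.w, hS_f, rS_f]
      rw [mul_zero, zero_add, st_zero (le_refl _), sub_zero, hh_of_ge (by linarith)]
      ring
    have hv : (dLU δ).v.d1 ((0, x) : ℝ × ℝ).1 = 0 := by
      show (rS δ 0).d1 0 = 0
      exact rS_d1_zero (Or.inl (by simp))
    obtain ⟨m1, m2, m3⟩ := mu_aux (dLU δ) (b := (0, x)) (by rw [hw]; linarith)
    refine ⟨_, m1, m2, ?_, ?_, ?_⟩
    · unfold secU
      rw [Z4_2 (by show -(5 / 2) < x; linarith) h, (dLU δ).sh_z hv]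
      simp [dLU]
    · unfold secL
      rw [Z4_2 (by show -(5 / 2) < x; linarith) h, (dLU δ).sh_z hv]
      simp [dLU]
    · intro h _; exact m3 (by rw [hw]; linarith)
  rcases le_or_gt x (15 / 2) with h' | h'
  · refine ⟨1, by norm_num, by norm_num, ?_, ?_, fun _ _ => by norm_num⟩
    · unfold secU
      rw [Z4_3 (by show 5 / 2 < x; linarith) h', sh_UM_zero]; norm_num
    · unfold secL
      rw [Z4_3 (by show 5 / 2 < x; linarith) h', sh_TL (by show -4 < x; linarith)]; norm_num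
  · have hw : dLUr.w (0, x) = 9 - x := by
      simp only [dLUr, LData.w, aS_f, cS_f]
      ring
    have hv : dLUr.v.d1 ((0, x) : ℝ × ℝ).1 = 0 := cS_d1 _ _
    obtain ⟨m1, m2, m3⟩ := mu_aux dLUr (b := (0, x)) (by rw [hw]; linarith)
    refine ⟨_, m1, m2, ?_, ?_, ?_⟩
    · unfold secU
      rw [Z4_4 (by show 15 / 2 < x; linarith), dLUr.sh_z hv]
      simp [dLUr]
    · unfold secL
      rw [Z4_4 (by show 15 / 2 < x; linarith), dLUr.sh_z hv]
      simp [dLUr]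
    · intro _ h; exact m3 (by rw [hw]; linarith)

lemma M_zero {x : ℝ} (h1 : 1 ≤ x) (h9 : x ≤ 9) : (secM δ (0, x)).2.2.2 = 3 := by
  unfold secM
  rcases le_or_gt x (5 / 2) with h | h
  · rw [Z4_2 (by show -(5 / 2) < x; linarith) h, sh_TM (by show x < 10; linarith)]; norm_num
  rcases le_or_gt x (15 / 2) with h' | h'
  · rw [Z4_3 (by show 5 / 2 < x; linarith) h', sh_UM_zero]; norm_num
  · rw [Z4_4 (by show 15 / 2 < x; linarith), sh_TM (by show x < 10; linarith)]; norm_num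

lemma T_zero {t x : ℝ} (h1 : 1 ≤ x) (h9 : x ≤ 9) : (secT (t, x)).2.2.2 = -3 := by
  unfold secT
  rcases le_or_gt x (5 / 2) with h | h
  · rw [Z4_2 (by show -(5 / 2) < x; linarith) h, sh_TM (by show x < 10; linarith)]; norm_num
  rcases le_or_gt x (15 / 2) with h' | h'
  · rw [Z4_3 (by show 5 / 2 < x; linarith) h', sh_TL (by show -4 < x; linarith)]; norm_num
  · rw [Z4_4 (by show 15 / 2 < x; linarith), sh_TM (by show x < 10; linarith)]; norm_num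

lemma UL_one : secU δ (0, 1) = secL δ (0, 1) := by
  unfold secU secL
  rw [Z4_2 (by norm_num) (by norm_num), Z4_2 (by norm_num) (by norm_num)]
  apply (dLU δ).sh_eq
  simp only [dLU, LData.w, hS_f, rS_f]
  rw [mul_zero, zero_add, st_zero (le_refl _), sub_zero, hh_of_ge (by norm_num)]
  ring

/-- parametrisation of the cutting curve -/
def cutg (δ : ℝ) (ζ : Circle) : ℝ × ℝ × ℝ × ℝ :=
  if 0 ≤ (ζ : ℂ).im then secU δ (0, 5 + 4 * (ζ : ℂ).re) else secL δ (0, 5 + 4 * (ζ : ℂ).re)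

lemma circle_eq (ζ : Circle) : (ζ : ℂ).re * (ζ : ℂ).re + (ζ : ℂ).im * (ζ : ℂ).im = 1 := by
  have := Circle.normSq_coe ζ
  rwa [Complex.normSq_apply] at this

lemma circle_re (ζ : Circle) : -1 ≤ (ζ : ℂ).re ∧ (ζ : ℂ).re ≤ 1 := by
  have := circle_eq ζ
  constructor <;> nlinarith [mul_self_nonneg (ζ : ℂ).im]

lemma cutg_cont : Continuous (cutg δ) := by
  unfold cutg
  have hre : Continuous fun ζ : Circle => ((0 : ℝ), 5 + 4 * (ζ : ℂ).re) := by fun_prop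
  refine Continuous.if_le ((secU_cont δ).comp hre) ((secL_cont δ).comp hre) continuous_const
    (by fun_prop) ?_
  intro ζ hζ
  have h := circle_eq ζ
  rw [← hζ] at h
  have h' : ((ζ : ℂ).re - 1) * ((ζ : ℂ).re + 1) = 0 := by linarith
  show secU δ (0, 5 + 4 * (ζ : ℂ).re) = secL δ (0, 5 + 4 * (ζ : ℂ).re)
  rcases mul_eq_zero.1 h' with h | h
  · have : 5 + 4 * (ζ : ℂ).re = 9 := by linarith
    rw [this]
    exact UL_right
  · have : 5 + 4 * (ζ : ℂ).re = 1 := by linarith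
    rw [this]
    exact UL_one

lemma cutg_x (ζ : Circle) : bp (cutg δ ζ) = (0, 5 + 4 * (ζ : ℂ).re) := by
  unfold cutg
  split_ifs
  · exact secU_bp δ _
  · exact secL_bp δ _

lemma cutg_inj : Function.Injective (cutg δ) := by
  intro ζ ζ' h
  have hx : (ζ : ℂ).re = (ζ' : ℂ).re := by
    have h1 := congrArg bp h
    rw [cutg_x, cutg_x] at h1
    have := congrArg Prod.snd h1
    simp only at this
    linarith
  have e1 := circle_eq ζ
  have e2 := circle_eq ζ'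
  have hb := circle_re ζ
  have him : (ζ : ℂ).im = (ζ' : ℂ).im := by
    rw [← hx] at e2
    have h3 : ((ζ : ℂ).im - (ζ' : ℂ).im) * ((ζ : ℂ).im + (ζ' : ℂ).im) = 0 := by linarith
    rcases mul_eq_zero.1 h3 with h4 | h4
    · linarith
    · by_cases h0 : (ζ : ℂ).im = 0
      · rw [h0] at h4 ⊢; linarith
      exfalso
      have h5 : (ζ' : ℂ).im = -(ζ : ℂ).im := by linarith
      have r1 : (ζ : ℂ).re ≠ 1 := by
        intro hr; rw [hr] at e1
        apply h0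
        have : (ζ : ℂ).im * (ζ : ℂ).im = 0 := by linarith
        exact mul_self_eq_zero.1 this
      have r2 : (ζ : ℂ).re ≠ -1 := by
        intro hr; rw [hr] at e1
        apply h0
        have : (ζ : ℂ).im * (ζ : ℂ).im = 0 := by linarith
        exact mul_self_eq_zero.1 this
      have s1 : (ζ : ℂ).re < 1 := lt_of_le_of_ne hb.2 r1
      have s2 : -1 < (ζ : ℂ).re := lt_of_le_of_ne hb.1 (Ne.symm r2)
      obtain ⟨μ, m1, m2, m3, m4, m5⟩ := mu_spec (δ := δ) (x := 5 + 4 * (ζ : ℂ).re)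
        (by linarith) (by linarith)
      have m6 := m5 (by linarith) (by linarith)
      unfold cutg at h
      rw [← hx, h5] at h
      rcases lt_or_gt_of_ne h0 with h6 | h6
      · rw [if_neg (by linarith), if_pos (by linarith)] at h
        rw [h, m3] at m4
        linarith
      · rw [if_pos (by linarith), if_neg (by linarith)] at h
        rw [h, m4] at m3
        linarith
  exact Circle.ext (Complex.ext hx him)

lemma mem_RU_zero {x : ℝ} (h1 : 1 ≤ x) (h9 : x ≤ 9) : ((0, x) : ℝ × ℝ) ∈ RU δ :=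
  ⟨by show -4 ≤ x; linarith, h9, w_LU_pos _ (by show 1 ≤ |x|; rw [abs_of_pos (by linarith)]; exact h1),
    w_UM_top (by simp)⟩

lemma mem_RL_zero {x : ℝ} (h1 : 1 ≤ x) (h9 : x ≤ 9) : ((0, x) : ℝ × ℝ) ∈ RL δ :=
  ⟨by show -8 ≤ x; linarith, h9, w_LU_pos _ (by show 1 ≤ |x|; rw [abs_of_pos (by linarith)]; exact h1)⟩

lemma U_mem {b : ℝ × ℝ} (h : b ∈ RU δ) : secU δ b ∈ LL δ := by
  rw [mem_LL]; right; left; rw [secU_bp]; exact ⟨h, rfl⟩
lemma L_mem {b : ℝ × ℝ} (h : b ∈ RL δ) : secL δ b ∈ LL δ := by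
  rw [mem_LL]; right; right; left; rw [secL_bp]; exact ⟨h, rfl⟩
lemma M_mem {b : ℝ × ℝ} (h : b ∈ RM δ) : secM δ b ∈ LL δ := by
  rw [mem_LL]; left; rw [secM_bp]; exact ⟨h, rfl⟩
lemma T_mem {b : ℝ × ℝ} (h : b ∈ RT) : secT b ∈ LL δ := by
  rw [mem_LL]; right; right; right; rw [secT_bp]; exact ⟨h, rfl⟩

lemma cutc_range : range (cutg δ) = cutc δ := by
  ext q
  constructor
  · rintro ⟨ζ, rfl⟩
    have hb := circle_re ζ
    have e := cutg_x (δ := δ) ζ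
    have e1 : (cutg δ ζ).1 = 0 := congrArg Prod.fst e
    have e2 : (cutg δ ζ).2.1 = 5 + 4 * (ζ : ℂ).re := congrArg Prod.snd e
    obtain ⟨μ, m1, m2, m3, m4, m5⟩ := mu_spec (δ := δ) (x := 5 + 4 * (ζ : ℂ).re)
        (by linarith) (by linarith)
    refine ⟨?_, e1, by rw [e2]; linarith, by rw [e2]; linarith, ?_⟩
    · unfold cutg
      split_ifs
      · exact U_mem (mem_RU_zero (by linarith) (by linarith))
      · exact L_mem (mem_RL_zero (by linarith) (by linarith))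
    · unfold cutg
      split_ifs
      · rw [m3, abs_le]; constructor <;> linarith
      · rw [m4, abs_le]; constructor <;> linarith
  · rintro ⟨h1, h2, h3, h4, h5⟩
    have hbp : bp q = (0, q.2.1) := by
      unfold bp; rw [h2]
    rw [mem_LL, hbp] at h1
    rw [abs_le] at h5
    set a : ℝ := (q.2.1 - 5) / 4 with ha
    have ha1 : -1 ≤ a := by rw [ha]; linarith
    have ha2 : a ≤ 1 := by rw [ha]; linarith
    have hx : 5 + 4 * a = q.2.1 := by rw [ha]; ring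
    have hs : 0 ≤ 1 - a * a := by nlinarith
    have key : ∀ s : ℝ, s * s = 1 → ∃ ζ : Circle, (ζ : ℂ).re = a ∧ (ζ : ℂ).im = s * √(1 - a * a) := by
      intro s hss
      have hn : ‖(⟨a, s * √(1 - a * a)⟩ : ℂ)‖ = 1 := by
        have : Complex.normSq ⟨a, s * √(1 - a * a)⟩ = 1 := by
          rw [Complex.normSq_apply]
          have := Real.mul_self_sqrt hs
          show a * a + s * √(1 - a * a) * (s * √(1 - a * a)) = 1
          linear_combination (s * s) * this + (1 - a * a) * hss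
        rw [Complex.norm_def, this, Real.sqrt_one]
      exact ⟨⟨⟨a, s * √(1 - a * a)⟩, mem_sphere_zero_iff_norm.2 hn⟩, rfl, rfl⟩
    rcases h1 with ⟨r, h⟩ | ⟨r, h⟩ | ⟨r, h⟩ | ⟨r, h⟩
    · have := M_zero (δ := δ) h3 h4
      rw [h] at this; linarith
    · obtain ⟨ζ, hr, hi⟩ := key 1 (by norm_num)
      refine ⟨ζ, ?_⟩
      unfold cutg
      rw [hr, hi, hx, if_pos (by have := Real.sqrt_nonneg (1 - a * a); linarith)]
      exact h
    · obtain ⟨ζ, hr, hi⟩ := key (-1) (by norm_num)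
      refine ⟨ζ, ?_⟩
      unfold cutg
      rw [hr, hi, hx]
      by_cases h0 : 1 - a * a = 0
      · rw [h0]
        simp only [Real.sqrt_zero, mul_zero, le_refl, if_true]
        have h00 : (a - 1) * (a + 1) = 0 := by linarith
        rcases mul_eq_zero.1 h00 with h6 | h6
        · have : q.2.1 = 9 := by rw [← hx]; linarith
          rw [this] at h ⊢
          rw [UL_right]; exact h
        · have : q.2.1 = 1 := by rw [← hx]; linarith
          rw [this] at h ⊢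
          rw [UL_one]; exact h
      · have : 0 < √(1 - a * a) := Real.sqrt_pos.2 (lt_of_le_of_ne hs (Ne.symm h0))
        rw [if_neg (by linarith)]
        exact h
    · have := T_zero (t := 0) h3 h4
      rw [h] at this; linarith

/-- the part of the surface between `-T` and `T`, cut along the curve -/
lemma cut_eq {T : ℝ} : (LL δ ∩ {q | -T ≤ q.1 ∧ q.1 ≤ T}) \ cutc δ =
    (secM δ '' (RM δ ∩ {b | -T ≤ b.1 ∧ b.1 ≤ T}) ∪
      (secU δ '' (RU δ ∩ {b | (-T ≤ b.1 ∧ b.1 ≤ T) ∧ (0 < b.1 ∨ b.2 < 1)}) ∪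
      (secL δ '' (RL δ ∩ {b | (-T ≤ b.1 ∧ b.1 ≤ T) ∧ (0 < b.1 ∨ b.2 < 1)}) ∪
        secT '' (RT ∩ {b | -T ≤ b.1 ∧ b.1 ≤ T})))) ∪
    (secU δ '' {b | ((-T ≤ b.1 ∧ b.1 ≤ T) ∧ b.1 < 0) ∧ (1 ≤ b.2 ∧ b.2 ≤ 9) ∧ 0 ≤ (dUM δ).w b} ∪
      secL δ '' {b | ((-T ≤ b.1 ∧ b.1 ≤ T) ∧ b.1 < 0) ∧ (1 ≤ b.2 ∧ b.2 ≤ 9)}) := by
  ext q
  constructor
  · rintro ⟨⟨h1, h2⟩, h3⟩
    have h1' := h1
    rw [mem_LL] at h1
    rcases h1 with ⟨r, h⟩ | ⟨r, h⟩ | ⟨r, h⟩ | ⟨r, h⟩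
    · exact Or.inl (Or.inl ⟨bp q, ⟨r, h2⟩, h⟩)
    · by_cases hc : 0 < q.1 ∨ q.2.1 < 1
      · exact Or.inl (Or.inr (Or.inl ⟨bp q, ⟨r, h2, hc⟩, h⟩))
      · push Not at hc
        rcases hc.1.lt_or_eq with h0 | h0
        · exact Or.inr (Or.inl ⟨bp q, ⟨⟨h2, h0⟩, ⟨hc.2, r.2.1⟩, r.2.2.2⟩, h⟩)
        · exfalso
          apply h3
          have hbp : bp q = (0, q.2.1) := by unfold bp; rw [h0]
          have h9 : q.2.1 ≤ 9 := r.2.1
          obtain ⟨μ, m1, m2, m3, m4, m5⟩ := mu_spec (δ := δ) hc.2 h9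
          rw [hbp] at h
          rw [h] at m3
          refine ⟨h1', h0, hc.2, h9, ?_⟩
          rw [m3, abs_le]; constructor <;> linarith
    · by_cases hc : 0 < q.1 ∨ q.2.1 < 1
      · exact Or.inl (Or.inr (Or.inr (Or.inl ⟨bp q, ⟨r, h2, hc⟩, h⟩)))
      · push Not at hc
        rcases hc.1.lt_or_eq with h0 | h0
        · exact Or.inr (Or.inr ⟨bp q, ⟨⟨h2, h0⟩, ⟨hc.2, r.2.1⟩⟩, h⟩)
        · exfalso
          apply h3
          have hbp : bp q = (0, q.2.1) := by unfold bp; rw [h0]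
          have h9 : q.2.1 ≤ 9 := r.2.1
          obtain ⟨μ, m1, m2, m3, m4, m5⟩ := mu_spec (δ := δ) hc.2 h9
          rw [hbp] at h
          rw [h] at m4
          refine ⟨h1', h0, hc.2, h9, ?_⟩
          rw [m4, abs_le]; constructor <;> linarith
    · exact Or.inl (Or.inr (Or.inr (Or.inr ⟨bp q, ⟨r, h2⟩, h⟩)))
  · have eM : ∀ b, (secM δ b).1 = b.1 ∧ (secM δ b).2.1 = b.2 := fun b =>
      ⟨congrArg Prod.fst (secM_bp δ b), congrArg Prod.snd (secM_bp δ b)⟩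
    have eU : ∀ b, (secU δ b).1 = b.1 ∧ (secU δ b).2.1 = b.2 := fun b =>
      ⟨congrArg Prod.fst (secU_bp δ b), congrArg Prod.snd (secU_bp δ b)⟩
    have eL : ∀ b, (secL δ b).1 = b.1 ∧ (secL δ b).2.1 = b.2 := fun b =>
      ⟨congrArg Prod.fst (secL_bp δ b), congrArg Prod.snd (secL_bp δ b)⟩
    have eT : ∀ b, (secT b).1 = b.1 ∧ (secT b).2.1 = b.2 := fun b =>
      ⟨congrArg Prod.fst (secT_bp b), congrArg Prod.snd (secT_bp b)⟩
    rintro ((⟨b, hb, rfl⟩ | ⟨b, hb, rfl⟩ | ⟨b, hb, rfl⟩ | ⟨b, hb, rfl⟩) | ⟨b, hb, rfl⟩ | ⟨b, hb, rfl⟩)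
    · refine ⟨⟨M_mem hb.1, by rw [mem_ofPred_eq, (eM b).1]; exact hb.2⟩, ?_⟩
      rintro ⟨-, c1, c2, c3, c4⟩
      rw [(eM b).1] at c1
      rw [(eM b).2] at c2 c3
      have : b = (0, b.2) := by rw [← c1]
      rw [this, M_zero c2 c3] at c4
      norm_num at c4
    · refine ⟨⟨U_mem hb.1, by rw [mem_ofPred_eq, (eU b).1]; exact hb.2.1⟩, ?_⟩
      rintro ⟨-, c1, c2, c3, c4⟩
      rw [(eU b).1] at c1
      rw [(eU b).2] at c2
      rcases hb.2.2 with h | h <;> linarith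
    · refine ⟨⟨L_mem hb.1, by rw [mem_ofPred_eq, (eL b).1]; exact hb.2.1⟩, ?_⟩
      rintro ⟨-, c1, c2, c3, c4⟩
      rw [(eL b).1] at c1
      rw [(eL b).2] at c2
      rcases hb.2.2 with h | h <;> linarith
    · refine ⟨⟨T_mem hb.1, by rw [mem_ofPred_eq, (eT b).1]; exact hb.2⟩, ?_⟩
      rintro ⟨-, c1, c2, c3, c4⟩
      rw [(eT b).1] at c1
      rw [(eT b).2] at c2 c3
      have : b = (0, b.2) := by rw [← c1]
      rw [this, T_zero c2 c3] at c4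
      norm_num at c4
    · obtain ⟨⟨h1, h2⟩, ⟨h3, h4⟩, h5⟩ := hb
      have hm : b ∈ RU δ := ⟨by linarith, h4, w_LU_pos _ (by rw [abs_of_pos (by linarith)]; exact h3), h5⟩
      refine ⟨⟨U_mem hm, by rw [mem_ofPred_eq, (eU b).1]; exact h1⟩, ?_⟩
      rintro ⟨-, c1, -⟩
      rw [(eU b).1] at c1
      linarith
    · obtain ⟨⟨h1, h2⟩, ⟨h3, h4⟩⟩ := hb
      have hm : b ∈ RL δ := ⟨by linarith, h4, w_LU_pos _ (by rw [abs_of_pos (by linarith)]; exact h3)⟩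
      refine ⟨⟨L_mem hm, by rw [mem_ofPred_eq, (eL b).1]; exact h1⟩, ?_⟩
      rintro ⟨-, c1, -⟩
      rw [(eL b).1] at c1
      linarith

lemma conn_union {A C : Set (ℝ × ℝ × ℝ × ℝ)} (hA : IsConnected A) (hC : IsConnected C)
    (x : ℝ × ℝ × ℝ × ℝ) (h1 : x ∈ A) (h2 : x ∈ C) : IsConnected (A ∪ C) :=
  IsConnected.union ⟨x, h1, h2⟩ hA hC

lemma w_UM_crit (hδ : 0 < δ) (x : ℝ) : (dUM δ).w (-(1 / (2 * δ)), x) = hh (x - 5) := by
  simp only [dUM, LData.w, hS_f, rS_f]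
  have : δ * -(1 / (2 * δ)) + 1 = 1 / 2 := by field_simp; ring
  rw [this, st_half]; ring

lemma cut_conn (hδ : 0 < δ) {T : ℝ} (hT : 1 / δ ≤ T) :
    IsConnected ((LL δ ∩ {q | -T ≤ q.1 ∧ q.1 ≤ T}) \ cutc δ) := by
  rw [cut_eq]
  have hT1 : 1 ≤ δ * T := by
    rw [div_le_iff₀ hδ] at hT; linarith
  have hT0 : 0 < T := by
    have : 0 < 1 / δ := by positivity
    linarith
  have hT00 : 0 ≤ δ * T := by linarith
  set ts := -(1 / (2 * δ)) with hts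
  have ts0 : ts < 0 := by
    have : 0 < 1 / (2 * δ) := by positivity
    linarith
  have tsT : -T ≤ ts := by
    have h1 : 1 / (2 * δ) = 1 / δ / 2 := by field_simp
    have : 0 < 1 / δ := by positivity
    rw [hts, h1]; linarith
  have cM : IsConnected (RM δ ∩ {b | -T ≤ b.1 ∧ b.1 ≤ T}) := by
    refine region_conn (t1 := T) (a := -4) (c := 11) (by norm_num) ?_ ?_
    · intro x hx; exact ⟨⟨hx.1, hx.2, w_UM_top hT00⟩, by show -T ≤ T; linarith, le_refl _⟩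
    · rintro b ⟨⟨h1, h2, h3⟩, h4, h5⟩
      refine ⟨⟨h1, h2⟩, ?_⟩
      intro s hs
      rw [uIcc_of_le h5] at hs
      exact ⟨⟨h1, h2, w_UM_mono hδ hs.1 h3⟩, by show -T ≤ s; linarith [hs.1], hs.2⟩
  have cT : IsConnected (RT ∩ {b | -T ≤ b.1 ∧ b.1 ≤ T}) := by
    refine region_conn (t1 := T) (a := -8) (c := 11) (by norm_num) ?_ ?_
    · intro x hx; exact ⟨⟨hx.1, hx.2⟩, by show -T ≤ T; linarith, le_refl _⟩
    · rintro b ⟨⟨h1, h2⟩, h4, h5⟩
      refine ⟨⟨h1, h2⟩, ?_⟩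
      intro s hs
      rw [uIcc_of_le h5] at hs
      exact ⟨⟨h1, h2⟩, by show -T ≤ s; linarith [hs.1], hs.2⟩
  have cU : IsConnected (RU δ ∩ {b | (-T ≤ b.1 ∧ b.1 ≤ T) ∧ (0 < b.1 ∨ b.2 < 1)}) := by
    refine region_conn (t1 := T) (a := -4) (c := 9) (by norm_num) ?_ ?_
    · intro x hx
      exact ⟨⟨hx.1, hx.2, w_LU_top hT1, w_UM_top hT00⟩, ⟨by show -T ≤ T; linarith, le_refl _⟩, Or.inl hT0⟩
    · rintro b ⟨⟨h1, h2, h3, h3'⟩, ⟨h4, h5⟩, h6⟩
      refine ⟨⟨h1, h2⟩, ?_⟩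
      intro s hs
      rw [uIcc_of_le h5] at hs
      refine ⟨⟨h1, h2, w_LU_mono hδ hs.1 h3, w_UM_mono hδ hs.1 h3'⟩,
        ⟨by show -T ≤ s; linarith [hs.1], hs.2⟩, ?_⟩
      rcases h6 with h6 | h6
      · exact Or.inl (lt_of_lt_of_le h6 hs.1)
      · exact Or.inr h6
  have cL : IsConnected (RL δ ∩ {b | (-T ≤ b.1 ∧ b.1 ≤ T) ∧ (0 < b.1 ∨ b.2 < 1)}) := by
    refine region_conn (t1 := T) (a := -8) (c := 9) (by norm_num) ?_ ?_
    · intro x hx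
      exact ⟨⟨hx.1, hx.2, w_LU_top hT1⟩, ⟨by show -T ≤ T; linarith, le_refl _⟩, Or.inl hT0⟩
    · rintro b ⟨⟨h1, h2, h3⟩, ⟨h4, h5⟩, h6⟩
      refine ⟨⟨h1, h2⟩, ?_⟩
      intro s hs
      rw [uIcc_of_le h5] at hs
      refine ⟨⟨h1, h2, w_LU_mono hδ hs.1 h3⟩, ⟨by show -T ≤ s; linarith [hs.1], hs.2⟩, ?_⟩
      rcases h6 with h6 | h6
      · exact Or.inl (lt_of_lt_of_le h6 hs.1)
      · exact Or.inr h6
  have cU' : IsConnected {b : ℝ × ℝ | ((-T ≤ b.1 ∧ b.1 ≤ T) ∧ b.1 < 0) ∧ (1 ≤ b.2 ∧ b.2 ≤ 9) ∧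
      0 ≤ (dUM δ).w b} := by
    have hcrit : ∀ x : ℝ, 0 ≤ (dUM δ).w (ts, x) := by
      intro x; rw [hts, w_UM_crit hδ]; exact hh_nonneg _
    refine region_conn (t1 := ts) (a := 1) (c := 9) (by norm_num) ?_ ?_
    · intro x hx
      exact ⟨⟨⟨tsT, by show ts ≤ T; linarith⟩, ts0⟩, hx, hcrit x⟩
    · rintro b ⟨⟨⟨h1, h2⟩, h3⟩, h4, h5⟩
      refine ⟨h4, ?_⟩
      intro s hs
      rcases le_total b.1 ts with h | h
      · rw [uIcc_of_le h] at hs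
        exact ⟨⟨⟨by show -T ≤ s; linarith [hs.1], by show s ≤ T; linarith [hs.2]⟩,
          by show s < 0; linarith [hs.2]⟩, h4, w_UM_mono hδ hs.1 h5⟩
      · rw [uIcc_of_ge h] at hs
        exact ⟨⟨⟨by show -T ≤ s; linarith [hs.1], by show s ≤ T; linarith [hs.2]⟩,
          by show s < 0; linarith [hs.2]⟩, h4, w_UM_mono hδ hs.1 (hcrit _)⟩
  have cL' : IsConnected {b : ℝ × ℝ | ((-T ≤ b.1 ∧ b.1 ≤ T) ∧ b.1 < 0) ∧ (1 ≤ b.2 ∧ b.2 ≤ 9)} := by
    refine region_conn (t1 := ts) (a := 1) (c := 9) (by norm_num) ?_ ?_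
    · intro x hx
      exact ⟨⟨⟨tsT, by show ts ≤ T; linarith⟩, ts0⟩, hx⟩
    · rintro b ⟨⟨⟨h1, h2⟩, h3⟩, h4⟩
      refine ⟨h4, ?_⟩
      intro s hs
      rcases le_total b.1 ts with h | h
      · rw [uIcc_of_le h] at hs
        exact ⟨⟨⟨by show -T ≤ s; linarith [hs.1], by show s ≤ T; linarith [hs.2]⟩,
          by show s < 0; linarith [hs.2]⟩, h4⟩
      · rw [uIcc_of_ge h] at hs
        exact ⟨⟨⟨by show -T ≤ s; linarith [hs.1], by show s ≤ T; linarith [hs.2]⟩,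
          by show s < 0; linarith [hs.2]⟩, h4⟩
  have iM := cM.image _ (secM_cont δ).continuousOn
  have iU := cU.image _ (secU_cont δ).continuousOn
  have iL := cL.image _ (secL_cont δ).continuousOn
  have iT := cT.image _ secT_cont.continuousOn
  have iU' := cU'.image _ (secU_cont δ).continuousOn
  have iL' := cL'.image _ (secL_cont δ).continuousOn
  have sT : ∀ {x : ℝ}, ((T, x) : ℝ × ℝ) ∈ {b : ℝ × ℝ | -T ≤ b.1 ∧ b.1 ≤ T} := by
    intro x; exact ⟨by show -T ≤ T; linarith, le_refl _⟩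
  have j1 := conn_union iL iT (secL δ (T, -8)) ⟨(T, -8), ⟨⟨by norm_num, by norm_num, w_LU_top hT1⟩,
    sT, Or.inl hT0⟩, rfl⟩ ⟨(T, -8), ⟨⟨by norm_num, by norm_num⟩, sT⟩, LT_left.symm⟩
  have j2 := conn_union iU j1 (secU δ (T, 9)) ⟨(T, 9), ⟨⟨by norm_num, by norm_num, w_LU_top hT1,
    w_UM_top hT00⟩, sT, Or.inl hT0⟩, rfl⟩ (Or.inl ⟨(T, 9), ⟨⟨by norm_num, by norm_num,
    w_LU_top hT1⟩, sT, Or.inl hT0⟩, UL_right.symm⟩)
  have j3 := conn_union iM j2 (secM δ (T, -4)) ⟨(T, -4), ⟨⟨by norm_num, by norm_num,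
    w_UM_top hT00⟩, sT⟩, rfl⟩ (Or.inl ⟨(T, -4), ⟨⟨by norm_num, by norm_num, w_LU_top hT1,
    w_UM_top hT00⟩, sT, Or.inl hT0⟩, MU_left.symm⟩)
  have j4 := conn_union iU' iL' (secU δ (ts, 9)) ⟨(ts, 9), ⟨⟨⟨tsT, by show ts ≤ T; linarith⟩, ts0⟩,
    ⟨by norm_num, by norm_num⟩, by rw [hts, w_UM_crit hδ]; exact hh_nonneg _⟩, rfl⟩
    ⟨(ts, 9), ⟨⟨⟨tsT, by show ts ≤ T; linarith⟩, ts0⟩, ⟨by norm_num, by norm_num⟩⟩,
    UL_right.symm⟩
  have hw5 : (dUM δ).w (ts, 5) = 0 := by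
    rw [hts, w_UM_crit hδ]; simp [hh]
  refine IsConnected.union ⟨secM δ (ts, 5), Or.inl ⟨(ts, 5), ⟨⟨by norm_num, by norm_num,
    by rw [hw5]⟩, tsT, by show ts ≤ T; linarith⟩, rfl⟩, Or.inl ⟨(ts, 5),
    ⟨⟨⟨tsT, by show ts ≤ T; linarith⟩, ts0⟩, ⟨by norm_num, by norm_num⟩, by rw [hw5]⟩, ?_⟩⟩ j3 j4
  exact (MU_hole (by norm_num) hw5).symm

lemma one_le_genus (hδ : 0 < δ) {T : ℝ} (hT : 1 / δ ≤ T) : 1 ≤ genus T (LL δ) := by
  have hT0 : 0 < T := by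
    have : 0 < 1 / δ := by positivity
    linarith
  unfold genus
  refine le_trans ?_ (le_iSup _ ⟨1, fun _ => cutc δ, ?_, ?_, ?_⟩)
  · norm_num
  · intro i
    refine ⟨⟨cutg δ, cutg_cont, cutg_inj, cutc_range⟩, ?_⟩
    rintro q ⟨h1, h2, -⟩
    exact ⟨h1, by show -T < q.1; rw [h2]; linarith, by rw [h2]; exact hT0⟩
  · intro i j hij
    exact absurd (Subsingleton.elim i j) hij
  · have : (⋃ _ : Fin 1, cutc δ) = cutc δ := iUnion_const _
    rw [this]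
    exact cut_conn hδ hT

end

end Pool.Agent.MP_70d14f_gt
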