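import Pool.Agent.Lib.MP_70d14f_gt.LKnot
import Pool.Agent.Lib.MP_70d14f_gt.LGenus

namespace Pool.Agent.MP_70d14f_gt

open Set Topology

noncomputable section

variable {δ B : ℝ}

lemma LData.piece_static (A : LData) {t t' : ℝ} (h0 : A.v.f t = A.v.f t')
    (h1 : A.v.d1 t = A.v.d1 t') (p : ℝ × ℝ × ℝ) :
    ((t, p) : ℝ × ℝ × ℝ × ℝ) ∈ A.pd.piece ↔ ((t', p) : ℝ × ℝ × ℝ × ℝ) ∈ A.pd.piece := by
  have hw : A.w (t, p.1) = A.w (t', p.1) := by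
    show A.u.f p.1 + A.v.f t = A.u.f p.1 + A.v.f t'
    rw [h0]
  have hg : A.g (t, p.1) = A.g (t', p.1) := by unfold LData.g; rw [hw]
  have hP : A.P (t, p.1) = A.P (t', p.1) := by
    unfold LData.P; rw [hw]
    show (_ + 3 / 2 * _ * A.v.d1 t) * _ = (_ + 3 / 2 * _ * A.v.d1 t') * _
    rw [h1]
  have hQ : A.Q (t, p.1) = A.Q (t', p.1) := by unfold LData.Q; rw [hw]
  show (∃ η : ℝ, η ^ 2 = A.g (t, p.1) ∧ p.2.1 = η * A.Q (t, p.1) ∧ p.2.2 = A.m + η * A.P (t, p.1)) ↔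
    (∃ η : ℝ, η ^ 2 = A.g (t', p.1) ∧ p.2.1 = η * A.Q (t', p.1) ∧ p.2.2 = A.m + η * A.P (t', p.1))
  rw [hg, hP, hQ]

lemma rS_static {e t t' : ℝ} (h : (δ * t + e ≤ 0 ∧ δ * t' + e ≤ 0) ∨ (1 ≤ δ * t + e ∧ 1 ≤ δ * t' + e)) :
    (rS δ e).f t = (rS δ e).f t' ∧ (rS δ e).d1 t = (rS δ e).d1 t' := by
  rcases h with ⟨h1, h2⟩ | ⟨h1, h2⟩
  · rw [rS_f, rS_f, st_zero h1, st_zero h2, rS_d1_zero (Or.inl h1), rS_d1_zero (Or.inl h2)]
    exact ⟨rfl, rfl⟩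
  · rw [rS_f, rS_f, st_one h1, st_one h2, rS_d1_zero (Or.inr h1), rS_d1_zero (Or.inr h2)]
    exact ⟨rfl, rfl⟩

lemma LL_static {t t' : ℝ} (h : (δ * t ≤ -1 ∧ δ * t' ≤ -1) ∨ (1 ≤ δ * t ∧ 1 ≤ δ * t'))
    (p : ℝ × ℝ × ℝ) : ((t, p) : ℝ × ℝ × ℝ × ℝ) ∈ LL δ ↔ ((t', p) : ℝ × ℝ × ℝ × ℝ) ∈ LL δ := by
  have a1 := dUMl.piece_static (t := t) (t' := t') rfl
    (by show (cS 0).d1 _ = (cS 0).d1 _; rw [cS_d1, cS_d1]) p
  have a2 := dTL.piece_static (t := t) (t' := t') rfl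
    (by show (cS 0).d1 _ = (cS 0).d1 _; rw [cS_d1, cS_d1]) p
  have a3 := dTM.piece_static (t := t) (t' := t') rfl
    (by show (cS 0).d1 _ = (cS 0).d1 _; rw [cS_d1, cS_d1]) p
  have a4 := dLUr.piece_static (t := t) (t' := t') rfl
    (by show (cS 0).d1 _ = (cS 0).d1 _; rw [cS_d1, cS_d1]) p
  have b5 := rS_static (δ := δ) (e := 0) (t := t) (t' := t')
    (by rcases h with ⟨h1, h2⟩ | ⟨h1, h2⟩
        · left; constructor <;> linarith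
        · right; constructor <;> linarith)
  have b6 := rS_static (δ := δ) (e := 1) (t := t) (t' := t')
    (by rcases h with ⟨h1, h2⟩ | ⟨h1, h2⟩
        · left; constructor <;> linarith
        · right; constructor <;> linarith)
  have a5 := (dLU δ).piece_static (t := t) (t' := t') b5.1 b5.2 p
  have a6 := (dUM δ).piece_static (t := t) (t' := t') b6.1 b6.2 p
  unfold LL
  simp only [mem_ofPred_eq]
  rw [a1, a2, a3, a4, a5, a6]

/-- arcs of the slices -/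
def arc (sec : ℝ × ℝ → ℝ × ℝ × ℝ × ℝ) (T0 a c : ℝ) : Set (ℝ × ℝ × ℝ) :=
  (fun x : ℝ => (sec (T0, x)).2) '' Icc a c

lemma arc_conn {sec : ℝ × ℝ → ℝ × ℝ × ℝ × ℝ} (hs : Continuous sec) (T0 : ℝ) {a c : ℝ}
    (h : a ≤ c) : IsConnected (arc sec T0 a c) :=
  (isConnected_Icc h).image _ (by fun_prop)

lemma arc_union {sec sec' : ℝ × ℝ → ℝ × ℝ × ℝ × ℝ} {T0 a c : ℝ} {C : Set (ℝ × ℝ × ℝ)}
    (h1 : IsConnected (arc sec T0 a c)) (h2 : IsConnected C) (x : ℝ) (hx : x ∈ Icc a c)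
    (hx' : (sec' (T0, x)).2 ∈ C) (he : sec (T0, x) = sec' (T0, x)) :
    IsConnected (arc sec T0 a c ∪ C) := by
  refine IsConnected.union ⟨(sec (T0, x)).2, ⟨x, hx, rfl⟩, ?_⟩ h1 h2
  rw [he]; exact hx'

lemma mem_slc_aux {sec : ℝ × ℝ → ℝ × ℝ × ℝ × ℝ} (hb : ∀ b, bp (sec b) = b) {T0 : ℝ}
    {p : ℝ × ℝ × ℝ} {R : Set (ℝ × ℝ)} :
    (bp ((T0, p) : ℝ × ℝ × ℝ × ℝ) ∈ R ∧ sec (bp ((T0, p) : ℝ × ℝ × ℝ × ℝ)) = (T0, p)) ↔
      ∃ x : ℝ, (T0, x) ∈ R ∧ (sec (T0, x)).2 = p := by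
  constructor
  · rintro ⟨h1, h2⟩
    refine ⟨p.1, h1, ?_⟩
    have h3 : sec (T0, p.1) = (T0, p) := h2
    rw [h3]
  · rintro ⟨x, h1, h2⟩
    have h3 : (sec (T0, x)).1 = T0 := congrArg Prod.fst (hb (T0, x))
    have h4 : sec (T0, x) = (T0, p) := by
      rw [← h2]
      exact Prod.ext h3 rfl
    have h5 : bp ((T0, p) : ℝ × ℝ × ℝ × ℝ) = (T0, x) := by rw [← h4]; exact hb _
    rw [h5]
    exact ⟨h1, h4⟩

lemma mem_slc {T0 : ℝ} {p : ℝ × ℝ × ℝ} : p ∈ slc δ T0 ↔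
    (∃ x : ℝ, (T0, x) ∈ RM δ ∧ (secM δ (T0, x)).2 = p) ∨
    (∃ x : ℝ, (T0, x) ∈ RU δ ∧ (secU δ (T0, x)).2 = p) ∨
    (∃ x : ℝ, (T0, x) ∈ RL δ ∧ (secL δ (T0, x)).2 = p) ∨
    (∃ x : ℝ, (T0, x) ∈ RT ∧ (secT (T0, x)).2 = p) := by
  show ((T0, p) : ℝ × ℝ × ℝ × ℝ) ∈ LL δ ↔ _
  rw [mem_LL, mem_slc_aux (secM_bp δ), mem_slc_aux (secU_bp δ), mem_slc_aux (secL_bp δ),
    mem_slc_aux secT_bp]

lemma slc_top_conn {T0 : ℝ} (h : 1 ≤ δ * T0) : IsConnected (slc δ T0) := by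
  have h0 : 0 ≤ δ * T0 := by linarith
  have e : slc δ T0 = arc (secM δ) T0 (-4) 11 ∪ (arc (secU δ) T0 (-4) 9 ∪
      (arc (secL δ) T0 (-8) 9 ∪ arc secT T0 (-8) 11)) := by
    ext p
    rw [mem_slc]
    unfold arc
    simp only [mem_union, mem_image, mem_Icc]
    constructor
    · rintro (⟨x, hx, rfl⟩ | ⟨x, hx, rfl⟩ | ⟨x, hx, rfl⟩ | ⟨x, hx, rfl⟩)
      · exact Or.inl ⟨x, ⟨hx.1, hx.2.1⟩, rfl⟩
      · exact Or.inr (Or.inl ⟨x, ⟨hx.1, hx.2.1⟩, rfl⟩)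
      · exact Or.inr (Or.inr (Or.inl ⟨x, ⟨hx.1, hx.2.1⟩, rfl⟩))
      · exact Or.inr (Or.inr (Or.inr ⟨x, hx, rfl⟩))
    · rintro (⟨x, hx, rfl⟩ | ⟨x, hx, rfl⟩ | ⟨x, hx, rfl⟩ | ⟨x, hx, rfl⟩)
      · exact Or.inl ⟨x, ⟨hx.1, hx.2, w_UM_top h0⟩, rfl⟩
      · exact Or.inr (Or.inl ⟨x, ⟨hx.1, hx.2, w_LU_top h, w_UM_top h0⟩, rfl⟩)
      · exact Or.inr (Or.inr (Or.inl ⟨x, ⟨hx.1, hx.2, w_LU_top h⟩, rfl⟩))
      · exact Or.inr (Or.inr (Or.inr ⟨x, hx, rfl⟩))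
  rw [e]
  have cT : IsConnected (arc secT T0 (-8) 11) := arc_conn secT_cont _ (by norm_num)
  have cL := arc_union (sec' := secT) (arc_conn (secL_cont δ) T0 (a := -8) (c := 9) (by norm_num)) cT
    (-8) (by norm_num) ⟨-8, by norm_num, rfl⟩ LT_left
  have cU := arc_union (sec' := secL δ) (arc_conn (secU_cont δ) T0 (a := -4) (c := 9) (by norm_num)) cL
    9 (by norm_num) (Or.inl ⟨9, by norm_num, rfl⟩) UL_right
  exact arc_union (sec' := secU δ) (arc_conn (secM_cont δ) T0 (a := -4) (c := 11) (by norm_num)) cU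
    (-4) (by norm_num) (Or.inl ⟨-4, by norm_num, rfl⟩) MU_left

lemma w_UM_bot {t x : ℝ} (h : δ * t ≤ -1) : (dUM δ).w (t, x) = hh (x - 5) - 1 := by
  simp only [dUM, LData.w, hS_f, rS_f]
  rw [st_zero (by linarith)]; ring

lemma w_LU_bot {t x : ℝ} (h : δ * t ≤ 0) : (dLU δ).w (t, x) = hh x - 1 := by
  simp only [dLU, LData.w, hS_f, rS_f]
  rw [st_zero (by linarith), sub_zero]; ring

lemma hh_ge_one {u : ℝ} : 0 ≤ hh u - 1 ↔ u ≤ -1 ∨ 1 ≤ u := by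
  constructor
  · intro h
    have h1 := hh_le_abs u
    have h2 : 1 ≤ |u| := by linarith
    rcases le_abs'.1 h2 with h3 | h3
    · exact Or.inl h3
    · exact Or.inr h3
  · intro h
    rw [hh_eq_abs]
    · rcases h with h | h
      · rw [abs_of_neg (by linarith)]; linarith
      · rw [abs_of_pos (by linarith)]; linarith
    · rcases h with h | h
      · rw [abs_of_neg (by linarith)]; linarith
      · rw [abs_of_pos (by linarith)]; linarith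

lemma UL_hole {t x : ℝ} (hx : |x| ≤ 5 / 4) (h : (dLU δ).w (t, x) = 0) :
    secU δ (t, x) = secL δ (t, x) := by
  rw [abs_le] at hx
  unfold secU secL
  rw [Z4_2 (by show -(5 / 2) < x; linarith) (by show x ≤ 5 / 2; linarith),
    Z4_2 (by show -(5 / 2) < x; linarith) (by show x ≤ 5 / 2; linarith)]
  exact (dLU δ).sh_eq h _ _

lemma slc_bot_conn {T0 : ℝ} (h : δ * T0 ≤ -1) : IsConnected (slc δ T0) := by
  have h0 : δ * T0 ≤ 0 := by linarith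
  have e : slc δ T0 = arc (secM δ) T0 (-4) 4 ∪ (arc (secU δ) T0 1 4 ∪ (arc (secL δ) T0 1 9 ∪
      (arc (secU δ) T0 6 9 ∪ (arc (secM δ) T0 6 11 ∪ (arc secT T0 (-8) 11 ∪
      (arc (secL δ) T0 (-8) (-1) ∪ arc (secU δ) T0 (-4) (-1))))))) := by
    ext p
    rw [mem_slc]
    unfold arc RM RU RL RT
    simp only [mem_union, mem_image, mem_Icc, mem_ofPred_eq, w_UM_bot h, w_LU_bot h0, hh_ge_one]
    constructor
    · rintro (⟨x, hx, rfl⟩ | ⟨x, hx, rfl⟩ | ⟨x, hx, rfl⟩ | ⟨x, hx, rfl⟩)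
      · rcases hx.2.2 with h1 | h1
        · exact Or.inl ⟨x, ⟨hx.1, by linarith⟩, rfl⟩
        · exact Or.inr (Or.inr (Or.inr (Or.inr (Or.inl ⟨x, ⟨by linarith, hx.2.1⟩, rfl⟩))))
      · obtain ⟨h1, h2, h3, h4⟩ := hx
        rcases h3 with h3 | h3
        · exact Or.inr (Or.inr (Or.inr (Or.inr (Or.inr (Or.inr (Or.inr ⟨x, ⟨h1, h3⟩, rfl⟩))))))
        · rcases h4 with h4 | h4
          · exact Or.inr (Or.inl ⟨x, ⟨h3, by linarith⟩, rfl⟩)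
          · exact Or.inr (Or.inr (Or.inr (Or.inl ⟨x, ⟨by linarith, h2⟩, rfl⟩)))
      · obtain ⟨h1, h2, h3⟩ := hx
        rcases h3 with h3 | h3
        · exact Or.inr (Or.inr (Or.inr (Or.inr (Or.inr (Or.inr (Or.inl ⟨x, ⟨h1, h3⟩, rfl⟩))))))
        · exact Or.inr (Or.inr (Or.inl ⟨x, ⟨h3, h2⟩, rfl⟩))
      · exact Or.inr (Or.inr (Or.inr (Or.inr (Or.inr (Or.inl ⟨x, hx, rfl⟩)))))
    · rintro (⟨x, hx, rfl⟩ | ⟨x, hx, rfl⟩ | ⟨x, hx, rfl⟩ | ⟨x, hx, rfl⟩ | ⟨x, hx, rfl⟩ |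
        ⟨x, hx, rfl⟩ | ⟨x, hx, rfl⟩ | ⟨x, hx, rfl⟩)
      · exact Or.inl ⟨x, ⟨hx.1, by linarith [hx.2], Or.inl (by linarith [hx.2])⟩, rfl⟩
      · exact Or.inr (Or.inl ⟨x, ⟨by linarith [hx.1], by linarith [hx.2], Or.inr hx.1,
          Or.inl (by linarith [hx.2])⟩, rfl⟩)
      · exact Or.inr (Or.inr (Or.inl ⟨x, ⟨by linarith [hx.1], hx.2, Or.inr hx.1⟩, rfl⟩))
      · exact Or.inr (Or.inl ⟨x, ⟨by linarith [hx.1], hx.2, Or.inr (by linarith [hx.1]),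
          Or.inr (by linarith [hx.1])⟩, rfl⟩)
      · exact Or.inl ⟨x, ⟨by linarith [hx.1], hx.2, Or.inr (by linarith [hx.1])⟩, rfl⟩
      · exact Or.inr (Or.inr (Or.inr ⟨x, hx, rfl⟩))
      · exact Or.inr (Or.inr (Or.inl ⟨x, ⟨hx.1, by linarith [hx.2], Or.inl hx.2⟩, rfl⟩))
      · exact Or.inr (Or.inl ⟨x, ⟨hx.1, by linarith [hx.2], Or.inl hx.2,
          Or.inl (by linarith [hx.2])⟩, rfl⟩)
  rw [e]
  have w1 : ∀ x : ℝ, hh x = 1 → (dLU δ).w (T0, x) = 0 := by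
    intro x hx; rw [w_LU_bot h0, hx]; ring
  have w2 : ∀ x : ℝ, hh (x - 5) = 1 → (dUM δ).w (T0, x) = 0 := by
    intro x hx; rw [w_UM_bot h, hx]; ring
  have cU1 : IsConnected (arc (secU δ) T0 (-4) (-1)) := arc_conn (secU_cont δ) _ (by norm_num)
  have c1 := arc_union (sec' := secU δ) (arc_conn (secL_cont δ) T0 (a := -8) (c := -1) (by norm_num))
    cU1 (-1) (by norm_num) ⟨-1, by norm_num, rfl⟩
    (UL_hole (by rw [abs_of_neg (by norm_num)]; norm_num)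
      (w1 _ (by rw [hh_of_le (by norm_num)]; norm_num))).symm
  have c2 := arc_union (sec' := secL δ) (arc_conn secT_cont T0 (a := -8) (c := 11) (by norm_num))
    c1 (-8) (by norm_num) (Or.inl ⟨-8, by norm_num, rfl⟩) LT_left.symm
  have c3 := arc_union (sec' := secT) (arc_conn (secM_cont δ) T0 (a := 6) (c := 11) (by norm_num))
    c2 11 (by norm_num) (Or.inl ⟨11, by norm_num, rfl⟩) MT_right
  have c4 := arc_union (sec' := secM δ) (arc_conn (secU_cont δ) T0 (a := 6) (c := 9) (by norm_num))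
    c3 6 (by norm_num) (Or.inl ⟨6, by norm_num, rfl⟩)
    (MU_hole (by norm_num) (w2 _ (by rw [hh_of_ge (by norm_num)]; norm_num))).symm
  have c5 := arc_union (sec' := secU δ) (arc_conn (secL_cont δ) T0 (a := 1) (c := 9) (by norm_num))
    c4 9 (by norm_num) (Or.inl ⟨9, by norm_num, rfl⟩) UL_right.symm
  have c6 := arc_union (sec' := secL δ) (arc_conn (secU_cont δ) T0 (a := 1) (c := 4) (by norm_num))
    c5 1 (by norm_num) (Or.inl ⟨1, by norm_num, rfl⟩)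
    (UL_hole (by rw [abs_of_pos (by norm_num)]; norm_num)
      (w1 _ (by rw [hh_of_ge (by norm_num)])))
  exact arc_union (sec' := secU δ) (arc_conn (secM_cont δ) T0 (a := -4) (c := 4) (by norm_num))
    c6 4 (by norm_num) (Or.inl ⟨4, by norm_num, rfl⟩)
    (MU_hole (by norm_num) (w2 _ (by rw [hh_of_le (by norm_num)]; norm_num)))

/-- value of the orientation at a point of the bottom strand -/
lemma ori_base (G : Good δ B) {o : ℝ × ℝ × ℝ × ℝ → LinearMap.BilinForm ℝ (ℝ × ℝ × ℝ × ℝ)}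
    (ho : ∀ i q, q ∈ LL δ → q ∈ chW i → o q = chS i • (chD δ i).pd.ori q) (t T0 : ℝ)
    (ht : δ * T0 < -1 ∨ 1 < δ * T0) (hc : IsConnected (slc δ T0)) :
    ((t, 0, 0, -3) : ℝ × ℝ × ℝ × ℝ) ∈ LL δ ∧
    0 < o (t, 0, 0, -3) (1, 0) (0, (kn G ht hc).dir (0, 0, -3)) := by
  have hm : ∀ s : ℝ, ((s, 0, 0, -3) : ℝ × ℝ × ℝ × ℝ) ∈ LL δ := by
    intro s
    rw [zone2 (by norm_num) (by norm_num)]
    right
    rw [mem_TM_flat (by norm_num)]
    norm_num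
  have hW : ∀ s : ℝ, ((s, 0, 0, -3) : ℝ × ℝ × ℝ × ℝ) ∈ chW Ch.TM := by
    intro s
    left
    norm_num
  have hf : ∀ s : ℝ, (chD δ Ch.TM).flat (bp ((s, 0, 0, -3) : ℝ × ℝ × ℝ × ℝ)) := by
    intro s
    exact flat_TM (by show (0 : ℝ) < 10; norm_num)
  have hp : ∀ s : ℝ, ((s, 0, 0, -3) : ℝ × ℝ × ℝ × ℝ) ∈ (chD δ Ch.TM).pd.piece :=
    fun s => (ch_loc G _ _ (hW s)).1 (hm s)
  refine ⟨hm t, ?_⟩
  have e : (kn G ht hc).dir (0, 0, -3) = (-2, 0, 0) := by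
    show (exists_dir G).choose (T0, 0, 0, -3) = _
    rw [(exists_dir G).choose_spec Ch.TM _ (hm T0) (hW T0), chV_flat _ (hp T0) (hf T0)]
    norm_num [sz]
  rw [e, ho Ch.TM _ (hm t) (hW t), (ch_flat_values _ (hp t) (hf t)).1]
  norm_num [sz]

theorem LL_cobordism (G : Good δ B) {T : ℝ} (hT : 1 / δ < T) (h1 : δ * (-T) < -1 ∨ 1 < δ * (-T))
    (h2 : δ * T < -1 ∨ 1 < δ * T) (c1 : IsConnected (slc δ (-T))) (c2 : IsConnected (slc δ T)) :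
    IsCobordism (kn G h1 c1).toOrientedKnot (kn G h2 c2).toOrientedKnot T (LL δ) := by
  have hδ := G.hδ
  have hT1 : 1 < δ * T := by
    rw [div_lt_iff₀ hδ] at hT; linarith
  have hT0 : 0 < T := by
    have : 0 < 1 / δ := by positivity
    linarith
  have cylm : ∀ q : ℝ × ℝ × ℝ × ℝ, q.1 ∈ {t : ℝ | δ * t < -1} →
      (q ∈ LL δ ↔ q.2 ∈ (kn G h1 c1).carrier) := by
    intro q hq
    have hq' : δ * q.1 < -1 := hq
    exact LL_static (Or.inl ⟨by linarith, by linarith⟩) q.2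
  have cylp : ∀ q : ℝ × ℝ × ℝ × ℝ, q.1 ∈ {t : ℝ | 1 < δ * t} →
      (q ∈ LL δ ↔ q.2 ∈ (kn G h2 c2).carrier) := by
    intro q hq
    have hq' : 1 < δ * q.1 := hq
    exact LL_static (Or.inr ⟨by linarith, by linarith⟩) q.2
  have hmul : Continuous fun t : ℝ => δ * t := by fun_prop
  refine ⟨hT0, LL_closed, LL_connected hδ, LL_compact T, ?_, ?_, ?_⟩
  · intro q hq
    exact cylm q (by show δ * q.1 < -1; nlinarith)
  · intro q hq
    exact cylp q (by show 1 < δ * q.1; nlinarith)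
  · obtain ⟨o, ho, hoc, hov⟩ := (lAtlas G).exists_ori
    refine ⟨o, hoc, hov, ?_, ?_⟩
    · obtain ⟨b1, b2⟩ := ori_base G ho (-T) (-T) h1 c1
      have := end_sign (I := Iic (-T)) (J := {t : ℝ | δ * t < -1})
        (isOpen_lt hmul continuous_const) (by
          intro t ht
          have ht' : t ≤ -T := ht
          show δ * t < -1
          nlinarith) isPreconnected_Iic cylm hoc hov b1 (mem_Iic.2 (le_refl (-T))) b2
      intro p hp ht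
      exact this p hp ht
    · obtain ⟨b1, b2⟩ := ori_base G ho T T h2 c2
      have := end_sign (I := Ici T) (J := {t : ℝ | 1 < δ * t})
        (isOpen_lt continuous_const hmul) (by
          intro t ht
          have ht' : T ≤ t := ht
          show 1 < δ * t
          nlinarith) isPreconnected_Ici cylp hoc hov b1 (mem_Ici.2 (le_refl T)) b2
      intro p hp ht
      exact this p hp ht

end

end Pool.Agent.MP_70d14f_gt
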