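import Pool.Agent.Lib.MP_70d14f_gt.LProps

namespace Pool.Agent.MP_70d14f_gt

open Set Topology

noncomputable section

variable {δ B : ℝ}

/-- the atlas of the Lagrangian surface -/
def lAtlas (G : Good δ B) : Atlas (LL δ) where
  ι := Ch
  D := fun i => (chD δ i).pd
  W := chW
  sgn := chS
  open_W := chW_open
  cover := ch_cover G
  loc := ch_loc G
  reg := fun i q hq hS => ch_reg G i q ((ch_loc G i q hq).1 hS)
  sgn_ne := by intro i; cases i <;> norm_num [chS]
  compat := by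
    intro i j q hS hi hj
    by_cases hij : i = j
    · subst hij; rfl
    · obtain ⟨f1, f2⟩ := ch_overlap (δ := δ) hij hi hj
      rw [(ch_flat_values i ((ch_loc G i q hi).1 hS) f1).1,
        (ch_flat_values j ((ch_loc G j q hj).1 hS) f2).1]

lemma rS_d1_zero {δ e t : ℝ} (h : δ * t + e ≤ 0 ∨ 1 ≤ δ * t + e) : (rS δ e).d1 t = 0 := by
  rw [rS_d1]
  rcases h with h | h
  · rw [deriv_st_zero h]; ring
  · rw [deriv_st_zero' h]; ring

lemma ch_static (i : Ch) {t : ℝ} (ht : δ * t ≤ -1 ∨ 1 ≤ δ * t) : (chD δ i).v.d1 t = 0 := by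
  cases i
  · exact cS_d1 _ _
  · exact cS_d1 _ _
  · exact rS_d1_zero (by rcases ht with h | h; · left; linarith
                         · right; linarith)
  · exact cS_d1 _ _
  · exact rS_d1_zero (by rcases ht with h | h; · left; linarith
                         · right; linarith)
  · exact cS_d1 _ _

lemma ch_prim_zero (i : Ch) {q : ℝ × ℝ × ℝ × ℝ} (ht : δ * q.1 ≤ -1 ∨ 1 ≤ δ * q.1) :
    (chD δ i).prim q = 0 := by
  have h : (chD δ i).gt (bp q) = 0 := by
    unfold LData.gt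
    have : (chD δ i).v.d1 (bp q).1 = 0 := ch_static i ht
    rw [this, mul_zero]
  unfold LData.prim
  rw [h]; ring

lemma ch_Del (G : Good δ B) (i : Ch) {q : ℝ × ℝ × ℝ × ℝ} (hi : q ∈ chW i)
    (hq : q ∈ (chD δ i).pd.piece) : (chD δ i).Del (bp q) ≠ 1 := by
  have hw := (chD δ i).w_nonneg hq
  cases i
  · rw [LData.Del_static _ (fun t => cS_d1 _ _) (fun t => cS_d2 _ _)]; norm_num
  · rw [LData.Del_static _ (fun t => cS_d1 _ _) (fun t => cS_d2 _ _)]; norm_num
  · refine Del_small G 0 0 0 _ ?_ hw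
    show |q.2.1 - 0| ≤ 3
    rw [abs_le]; constructor <;> linarith [hi.1.1, hi.1.2]
  · rw [LData.Del_static _ (fun t => cS_d1 _ _) (fun t => cS_d2 _ _)]; norm_num
  · refine Del_small G 5 1 2 _ ?_ hw
    show |q.2.1 - 5| ≤ 3
    rw [abs_le]; constructor <;> linarith [hi.1.1, hi.1.2]
  · rw [LData.Del_static _ (fun t => cS_d1 _ _) (fun t => cS_d2 _ _)]; norm_num

lemma ch_kpos (i : Ch) {q : ℝ × ℝ × ℝ × ℝ} (hw : (chD δ i).w (bp q) = 0) :
    0 < chE i * (chD δ i).k.f q.2.1 := by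
  cases i
  case TL =>
    have h : q.2.1 = -8 := by
      simp [chD, dTL, LData.w, bp] at hw
      linarith
    show 0 < (-1 : ℝ) * kt q.2.1
    rw [h, kt_of_le (by norm_num)]
    norm_num
  all_goals norm_num [chE, chD, dUMl, dLU, dTM, dUM, dLUr]

lemma chE_sq (i : Ch) : chE i * chE i = 1 := by cases i <;> norm_num [chE]

theorem LL_exactMaslovZero (G : Good δ B) {T : ℝ} (hT : 1 / δ ≤ T) :
    IsExactMaslovZero T (LL δ) := by
  have hδ := G.hδ
  have hT' : 1 ≤ δ * T := by
    rw [div_le_iff₀ hδ] at hT; linarith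
  set A := lAtlas G with hA
  have hreg : ∀ i q, q ∈ LL δ → q ∈ chW i → (chD δ i).pd.reg (bp q) :=
    fun i q hq hi => ch_reg G i q ((ch_loc G i q hi).1 hq)
  have hpc : ∀ i q, q ∈ LL δ → q ∈ chW i → q ∈ (chD δ i).pd.piece :=
    fun i q hq hi => (ch_loc G i q hi).1 hq
  refine ⟨?_, ?_, ?_⟩
  · intro p hp
    obtain ⟨i, hi⟩ := ch_cover G p hp
    refine ⟨(chD δ i).pd.tsp p, A.tangent (i := i) hp hi, ?_⟩
    intro v hv w hw
    exact (chD δ i).omega_zero (hreg i p hp hi) (hpc i p hp hi) hv hw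
  · obtain ⟨f, hf⟩ := glue (LL δ) chW (fun i => (chD δ i).prim) (by
      intro i j q hS hi hj
      by_cases hij : i = j
      · subst hij; rfl
      · obtain ⟨f1, f2⟩ := ch_overlap (δ := δ) hij hi hj
        rw [(ch_flat_values i ((ch_loc G i q hi).1 hS) f1).2.2,
          (ch_flat_values j ((ch_loc G j q hj).1 hS) f2).2.2])
    refine ⟨f, ?_, ⟨0, ?_⟩, ⟨0, ?_⟩⟩
    · intro p hp
      obtain ⟨i, hi⟩ := ch_cover G p hp
      refine ⟨(chD δ i).pd.tsp p, A.tangent (i := i) hp hi, (chD δ i).prim,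
        (chD δ i).prim_contDiffAt (hreg i p hp hi).1, ?_, ?_⟩
      · have h1 : chW i ∈ 𝓝[LL δ] p := mem_nhdsWithin_of_mem_nhds ((chW_open i).mem_nhds hi)
        filter_upwards [h1, self_mem_nhdsWithin] with r hr hrS
        exact (hf i r hrS hr).symm
      · intro v hv
        exact (chD δ i).fderiv_prim (hreg i p hp hi) (hpc i p hp hi) hv
    · intro p hp ht
      obtain ⟨i, hi⟩ := ch_cover G p hp
      rw [hf i p hp hi]
      apply ch_prim_zero
      left
      nlinarith
    · intro p hp ht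
      obtain ⟨i, hi⟩ := ch_cover G p hp
      rw [hf i p hp hi]
      apply ch_prim_zero
      right
      nlinarith
  · obtain ⟨θ, hθ⟩ := glue (LL δ) chW (fun i => (chD δ i).phase (chE i) (chN i)) (by
      intro i j q hS hi hj
      by_cases hij : i = j
      · subst hij; rfl
      · obtain ⟨f1, f2⟩ := ch_overlap (δ := δ) hij hi hj
        rw [(ch_flat_values i ((ch_loc G i q hi).1 hS) f1).2.1,
          (ch_flat_values j ((ch_loc G j q hj).1 hS) f2).2.1])
    refine ⟨θ, ?_, ?_⟩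
    · refine glue_continuousOn chW_open (ch_cover G) hθ ?_
      intro i q hq hi
      exact (chD δ i).phase_continuousAt (hreg i q hq hi) (hpc i q hq hi) (chE_sq i) _
        (ch_Del G i hi (hpc i q hq hi)) (fun hw => ch_kpos i hw)
    · intro p hp
      obtain ⟨i, hi⟩ := ch_cover G p hp
      refine ⟨(chD δ i).pd.tsp p, A.tangent (i := i) hp hi, ?_⟩
      intro v hv w hw
      rw [hθ i p hp hi]
      exact (chD δ i).phase_spec (hreg i p hp hi) (hpc i p hp hi) hv hw (chE_sq i) _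

end

end Pool.Agent.MP_70d14f_gt
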