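import Pool.Agent.Lib.MP_70d14f_gt.Sheets
import Pool.Agent.Lib.MP_70d14f_gt.LMain

namespace Pool.Agent.MP_70d14f_gt

open Set Topology

noncomputable section

/-- points of a sheet over a region -/
def ov (sec : ℝ × ℝ → ℝ × ℝ × ℝ × ℝ) (R : Set (ℝ × ℝ)) : Set (ℝ × ℝ × ℝ × ℝ) :=
  {q | bp q ∈ R ∧ sec (bp q) = q}

lemma ov_eq {sec : ℝ × ℝ → ℝ × ℝ × ℝ × ℝ} (hb : ∀ b, bp (sec b) = b) (R : Set (ℝ × ℝ)) :
    ov sec R = sec '' R := by
  ext q
  constructor
  · rintro ⟨h1, h2⟩; exact ⟨bp q, h1, h2⟩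
  · rintro ⟨b, h1, rfl⟩
    refine ⟨?_, ?_⟩
    · rw [hb]; exact h1
    · rw [hb]

lemma ov_closed {sec : ℝ × ℝ → ℝ × ℝ × ℝ × ℝ} (hc : Continuous sec) {R : Set (ℝ × ℝ)}
    (hR : IsClosed R) : IsClosed (ov sec R) :=
  (hR.preimage continuous_bp).inter (isClosed_eq (hc.comp continuous_bp) continuous_id)

lemma ov_compact {sec : ℝ × ℝ → ℝ × ℝ × ℝ × ℝ} (hc : Continuous sec) (hb : ∀ b, bp (sec b) = b)
    {R : Set (ℝ × ℝ)} (hR : IsClosed R) {a c : ℝ} (hx : ∀ b ∈ R, a ≤ b.2 ∧ b.2 ≤ c) (T : ℝ) :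
    IsCompact (ov sec R ∩ {q | -T ≤ q.1 ∧ q.1 ≤ T}) := by
  have h : ov sec R ∩ {q | -T ≤ q.1 ∧ q.1 ≤ T} = sec '' (R ∩ (Icc (-T) T ×ˢ Icc a c)) := by
    ext q
    constructor
    · rintro ⟨⟨h1, h2⟩, h3, h4⟩
      exact ⟨bp q, ⟨h1, ⟨h3, h4⟩, hx _ h1⟩, h2⟩
    · rintro ⟨b, ⟨h1, ⟨h2, h3⟩, h4⟩, rfl⟩
      have e : (sec b).1 = b.1 := congrArg Prod.fst (hb b)
      refine ⟨⟨?_, ?_⟩, ?_, ?_⟩
      · rw [hb]; exact h1
      · rw [hb]
      · rw [e]; exact h2
      · rw [e]; exact h3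
  rw [h]
  exact ((isCompact_Icc.prod isCompact_Icc).inter_left hR).image hc

/-- connectedness of regions by vertical segments and one horizontal segment -/
lemma region_conn {R : Set (ℝ × ℝ)} {t1 a c : ℝ} (hac : a ≤ c) (h1 : ∀ x ∈ Icc a c, (t1, x) ∈ R)
    (h2 : ∀ b ∈ R, b.2 ∈ Icc a c ∧ ∀ s ∈ uIcc b.1 t1, (s, b.2) ∈ R) : IsConnected R := by
  refine ⟨⟨(t1, a), h1 a ⟨le_refl _, hac⟩⟩, ?_⟩
  apply isPreconnected_of_forall (t1, a)
  intro b hb
  obtain ⟨hb1, hb2⟩ := h2 b hb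
  refine ⟨(fun s : ℝ => (s, b.2)) '' uIcc b.1 t1 ∪ (fun x : ℝ => (t1, x)) '' Icc a c, ?_, ?_, ?_, ?_⟩
  · rintro p (⟨s, hs, rfl⟩ | ⟨x, hx, rfl⟩)
    · exact hb2 s hs
    · exact h1 x hx
  · exact Or.inr ⟨a, ⟨le_refl _, hac⟩, rfl⟩
  · exact Or.inl ⟨b.1, left_mem_uIcc, rfl⟩
  · refine IsPreconnected.union (t1, b.2) ⟨t1, right_mem_uIcc, rfl⟩ ⟨b.2, hb1, rfl⟩ ?_ ?_
    · exact isPreconnected_uIcc.image _ (by fun_prop)
    · exact isPreconnected_Icc.image _ (by fun_prop)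

variable {δ B : ℝ}

lemma w_UM_mono (hδ : 0 < δ) {t s x : ℝ} (h : t ≤ s) (hw : 0 ≤ (dUM δ).w (t, x)) :
    0 ≤ (dUM δ).w (s, x) := by
  simp only [dUM, LData.w, hS_f, rS_f] at hw ⊢
  have := st_mono (by nlinarith : δ * t + 1 ≤ δ * s + 1)
  linarith

lemma w_LU_mono (hδ : 0 < δ) {t s x : ℝ} (h : t ≤ s) (hw : 0 ≤ (dLU δ).w (t, x)) :
    0 ≤ (dLU δ).w (s, x) := by
  simp only [dLU, LData.w, hS_f, rS_f] at hw ⊢
  have := st_mono (by nlinarith : δ * t + 0 ≤ δ * s + 0)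
  linarith

lemma w_UM_top {t x : ℝ} (h : 0 ≤ δ * t) : 0 ≤ (dUM δ).w (t, x) := by
  simp only [dUM, LData.w, hS_f, rS_f]
  rw [st_one (by linarith)]
  have := hh_nonneg (x - 5)
  linarith

lemma w_LU_top {t x : ℝ} (h : 1 ≤ δ * t) : 0 ≤ (dLU δ).w (t, x) := by
  simp only [dLU, LData.w, hS_f, rS_f]
  rw [st_one (by linarith)]
  have := hh_nonneg (x - 0)
  linarith

lemma RM_closed : IsClosed (RM δ) := by
  have h := (dUM δ).w_smooth.continuous
  exact (isClosed_le continuous_const continuous_snd).inter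
    ((isClosed_le continuous_snd continuous_const).inter (isClosed_le continuous_const h))
lemma RU_closed : IsClosed (RU δ) := by
  have h := (dUM δ).w_smooth.continuous
  have h' := (dLU δ).w_smooth.continuous
  exact (isClosed_le continuous_const continuous_snd).inter
    ((isClosed_le continuous_snd continuous_const).inter
      ((isClosed_le continuous_const h').inter (isClosed_le continuous_const h)))
lemma RL_closed : IsClosed (RL δ) := by
  have h := (dLU δ).w_smooth.continuous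
  exact (isClosed_le continuous_const continuous_snd).inter
    ((isClosed_le continuous_snd continuous_const).inter (isClosed_le continuous_const h))
lemma RT_closed : IsClosed RT :=
  (isClosed_le continuous_const continuous_snd).inter
    (isClosed_le continuous_snd continuous_const)

lemma LL_eq : LL δ = ov (secM δ) (RM δ) ∪ (ov (secU δ) (RU δ) ∪ (ov (secL δ) (RL δ) ∪ ov secT RT)) := by
  ext q
  exact mem_LL δ

lemma LL_closed : IsClosed (LL δ) := by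
  rw [LL_eq]
  exact (ov_closed (secM_cont δ) RM_closed).union ((ov_closed (secU_cont δ) RU_closed).union
    ((ov_closed (secL_cont δ) RL_closed).union (ov_closed secT_cont RT_closed)))

lemma LL_compact (T : ℝ) : IsCompact (LL δ ∩ {q | -T ≤ q.1 ∧ q.1 ≤ T}) := by
  rw [LL_eq]
  simp only [union_inter_distrib_right]
  refine (ov_compact (secM_cont δ) (secM_bp δ) RM_closed (a := -8) (c := 11) ?_ T).union
    ((ov_compact (secU_cont δ) (secU_bp δ) RU_closed (a := -8) (c := 11) ?_ T).union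
    ((ov_compact (secL_cont δ) (secL_bp δ) RL_closed (a := -8) (c := 11) ?_ T).union
    (ov_compact secT_cont secT_bp RT_closed (a := -8) (c := 11) ?_ T)))
  · rintro b ⟨h1, h2, -⟩; exact ⟨by linarith, by linarith⟩
  · rintro b ⟨h1, h2, -⟩; exact ⟨by linarith, by linarith⟩
  · rintro b ⟨h1, h2, -⟩; exact ⟨by linarith, by linarith⟩
  · rintro b ⟨h1, h2⟩; exact ⟨by linarith, by linarith⟩

/-- the common points of the sheets -/
lemma MU_left {t : ℝ} : secM δ (t, -4) = secU δ (t, -4) := by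
  unfold secM secU
  rw [Z4_1 (by norm_num), Z4_1 (by norm_num)]
  exact dUMl.sh_eq (by simp [dUMl, LData.w]) _ _
lemma LT_left {t : ℝ} : secL δ (t, -8) = secT (t, -8) := by
  unfold secL secT
  rw [Z4_1 (by norm_num), Z4_1 (by norm_num)]
  exact dTL.sh_eq (by simp [dTL, LData.w]) _ _
lemma UL_right {t : ℝ} : secU δ (t, 9) = secL δ (t, 9) := by
  unfold secU secL
  rw [Z4_4 (by norm_num), Z4_4 (by norm_num)]
  exact dLUr.sh_eq (by simp [dLUr, LData.w]) _ _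
lemma MT_right {t : ℝ} : secM δ (t, 11) = secT (t, 11) := by
  unfold secM secT
  rw [Z4_4 (by norm_num), Z4_4 (by norm_num)]
  exact dTM.sh_eq (by simp [dTM, LData.w]) _ _
lemma MU_hole {t x : ℝ} (hx : |x - 5| ≤ 1) (h : (dUM δ).w (t, x) = 0) :
    secM δ (t, x) = secU δ (t, x) := by
  rw [abs_le] at hx
  unfold secM secU
  rw [Z4_3 (by show 5 / 2 < x; linarith) (by show x ≤ 15 / 2; linarith),
    Z4_3 (by show 5 / 2 < x; linarith) (by show x ≤ 15 / 2; linarith)]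
  exact (dUM δ).sh_eq h _ _

lemma LL_connected (hδ : 0 < δ) : IsConnected (LL δ) := by
  rw [LL_eq, ov_eq (secM_bp δ), ov_eq (secU_bp δ), ov_eq (secL_bp δ), ov_eq secT_bp]
  set t1 := 1 / δ with ht1
  have ht : 1 ≤ δ * t1 := by rw [ht1]; field_simp; exact le_refl _
  have ht0 : 0 ≤ δ * t1 := by linarith
  have cM : IsConnected (RM δ) := by
    refine region_conn (t1 := t1) (a := -4) (c := 11) (by norm_num) ?_ ?_
    · intro x hx; exact ⟨hx.1, hx.2, w_UM_top ht0⟩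
    · rintro b ⟨h1, h2, h3⟩
      refine ⟨⟨h1, h2⟩, ?_⟩
      intro s hs
      refine ⟨h1, h2, ?_⟩
      rcases le_total b.1 t1 with h | h
      · rw [uIcc_of_le h] at hs
        exact w_UM_mono hδ hs.1 h3
      · rw [uIcc_of_ge h] at hs
        exact w_UM_mono hδ hs.1 (w_UM_top ht0)
  have cU : IsConnected (RU δ) := by
    refine region_conn (t1 := t1) (a := -4) (c := 9) (by norm_num) ?_ ?_
    · intro x hx; exact ⟨hx.1, hx.2, w_LU_top ht, w_UM_top ht0⟩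
    · rintro b ⟨h1, h2, h3, h4⟩
      refine ⟨⟨h1, h2⟩, ?_⟩
      intro s hs
      rcases le_total b.1 t1 with h | h
      · rw [uIcc_of_le h] at hs
        exact ⟨h1, h2, w_LU_mono hδ hs.1 h3, w_UM_mono hδ hs.1 h4⟩
      · rw [uIcc_of_ge h] at hs
        exact ⟨h1, h2, w_LU_mono hδ hs.1 (w_LU_top ht), w_UM_mono hδ hs.1 (w_UM_top ht0)⟩
  have cL : IsConnected (RL δ) := by
    refine region_conn (t1 := t1) (a := -8) (c := 9) (by norm_num) ?_ ?_
    · intro x hx; exact ⟨hx.1, hx.2, w_LU_top ht⟩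
    · rintro b ⟨h1, h2, h3⟩
      refine ⟨⟨h1, h2⟩, ?_⟩
      intro s hs
      rcases le_total b.1 t1 with h | h
      · rw [uIcc_of_le h] at hs
        exact ⟨h1, h2, w_LU_mono hδ hs.1 h3⟩
      · rw [uIcc_of_ge h] at hs
        exact ⟨h1, h2, w_LU_mono hδ hs.1 (w_LU_top ht)⟩
  have cT : IsConnected RT := by
    refine region_conn (t1 := t1) (a := -8) (c := 11) (by norm_num) ?_ ?_
    · intro x hx; exact ⟨hx.1, hx.2⟩
    · rintro b ⟨h1, h2⟩
      exact ⟨⟨h1, h2⟩, fun s _ => ⟨h1, h2⟩⟩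
  have iM := cM.image _ (secM_cont δ).continuousOn
  have iU := cU.image _ (secU_cont δ).continuousOn
  have iL := cL.image _ (secL_cont δ).continuousOn
  have iT := cT.image _ secT_cont.continuousOn
  refine IsConnected.union ⟨secM δ (t1, -4), ⟨(t1, -4), ⟨by norm_num, by norm_num, w_UM_top ht0⟩, rfl⟩,
    Or.inl ⟨(t1, -4), ⟨by norm_num, by norm_num, w_LU_top ht, w_UM_top ht0⟩, MU_left.symm⟩⟩ iM ?_
  refine IsConnected.union ⟨secU δ (t1, 9), ⟨(t1, 9), ⟨by norm_num, by norm_num, w_LU_top ht, w_UM_top ht0⟩, rfl⟩,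
    Or.inl ⟨(t1, 9), ⟨by norm_num, by norm_num, w_LU_top ht⟩, UL_right.symm⟩⟩ iU ?_
  exact IsConnected.union ⟨secL δ (t1, -8), ⟨(t1, -8), ⟨by norm_num, by norm_num, w_LU_top ht⟩, rfl⟩,
    ⟨(t1, -8), ⟨by norm_num, by norm_num⟩, LT_left.symm⟩⟩ iL iT

end

end Pool.Agent.MP_70d14f_gt
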