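import Pool.Agent.Lib.MP_70d14f_gt.Ends
import Pool.Agent.Lib.MP_70d14f_gt.LTop

namespace Pool.Agent.MP_70d14f_gt

open Set Topology

noncomputable section

variable {δ B : ℝ}

/-- direction of the slices in a chart -/
def chV (δ : ℝ) (i : Ch) (q : ℝ × ℝ × ℝ × ℝ) : ℝ × ℝ × ℝ :=
  chS i • (2 * (chD δ i).pd.eta q,
    (chD δ i).gx (bp q) * (chD δ i).Q (bp q) + 2 * (chD δ i).g (bp q) * (chD δ i).Qx (bp q),
    (chD δ i).gx (bp q) * (chD δ i).P (bp q) + 2 * (chD δ i).g (bp q) * (chD δ i).Px (bp q))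

lemma ch_flat_eta (i : Ch) {q : ℝ × ℝ × ℝ × ℝ} (hq : q ∈ (chD δ i).pd.piece)
    (hf : (chD δ i).flat (bp q)) : chS i * (chD δ i).pd.eta q = sz q.2.2.2 := by
  have hk := ch_flat_k i hf
  have hk' : (chD δ i).k.f q.2.1 = chK i := hk
  have he := (chD δ i).flat_eta hf
  have hq' := ((chD δ i).flat_mem_iff hf).1 hq
  obtain ⟨-, h⟩ := hq'
  rw [hk'] at h he
  rw [he]
  rcases h with h | h <;> rw [h] <;> cases i <;>
        norm_num [chD, dUMl, dTL, dLU, dTM, dUM, dLUr, chS, sz, chK]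

lemma chV_flat (i : Ch) {q : ℝ × ℝ × ℝ × ℝ} (hq : q ∈ (chD δ i).pd.piece)
    (hf : (chD δ i).flat (bp q)) : chV δ i q = (2 * sz q.2.2.2, 0, 0) := by
  obtain ⟨g1, g2, g3, g4, g5, g6, p1, p2, p3, p4, p5, p6, -⟩ := (chD δ i).flat_all hf
  unfold chV
  rw [g3, p4, p6, ← ch_flat_eta i hq hf]
  ext
  · simp; ring
  · simp
  · simp

lemma exists_dir (G : Good δ B) : ∃ D : ℝ × ℝ × ℝ × ℝ → ℝ × ℝ × ℝ,
    ∀ i q, q ∈ LL δ → q ∈ chW i → D q = chV δ i q := by
  refine glue (LL δ) chW (chV δ) ?_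
  intro i j q hS hi hj
  by_cases hij : i = j
  · subst hij; rfl
  · obtain ⟨f1, f2⟩ := ch_overlap (δ := δ) hij hi hj
    rw [chV_flat i ((ch_loc G i q hi).1 hS) f1, chV_flat j ((ch_loc G j q hj).1 hS) f2]

lemma chV_continuousAt (i : Ch) {q : ℝ × ℝ × ℝ × ℝ} (hq : (chD δ i).pd.nd (bp q)) :
    ContinuousAt (chV δ i) q := by
  set A := chD δ i with hA
  have h1 := A.P_smooth.continuous
  have h2 := A.Q_smooth.continuous
  have h3 := A.gt_smooth.continuous
  have h4 := A.gx_smooth.continuous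
  have h6 := A.gtx_cont
  have h7 := A.gxx_cont
  have h8 := A.g_smooth.continuous
  have h9 := A.k.hf.continuous
  have h10 := A.k.hd1.continuous
  have h11 := A.k.hd2.continuous
  have c1 : Continuous fun b => A.gx b * A.Q b + 2 * A.g b * A.Qx b := by
    unfold LData.Qx; fun_prop
  have c2 : Continuous fun b => A.gx b * A.P b + 2 * A.g b * A.Px b := by
    unfold LData.Px; fun_prop
  have c0 := (A.pd.eta_contDiffAt hq).continuousAt
  unfold chV
  exact ((c0.const_mul 2).prodMk ((c1.comp continuous_bp).continuousAt.prodMk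
    (c2.comp continuous_bp).continuousAt)).const_smul (chS i)

lemma chV_mem (i : Ch) {q : ℝ × ℝ × ℝ × ℝ} (hq : (chD δ i).pd.nd (bp q))
    (hm : q ∈ (chD δ i).pd.piece) : ((0, chV δ i q) : ℝ × ℝ × ℝ × ℝ) ∈ (chD δ i).pd.tsp q := by
  rw [(chD δ i).pd.mem_tsp_iff hq hm]
  refine ⟨chS i * (chD δ i).gx (bp q), ?_⟩
  rw [LData.rel_iff]
  obtain ⟨e1, e2, e3⟩ := (chD δ i).pd.eta_spec hq hm
  have e1' : (chD δ i).pd.eta q ^ 2 = (chD δ i).g (bp q) := e1
  unfold chV
  simp only [Prod.smul_mk, smul_eq_mul]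
  refine ⟨by ring, ?_, ?_⟩
  · rw [← e1']; ring
  · rw [← e1']; ring

lemma rS_d2_zero {δ e t : ℝ} (h : δ * t + e < 0 ∨ 1 < δ * t + e) : (rS δ e).d2 t = 0 := by
  rw [rS_d2, deriv2_st_zero h]; ring

lemma ch_static2 (i : Ch) {t : ℝ} (ht : δ * t < -1 ∨ 1 < δ * t) : (chD δ i).v.d2 t = 0 := by
  cases i
  · exact cS_d2 _ _
  · exact cS_d2 _ _
  · exact rS_d2_zero (by rcases ht with h | h; · left; linarith
                         · right; linarith)
  · exact cS_d2 _ _
  · exact rS_d2_zero (by rcases ht with h | h; · left; linarith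
                         · right; linarith)
  · exact cS_d2 _ _

lemma ch_static1 (i : Ch) {t : ℝ} (ht : δ * t < -1 ∨ 1 < δ * t) : (chD δ i).v.d1 t = 0 :=
  ch_static i (by rcases ht with h | h; · left; linarith
                  · right; linarith)

lemma dt_mem (i : Ch) {q : ℝ × ℝ × ℝ × ℝ} (ht : δ * q.1 < -1 ∨ 1 < δ * q.1)
    (hq : (chD δ i).pd.nd (bp q)) (hm : q ∈ (chD δ i).pd.piece) :
    ((1, 0) : ℝ × ℝ × ℝ × ℝ) ∈ (chD δ i).pd.tsp q := by
  rw [(chD δ i).pd.mem_tsp_iff hq hm]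
  refine ⟨0, ?_⟩
  rw [LData.rel_iff]
  have v1 : (chD δ i).v.d1 (bp q).1 = 0 := ch_static1 i ht
  have v2 : (chD δ i).v.d2 (bp q).1 = 0 := ch_static2 i ht
  have g2 : (chD δ i).gt (bp q) = 0 := by unfold LData.gt; rw [v1]; ring
  have g4 : (chD δ i).gtt (bp q) = 0 := by unfold LData.gtt; rw [v1, v2]; ring
  have g5 : (chD δ i).gtx (bp q) = 0 := by unfold LData.gtx; rw [v1]; ring
  refine ⟨?_, ?_, ?_⟩
  · rw [g2]; simp
  · unfold LData.Qt; rw [g2, g5]; simp
  · unfold LData.Pt; rw [g2, g4]; simp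

lemma chV_ne_zero (i : Ch) {q : ℝ × ℝ × ℝ × ℝ} (ht : δ * q.1 < -1 ∨ 1 < δ * q.1)
    (hr : (chD δ i).pd.reg (bp q)) (hm : q ∈ (chD δ i).pd.piece) : chV δ i q ≠ 0 := by
  have hs : chS i ≠ 0 := by cases i <;> norm_num [chS]
  have v1 : (chD δ i).v.d1 (bp q).1 = 0 := ch_static1 i ht
  have g2 : (chD δ i).gt (bp q) = 0 := by unfold LData.gt; rw [v1]; ring
  obtain ⟨e1, e2, e3⟩ := (chD δ i).pd.eta_spec hr.1 hm
  have e1' : (chD δ i).pd.eta q ^ 2 = (chD δ i).g (bp q) := e1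
  intro h
  unfold chV at h
  rcases smul_eq_zero.1 h with h | h
  · exact hs h
  · rw [Prod.mk_eq_zero, Prod.mk_eq_zero] at h
    obtain ⟨h1, h2, h3⟩ := h
    have he : (chD δ i).pd.eta q = 0 := by linarith
    have hg : (chD δ i).g (bp q) = 0 := by rw [← e1', he]; ring
    rw [hg] at h2 h3
    have hgx : (chD δ i).gx (bp q) ≠ 0 := by
      rcases (chD δ i).pd.reg_cases hr hm with h | h | h
      · exact absurd he h
      · exfalso
        have h' : fderiv ℝ (chD δ i).g (bp q) (1, 0) ≠ 0 := h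
        rw [LData.fderiv_g, g2] at h'
        simp at h'
      · have h' : fderiv ℝ (chD δ i).g (bp q) (0, 1) ≠ 0 := h
        rw [LData.fderiv_g] at h'
        simpa using h'
    have hnd : (chD δ i).P (bp q) ^ 2 + (chD δ i).Q (bp q) ^ 2 ≠ 0 := hr.1
    apply hnd
    have hQ : (chD δ i).Q (bp q) = 0 := by
      have : (chD δ i).gx (bp q) * (chD δ i).Q (bp q) = 0 := by linarith
      rcases mul_eq_zero.1 this with h | h
      · exact absurd h hgx
      · exact h
    have hP : (chD δ i).P (bp q) = 0 := by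
      have : (chD δ i).gx (bp q) * (chD δ i).P (bp q) = 0 := by linarith
      rcases mul_eq_zero.1 this with h | h
      · exact absurd h hgx
      · exact h
    rw [hP, hQ]; ring

/-- slice of the Lagrangian surface -/
def slc (δ T0 : ℝ) : Set (ℝ × ℝ × ℝ) := {p | ((T0, p) : ℝ × ℝ × ℝ × ℝ) ∈ LL δ}

lemma slc_compact (T0 : ℝ) : IsCompact (slc δ T0) := by
  have h1 := (LL_compact (δ := δ) |T0|).inter_right
    (isClosed_eq continuous_fst continuous_const : IsClosed {q : ℝ × ℝ × ℝ × ℝ | q.1 = T0})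
  have h2 := h1.image (continuous_snd : Continuous fun q : ℝ × ℝ × ℝ × ℝ => q.2)
  have : slc δ T0 = (fun q : ℝ × ℝ × ℝ × ℝ => q.2) ''
      (LL δ ∩ {q | -|T0| ≤ q.1 ∧ q.1 ≤ |T0|} ∩ {q : ℝ × ℝ × ℝ × ℝ | q.1 = T0}) := by
    ext p
    constructor
    · intro hp
      exact ⟨(T0, p), ⟨⟨hp, neg_abs_le T0, le_abs_self T0⟩, rfl⟩, rfl⟩
    · rintro ⟨q, ⟨⟨h1, -⟩, h3⟩, rfl⟩
      have h3' : q.1 = T0 := h3
      show (T0, q.2) ∈ LL δ
      rw [← h3']
      exact h1
  rw [this]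
  exact h2

/-- the Legendrian knot given by a connected slice of a cylindrical end -/
def kn (G : Good δ B) {T0 : ℝ} (ht : δ * T0 < -1 ∨ 1 < δ * T0) (hc : IsConnected (slc δ T0)) :
    LegendrianKnot where
  carrier := slc δ T0
  dir := fun p => (exists_dir G).choose (T0, p)
  isCompact := slc_compact T0
  isConnected := hc
  continuousOn_dir := by
    have h1 : ContinuousOn (exists_dir G).choose (LL δ) := by
      refine glue_continuousOn chW_open (ch_cover G) (exists_dir G).choose_spec ?_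
      intro i q hq hi
      exact chV_continuousAt i (ch_reg G i q ((ch_loc G i q hi).1 hq)).1
    exact h1.comp (by fun_prop) (fun p hp => hp)
  tangent := by
    intro p hp
    obtain ⟨i, hi⟩ := ch_cover G _ hp
    have hpc := (ch_loc G i _ hi).1 hp
    have hr := ch_reg G i _ hpc
    rw [(exists_dir G).choose_spec i _ hp hi]
    refine ⟨chV_ne_zero i ht hr hpc, _, slice_tangent ((lAtlas G).tangent (i := i) hp hi)
      (dt_mem i ht hr.1 hpc), ?_⟩
    exact chV_mem i hr.1 hpc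
  legendrian := by
    intro p hp
    obtain ⟨i, hi⟩ := ch_cover G _ hp
    have hpc := (ch_loc G i _ hi).1 hp
    have hr := ch_reg G i _ hpc
    show alpha p ((exists_dir G).choose (T0, p)) = 0
    rw [(exists_dir G).choose_spec i _ hp hi]
    have h := (chD δ i).omega_zero hr hpc (dt_mem i ht hr.1 hpc) (chV_mem i hr.1 hpc)
    unfold omega at h
    rcases mul_eq_zero.1 h with h | h
    · exact absurd h (Real.exp_pos _).ne'
    · simpa using h

end

end Pool.Agent.MP_70d14f_gt
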