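import Pool.Agent.Lib.MP_70d14f_gt.Orient
import Pool.Agent.Lib.MP_70d14f_gt.Calc

namespace Pool.Agent.MP_70d14f_gt

open Set Topology

noncomputable section

/-- a smooth function with its first and second derivative -/
structure SF where
  f : ℝ → ℝ
  hf : ContDiff ℝ (⊤ : ℕ∞) f

namespace SF

variable (a : SF)

def d1 : ℝ → ℝ := deriv a.f
def d2 : ℝ → ℝ := deriv (deriv a.f)

lemma hd1 : ContDiff ℝ (⊤ : ℕ∞) a.d1 := (contDiff_infty_iff_deriv.1 a.hf).2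
lemma hd2 : ContDiff ℝ (⊤ : ℕ∞) a.d2 := (contDiff_infty_iff_deriv.1 a.hd1).2

lemma has1 (x : ℝ) : HasDerivAt a.f (a.d1 x) x :=
  ((a.hf.differentiable (by simp)) x).hasDerivAt
lemma has2 (x : ℝ) : HasDerivAt a.d1 (a.d2 x) x :=
  ((a.hd1.differentiable (by simp)) x).hasDerivAt

end SF

def lamS : SF := ⟨lam, lam_contDiff⟩

/-- partial derivatives from one-variable derivatives -/
lemma fderiv_pt {f : ℝ × ℝ → ℝ} (hf : ContDiff ℝ (⊤ : ℕ∞) f) (b : ℝ × ℝ) {l : ℝ}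
    (h : HasDerivAt (fun s => f (s, b.2)) l b.1) : fderiv ℝ f b (1, 0) = l := by
  have h1 : HasFDerivAt f (fderiv ℝ f b) (b.1, b.2) :=
    ((hf.differentiable (by simp)) _).hasFDerivAt
  have h2 : HasDerivAt (fun s : ℝ => (s, b.2)) (1, 0) b.1 :=
    (hasDerivAt_id b.1).prodMk (hasDerivAt_const b.1 b.2)
  have h3 := h1.comp_hasDerivAt b.1 h2
  exact h3.unique h

lemma fderiv_px {f : ℝ × ℝ → ℝ} (hf : ContDiff ℝ (⊤ : ℕ∞) f) (b : ℝ × ℝ) {l : ℝ}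
    (h : HasDerivAt (fun s => f (b.1, s)) l b.2) : fderiv ℝ f b (0, 1) = l := by
  have h1 : HasFDerivAt f (fderiv ℝ f b) (b.1, b.2) :=
    ((hf.differentiable (by simp)) _).hasFDerivAt
  have h2 : HasDerivAt (fun s : ℝ => (b.1, s)) (0, 1) b.2 :=
    (hasDerivAt_const b.2 b.1).prodMk (hasDerivAt_id b.2)
  have h3 := h1.comp_hasDerivAt b.2 h2
  exact h3.unique h

/-- data of a Lagrangian piece: `g = lam (u x + v t)`, front `m ± g^(3/2) k x` -/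
structure LData where
  u : SF
  v : SF
  k : SF
  m : ℝ

namespace LData

variable (A : LData)

def w (b : ℝ × ℝ) : ℝ := A.u.f b.2 + A.v.f b.1
def g (b : ℝ × ℝ) : ℝ := lam (A.w b)
def P (b : ℝ × ℝ) : ℝ := (lam (A.w b) + 3 / 2 * lamS.d1 (A.w b) * A.v.d1 b.1) * A.k.f b.2
def Q (b : ℝ × ℝ) : ℝ :=
  3 / 2 * lamS.d1 (A.w b) * A.u.d1 b.2 * A.k.f b.2 + lam (A.w b) * A.k.d1 b.2

lemma w_smooth : ContDiff ℝ (⊤ : ℕ∞) A.w := by
  have h1 := A.u.hf
  have h2 := A.v.hf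
  unfold w; fun_prop

lemma g_smooth : ContDiff ℝ (⊤ : ℕ∞) A.g := lam_contDiff.comp A.w_smooth

lemma P_smooth : ContDiff ℝ (⊤ : ℕ∞) A.P := by
  have h1 := A.v.hd1
  have h2 := A.k.hf
  have h3 := A.w_smooth
  have h4 := lam_contDiff
  have h5 := lamS.hd1
  unfold P; fun_prop

lemma Q_smooth : ContDiff ℝ (⊤ : ℕ∞) A.Q := by
  have h1 := A.u.hd1
  have h2 := A.k.hf
  have h3 := A.w_smooth
  have h4 := lam_contDiff
  have h5 := lamS.hd1
  have h6 := A.k.hd1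
  unfold Q; fun_prop

/-- the piece -/
def pd : PD := ⟨A.g, A.P, A.Q, A.m, A.g_smooth, A.P_smooth, A.Q_smooth⟩

lemma w_t (b : ℝ × ℝ) : HasDerivAt (fun s => A.w (s, b.2)) (A.v.d1 b.1) b.1 := by
  show HasDerivAt (fun s => A.u.f b.2 + A.v.f s) _ _
  exact (A.v.has1 b.1).const_add _

lemma w_x (b : ℝ × ℝ) : HasDerivAt (fun s => A.w (b.1, s)) (A.u.d1 b.2) b.2 := by
  show HasDerivAt (fun s => A.u.f s + A.v.f b.1) _ _
  exact (A.u.has1 b.2).add_const _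

lemma lam_w_t (b : ℝ × ℝ) :
    HasDerivAt (fun s => lam (A.w (s, b.2))) (lamS.d1 (A.w b) * A.v.d1 b.1) b.1 :=
  HasDerivAt.comp (h := fun s => A.w (s, b.2)) (h₂ := lamS.f) b.1 (lamS.has1 _) (A.w_t b)

lemma lam_w_x (b : ℝ × ℝ) :
    HasDerivAt (fun s => lam (A.w (b.1, s))) (lamS.d1 (A.w b) * A.u.d1 b.2) b.2 :=
  HasDerivAt.comp (h := fun s => A.w (b.1, s)) (h₂ := lamS.f) b.2 (lamS.has1 _) (A.w_x b)

lemma dlam_w_t (b : ℝ × ℝ) :
    HasDerivAt (fun s => lamS.d1 (A.w (s, b.2))) (lamS.d2 (A.w b) * A.v.d1 b.1) b.1 :=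
  HasDerivAt.comp (h := fun s => A.w (s, b.2)) (h₂ := lamS.d1) b.1 (lamS.has2 _) (A.w_t b)

lemma dlam_w_x (b : ℝ × ℝ) :
    HasDerivAt (fun s => lamS.d1 (A.w (b.1, s))) (lamS.d2 (A.w b) * A.u.d1 b.2) b.2 :=
  HasDerivAt.comp (h := fun s => A.w (b.1, s)) (h₂ := lamS.d1) b.2 (lamS.has2 _) (A.w_x b)

def gt (b : ℝ × ℝ) : ℝ := lamS.d1 (A.w b) * A.v.d1 b.1
def gx (b : ℝ × ℝ) : ℝ := lamS.d1 (A.w b) * A.u.d1 b.2
def gtt (b : ℝ × ℝ) : ℝ := lamS.d2 (A.w b) * A.v.d1 b.1 ^ 2 + lamS.d1 (A.w b) * A.v.d2 b.1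
def gtx (b : ℝ × ℝ) : ℝ := lamS.d2 (A.w b) * A.u.d1 b.2 * A.v.d1 b.1
def gxx (b : ℝ × ℝ) : ℝ := lamS.d2 (A.w b) * A.u.d1 b.2 ^ 2 + lamS.d1 (A.w b) * A.u.d2 b.2

def Pt (b : ℝ × ℝ) : ℝ := (A.gt b + 3 / 2 * A.gtt b) * A.k.f b.2
def Px (b : ℝ × ℝ) : ℝ :=
  (A.gx b + 3 / 2 * A.gtx b) * A.k.f b.2 + (A.g b + 3 / 2 * A.gt b) * A.k.d1 b.2
def Qt (b : ℝ × ℝ) : ℝ := 3 / 2 * A.gtx b * A.k.f b.2 + A.gt b * A.k.d1 b.2
def Qx (b : ℝ × ℝ) : ℝ := 3 / 2 * A.gxx b * A.k.f b.2 + 5 / 2 * A.gx b * A.k.d1 b.2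
  + A.g b * A.k.d2 b.2

lemma P_eq (b : ℝ × ℝ) : A.P b = (A.g b + 3 / 2 * A.gt b) * A.k.f b.2 := by
  unfold P g gt; ring
lemma Q_eq (b : ℝ × ℝ) : A.Q b = 3 / 2 * A.gx b * A.k.f b.2 + A.g b * A.k.d1 b.2 := by
  unfold Q g gx; ring

lemma gt_smooth : ContDiff ℝ (⊤ : ℕ∞) A.gt := by
  have h1 := A.v.hd1
  have h3 := A.w_smooth
  have h5 := lamS.hd1
  unfold gt; fun_prop

lemma gx_smooth : ContDiff ℝ (⊤ : ℕ∞) A.gx := by
  have h1 := A.u.hd1
  have h3 := A.w_smooth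
  have h5 := lamS.hd1
  unfold gx; fun_prop

lemma gtt_cont : Continuous A.gtt := by
  have h1 := A.v.hd1.continuous
  have h2 := A.v.hd2.continuous
  have h3 := A.w_smooth.continuous
  have h5 := lamS.hd1.continuous
  have h6 := lamS.hd2.continuous
  unfold gtt; fun_prop

lemma gtx_cont : Continuous A.gtx := by
  have h1 := A.v.hd1.continuous
  have h2 := A.u.hd1.continuous
  have h3 := A.w_smooth.continuous
  have h6 := lamS.hd2.continuous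
  unfold gtx; fun_prop

lemma gxx_cont : Continuous A.gxx := by
  have h1 := A.u.hd1.continuous
  have h2 := A.u.hd2.continuous
  have h3 := A.w_smooth.continuous
  have h5 := lamS.hd1.continuous
  have h6 := lamS.hd2.continuous
  unfold gxx; fun_prop

lemma fderiv_g (b a : ℝ × ℝ) : fderiv ℝ A.g b a = A.gt b * a.1 + A.gx b * a.2 := by
  rw [PD.fderiv_eq, fderiv_pt A.g_smooth b (A.lam_w_t b), fderiv_px A.g_smooth b (A.lam_w_x b)]
  rfl

lemma gt_t (b : ℝ × ℝ) : HasDerivAt (fun s => A.gt (s, b.2)) (A.gtt b) b.1 := by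
  have := (A.dlam_w_t b).mul (A.v.has2 b.1)
  refine this.congr_deriv ?_
  unfold gtt; ring

lemma gt_x (b : ℝ × ℝ) : HasDerivAt (fun s => A.gt (b.1, s)) (A.gtx b) b.2 := by
  have := (A.dlam_w_x b).mul_const (A.v.d1 b.1)
  exact this

lemma gx_t (b : ℝ × ℝ) : HasDerivAt (fun s => A.gx (s, b.2)) (A.gtx b) b.1 := by
  have := (A.dlam_w_t b).mul_const (A.u.d1 b.2)
  refine this.congr_deriv ?_
  unfold gtx; ring

lemma gx_x (b : ℝ × ℝ) : HasDerivAt (fun s => A.gx (b.1, s)) (A.gxx b) b.2 := by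
  have := (A.dlam_w_x b).mul (A.u.has2 b.2)
  refine this.congr_deriv ?_
  unfold gxx; ring

lemma fderiv_gt (b a : ℝ × ℝ) : fderiv ℝ A.gt b a = A.gtt b * a.1 + A.gtx b * a.2 := by
  rw [PD.fderiv_eq, fderiv_pt A.gt_smooth b (A.gt_t b), fderiv_px A.gt_smooth b (A.gt_x b)]

lemma fderiv_P (b a : ℝ × ℝ) : fderiv ℝ A.P b a = A.Pt b * a.1 + A.Px b * a.2 := by
  have e : A.P = fun b => (A.g b + 3 / 2 * A.gt b) * A.k.f b.2 := funext A.P_eq
  have h1 : HasDerivAt (fun s => A.P (s, b.2)) (A.Pt b) b.1 := by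
    rw [e]
    exact ((A.lam_w_t b).add ((A.gt_t b).const_mul (3 / 2))).mul_const (A.k.f b.2)
  have h2 : HasDerivAt (fun s => A.P (b.1, s)) (A.Px b) b.2 := by
    rw [e]
    have := ((A.lam_w_x b).add ((A.gt_x b).const_mul (3 / 2))).mul (A.k.has1 b.2)
    exact this
  rw [PD.fderiv_eq, fderiv_pt A.P_smooth b h1, fderiv_px A.P_smooth b h2]

lemma fderiv_Q (b a : ℝ × ℝ) : fderiv ℝ A.Q b a = A.Qt b * a.1 + A.Qx b * a.2 := by
  have e : A.Q = fun b => 3 / 2 * A.gx b * A.k.f b.2 + A.g b * A.k.d1 b.2 := funext A.Q_eq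
  have h1 : HasDerivAt (fun s => A.Q (s, b.2)) (A.Qt b) b.1 := by
    rw [e]
    exact (((A.gx_t b).const_mul (3 / 2)).mul_const (A.k.f b.2)).add
      ((A.lam_w_t b).mul_const (A.k.d1 b.2))
  have h2 : HasDerivAt (fun s => A.Q (b.1, s)) (A.Qx b) b.2 := by
    rw [e]
    have := (((A.gx_x b).const_mul (3 / 2)).mul (A.k.has1 b.2)).add
      ((A.lam_w_x b).mul (A.k.has2 b.2))
    refine HasDerivAt.congr_deriv this ?_
    unfold Qx gx g; ring
  rw [PD.fderiv_eq, fderiv_pt A.Q_smooth b h1, fderiv_px A.Q_smooth b h2]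

/-- regularity of base points of a Lagrangian piece -/
lemma reg {b : ℝ × ℝ} (hw : 0 ≤ A.w b) (hv : 0 ≤ A.v.d1 b.1)
    (hk : A.k.f b.2 ≠ 0 ∨ (A.k.d1 b.2 ≠ 0 ∧ 0 < A.w b))
    (h0 : A.w b = 0 → A.v.d1 b.1 ≠ 0 ∨ A.u.d1 b.2 ≠ 0) : A.pd.reg b := by
  have hl : 0 ≤ lamS.d1 (A.w b) := deriv_lam_nonneg _
  constructor
  · show A.P b ^ 2 + A.Q b ^ 2 ≠ 0
    rcases hw.eq_or_lt with h | h
    · have hk' : A.k.f b.2 ≠ 0 := by
        rcases hk with hk | hk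
        · exact hk
        · exact absurd h hk.2.ne
      have e1 : lamS.d1 (A.w b) = 1 := by
        rw [← h]; exact deriv_lam_of_le (by norm_num)
      have e2 : lam (A.w b) = 0 := by rw [← h]; exact lam_of_le (by norm_num)
      unfold P Q
      rw [e1, e2]
      rcases h0 h.symm with h1 | h1
      · have : (0 + 3 / 2 * 1 * A.v.d1 b.1) * A.k.f b.2 ≠ 0 := by
          refine mul_ne_zero ?_ hk'
          simpa using h1
        positivity
      · have : 3 / 2 * 1 * A.u.d1 b.2 * A.k.f b.2 + 0 * A.k.d1 b.2 ≠ 0 := by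
          rw [zero_mul, add_zero]
          refine mul_ne_zero ?_ hk'
          simpa using h1
        positivity
    · have hg := lam_pos h
      by_cases hk' : A.k.f b.2 = 0
      · have hk2 : A.k.d1 b.2 ≠ 0 := by
          rcases hk with hk | hk
          · exact absurd hk' hk
          · exact hk.1
        have : A.Q b ≠ 0 := by
          unfold Q; rw [hk']; simp; exact ⟨hg.ne', hk2⟩
        positivity
      · have : A.P b ≠ 0 := by
          unfold P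
          have : 0 < lam (A.w b) + 3 / 2 * lamS.d1 (A.w b) * A.v.d1 b.1 := by positivity
          exact mul_ne_zero this.ne' hk'
        positivity
  · intro hg
    have hw0 : A.w b = 0 := lam_eq_zero_iff.1 hg
    have e1 : lamS.d1 (A.w b) = 1 := by
      rw [hw0]; exact deriv_lam_of_le (by norm_num)
    rcases h0 hw0 with h | h
    · refine ⟨(1, 0), ?_⟩
      show fderiv ℝ A.g b (1, 0) ≠ 0
      rw [fderiv_g]; unfold gt; rw [e1]; simpa using h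
    · refine ⟨(0, 1), ?_⟩
      show fderiv ℝ A.g b (0, 1) ≠ 0
      rw [fderiv_g]; unfold gx; rw [e1]; simpa using h

end LData

end

end Pool.Agent.MP_70d14f_gt
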