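import Pool.Agent.Lib.MP_70d14f_gt.LCharts

namespace Pool.Agent.MP_70d14f_gt

open Set Topology

noncomputable section

lemma mulb {a b A B : ℝ} (ha : |a| ≤ A) (hb : |b| ≤ B) : |a * b| ≤ A * B := by
  rw [abs_mul]; exact mul_le_mul ha hb (abs_nonneg _) ((abs_nonneg _).trans ha)

lemma addb {a b A B : ℝ} (ha : |a| ≤ A) (hb : |b| ≤ B) : |a + b| ≤ A + B :=
  (abs_add_le a b).trans (add_le_add ha hb)

lemma subb {a b A B : ℝ} (ha : |a| ≤ A) (hb : |b| ≤ B) : |a - b| ≤ A + B :=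
  (abs_sub a b).trans (add_le_add ha hb)

lemma del_bound {Pt Q P Qt gx Qx R gt g e N : ℝ} (h1 : |Pt| ≤ e) (h2 : |Qt| ≤ e) (h3 : |gt| ≤ e)
    (h4 : |P| ≤ N) (h5 : |Q| ≤ N) (h6 : |Qx| ≤ N) (h7 : |R| ≤ N) (h8 : |gx| ≤ N) (h9 : |g| ≤ 1)
    (hN : 1 ≤ N) (he : 0 ≤ e) :
    |1 / 2 * (Pt * Q - P * Qt) * gx + 1 / 2 * (P * Qx - R * Q) * gt + g * (Pt * Qx - R * Qt)|
      ≤ 4 * e * N ^ 2 := by
  have hh : |(1 / 2 : ℝ)| ≤ 1 / 2 := by norm_num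
  have b1 := mulb (mulb hh (subb (mulb h1 h5) (mulb h4 h2))) h8
  have b2 := mulb (mulb hh (subb (mulb h4 h6) (mulb h7 h5))) h3
  have b3 := mulb h9 (subb (mulb h1 h6) (mulb h7 h2))
  refine (addb (addb b1 b2) b3).trans ?_
  nlinarith [mul_nonneg he (by linarith : (0:ℝ) ≤ N), mul_nonneg (mul_nonneg he (by linarith : (0:ℝ) ≤ N)) (by linarith : (0:ℝ) ≤ N - 1)]

lemma LData.Del_static (A : LData) (h1 : ∀ t, A.v.d1 t = 0) (h2 : ∀ t, A.v.d2 t = 0) (b : ℝ × ℝ) :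
    A.Del b = 0 := by
  have g2 : A.gt b = 0 := by unfold gt; rw [h1]; ring
  have g4 : A.gtt b = 0 := by unfold gtt; rw [h1, h2]; ring
  have g5 : A.gtx b = 0 := by unfold gtx; rw [h1]; ring
  unfold Del Pt Qt
  rw [g2, g4, g5]; ring

variable {δ B : ℝ}

lemma Del_small (G : Good δ B) (c e m : ℝ) (b : ℝ × ℝ) (hx : |b.2 - c| ≤ 3)
    (hw : 0 ≤ (⟨hS c, rS δ e, cS 1, m⟩ : LData).w b) :
    (⟨hS c, rS δ e, cS 1, m⟩ : LData).Del b ≠ 1 := by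
  set A : LData := ⟨hS c, rS δ e, cS 1, m⟩ with hA
  have hB := G.hB
  have hδ := G.hδ
  have hB0 : 0 ≤ B := by linarith
  have hδ1 : δ ≤ 1 := by
    have h1 : (1:ℝ) ≤ B ^ 9 := one_le_pow₀ hB
    have h5 := G.hδB
    nlinarith
  obtain ⟨l1, l2⟩ := G.lam1 (A.w b) hw
  have u1 : |A.u.d1 b.2| ≤ B := by
    show |(hS c).d1 b.2| ≤ B
    rw [hS_d1]; exact (G.hh1 _ hx).1
  have u2 : |A.u.d2 b.2| ≤ B := by
    show |(hS c).d2 b.2| ≤ B
    rw [hS_d2]; exact (G.hh1 _ hx).2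
  have v1 : |A.v.d1 b.1| ≤ 2 * δ * B := by
    show |(rS δ e).d1 b.1| ≤ 2 * δ * B
    rw [rS_d1, abs_mul, abs_of_pos (by positivity : 0 < 2 * δ)]
    exact mul_le_mul_of_nonneg_left (G.st1 _).1 (by positivity)
  have v2 : |A.v.d2 b.1| ≤ 2 * δ * B := by
    show |(rS δ e).d2 b.1| ≤ 2 * δ * B
    rw [rS_d2, abs_mul, abs_of_pos (by positivity : 0 < 2 * δ ^ 2)]
    have h1 : 2 * δ ^ 2 * |deriv (deriv st) (δ * b.1 + e)| ≤ 2 * δ ^ 2 * B :=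
      mul_le_mul_of_nonneg_left (G.st1 _).2 (by positivity)
    have h2 : 2 * δ ^ 2 * B ≤ 2 * δ * B := by nlinarith [mul_nonneg hδ.le hB0]
    exact h1.trans h2
  set s := 6 * δ * B ^ 3 with hs
  have hs0 : 0 ≤ s := by positivity
  have p12 : B ≤ B ^ 2 := by nlinarith
  have p23 : B ^ 2 ≤ B ^ 3 := pow_le_pow_right₀ hB (by norm_num)
  have p13 : (1:ℝ) ≤ B ^ 3 := one_le_pow₀ hB
  have p02 : (1:ℝ) ≤ B ^ 2 := one_le_pow₀ hB
  have gt1 : |A.gt b| ≤ s := by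
    have := mulb l1 v1
    refine this.trans ?_
    have : B * (2 * δ * B) = 2 * δ * B ^ 2 := by ring
    rw [this, hs]
    nlinarith [mul_le_mul_of_nonneg_left p23 hδ.le, mul_nonneg hδ.le (by positivity : 0 ≤ B ^ 3)]
  have gtt1 : |A.gtt b| ≤ s := by
    have q1 : |A.v.d1 b.1 ^ 2| ≤ 2 * δ * B * (2 * δ * B) := by
      rw [pow_two]; exact mulb v1 v1
    have := addb (mulb l2 q1) (mulb l1 v2)
    refine this.trans ?_
    have e1 : B * (2 * δ * B * (2 * δ * B)) + B * (2 * δ * B) = 4 * δ ^ 2 * B ^ 3 + 2 * δ * B ^ 2 := by ring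
    rw [e1, hs]
    have e2 : δ ^ 2 * B ^ 3 ≤ δ * B ^ 3 := by
      apply mul_le_mul_of_nonneg_right _ (by positivity)
      nlinarith
    nlinarith [mul_le_mul_of_nonneg_left p23 hδ.le]
  have gtx1 : |A.gtx b| ≤ s := by
    have := mulb (mulb l2 u1) v1
    refine this.trans ?_
    have : B * B * (2 * δ * B) = 2 * δ * B ^ 3 := by ring
    rw [this, hs]
    nlinarith [mul_nonneg hδ.le (by positivity : 0 ≤ B ^ 3)]
  have gx1 : |A.gx b| ≤ B ^ 3 := by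
    have := mulb l1 u1
    refine this.trans ?_
    nlinarith
  have gxx1 : |A.gxx b| ≤ 2 * B ^ 3 := by
    have q1 : |A.u.d1 b.2 ^ 2| ≤ B * B := by rw [pow_two]; exact mulb u1 u1
    have := addb (mulb l2 q1) (mulb l1 u2)
    refine this.trans ?_
    nlinarith
  have g0 : |A.g b| ≤ 1 := by
    have h1 : A.g b ≤ 1 := lam_le_one _
    have h2 : 0 ≤ A.g b := lam_nonneg_iff.2 hw
    rw [abs_of_nonneg h2]; exact h1
  have hsm : 540 * δ * B ^ 9 < 1 := by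
    have h5 := G.hδB
    have : 0 < δ * B ^ 9 := by positivity
    nlinarith
  have hs1 : s ≤ 1 := by
    rw [hs]
    have h39 : B ^ 3 ≤ B ^ 9 := pow_le_pow_right₀ hB (by norm_num)
    nlinarith [mul_le_mul_of_nonneg_left h39 hδ.le]
  have ek : A.k.f b.2 = 1 := rfl
  have ek1 : A.k.d1 b.2 = 0 := cS_d1 _ _
  have ek2 : A.k.d2 b.2 = 0 := cS_d2 _ _
  have e1 : A.P b = A.g b + 3 / 2 * A.gt b := by rw [A.P_eq, ek]; ring
  have e2 : A.Q b = 3 / 2 * A.gx b := by rw [A.Q_eq, ek, ek1]; ring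
  have e3 : A.Pt b = A.gt b + 3 / 2 * A.gtt b := by unfold LData.Pt; rw [ek]; ring
  have e4 : A.Px b = A.gx b + 3 / 2 * A.gtx b := by unfold LData.Px; rw [ek, ek1]; ring
  have e5 : A.Qt b = 3 / 2 * A.gtx b := by unfold LData.Qt; rw [ek, ek1]; ring
  have e6 : A.Qx b = 3 / 2 * A.gxx b := by unfold LData.Qx; rw [ek, ek1, ek2]; ring
  have h32 : |(3 / 2 : ℝ)| ≤ 3 / 2 := by norm_num
  have h12 : |(1 / 2 : ℝ)| ≤ 1 / 2 := by norm_num
  have f1 : |A.P b| ≤ 3 * B ^ 3 := by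
    rw [e1]; refine (addb g0 (mulb h32 gt1)).trans ?_; nlinarith
  have f2 : |A.Q b| ≤ 3 * B ^ 3 := by
    rw [e2]; refine (mulb h32 gx1).trans ?_; nlinarith
  have f3 : |A.Pt b| ≤ 5 / 2 * s := by
    rw [e3]; refine (addb gt1 (mulb h32 gtt1)).trans ?_; nlinarith
  have f4 : |A.Px b - A.Q b| ≤ 3 * B ^ 3 := by
    have : A.Px b - A.Q b = 3 / 2 * A.gtx b - 1 / 2 * A.gx b := by rw [e4, e2]; ring
    rw [this]; refine (subb (mulb h32 gtx1) (mulb h12 gx1)).trans ?_; nlinarith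
  have f5 : |A.Qt b| ≤ 5 / 2 * s := by
    rw [e5]; refine (mulb h32 gtx1).trans ?_; nlinarith
  have f6 : |A.Qx b| ≤ 3 * B ^ 3 := by
    rw [e6]; refine (mulb h32 gxx1).trans ?_; nlinarith
  have key := del_bound (g := A.g b) f3 f5 (gt1.trans (by linarith : s ≤ 5 / 2 * s)) f1 f2 f6 f4
    (gx1.trans (by linarith : B ^ 3 ≤ 3 * B ^ 3)) g0 (by linarith) (by positivity)
  have hlt : |A.Del b| < 1 := by
    refine lt_of_le_of_lt key ?_
    have : 4 * (5 / 2 * s) * (3 * B ^ 3) ^ 2 = 540 * δ * B ^ 9 := by rw [hs]; ring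
    rw [this]; exact hsm
  intro h
  rw [h] at hlt
  norm_num at hlt

end

end Pool.Agent.MP_70d14f_gt
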