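import Pool.Agent.Lib.MP_70d14f_gt.Atlas

namespace Pool.Agent.MP_70d14f_gt

open Set Topology

noncomputable section

/-- constant function -/
def cS (c : ℝ) : SF := ⟨fun _ => c, contDiff_const⟩
/-- affine function -/
def aS (a b : ℝ) : SF := ⟨fun x => a * x + b, by fun_prop⟩
/-- shifted smooth absolute value minus one -/
def hS (c : ℝ) : SF := ⟨fun x => hh (x - c) - 1, by have := hh_contDiff; fun_prop⟩
/-- twist -/
def kS : SF := ⟨kt, kt_contDiff⟩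
/-- slow step -/
def rS (δ e : ℝ) : SF := ⟨fun t => 2 * st (δ * t + e), by have := st_contDiff; fun_prop⟩

@[simp] lemma cS_f (c x : ℝ) : (cS c).f x = c := rfl
@[simp] lemma aS_f (a b x : ℝ) : (aS a b).f x = a * x + b := rfl
@[simp] lemma hS_f (c x : ℝ) : (hS c).f x = hh (x - c) - 1 := rfl
@[simp] lemma kS_f (x : ℝ) : kS.f x = kt x := rfl
@[simp] lemma rS_f (δ e x : ℝ) : (rS δ e).f x = 2 * st (δ * x + e) := rfl

@[simp] lemma cS_d1 (c x : ℝ) : (cS c).d1 x = 0 := by simp [SF.d1, cS]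
@[simp] lemma cS_d2 (c x : ℝ) : (cS c).d2 x = 0 := by simp [SF.d2, cS]
@[simp] lemma aS_d1 (a b x : ℝ) : (aS a b).d1 x = a := by
  have h : HasDerivAt (fun x : ℝ => a * x + b) a x := by
    simpa using ((hasDerivAt_id x).const_mul a).add_const b
  exact h.deriv
@[simp] lemma aS_d2 (a b x : ℝ) : (aS a b).d2 x = 0 := by
  have h : (aS a b).d1 = fun _ => a := funext fun y => aS_d1 a b y
  show deriv (aS a b).d1 x = 0
  rw [h]; simp

lemma hS_d1 (c x : ℝ) : (hS c).d1 x = deriv hh (x - c) := by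
  have h2 : HasDerivAt (fun x : ℝ => x - c) 1 x := by simpa using (hasDerivAt_id x).sub_const c
  have h := (HasDerivAt.comp (h := fun x : ℝ => x - c) (h₂ := hh) x (hh_hasDerivAt (x - c)) h2).sub_const 1
  have := h.deriv
  rw [mul_one] at this
  exact this

lemma hS_d2 (c x : ℝ) : (hS c).d2 x = deriv (deriv hh) (x - c) := by
  have e : (hS c).d1 = fun x => deriv hh (x - c) := funext fun y => hS_d1 c y
  show deriv (hS c).d1 x = _
  rw [e]
  exact deriv_comp_sub_const _ c x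

lemma kS_d1 (x : ℝ) : kS.d1 x = deriv kt x := rfl

lemma kS_d1_zero {x : ℝ} (h : -4 < x) : kS.d1 x = 0 := by
  have : kt =ᶠ[𝓝 x] fun _ => 1 := by
    filter_upwards [lt_mem_nhds h] with y hy
    exact kt_of_ge hy.le
  show deriv kt x = 0
  rw [this.deriv_eq]; simp

lemma kS_d2_zero {x : ℝ} (h : -4 < x) : kS.d2 x = 0 := by
  have : deriv kt =ᶠ[𝓝 x] fun _ => 0 := by
    filter_upwards [lt_mem_nhds h] with y hy
    exact kS_d1_zero hy
  show deriv (deriv kt) x = 0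
  rw [this.deriv_eq]; simp

lemma rS_d1 (δ e x : ℝ) : (rS δ e).d1 x = 2 * δ * deriv st (δ * x + e) := by
  have h2 : HasDerivAt (fun x : ℝ => δ * x + e) δ x := by
    simpa using ((hasDerivAt_id x).const_mul δ).add_const e
  have h := (HasDerivAt.comp (h := fun x : ℝ => δ * x + e) (h₂ := st) x (st_hasDerivAt _) h2).const_mul 2
  have := h.deriv
  show deriv (fun t => 2 * st (δ * t + e)) x = _
  simp only [Function.comp_def] at this
  rw [this]; ring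

lemma rS_d2 (δ e x : ℝ) : (rS δ e).d2 x = 2 * δ ^ 2 * deriv (deriv st) (δ * x + e) := by
  have e1 : (rS δ e).d1 = fun x => 2 * δ * deriv st (δ * x + e) := funext fun y => rS_d1 δ e y
  have h2 : HasDerivAt (fun x : ℝ => δ * x + e) δ x := by
    simpa using ((hasDerivAt_id x).const_mul δ).add_const e
  have h1 : HasDerivAt (deriv st) (deriv (deriv st) (δ * x + e)) (δ * x + e) :=
    ((deriv_st_contDiff.differentiable (by simp)) _).hasDerivAt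
  have h := (HasDerivAt.comp (h := fun x : ℝ => δ * x + e) (h₂ := deriv st) x h1 h2).const_mul (2 * δ)
  have := h.deriv
  show deriv (rS δ e).d1 x = _
  rw [e1]
  simp only [Function.comp_def] at this
  rw [this]; ring

lemma deriv_hh_of_gt {x : ℝ} (h : 1 / 2 < x) : deriv hh x = 1 := by
  have : hh =ᶠ[𝓝 x] fun y => y := by
    filter_upwards [lt_mem_nhds h] with y hy
    exact hh_of_ge hy.le
  rw [this.deriv_eq]; simp

lemma deriv_hh_of_lt {x : ℝ} (h : x < -(1 / 2)) : deriv hh x = -1 := by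
  have : hh =ᶠ[𝓝 x] fun y => -y := by
    filter_upwards [gt_mem_nhds h] with y hy
    exact hh_of_le hy.le
  rw [this.deriv_eq]; simp

/-- the charts of the Lagrangian surface -/
inductive Ch | UMl | TL | LU | TM | UM | LUr

/-- closing of the strands `U`, `M` at `x = -4` -/
def dUMl : LData := ⟨aS 1 4, cS 0, cS 1, 2⟩
/-- twisted closing of the strands `T`, `L` at `x = -8` -/
def dTL : LData := ⟨aS 1 8, cS 0, kS, -2⟩
/-- first handle, between `L` and `U`, near `x = 0` -/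
def dLU (δ : ℝ) : LData := ⟨hS 0, rS δ 0, cS 1, 0⟩
/-- closing of the strands `T`, `M` at `x = 11` -/
def dTM : LData := ⟨aS (-1) 11, cS 0, cS 3, 0⟩
/-- second handle, between `U` and `M`, near `x = 5` -/
def dUM (δ : ℝ) : LData := ⟨hS 5, rS δ 1, cS 1, 2⟩
/-- closing of the strands `L`, `U` at `x = 9` -/
def dLUr : LData := ⟨aS (-1) 9, cS 0, cS 1, 0⟩

/-- the Lagrangian surface -/
def LL (δ : ℝ) : Set (ℝ × ℝ × ℝ × ℝ) :=
  {q | (q.2.1 ≤ -(5 / 2) ∧ (q ∈ dUMl.pd.piece ∨ q ∈ dTL.pd.piece)) ∨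
    (-(5 / 2) < q.2.1 ∧ q.2.1 ≤ 5 / 2 ∧ (q ∈ (dLU δ).pd.piece ∨ q ∈ dTM.pd.piece)) ∨
    (5 / 2 < q.2.1 ∧ q.2.1 ≤ 15 / 2 ∧ (q ∈ (dUM δ).pd.piece ∨ q ∈ dTL.pd.piece)) ∨
    (15 / 2 < q.2.1 ∧ (q ∈ dLUr.pd.piece ∨ q ∈ dTM.pd.piece))}

section flats

lemma flat_UMl {b : ℝ × ℝ} (h : -3 < b.2) : dUMl.flat b := by
  refine ⟨?_, ?_, ?_, ?_⟩ <;> simp [dUMl, LData.w]
  linarith

lemma flat_TL {b : ℝ × ℝ} (h : -4 < b.2) : dTL.flat b := by
  refine ⟨?_, ?_, ?_, ?_⟩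
  · simp [dTL, LData.w]; linarith
  · show 0 < kt b.2
    rw [kt_of_ge h.le]; norm_num
  · exact kS_d1_zero h
  · exact kS_d2_zero h

lemma flat_LU {δ : ℝ} {b : ℝ × ℝ} (h : 2 < |b.2|) : (dLU δ).flat b := by
  refine ⟨?_, ?_, ?_, ?_⟩ <;> simp [dLU, LData.w]
  rw [hh_eq_abs (by linarith)]
  have := st_nonneg (δ * b.1)
  linarith

lemma flat_TM {b : ℝ × ℝ} (h : b.2 < 10) : dTM.flat b := by
  refine ⟨?_, ?_, ?_, ?_⟩ <;> simp [dTM, LData.w]
  linarith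

lemma flat_UM {δ : ℝ} {b : ℝ × ℝ} (h : 2 < |b.2 - 5|) : (dUM δ).flat b := by
  refine ⟨?_, ?_, ?_, ?_⟩ <;> simp [dUM, LData.w]
  rw [hh_eq_abs (by linarith)]
  have := st_nonneg (δ * b.1 + 1)
  linarith

lemma flat_LUr {b : ℝ × ℝ} (h : b.2 < 8) : dLUr.flat b := by
  refine ⟨?_, ?_, ?_, ?_⟩ <;> simp [dLUr, LData.w]
  linarith

end flats

/-- the four flat strands -/
def F4 (q : ℝ × ℝ × ℝ × ℝ) : Prop :=
  q.2.2.1 = 0 ∧ (q.2.2.2 = -3 ∨ q.2.2.2 = -1 ∨ q.2.2.2 = 1 ∨ q.2.2.2 = 3)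

lemma mem_UMl_flat {q : ℝ × ℝ × ℝ × ℝ} (h : -3 < q.2.1) :
    q ∈ dUMl.pd.piece ↔ (q.2.2.1 = 0 ∧ (q.2.2.2 = 3 ∨ q.2.2.2 = 1)) := by
  rw [dUMl.flat_mem_iff (flat_UMl h)]
  norm_num [dUMl]

lemma mem_TL_flat {q : ℝ × ℝ × ℝ × ℝ} (h : -4 < q.2.1) :
    q ∈ dTL.pd.piece ↔ (q.2.2.1 = 0 ∧ (q.2.2.2 = -1 ∨ q.2.2.2 = -3)) := by
  rw [dTL.flat_mem_iff (flat_TL h)]
  simp only [dTL, kS_f]
  rw [kt_of_ge h.le]
  norm_num

lemma mem_LU_flat {δ : ℝ} {q : ℝ × ℝ × ℝ × ℝ} (h : 2 < |q.2.1|) :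
    q ∈ (dLU δ).pd.piece ↔ (q.2.2.1 = 0 ∧ (q.2.2.2 = 1 ∨ q.2.2.2 = -1)) := by
  rw [(dLU δ).flat_mem_iff (flat_LU h)]
  norm_num [dLU]

lemma mem_TM_flat {q : ℝ × ℝ × ℝ × ℝ} (h : q.2.1 < 10) :
    q ∈ dTM.pd.piece ↔ (q.2.2.1 = 0 ∧ (q.2.2.2 = 3 ∨ q.2.2.2 = -3)) := by
  rw [dTM.flat_mem_iff (flat_TM h)]
  norm_num [dTM]

lemma mem_UM_flat {δ : ℝ} {q : ℝ × ℝ × ℝ × ℝ} (h : 2 < |q.2.1 - 5|) :
    q ∈ (dUM δ).pd.piece ↔ (q.2.2.1 = 0 ∧ (q.2.2.2 = 3 ∨ q.2.2.2 = 1)) := by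
  rw [(dUM δ).flat_mem_iff (flat_UM h)]
  norm_num [dUM]

lemma mem_LUr_flat {q : ℝ × ℝ × ℝ × ℝ} (h : q.2.1 < 8) :
    q ∈ dLUr.pd.piece ↔ (q.2.2.1 = 0 ∧ (q.2.2.2 = 1 ∨ q.2.2.2 = -1)) := by
  rw [dLUr.flat_mem_iff (flat_LUr h)]
  norm_num [dLUr]

lemma zone1_F4 {q : ℝ × ℝ × ℝ × ℝ} (h : -3 < q.2.1) :
    (q ∈ dUMl.pd.piece ∨ q ∈ dTL.pd.piece) ↔ F4 q := by
  rw [mem_UMl_flat h, mem_TL_flat (by linarith)]
  unfold F4; tauto

lemma zone2_F4 {δ : ℝ} {q : ℝ × ℝ × ℝ × ℝ} (h : 2 < |q.2.1|) (h' : q.2.1 < 10) :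
    (q ∈ (dLU δ).pd.piece ∨ q ∈ dTM.pd.piece) ↔ F4 q := by
  rw [mem_LU_flat h, mem_TM_flat h']
  unfold F4; tauto

lemma zone3_F4 {δ : ℝ} {q : ℝ × ℝ × ℝ × ℝ} (h : 2 < |q.2.1 - 5|) (h' : -4 < q.2.1) :
    (q ∈ (dUM δ).pd.piece ∨ q ∈ dTL.pd.piece) ↔ F4 q := by
  rw [mem_UM_flat h, mem_TL_flat h']
  unfold F4; tauto

lemma zone4_F4 {q : ℝ × ℝ × ℝ × ℝ} (h : q.2.1 < 8) :
    (q ∈ dLUr.pd.piece ∨ q ∈ dTM.pd.piece) ↔ F4 q := by
  rw [mem_LUr_flat h, mem_TM_flat (by linarith)]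
  unfold F4; tauto

lemma zone1 {δ : ℝ} {q : ℝ × ℝ × ℝ × ℝ} (h : q.2.1 < -2) :
    q ∈ LL δ ↔ (q ∈ dUMl.pd.piece ∨ q ∈ dTL.pd.piece) := by
  by_cases h1 : q.2.1 ≤ -(5 / 2)
  · unfold LL
    simp only [Set.mem_ofPred_eq]
    constructor
    · rintro (h2 | h2 | h2 | h2)
      · exact h2.2
      all_goals exfalso; linarith [h2.1]
    · intro h2; exact Or.inl ⟨h1, h2⟩
  · have e : q ∈ LL δ ↔ (q ∈ (dLU δ).pd.piece ∨ q ∈ dTM.pd.piece) := by
      unfold LL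
      simp only [Set.mem_ofPred_eq]
      constructor
      · rintro (h2 | h2 | h2 | h2)
        · exact absurd h2.1 h1
        · exact h2.2.2
        all_goals exfalso; linarith [h2.1]
      · intro h2; exact Or.inr (Or.inl ⟨by linarith, by linarith, h2⟩)
    rw [e, zone1_F4 (by linarith), zone2_F4 _ (by linarith)]
    rw [abs_of_neg (by linarith)]; linarith

lemma zone2 {δ : ℝ} {q : ℝ × ℝ × ℝ × ℝ} (h : -3 < q.2.1) (h' : q.2.1 < 3) :
    q ∈ LL δ ↔ (q ∈ (dLU δ).pd.piece ∨ q ∈ dTM.pd.piece) := by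
  by_cases h1 : q.2.1 ≤ -(5 / 2)
  · rw [zone1 (by linarith), zone1_F4 h, zone2_F4 _ (by linarith)]
    rw [abs_of_neg (by linarith)]; linarith
  · by_cases h2 : q.2.1 ≤ 5 / 2
    · unfold LL
      simp only [Set.mem_ofPred_eq]
      constructor
      · rintro (h3 | h3 | h3 | h3)
        · exact absurd h3.1 h1
        · exact h3.2.2
        all_goals exfalso; linarith [h3.1]
      · intro h3; exact Or.inr (Or.inl ⟨by linarith, by linarith, h3⟩)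
    · have e : q ∈ LL δ ↔ (q ∈ (dUM δ).pd.piece ∨ q ∈ dTL.pd.piece) := by
        unfold LL
        simp only [Set.mem_ofPred_eq]
        constructor
        · rintro (h3 | h3 | h3 | h3)
          · exact absurd h3.1 h1
          · exact absurd h3.2.1 h2
          · exact h3.2.2
          · exfalso; linarith [h3.1]
        · intro h3; exact Or.inr (Or.inr (Or.inl ⟨by linarith, by linarith, h3⟩))
      rw [e, zone3_F4 _ (by linarith), zone2_F4 _ (by linarith)]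
      · rw [abs_of_pos (by linarith)]; linarith
      · rw [abs_of_neg (by linarith)]; linarith

lemma zone3 {δ : ℝ} {q : ℝ × ℝ × ℝ × ℝ} (h : 2 < q.2.1) (h' : q.2.1 < 8) :
    q ∈ LL δ ↔ (q ∈ (dUM δ).pd.piece ∨ q ∈ dTL.pd.piece) := by
  by_cases h1 : q.2.1 ≤ 5 / 2
  · rw [zone2 (by linarith) (by linarith), zone2_F4 _ (by linarith), zone3_F4 _ (by linarith)]
    · rw [abs_of_neg (by linarith)]; linarith
    · rw [abs_of_pos (by linarith)]; linarith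
  · by_cases h2 : q.2.1 ≤ 15 / 2
    · unfold LL
      simp only [Set.mem_ofPred_eq]
      constructor
      · rintro (h3 | h3 | h3 | h3)
        · exfalso; linarith [h3.1]
        · exact absurd h3.2.1 h1
        · exact h3.2.2
        · exfalso; linarith [h3.1]
      · intro h3; exact Or.inr (Or.inr (Or.inl ⟨by linarith, by linarith, h3⟩))
    · have e : q ∈ LL δ ↔ (q ∈ dLUr.pd.piece ∨ q ∈ dTM.pd.piece) := by
        unfold LL
        simp only [Set.mem_ofPred_eq]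
        constructor
        · rintro (h3 | h3 | h3 | h3)
          · exfalso; linarith [h3.1]
          · exact absurd h3.2.1 h1
          · exact absurd h3.2.1 h2
          · exact h3.2
        · intro h3; exact Or.inr (Or.inr (Or.inr ⟨by linarith, h3⟩))
      rw [e, zone3_F4 _ (by linarith), zone4_F4 h']
      rw [abs_of_pos (by linarith)]; linarith

lemma zone4 {δ : ℝ} {q : ℝ × ℝ × ℝ × ℝ} (h : 7 < q.2.1) :
    q ∈ LL δ ↔ (q ∈ dLUr.pd.piece ∨ q ∈ dTM.pd.piece) := by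
  by_cases h1 : q.2.1 ≤ 15 / 2
  · rw [zone3 (by linarith) (by linarith), zone3_F4 _ (by linarith), zone4_F4 (by linarith)]
    rw [abs_of_pos (by linarith)]; linarith
  · unfold LL
    simp only [Set.mem_ofPred_eq]
    constructor
    · rintro (h3 | h3 | h3 | h3)
      · exfalso; linarith [h3.1]
      · exfalso; linarith [h3.2.1]
      · exact absurd h3.2.1 h1
      · exact h3.2
    · intro h3; exact Or.inr (Or.inr (Or.inr ⟨by linarith, h3⟩))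

end

end Pool.Agent.MP_70d14f_gt
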