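import Pool.Agent.Lib.MP_70d14f_gt.LPD

namespace Pool.Agent.MP_70d14f_gt

open Set Topology

noncomputable section

namespace LData

variable (A : LData)

/-- explicit relations for tangent vectors -/
lemma rel_iff {p v : ℝ × ℝ × ℝ × ℝ} {d : ℝ} : A.pd.rel p v d ↔
    (2 * A.pd.eta p * d = A.gt (bp p) * v.1 + A.gx (bp p) * v.2.1 ∧
    v.2.2.1 = d * A.Q (bp p) + A.pd.eta p * (A.Qt (bp p) * v.1 + A.Qx (bp p) * v.2.1) ∧
    v.2.2.2 = d * A.P (bp p) + A.pd.eta p * (A.Pt (bp p) * v.1 + A.Px (bp p) * v.2.1)) := by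
  unfold PD.rel
  show (2 * A.pd.eta p * d = fderiv ℝ A.g (bp p) (bp v) ∧
    v.2.2.1 = d * A.Q (bp p) + A.pd.eta p * fderiv ℝ A.Q (bp p) (bp v) ∧
    v.2.2.2 = d * A.P (bp p) + A.pd.eta p * fderiv ℝ A.P (bp p) (bp v)) ↔ _
  rw [A.fderiv_g, A.fderiv_Q, A.fderiv_P]
  rfl

/-- cross product relations for two tangent vectors -/
lemma tcross {p v w : ℝ × ℝ × ℝ × ℝ} (hp : A.pd.reg (bp p)) (hm : p ∈ A.pd.piece)
    (hv : v ∈ A.pd.tsp p) (hw : w ∈ A.pd.tsp p) :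
    ∃ dv dw c, A.pd.rel p v dv ∧ A.pd.rel p w dw ∧
      v.1 * w.2.1 - w.1 * v.2.1 = 2 * A.pd.eta p * c ∧
      v.1 * dw - w.1 * dv = A.gx (bp p) * c ∧
      dv * w.2.1 - dw * v.2.1 = A.gt (bp p) * c := by
  obtain ⟨dv, rv⟩ := (A.pd.mem_tsp_iff hp.1 hm).1 hv
  obtain ⟨dw, rw'⟩ := (A.pd.mem_tsp_iff hp.1 hm).1 hw
  obtain ⟨c, hA, hB, hC⟩ := A.pd.tsp_cross hp hm rv rw'
  have e1 : A.pd.gx (bp p) = A.gx (bp p) := by
    show fderiv ℝ A.g (bp p) (0, 1) = _
    rw [A.fderiv_g]; ring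
  have e2 : A.pd.gt (bp p) = A.gt (bp p) := by
    show fderiv ℝ A.g (bp p) (1, 0) = _
    rw [A.fderiv_g]; ring
  rw [e1] at hB
  rw [e2] at hC
  exact ⟨dv, dw, c, rv, rw', hA, hB, hC⟩

lemma omega_zero {p v w : ℝ × ℝ × ℝ × ℝ} (hp : A.pd.reg (bp p)) (hm : p ∈ A.pd.piece)
    (hv : v ∈ A.pd.tsp p) (hw : w ∈ A.pd.tsp p) : omega p v w = 0 := by
  obtain ⟨dv, dw, c, rv, rw', hA, hB, hC⟩ := A.tcross hp hm hv hw
  obtain ⟨h1, h2, h3⟩ := A.rel_iff.1 rv
  obtain ⟨k1, k2, k3⟩ := A.rel_iff.1 rw'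
  obtain ⟨e1, e2, e3⟩ := A.pd.eta_spec hp.1 hm
  have e1' : A.pd.eta p ^ 2 = A.g (bp p) := e1
  have e2' : p.2.2.1 = A.pd.eta p * A.Q (bp p) := e2
  unfold omega alpha
  apply mul_eq_zero_of_right
  rw [e2', h2, h3, k2, k3]
  have key : A.P (bp p) * (v.1 * dw - w.1 * dv) - A.Q (bp p) * (dv * w.2.1 - dw * v.2.1)
      + A.pd.eta p * (A.Px (bp p) - A.Q (bp p) - A.Qt (bp p)) * (v.1 * w.2.1 - w.1 * v.2.1) = 0 := by
    rw [hA, hB, hC, A.P_eq, A.Q_eq]
    unfold Px Qt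
    linear_combination (2 * c * (-(1 / 2) * A.gx (bp p) * A.k.f (bp p).2
      + 1 / 2 * A.gt (bp p) * A.k.d1 (bp p).2)) * e1'
  linear_combination key

/-- the primitive of `e^t alpha` on the piece -/
def prim (q : ℝ × ℝ × ℝ × ℝ) : ℝ :=
  Real.exp q.1 * (3 / 2 * A.k.f q.2.1 * A.pd.eta q * A.gt (bp q))

lemma prim_contDiffAt {p : ℝ × ℝ × ℝ × ℝ} (hp : A.pd.nd (bp p)) :
    ContDiffAt ℝ (⊤ : ℕ∞) A.prim p := by
  have h1 := A.pd.eta_contDiffAt hp
  have h2 : ContDiff ℝ (⊤ : ℕ∞) fun q : ℝ × ℝ × ℝ × ℝ => A.gt (bp q) :=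
    A.gt_smooth.comp bp_contDiff
  have h3 : ContDiff ℝ (⊤ : ℕ∞) fun q : ℝ × ℝ × ℝ × ℝ => 3 / 2 * A.k.f q.2.1 := by
    have := A.k.hf
    fun_prop
  have h4 : ContDiff ℝ (⊤ : ℕ∞) fun q : ℝ × ℝ × ℝ × ℝ => Real.exp q.1 := by fun_prop
  unfold prim
  exact h4.contDiffAt.mul ((h3.contDiffAt.mul h1).mul h2.contDiffAt)

lemma fderiv_prim {p v : ℝ × ℝ × ℝ × ℝ} (hp : A.pd.reg (bp p)) (hm : p ∈ A.pd.piece)
    (hv : v ∈ A.pd.tsp p) : fderiv ℝ A.prim p v = Real.exp p.1 * alpha p.2 v.2 := by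
  obtain ⟨dv, rv⟩ := (A.pd.mem_tsp_iff hp.1 hm).1 hv
  have hd := A.pd.rel_deta hp.1 hm rv
  obtain ⟨h1, h2, h3⟩ := A.rel_iff.1 rv
  obtain ⟨e1, e2, e3⟩ := A.pd.eta_spec hp.1 hm
  have e1' : A.pd.eta p ^ 2 = A.g (bp p) := e1
  have e2' : p.2.2.1 = A.pd.eta p * A.Q (bp p) := e2
  have l1 : HasFDerivAt A.prim (fderiv ℝ A.prim p) p :=
    ((A.prim_contDiffAt hp.1).differentiableAt (by simp)).hasFDerivAt
  have l2 : HasDerivAt (fun s : ℝ => p + s • v) v 0 := by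
    simpa using ((hasDerivAt_id (0:ℝ)).smul_const v).const_add p
  have l3 : HasFDerivAt A.prim (fderiv ℝ A.prim p) (p + (0:ℝ) • v) := by simpa using l1
  have l4 := l3.comp_hasDerivAt 0 l2
  have m1 : HasDerivAt (fun s : ℝ => (p + s • v).1) v.1 0 := by
    simpa using ((hasDerivAt_id (0:ℝ)).smul_const v.1).const_add p.1
  have m2 : HasDerivAt (fun s : ℝ => (p + s • v).2.1) v.2.1 0 := by
    simpa using ((hasDerivAt_id (0:ℝ)).smul_const v.2.1).const_add p.2.1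
  have m3 := A.pd.line_eta hp.1 v
  rw [hd] at m3
  have m4 := PD.line_base A.gt_smooth p v
  rw [A.fderiv_gt] at m4
  have m5 : HasDerivAt (fun s : ℝ => A.k.f (p + s • v).2.1) (A.k.d1 p.2.1 * v.2.1) 0 := by
    have h := A.k.has1 p.2.1
    have h' : HasDerivAt A.k.f (A.k.d1 p.2.1) (p + (0:ℝ) • v).2.1 := by simpa using h
    exact HasDerivAt.comp (h := fun s : ℝ => (p + s • v).2.1) (h₂ := A.k.f) 0 h' m2
  have m6 : HasDerivAt (A.prim ∘ fun s : ℝ => p + s • v) _ 0 :=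
    m1.exp.mul (((m5.const_mul (3 / 2)).mul m3).mul m4)
  refine (l4.unique m6).trans ?_
  simp only [zero_smul, add_zero, Pi.mul_apply]
  unfold alpha
  rw [e2', h3, A.P_eq, A.Q_eq]
  have k0 : (bp p).2 = p.2.1 := rfl
  have k1 : (bp v).1 = v.1 := rfl
  have k2 : (bp v).2 = v.2.1 := rfl
  unfold Pt Px
  rw [k0, k1, k2]
  linear_combination (Real.exp p.1 * (1 / 2 * A.pd.eta p * A.k.f p.2.1)) * (-h1)
    + (Real.exp p.1 * (A.k.f p.2.1 * dv)) * e1'

def Del (b : ℝ × ℝ) : ℝ :=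
  1 / 2 * (A.Pt b * A.Q b - A.P b * A.Qt b) * A.gx b
    + 1 / 2 * (A.P b * A.Qx b - (A.Px b - A.Q b) * A.Q b) * A.gt b
    + A.g b * (A.Pt b * A.Qx b - (A.Px b - A.Q b) * A.Qt b)

def En (b : ℝ × ℝ) : ℝ :=
  A.Q b * A.gx b + A.P b * A.gt b + 2 * A.g b * (A.Qx b + A.Pt b)

lemma complexArea_eq {p v w : ℝ × ℝ × ℝ × ℝ} (hp : A.pd.reg (bp p)) (hm : p ∈ A.pd.piece)
    (hv : v ∈ A.pd.tsp p) (hw : w ∈ A.pd.tsp p) : ∃ c : ℝ, complexArea p v w =
      c * (2 * A.pd.eta p * (1 - A.Del (bp p)) + A.En (bp p) * Complex.I) := by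
  obtain ⟨dv, dw, c, rv, rw', hA, hB, hC⟩ := A.tcross hp hm hv hw
  obtain ⟨h1, h2, h3⟩ := A.rel_iff.1 rv
  obtain ⟨k1, k2, k3⟩ := A.rel_iff.1 rw'
  obtain ⟨e1, e2, e3⟩ := A.pd.eta_spec hp.1 hm
  have e1' : A.pd.eta p ^ 2 = A.g (bp p) := e1
  have e2' : p.2.2.1 = A.pd.eta p * A.Q (bp p) := e2
  refine ⟨c, ?_⟩
  unfold complexArea alpha
  have hre : v.1 * w.2.1 - w.1 * v.2.1
      - ((v.2.2.2 - p.2.2.1 * v.2.1) * w.2.2.1 - (w.2.2.2 - p.2.2.1 * w.2.1) * v.2.2.1)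
      = c * (2 * A.pd.eta p * (1 - A.Del (bp p))) := by
    have key : v.1 * w.2.1 - w.1 * v.2.1
      - (-(A.pd.eta p) * (A.P (bp p) * A.Qt (bp p) - A.Pt (bp p) * A.Q (bp p)) * (v.1 * dw - w.1 * dv)
        + A.pd.eta p * (A.P (bp p) * A.Qx (bp p) - (A.Px (bp p) - A.Q (bp p)) * A.Q (bp p))
          * (dv * w.2.1 - dw * v.2.1)
        + A.pd.eta p ^ 2 * (A.Pt (bp p) * A.Qx (bp p) - (A.Px (bp p) - A.Q (bp p)) * A.Qt (bp p))
          * (v.1 * w.2.1 - w.1 * v.2.1)) = c * (2 * A.pd.eta p * (1 - A.Del (bp p))) := by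
      rw [hA, hB, hC, e1']
      unfold Del
      ring
    rw [← key, e2', h2, h3, k2, k3]
    ring
  have him : v.1 * w.2.2.1 - w.1 * v.2.2.1
      + ((v.2.2.2 - p.2.2.1 * v.2.1) * w.2.1 - (w.2.2.2 - p.2.2.1 * w.2.1) * v.2.1)
      = c * A.En (bp p) := by
    have key : A.Q (bp p) * (v.1 * dw - w.1 * dv)
        + A.pd.eta p * A.Qx (bp p) * (v.1 * w.2.1 - w.1 * v.2.1)
        + A.P (bp p) * (dv * w.2.1 - dw * v.2.1)
        + A.pd.eta p * A.Pt (bp p) * (v.1 * w.2.1 - w.1 * v.2.1) = c * A.En (bp p) := by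
      rw [hA, hB, hC]
      unfold En
      linear_combination (2 * c * (A.Qx (bp p) + A.Pt (bp p))) * e1'
    rw [← key, e2', h2, h3, k2, k3]
    ring
  apply Complex.ext
  · simp
    linear_combination hre
  · simp
    linear_combination him

/-- rotated area factor -/
def Z (ε : ℝ) (q : ℝ × ℝ × ℝ × ℝ) : ℂ :=
  ε * (A.En (bp q) - 2 * A.pd.eta q * (1 - A.Del (bp q)) * Complex.I)

/-- phase of the piece -/
def phase (ε : ℝ) (n : ℤ) (q : ℝ × ℝ × ℝ × ℝ) : ℝ :=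
  Complex.arg (A.Z ε q) + Real.pi / 2 + n * Real.pi

lemma phase_spec {p v w : ℝ × ℝ × ℝ × ℝ} (hp : A.pd.reg (bp p)) (hm : p ∈ A.pd.piece)
    (hv : v ∈ A.pd.tsp p) (hw : w ∈ A.pd.tsp p) {ε : ℝ} (hε : ε * ε = 1) (n : ℤ) :
    (complexArea p v w * Complex.exp (-(A.phase ε n p * Complex.I))).im = 0 := by
  obtain ⟨c, hc⟩ := A.complexArea_eq hp hm hv hw
  have hεc : (ε : ℂ) * ε = 1 := by exact_mod_cast hε
  have hD : (2 * A.pd.eta p * (1 - A.Del (bp p)) + A.En (bp p) * Complex.I : ℂ)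
      = Complex.I * ε * A.Z ε p := by
    unfold Z
    linear_combination (-(Complex.I * (A.En (bp p)
      - 2 * A.pd.eta p * (1 - A.Del (bp p)) * Complex.I))) * hεc
      + (2 * A.pd.eta p * (1 - A.Del (bp p))) * Complex.I_sq
  have hZ : A.Z ε p * Complex.exp (-(Complex.arg (A.Z ε p) * Complex.I)) = ‖A.Z ε p‖ := by
    have h := Complex.norm_mul_exp_arg_mul_I (A.Z ε p)
    calc A.Z ε p * Complex.exp (-(Complex.arg (A.Z ε p) * Complex.I))
        = (‖A.Z ε p‖ * Complex.exp (Complex.arg (A.Z ε p) * Complex.I))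
          * Complex.exp (-(Complex.arg (A.Z ε p) * Complex.I)) := by rw [h]
      _ = ‖A.Z ε p‖ := by rw [mul_assoc, ← Complex.exp_add]; simp
  have hexp : Complex.exp (-(A.phase ε n p * Complex.I))
      = Complex.exp (-(Complex.arg (A.Z ε p) * Complex.I)) * (-Complex.I)
        * ((Real.cos (n * Real.pi) : ℝ) : ℂ) := by
    unfold phase
    have : (-(((Complex.arg (A.Z ε p) + Real.pi / 2 + n * Real.pi : ℝ) : ℂ) * Complex.I))
        = -(Complex.arg (A.Z ε p) * Complex.I) + -(Real.pi / 2 * Complex.I)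
          + -((n * Real.pi : ℝ) : ℂ) * Complex.I := by
      push_cast; ring
    rw [this, Complex.exp_add, Complex.exp_add]
    congr 1
    · congr 1
      rw [Complex.exp_neg, Complex.exp_pi_div_two_mul_I]
      simp
    · rw [← Complex.ofReal_neg, Complex.exp_mul_I]
      apply Complex.ext
      · rw [← Complex.ofReal_cos, ← Complex.ofReal_sin]
        simp
      · rw [← Complex.ofReal_cos, ← Complex.ofReal_sin]
        simp
  rw [hc, hD, hexp]
  have : (c : ℂ) * (Complex.I * ε * A.Z ε p) * (Complex.exp (-(Complex.arg (A.Z ε p) * Complex.I))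
      * (-Complex.I) * ((Real.cos (n * Real.pi) : ℝ) : ℂ))
      = ((c * ε * ‖A.Z ε p‖ * Real.cos (n * Real.pi) : ℝ) : ℂ) := by
    push_cast
    rw [← hZ]
    linear_combination (-(c * ε * A.Z ε p * Complex.exp (-(Complex.arg (A.Z ε p) * Complex.I))
      * Complex.cos (n * Real.pi))) * Complex.I_sq
  rw [this]
  exact Complex.ofReal_im _

lemma Del_continuous : Continuous A.Del := by
  have h1 := A.P_smooth.continuous
  have h2 := A.Q_smooth.continuous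
  have h3 := A.gt_smooth.continuous
  have h4 := A.gx_smooth.continuous
  have h5 := A.gtt_cont
  have h6 := A.gtx_cont
  have h7 := A.gxx_cont
  have h8 := A.g_smooth.continuous
  have h9 := A.k.hf.continuous
  have h10 := A.k.hd1.continuous
  have h11 := A.k.hd2.continuous
  unfold Del Pt Qt Px Qx
  fun_prop

lemma En_continuous : Continuous A.En := by
  have h1 := A.P_smooth.continuous
  have h2 := A.Q_smooth.continuous
  have h3 := A.gt_smooth.continuous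
  have h4 := A.gx_smooth.continuous
  have h5 := A.gtt_cont
  have h6 := A.gtx_cont
  have h7 := A.gxx_cont
  have h8 := A.g_smooth.continuous
  have h9 := A.k.hf.continuous
  have h10 := A.k.hd1.continuous
  have h11 := A.k.hd2.continuous
  unfold En Pt Qx
  fun_prop

lemma phase_continuousAt {p : ℝ × ℝ × ℝ × ℝ} (hp : A.pd.reg (bp p)) (hm : p ∈ A.pd.piece)
    {ε : ℝ} (hε : ε * ε = 1) (n : ℤ) (hD : A.Del (bp p) ≠ 1)
    (hk : A.w (bp p) = 0 → 0 < ε * A.k.f p.2.1) : ContinuousAt (A.phase ε n) p := by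
  have hslit : A.Z ε p ∈ Complex.slitPlane := by
    rw [Complex.mem_slitPlane_iff]
    obtain ⟨e1, e2, e3⟩ := A.pd.eta_spec hp.1 hm
    have e1' : A.pd.eta p ^ 2 = A.g (bp p) := e1
    by_cases he : A.pd.eta p = 0
    · left
      have hg : A.g (bp p) = 0 := by rw [← e1', he]; ring
      have hw : A.w (bp p) = 0 := lam_eq_zero_iff.1 hg
      have hk' := hk hw
      have hre : (A.Z ε p).re = 3 / 2 * (ε * A.k.f p.2.1) * (A.gx (bp p) ^ 2 + A.gt (bp p) ^ 2) := by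
        unfold Z
        simp
        unfold En
        rw [A.P_eq, A.Q_eq, hg]
        have : (bp p).2 = p.2.1 := rfl
        rw [this]
        ring
      rw [hre]
      have : 0 < A.gx (bp p) ^ 2 + A.gt (bp p) ^ 2 := by
        rcases A.pd.reg_cases hp hm with h | h | h
        · exact absurd he h
        · have : A.gt (bp p) ≠ 0 := by
            have h' : fderiv ℝ A.g (bp p) (1, 0) ≠ 0 := h
            rw [A.fderiv_g] at h'
            simpa using h'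
          positivity
        · have : A.gx (bp p) ≠ 0 := by
            have h' : fderiv ℝ A.g (bp p) (0, 1) ≠ 0 := h
            rw [A.fderiv_g] at h'
            simpa using h'
          positivity
      positivity
    · right
      unfold Z
      simp
      refine ⟨?_, he, sub_ne_zero.mpr (Ne.symm hD)⟩
      rintro rfl
      norm_num at hε
  have h1 := (A.pd.eta_contDiffAt hp.1).continuousAt
  have h2 : ContinuousAt (fun q => A.Del (bp q)) p :=
    (A.Del_continuous.comp bp_contDiff.continuous).continuousAt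
  have h3 : ContinuousAt (fun q => A.En (bp q)) p :=
    (A.En_continuous.comp bp_contDiff.continuous).continuousAt
  have hZ : ContinuousAt (A.Z ε) p := by
    unfold Z
    have c1 : ContinuousAt (fun q => ((A.pd.eta q : ℝ) : ℂ)) p := Complex.continuous_ofReal.continuousAt.comp h1
    have c2 : ContinuousAt (fun q => ((A.Del (bp q) : ℝ) : ℂ)) p := Complex.continuous_ofReal.continuousAt.comp h2
    have c3 : ContinuousAt (fun q => ((A.En (bp q) : ℝ) : ℂ)) p := Complex.continuous_ofReal.continuousAt.comp h3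
    fun_prop
  unfold phase
  have := (Complex.continuousAt_arg hslit).comp hZ
  exact (this.add continuousAt_const).add continuousAt_const

end LData

end

end Pool.Agent.MP_70d14f_gt
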