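import Pool.Agent.Lib.MP_70d14f_gt.Piece

namespace Pool.Agent.MP_70d14f_gt

open Set Topology

noncomputable section

/-- alternating form of two functionals -/
def wedge (a b : (ℝ × ℝ × ℝ × ℝ) →ₗ[ℝ] ℝ) : LinearMap.BilinForm ℝ (ℝ × ℝ × ℝ × ℝ) :=
  LinearMap.BilinForm.linMulLin a b - LinearMap.BilinForm.linMulLin b a

@[simp] lemma wedge_apply (a b : (ℝ × ℝ × ℝ × ℝ) →ₗ[ℝ] ℝ) (v w : ℝ × ℝ × ℝ × ℝ) :
    wedge a b v w = a v * b w - b v * a w := by
  simp [wedge]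

/-- coordinate forms -/
def dt : (ℝ × ℝ × ℝ × ℝ) →ₗ[ℝ] ℝ := LinearMap.fst ℝ ℝ (ℝ × ℝ × ℝ)
def dx : (ℝ × ℝ × ℝ × ℝ) →ₗ[ℝ] ℝ :=
  (LinearMap.fst ℝ ℝ (ℝ × ℝ)).comp (LinearMap.snd ℝ ℝ (ℝ × ℝ × ℝ))

@[simp] lemma dt_apply (v : ℝ × ℝ × ℝ × ℝ) : dt v = v.1 := rfl
@[simp] lemma dx_apply (v : ℝ × ℝ × ℝ × ℝ) : dx v = v.2.1 := rfl

/-- cross product lemma -/
lemma cross {η gt gx tv xv dv tw xw dw : ℝ} (hv : 2 * η * dv = gt * tv + gx * xv)
    (hw : 2 * η * dw = gt * tw + gx * xw) (h : η ≠ 0 ∨ gt ≠ 0 ∨ gx ≠ 0) :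
    ∃ c, tv * xw - tw * xv = 2 * η * c ∧ tv * dw - tw * dv = gx * c ∧
      dv * xw - dw * xv = gt * c := by
  by_cases he : η = 0
  · subst he
    simp only [mul_zero, zero_mul] at hv hw ⊢
    rcases h with h | h | h
    · exact absurd rfl h
    · refine ⟨(dv * xw - dw * xv) / gt, ?_, ?_, ?_⟩
      · apply mul_left_cancel₀ h
        linear_combination -xw * hv + xv * hw
      · field_simp
        linear_combination (-dw) * hv + dv * hw
      · field_simp
    · refine ⟨(tv * dw - tw * dv) / gx, ?_, ?_, ?_⟩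
      · apply mul_left_cancel₀ h
        linear_combination -tv * hw + tw * hv
      · field_simp
      · field_simp
        linear_combination (-dv) * hw + dw * hv
  · refine ⟨(tv * xw - tw * xv) / (2 * η), ?_, ?_, ?_⟩
    · field_simp
    · field_simp
      linear_combination tv * hw - tw * hv
    · field_simp
      linear_combination xw * hv - xv * hw

namespace PD

variable (D : PD)

def gt (b : ℝ × ℝ) : ℝ := fderiv ℝ D.g b (1, 0)
def gx (b : ℝ × ℝ) : ℝ := fderiv ℝ D.g b (0, 1)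

lemma fderiv_eq {f : ℝ × ℝ → ℝ} (b a : ℝ × ℝ) :
    fderiv ℝ f b a = fderiv ℝ f b (1, 0) * a.1 + fderiv ℝ f b (0, 1) * a.2 := by
  have : a = a.1 • ((1:ℝ), (0:ℝ)) + a.2 • ((0:ℝ), (1:ℝ)) := by ext <;> simp
  conv_lhs => rw [this]
  rw [map_add, map_smul, map_smul, smul_eq_mul, smul_eq_mul]; ring

/-- orientation form of the piece -/
def ori (q : ℝ × ℝ × ℝ × ℝ) : LinearMap.BilinForm ℝ (ℝ × ℝ × ℝ × ℝ) :=
  (2 * D.eta q) • wedge dt dx + D.gx (bp q) • wedge dt (fderiv ℝ D.eta q : _ →ₗ[ℝ] ℝ)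
    + D.gt (bp q) • wedge (fderiv ℝ D.eta q : _ →ₗ[ℝ] ℝ) dx

lemma ori_apply (q v w : ℝ × ℝ × ℝ × ℝ) : D.ori q v w =
    2 * D.eta q * (v.1 * w.2.1 - v.2.1 * w.1)
      + D.gx (bp q) * (v.1 * fderiv ℝ D.eta q w - fderiv ℝ D.eta q v * w.1)
      + D.gt (bp q) * (fderiv ℝ D.eta q v * w.2.1 - v.2.1 * fderiv ℝ D.eta q w) := by
  simp [ori]

lemma continuous_gx : Continuous D.gx := by
  have h := D.hg.continuous_fderiv (by simp)
  exact h.clm_apply continuous_const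

lemma continuous_gt : Continuous D.gt := by
  have h := D.hg.continuous_fderiv (by simp)
  exact h.clm_apply continuous_const

lemma continuousAt_fderiv_eta {q : ℝ × ℝ × ℝ × ℝ} (hq : D.nd (bp q)) :
    ContinuousAt (fun q => fderiv ℝ D.eta q) q := by
  have := (D.eta_contDiffAt hq).fderiv_right (m := 0) (by simp)
  exact this.continuousAt

lemma continuousAt_ori {q : ℝ × ℝ × ℝ × ℝ} (hq : D.nd (bp q)) (v w : ℝ × ℝ × ℝ × ℝ) :
    ContinuousAt (fun q => D.ori q v w) q := by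
  have h1 := fun v => (D.continuousAt_fderiv_eta hq).clm_apply (continuousAt_const (y := v))
  have h2 := (D.continuous_gx.comp bp_contDiff.continuous).continuousAt (x := q)
  have h3 := (D.continuous_gt.comp bp_contDiff.continuous).continuousAt (x := q)
  have h4 := (D.eta_contDiffAt hq).continuousAt
  simp only [ori_apply]
  exact (((h4.const_mul 2).mul continuousAt_const).add
    (h2.mul ((continuousAt_const.mul (h1 w)).sub ((h1 v).mul continuousAt_const)))).add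
    (h3.mul (((h1 v).mul continuousAt_const).sub (continuousAt_const.mul (h1 w))))

lemma reg_cases {p : ℝ × ℝ × ℝ × ℝ} (hp : D.reg (bp p)) (hm : p ∈ D.piece) :
    D.eta p ≠ 0 ∨ D.gt (bp p) ≠ 0 ∨ D.gx (bp p) ≠ 0 := by
  by_contra h
  push Not at h
  obtain ⟨h1, h2, h3⟩ := h
  obtain ⟨e1, -, -⟩ := D.eta_spec hp.1 hm
  obtain ⟨a, ha⟩ := hp.2 (by rw [← e1, h1]; ring)
  apply ha
  rw [fderiv_eq]
  unfold gt at h2; unfold gx at h3
  rw [h2, h3]; ring

/-- two tangent vectors: the cross product -/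
lemma tsp_cross {p v w : ℝ × ℝ × ℝ × ℝ} (hp : D.reg (bp p)) (hm : p ∈ D.piece) {dv dw : ℝ}
    (hv : D.rel p v dv) (hw : D.rel p w dw) :
    ∃ c, v.1 * w.2.1 - w.1 * v.2.1 = 2 * D.eta p * c ∧ v.1 * dw - w.1 * dv = D.gx (bp p) * c ∧
      dv * w.2.1 - dw * v.2.1 = D.gt (bp p) * c := by
  apply cross _ _ (D.reg_cases hp hm)
  · have := hv.1; rw [fderiv_eq] at this; exact this
  · have := hw.1; rw [fderiv_eq] at this; exact this

lemma comb_zero {p v w : ℝ × ℝ × ℝ × ℝ} {dv dw : ℝ}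
    (hv : D.rel p v dv) (hw : D.rel p w dw) {s r : ℝ} (h1 : s * v.1 + r * w.1 = 0)
    (h2 : s * v.2.1 + r * w.2.1 = 0) (h3 : s * dv + r * dw = 0) : s • v + r • w = 0 := by
  have hb : s • bp v + r • bp w = 0 := by
    ext
    · simpa [bp] using h1
    · simpa [bp] using h2
  have hQ : s * fderiv ℝ D.Q (bp p) (bp v) + r * fderiv ℝ D.Q (bp p) (bp w) = 0 := by
    have := congrArg (fderiv ℝ D.Q (bp p)) hb
    simpa using this
  have hP : s * fderiv ℝ D.P (bp p) (bp v) + r * fderiv ℝ D.P (bp p) (bp w) = 0 := by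
    have := congrArg (fderiv ℝ D.P (bp p)) hb
    simpa using this
  obtain ⟨-, hv2, hv3⟩ := hv
  obtain ⟨-, hw2, hw3⟩ := hw
  ext
  · simpa using h1
  · simpa using h2
  · simp only [Prod.snd_add, Prod.smul_snd, Prod.fst_add, Prod.smul_fst, smul_eq_mul, Prod.snd_zero,
      Prod.fst_zero]
    rw [hv2, hw2]
    linear_combination (D.Q (bp p)) * h3 + (D.eta p) * hQ
  · simp only [Prod.snd_add, Prod.smul_snd, smul_eq_mul, Prod.snd_zero]
    rw [hv3, hw3]
    linear_combination (D.P (bp p)) * h3 + (D.eta p) * hP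

lemma ori_ne_zero {p v w : ℝ × ℝ × ℝ × ℝ} (hp : D.reg (bp p)) (hm : p ∈ D.piece)
    (hv : v ∈ D.tsp p) (hw : w ∈ D.tsp p) (hl : LinearIndependent ℝ ![v, w]) :
    D.ori p v w ≠ 0 := by
  obtain ⟨dv, rv⟩ := (D.mem_tsp_iff hp.1 hm).1 hv
  obtain ⟨dw, rw'⟩ := (D.mem_tsp_iff hp.1 hm).1 hw
  obtain ⟨c, hA, hB, hC⟩ := D.tsp_cross hp hm rv rw'
  have e1 := (D.fderiv_eta hp.1 v).trans (D.rel_deta hp.1 hm rv)
  have e2 := (D.fderiv_eta hp.1 w).trans (D.rel_deta hp.1 hm rw')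
  have hval : D.ori p v w = (4 * D.eta p ^ 2 + D.gx (bp p) ^ 2 + D.gt (bp p) ^ 2) * c := by
    rw [ori_apply, e1, e2]
    linear_combination (2 * D.eta p) * hA + (D.gx (bp p)) * hB + (D.gt (bp p)) * hC
  rw [hval]
  have hpos : 0 < 4 * D.eta p ^ 2 + D.gx (bp p) ^ 2 + D.gt (bp p) ^ 2 := by
    rcases D.reg_cases hp hm with h | h | h <;> positivity
  refine mul_ne_zero hpos.ne' ?_
  rintro rfl
  rw [LinearIndependent.pair_iff] at hl
  simp only [mul_zero] at hA hB hC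
  have a1 : v.1 = 0 := by
    have := (hl w.1 (-v.1) (D.comb_zero rv rw' (by ring) (by linear_combination -hA)
      (by linear_combination -hB))).2
    linarith
  have a2 : v.2.1 = 0 := by
    have := (hl w.2.1 (-v.2.1) (D.comb_zero rv rw' (by linear_combination hA) (by ring)
      (by linear_combination hC))).2
    linarith
  have a3 : dv = 0 := by
    have := (hl dw (-dv) (D.comb_zero rv rw' (by linear_combination hB)
      (by linear_combination -hC) (by ring))).2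
    linarith
  have := (hl 1 0 (D.comb_zero rv rw' (by rw [a1]; ring) (by rw [a2]; ring)
    (by rw [a3]; ring))).1
  exact one_ne_zero this

lemma ori_self (p v : ℝ × ℝ × ℝ × ℝ) : D.ori p v v = 0 := by
  rw [ori_apply]; ring

end PD

end

end Pool.Agent.MP_70d14f_gt
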