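import Pool.Agent.Lib.MP_70d14f_gt.Defs

namespace Pool.Agent.MP_70d14f_gt

open Set Topology

noncomputable section

/-- base point -/
def bp (q : ℝ × ℝ × ℝ × ℝ) : ℝ × ℝ := (q.1, q.2.1)

lemma bp_contDiff : ContDiff ℝ (⊤ : ℕ∞) bp := by unfold bp; fun_prop

/-- data of a piece -/
structure PD where
  g : ℝ × ℝ → ℝ
  P : ℝ × ℝ → ℝ
  Q : ℝ × ℝ → ℝ
  m : ℝ
  hg : ContDiff ℝ (⊤ : ℕ∞) g
  hP : ContDiff ℝ (⊤ : ℕ∞) P
  hQ : ContDiff ℝ (⊤ : ℕ∞) Q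

namespace PD

variable (D : PD)

/-- the piece -/
def piece : Set (ℝ × ℝ × ℝ × ℝ) :=
  {q | ∃ η : ℝ, η ^ 2 = D.g (bp q) ∧ q.2.2.1 = η * D.Q (bp q) ∧ q.2.2.2 = D.m + η * D.P (bp q)}

/-- recovered fibre coordinate -/
def eta (q : ℝ × ℝ × ℝ × ℝ) : ℝ :=
  ((q.2.2.2 - D.m) * D.P (bp q) + q.2.2.1 * D.Q (bp q)) / (D.P (bp q) ^ 2 + D.Q (bp q) ^ 2)

/-- defining function -/
def hf (q : ℝ × ℝ × ℝ × ℝ) : ℝ × ℝ :=
  (D.eta q ^ 2 - D.g (bp q), q.2.2.1 * D.P (bp q) - (q.2.2.2 - D.m) * D.Q (bp q))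

/-- nondegeneracy -/
def nd (b : ℝ × ℝ) : Prop := D.P b ^ 2 + D.Q b ^ 2 ≠ 0

lemma isOpen_nd : IsOpen {q | D.nd (bp q)} := by
  have h1 := D.hP.continuous
  have h2 := D.hQ.continuous
  have h3 := bp_contDiff.continuous
  have : Continuous fun q => D.P (bp q) ^ 2 + D.Q (bp q) ^ 2 := by fun_prop
  exact isOpen_ne.preimage this

lemma eta_eq {q : ℝ × ℝ × ℝ × ℝ} (hq : D.nd (bp q)) {η : ℝ} (hy : q.2.2.1 = η * D.Q (bp q))
    (hz : q.2.2.2 = D.m + η * D.P (bp q)) : D.eta q = η := by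
  unfold eta nd at *
  rw [div_eq_iff hq, hy, hz]; ring

lemma mem_piece_iff {q : ℝ × ℝ × ℝ × ℝ} (hq : D.nd (bp q)) : q ∈ D.piece ↔ D.hf q = 0 := by
  constructor
  · rintro ⟨η, h1, h2, h3⟩
    have he := D.eta_eq hq h2 h3
    unfold hf
    rw [he, h1, h2, h3]
    ext <;> simp
    ring
  · intro h
    unfold hf at h
    rw [Prod.mk_eq_zero] at h
    obtain ⟨h1, h2⟩ := h
    refine ⟨D.eta q, by linarith, ?_, ?_⟩
    · unfold eta nd at *
      field_simp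
      linear_combination (D.P (bp q)) * h2
    · unfold eta nd at *
      field_simp
      linear_combination (-D.Q (bp q)) * h2

lemma eta_spec {q : ℝ × ℝ × ℝ × ℝ} (hq : D.nd (bp q)) (h : q ∈ D.piece) :
    D.eta q ^ 2 = D.g (bp q) ∧ q.2.2.1 = D.eta q * D.Q (bp q) ∧
      q.2.2.2 = D.m + D.eta q * D.P (bp q) := by
  obtain ⟨η, h1, h2, h3⟩ := h
  rw [D.eta_eq hq h2 h3]
  exact ⟨h1, h2, h3⟩

lemma eta_contDiffAt {q : ℝ × ℝ × ℝ × ℝ} (hq : D.nd (bp q)) : ContDiffAt ℝ (⊤ : ℕ∞) D.eta q := by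
  have h1 := D.hP
  have h2 := D.hQ
  have h3 := bp_contDiff
  unfold eta
  refine ContDiffAt.div ?_ ?_ hq
  · exact ContDiff.contDiffAt (by fun_prop)
  · exact ContDiff.contDiffAt (by fun_prop)

lemma hf_contDiffAt {q : ℝ × ℝ × ℝ × ℝ} (hq : D.nd (bp q)) : ContDiffAt ℝ (⊤ : ℕ∞) D.hf q := by
  have h0 := D.eta_contDiffAt hq
  have h1 := D.hP
  have h2 := D.hQ
  have h3 := bp_contDiff
  have h4 := D.hg
  unfold hf
  refine ContDiffAt.prodMk ?_ ?_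
  · refine (h0.pow 2).sub (ContDiff.contDiffAt (by fun_prop))
  · exact ContDiff.contDiffAt (by fun_prop)

/-- directional derivative of a function of the base point -/
lemma line_base {f : ℝ × ℝ → ℝ} (hf : ContDiff ℝ (⊤ : ℕ∞) f) (p v : ℝ × ℝ × ℝ × ℝ) :
    HasDerivAt (fun s : ℝ => f (bp (p + s • v))) (fderiv ℝ f (bp p) (bp v)) 0 := by
  have h1 : HasFDerivAt f (fderiv ℝ f (bp p)) (bp p) :=
    ((hf.differentiable (by simp)) _).hasFDerivAt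
  have h2 : HasDerivAt (fun s : ℝ => bp (p + s • v)) (bp v) 0 := by
    have : (fun s : ℝ => bp (p + s • v)) = fun s => bp p + s • bp v := by
      funext s; simp [bp]
    rw [this]
    simpa using ((hasDerivAt_id (0:ℝ)).smul_const (bp v)).const_add (bp p)
  have h3 : HasFDerivAt f (fderiv ℝ f (bp p)) (bp (p + (0:ℝ) • v)) := by simpa using h1
  exact h3.comp_hasDerivAt 0 h2

lemma line_y (p v : ℝ × ℝ × ℝ × ℝ) :
    HasDerivAt (fun s : ℝ => (p + s • v).2.2.1) v.2.2.1 0 := by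
  simpa using ((hasDerivAt_id (0:ℝ)).smul_const v.2.2.1).const_add p.2.2.1

lemma line_z (p v : ℝ × ℝ × ℝ × ℝ) :
    HasDerivAt (fun s : ℝ => (p + s • v).2.2.2) v.2.2.2 0 := by
  simpa using ((hasDerivAt_id (0:ℝ)).smul_const v.2.2.2).const_add p.2.2.2

/-- the derivative of `eta` in direction `v` -/
def deta (p v : ℝ × ℝ × ℝ × ℝ) : ℝ :=
  ((v.2.2.2 * D.P (bp p) + (p.2.2.2 - D.m) * fderiv ℝ D.P (bp p) (bp v)
    + (v.2.2.1 * D.Q (bp p) + p.2.2.1 * fderiv ℝ D.Q (bp p) (bp v)))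
    * (D.P (bp p) ^ 2 + D.Q (bp p) ^ 2)
    - ((p.2.2.2 - D.m) * D.P (bp p) + p.2.2.1 * D.Q (bp p))
      * (2 * D.P (bp p) * fderiv ℝ D.P (bp p) (bp v)
        + 2 * D.Q (bp p) * fderiv ℝ D.Q (bp p) (bp v)))
    / (D.P (bp p) ^ 2 + D.Q (bp p) ^ 2) ^ 2

lemma line_eta {p : ℝ × ℝ × ℝ × ℝ} (hp : D.nd (bp p)) (v : ℝ × ℝ × ℝ × ℝ) :
    HasDerivAt (fun s : ℝ => D.eta (p + s • v)) (D.deta p v) 0 := by
  have hP := line_base D.hP p v
  have hQ := line_base D.hQ p v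
  have hy := line_y p v
  have hz := (line_z p v).sub_const D.m
  have hn := (hz.mul hP).add (hy.mul hQ)
  have hd := (hP.pow 2).add (hQ.pow 2)
  have h0 : ((fun s : ℝ => D.P (bp (p + s • v))) ^ 2 + (fun s : ℝ => D.Q (bp (p + s • v))) ^ 2) 0 ≠ 0 := by
    simpa [nd] using hp
  have h6 : HasDerivAt (fun s : ℝ => D.eta (p + s • v)) _ 0 := hn.div hd h0
  refine h6.congr_deriv ?_
  simp only [deta, Pi.add_apply, Pi.mul_apply, zero_smul, add_zero, Nat.cast_ofNat,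
    Nat.reduceSub, pow_one]

lemma fderiv_eta {p : ℝ × ℝ × ℝ × ℝ} (hp : D.nd (bp p)) (v : ℝ × ℝ × ℝ × ℝ) :
    fderiv ℝ D.eta p v = D.deta p v := by
  have h1 : HasFDerivAt D.eta (fderiv ℝ D.eta p) p :=
    ((D.eta_contDiffAt hp).differentiableAt (by simp)).hasFDerivAt
  have h2 : HasDerivAt (fun s : ℝ => p + s • v) v 0 := by
    simpa using ((hasDerivAt_id (0:ℝ)).smul_const v).const_add p
  have h3 : HasFDerivAt D.eta (fderiv ℝ D.eta p) (p + (0:ℝ) • v) := by simpa using h1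
  have h4 := h3.comp_hasDerivAt 0 h2
  have h5 : HasDerivAt (D.eta ∘ fun s : ℝ => p + s • v) (D.deta p v) 0 := D.line_eta hp v
  exact h4.unique h5

lemma fderiv_hf {p : ℝ × ℝ × ℝ × ℝ} (hp : D.nd (bp p)) (v : ℝ × ℝ × ℝ × ℝ) :
    fderiv ℝ D.hf p v = (2 * D.eta p * D.deta p v - fderiv ℝ D.g (bp p) (bp v),
      v.2.2.1 * D.P (bp p) + p.2.2.1 * fderiv ℝ D.P (bp p) (bp v)
        - (v.2.2.2 * D.Q (bp p) + (p.2.2.2 - D.m) * fderiv ℝ D.Q (bp p) (bp v))) := by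
  have h1 : HasFDerivAt D.hf (fderiv ℝ D.hf p) p :=
    ((D.hf_contDiffAt hp).differentiableAt (by simp)).hasFDerivAt
  have h2 : HasDerivAt (fun s : ℝ => p + s • v) v 0 := by
    simpa using ((hasDerivAt_id (0:ℝ)).smul_const v).const_add p
  have h3 : HasFDerivAt D.hf (fderiv ℝ D.hf p) (p + (0:ℝ) • v) := by simpa using h1
  have h4 := h3.comp_hasDerivAt 0 h2
  refine h4.unique ?_
  have hP := line_base D.hP p v
  have hQ := line_base D.hQ p v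
  have hg := line_base D.hg p v
  have hy := line_y p v
  have hz := (line_z p v).sub_const D.m
  have he := (D.line_eta hp v).pow 2
  have h6 : HasDerivAt (D.hf ∘ fun s : ℝ => p + s • v) _ 0 :=
    (he.sub hg).prodMk ((hy.mul hP).sub (hz.mul hQ))
  refine h6.congr_deriv ?_
  simp only [zero_smul, add_zero, Nat.cast_ofNat, Nat.reduceSub, pow_one]

/-- tangent space of the piece -/
def tsp (p : ℝ × ℝ × ℝ × ℝ) : Submodule ℝ (ℝ × ℝ × ℝ × ℝ) :=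
  LinearMap.ker (fderiv ℝ D.hf p : (ℝ × ℝ × ℝ × ℝ) →ₗ[ℝ] ℝ × ℝ)

/-- relations satisfied by a tangent vector `v` with fibre component `d` -/
def rel (p v : ℝ × ℝ × ℝ × ℝ) (d : ℝ) : Prop :=
  2 * D.eta p * d = fderiv ℝ D.g (bp p) (bp v) ∧
    v.2.2.1 = d * D.Q (bp p) + D.eta p * fderiv ℝ D.Q (bp p) (bp v) ∧
    v.2.2.2 = d * D.P (bp p) + D.eta p * fderiv ℝ D.P (bp p) (bp v)

lemma rel_deta {p v : ℝ × ℝ × ℝ × ℝ} {d : ℝ} (hp : D.nd (bp p)) (hm : p ∈ D.piece)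
    (h : D.rel p v d) : D.deta p v = d := by
  obtain ⟨h1, h2, h3⟩ := h
  obtain ⟨-, e2, e3⟩ := D.eta_spec hp hm
  unfold deta
  have e3' : p.2.2.2 - D.m = D.eta p * D.P (bp p) := by rw [e3]; ring
  rw [e3', e2, h2, h3]
  unfold nd at hp
  rw [div_eq_iff (pow_ne_zero 2 hp)]
  ring

lemma mem_tsp_iff {p v : ℝ × ℝ × ℝ × ℝ} (hp : D.nd (bp p)) (hm : p ∈ D.piece) :
    v ∈ D.tsp p ↔ ∃ d, D.rel p v d := by
  obtain ⟨-, e2, e3⟩ := D.eta_spec hp hm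
  have e3' : p.2.2.2 - D.m = D.eta p * D.P (bp p) := by rw [e3]; ring
  have hker : v ∈ D.tsp p ↔ fderiv ℝ D.hf p v = 0 := by
    unfold tsp; exact LinearMap.mem_ker
  rw [hker, D.fderiv_hf hp]
  constructor
  · intro h
    rw [Prod.mk_eq_zero] at h
    obtain ⟨h1, h2⟩ := h
    rw [e3', e2] at h2
    refine ⟨D.deta p v, by linarith, ?_, ?_⟩
    · unfold deta
      rw [e3', e2]
      unfold nd at hp
      field_simp
      linear_combination (D.P (bp p)) * h2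
    · unfold deta
      rw [e3', e2]
      unfold nd at hp
      field_simp
      linear_combination (-D.Q (bp p)) * h2
  · rintro ⟨d, hd⟩
    rw [D.rel_deta hp hm hd]
    obtain ⟨h1, h2, h3⟩ := hd
    rw [Prod.mk_eq_zero]
    refine ⟨by linarith, ?_⟩
    rw [e3', e2, h2, h3]; ring

/-- regular base point -/
def reg (b : ℝ × ℝ) : Prop := D.nd b ∧ (D.g b = 0 → ∃ a, fderiv ℝ D.g b a ≠ 0)

lemma surj_of {L : (ℝ × ℝ × ℝ × ℝ) →L[ℝ] ℝ × ℝ} {v w : ℝ × ℝ × ℝ × ℝ} {a b : ℝ}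
    (ha : a ≠ 0) (hb : b ≠ 0) (hv : L v = (a, 0)) (hw : L w = (0, b)) :
    Function.Surjective L := by
  rintro ⟨x, y⟩
  refine ⟨(x / a) • v + (y / b) • w, ?_⟩
  rw [map_add, map_smul, map_smul, hv, hw]
  ext <;> simp <;> field_simp

lemma surj {p : ℝ × ℝ × ℝ × ℝ} (hp : D.reg (bp p)) (hm : p ∈ D.piece) :
    Function.Surjective (fderiv ℝ D.hf p) := by
  obtain ⟨hnd, hr⟩ := hp
  obtain ⟨e1, e2, e3⟩ := D.eta_spec hnd hm
  have e3' : p.2.2.2 - D.m = D.eta p * D.P (bp p) := by rw [e3]; ring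
  have hw : fderiv ℝ D.hf p (0, 0, D.P (bp p), -D.Q (bp p)) =
      (0, D.P (bp p) ^ 2 + D.Q (bp p) ^ 2) := by
    rw [D.fderiv_hf hnd]
    have : bp ((0, 0, D.P (bp p), -D.Q (bp p)) : ℝ × ℝ × ℝ × ℝ) = 0 := rfl
    rw [this]
    have hd : D.deta p (0, 0, D.P (bp p), -D.Q (bp p)) = 0 := by
      unfold deta
      rw [this, e3', e2]
      simp
      left
      ring
    rw [hd]
    ext
    · simp
    · simp; ring
  by_cases he : D.eta p = 0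
  · obtain ⟨a, ha⟩ := hr (by rw [← e1, he]; ring)
    refine surj_of (v := (a.1, a.2, 0, 0)) (neg_ne_zero.mpr ha) hnd ?_ hw
    rw [D.fderiv_hf hnd]
    have : bp ((a.1, a.2, 0, 0) : ℝ × ℝ × ℝ × ℝ) = a := rfl
    rw [this, e3', e2, he]
    ext <;> simp
  · refine surj_of (v := (0, 0, D.Q (bp p), D.P (bp p))) (a := 2 * D.eta p) (by simpa using he) hnd ?_ hw
    rw [D.fderiv_hf hnd]
    have : bp ((0, 0, D.Q (bp p), D.P (bp p)) : ℝ × ℝ × ℝ × ℝ) = 0 := rfl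
    rw [this]
    have hd : D.deta p (0, 0, D.Q (bp p), D.P (bp p)) = 1 := by
      unfold deta
      rw [this]
      unfold nd at hnd
      rw [div_eq_one_iff_eq (pow_ne_zero 2 hnd)]
      simp
      ring
    rw [hd]
    ext
    · simp
    · simp; ring

/-- the tangent space of any set which is locally the piece -/
lemma hasTangentSpace {S W : Set (ℝ × ℝ × ℝ × ℝ)} {p : ℝ × ℝ × ℝ × ℝ} (hW : IsOpen W)
    (hpW : p ∈ W) (hS : ∀ q ∈ W, q ∈ S ↔ q ∈ D.piece) (hpS : p ∈ S) (hp : D.reg (bp p)) :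
    HasTangentSpace S p (D.tsp p) := by
  refine ⟨W ∩ {q | D.nd (bp q)}, D.hf, hW.inter D.isOpen_nd, ⟨hpW, hp.1⟩, ?_, ?_, ?_, rfl⟩
  · intro q hq
    exact (D.hf_contDiffAt hq.2).contDiffWithinAt
  · intro q hq
    rw [hS q hq.1]
    exact D.mem_piece_iff hq.2
  · exact D.surj hp ((hS p hpW).1 hpS)

end PD

end

end Pool.Agent.MP_70d14f_gt
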