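import Pool.Agent.Lib.MP_70d14f_gt.SSheets
import Pool.Agent.Lib.MP_70d14f_gt.LGenus

namespace Pool.Agent.MP_70d14f_gt

open Set Topology

noncomputable section

/-- radial coordinate -/
def ss (t : ℝ) : ℝ := bet t + min (t + 5) 0 + max (t + 1) 0

lemma ss_cont : Continuous ss := by
  have := bet_smooth.continuous
  unfold ss; fun_prop

lemma ss_of_le {t : ℝ} (h : t ≤ -5) : ss t = t + 5 := by
  unfold ss
  rw [bet_of_le h, min_eq_left (by linarith), max_eq_right (by linarith)]; ring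
lemma ss_mid {t : ℝ} (h : -5 ≤ t) (h' : t ≤ -1) : ss t = bet t := by
  unfold ss
  rw [min_eq_right (by linarith), max_eq_right (by linarith)]; ring
lemma ss_of_ge {t : ℝ} (h : -1 ≤ t) : ss t = t + 7 := by
  unfold ss
  rw [bet_of_ge h, min_eq_right (by linarith), max_eq_left (by linarith)]; ring

lemma bet_strict {a b : ℝ} (h1 : -5 ≤ a) (h : a < b) (h2 : b ≤ -1) : bet a < bet b := by
  unfold bet
  have := st_strictMonoOn (show (a + 5) / 4 ∈ Icc (0:ℝ) 1 from ⟨by linarith, by linarith⟩)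
    (show (b + 5) / 4 ∈ Icc (0:ℝ) 1 from ⟨by linarith, by linarith⟩) (by linarith)
  linarith

lemma ss_strictMono : StrictMono ss := by
  intro a b h
  have hb := bet_mono h.le
  have m1 : min (a + 5) 0 ≤ min (b + 5) 0 := min_le_min_right _ (by linarith)
  have m2 : max (a + 1) 0 ≤ max (b + 1) 0 := max_le_max_right _ (by linarith)
  rcases lt_or_ge a (-5) with h1 | h1
  · have m3 : min (a + 5) 0 < min (b + 5) 0 := by
      rw [min_eq_left (by linarith)]
      exact lt_min (by linarith) (by linarith)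
    unfold ss; linarith
  rcases lt_or_ge (-1) b with h2 | h2
  · have m3 : max (a + 1) 0 < max (b + 1) 0 := by
      rw [max_eq_left (a := b + 1) (by linarith)]
      exact max_lt (by linarith) (by linarith)
    unfold ss; linarith
  · have := bet_strict h1 h h2
    unfold ss; linarith

lemma ss_surj (S : ℝ) : ∃ t, ss t = S := by
  rcases le_or_gt S 0 with h | h
  · exact ⟨S - 5, by rw [ss_of_le (by linarith)]; ring⟩
  rcases le_or_gt 6 S with h' | h'
  · exact ⟨S - 7, by rw [ss_of_ge (by linarith)]; ring⟩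
  · have h1 : S ∈ Icc (bet (-5)) (bet (-1)) := by
      rw [bet_of_le (le_refl _), bet_of_ge (le_refl _)]
      exact ⟨h.le, h'.le⟩
    obtain ⟨t, ht, hS⟩ := intermediate_value_Icc (by norm_num) bet_smooth.continuous.continuousOn h1
    exact ⟨t, by rw [ss_mid ht.1 ht.2]; exact hS⟩

/-- the part of `NN` depending on time -/
lemma bet_ss {t : ℝ} (h : t ≤ -1) : bet t = max (ss t) 0 := by
  rcases le_or_gt t (-5) with h1 | h1
  · rw [bet_of_le h1, ss_of_le h1, max_eq_right (by linarith)]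
  · rw [ss_mid h1.le h, max_eq_left (bet_nonneg t)]

lemma ss_ge_six {t : ℝ} (h : -1 ≤ t) : 6 ≤ ss t := by
  rw [ss_of_ge h]; linarith

lemma ss_lt_six {t : ℝ} (h : ss t < 6) : t < -1 := by
  by_contra hc
  push Not at hc
  linarith [ss_ge_six hc]

/-- odd version of `hh` -/
def ho (u : ℝ) : ℝ := u * |2 * st (u + 1 / 2) - 1|

lemma ho_cont : Continuous ho := by
  have := st_continuous
  unfold ho; fun_prop

lemma abs_ho (u : ℝ) : |ho u| = hh u := by
  unfold ho
  rw [abs_mul, abs_abs, ← abs_mul]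
  exact abs_of_nonneg (hh_nonneg u)

lemma ho_nonneg {u : ℝ} (h : 0 ≤ u) : ho u = hh u := by
  rw [← abs_ho, abs_of_nonneg]
  exact mul_nonneg h (abs_nonneg _)

lemma ho_neg (u : ℝ) : ho (-u) = -ho u := by
  unfold ho
  have e : st (-u + 1 / 2) = 1 - st (u + 1 / 2) := by
    rw [← st_symm]; congr 1; ring
  rw [e]
  have : |2 * (1 - st (u + 1 / 2)) - 1| = |2 * st (u + 1 / 2) - 1| := by
    rw [← abs_neg]; congr 1; ring
  rw [this]; ring

lemma ho_of_ge {u : ℝ} (h : 1 / 2 ≤ u) : ho u = u := by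
  rw [ho_nonneg (by linarith), hh_of_ge h]
lemma ho_of_le {u : ℝ} (h : u ≤ -(1 / 2)) : ho u = u := by
  have := ho_neg (-u)
  rw [neg_neg] at this
  rw [this, ho_of_ge (by linarith)]; ring

lemma st_gt_half {v : ℝ} (h : 0 < v) : 1 / 2 < st (v + 1 / 2) := by
  rcases lt_or_ge v (1 / 2) with h1 | h1
  · have := st_strictMonoOn (show (1 / 2 : ℝ) ∈ Icc (0:ℝ) 1 by norm_num)
      (show v + 1 / 2 ∈ Icc (0:ℝ) 1 from ⟨by linarith, by linarith⟩) (by linarith)
    rwa [st_half] at this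
  · rw [st_one (by linarith)]; norm_num

lemma hh_strict {u v : ℝ} (h0 : 0 ≤ u) (h : u < v) : hh u < hh v := by
  have h1 := st_gt_half (lt_of_le_of_lt h0 h)
  have h2 := st_mono (by linarith : u + 1 / 2 ≤ v + 1 / 2)
  unfold hh
  nlinarith

lemma ho_strictMono : StrictMono ho := by
  have key : ∀ u v : ℝ, 0 ≤ u → u < v → ho u < ho v := by
    intro u v h0 h
    rw [ho_nonneg h0, ho_nonneg (by linarith)]
    exact hh_strict h0 h
  intro u v h
  rcases le_total 0 u with h0 | h0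
  · exact key u v h0 h
  · rcases le_total 0 v with h1 | h1
    · rcases h0.lt_or_eq with h2 | h2
      · have a1 : ho u < 0 := by
          have := key 0 (-u) (le_refl _) (by linarith)
          rw [ho_neg] at this
          have e0 : ho 0 = 0 := by unfold ho; ring
          linarith
        have a2 : 0 ≤ ho v := by rw [ho_nonneg h1]; exact hh_nonneg v
        linarith
      · rw [h2] at h ⊢
        exact key 0 v (le_refl _) h
    · have := key (-v) (-u) (by linarith) (by linarith)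
      rw [ho_neg, ho_neg] at this
      linarith

lemma ho_surj (W : ℝ) : ∃ u, ho u = W := by
  have h1 : W ∈ Icc (ho (-(|W| + 1))) (ho (|W| + 1)) := by
    have := abs_nonneg W
    rw [ho_neg, ho_of_ge (by linarith)]
    exact ⟨by linarith [neg_abs_le W], by linarith [le_abs_self W]⟩
  obtain ⟨u, -, hu⟩ := intermediate_value_Icc (by linarith [abs_nonneg W]) ho_cont.continuousOn h1
  exact ⟨u, hu⟩

/-- `NN` in terms of planar coordinates -/
lemma NN_eq {b : ℝ × ℝ} (h : b.1 ≤ -1) : NN b = |ho (b.2 - 5)| + max (ss b.1) 0 := by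
  unfold NN
  rw [abs_ho, bet_ss h]

/-- scaling factor -/
def rho (n : ℝ) : ℝ := (1 - (n - 1) / 6) / max n 1

lemma rho_cont : Continuous rho := by
  unfold rho
  refine Continuous.div (by fun_prop) (by fun_prop) ?_
  intro n
  have : (0:ℝ) < max n 1 := lt_max_of_lt_right one_pos
  exact this.ne'

lemma rho_mul {n : ℝ} (h : 1 ≤ n) : rho n * n = 1 - (n - 1) / 6 := by
  unfold rho
  rw [max_eq_left h]
  have : n ≠ 0 := by linarith
  field_simp

lemma rho_pos {n : ℝ} (h : 1 ≤ n) (h' : n ≤ 4) : 0 < rho n := by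
  unfold rho
  rw [max_eq_left h]
  apply div_pos <;> linarith

lemma rho_one : rho 1 = 1 := by unfold rho; norm_num
lemma rho_four : rho 4 = 1 / 8 := by
  unfold rho
  rw [max_eq_left (by norm_num)]; norm_num

/-- planar coordinates of the sheets -/
def co : Sh → ℝ × ℝ → ℝ × ℝ
  | .M => fun b => (ss b.1, ho (b.2 - 5))
  | .T => fun b => (ss b.1, 17 - b.2)
  | .UO => fun b => (ss b.1, 32 + 3 * (cc b.1 - b.2) / (cc b.1 + 4))
  | .LO => fun b => (ss b.1, 25 + 7 * (b.2 + 8) / (cc b.1 + 8))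
  | .US => fun b => (min (ss b.1) 0 + rho (NN b) * max (ss b.1) 0, rho (NN b) * ho (b.2 - 5))
  | .LS => fun b => (min (ss b.1) 0 + 1 / 8 * max (ss b.1) 0, 1 / 8 * ho (b.2 - 5))

lemma co_M (b : ℝ × ℝ) : co .M b = (ss b.1, ho (b.2 - 5)) := rfl
lemma co_T (b : ℝ × ℝ) : co .T b = (ss b.1, 17 - b.2) := rfl
lemma co_UO (b : ℝ × ℝ) : co .UO b = (ss b.1, 32 + 3 * (cc b.1 - b.2) / (cc b.1 + 4)) := rfl
lemma co_LO (b : ℝ × ℝ) : co .LO b = (ss b.1, 25 + 7 * (b.2 + 8) / (cc b.1 + 8)) := rfl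
lemma co_US (b : ℝ × ℝ) : co .US b =
  (min (ss b.1) 0 + rho (NN b) * max (ss b.1) 0, rho (NN b) * ho (b.2 - 5)) := rfl
lemma co_LS (b : ℝ × ℝ) : co .LS b =
  (min (ss b.1) 0 + 1 / 8 * max (ss b.1) 0, 1 / 8 * ho (b.2 - 5)) := rfl

lemma co_cont (k : Sh) : Continuous (co k) := by
  have h1 := ss_cont
  have h2 := ho_cont
  have h3 := cc_cont
  have h4 := rho_cont
  have h5 := NN_cont
  cases k
  · show Continuous fun b : ℝ × ℝ => (ss b.1, ho (b.2 - 5))
    fun_prop
  · show Continuous fun b : ℝ × ℝ => (ss b.1, 17 - b.2)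
    fun_prop
  · show Continuous fun b : ℝ × ℝ => (ss b.1, 32 + 3 * (cc b.1 - b.2) / (cc b.1 + 4))
    refine Continuous.prodMk (by fun_prop) (continuous_const.add (Continuous.div (by fun_prop)
      (by fun_prop) ?_))
    intro b
    have := cc_ge b.1
    linarith
  · show Continuous fun b : ℝ × ℝ => (ss b.1, 25 + 7 * (b.2 + 8) / (cc b.1 + 8))
    refine Continuous.prodMk (by fun_prop) (continuous_const.add (Continuous.div (by fun_prop)
      (by fun_prop) ?_))
    intro b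
    have := cc_ge b.1
    linarith
  · show Continuous fun b : ℝ × ℝ => (min (ss b.1) 0 + rho (NN b) * max (ss b.1) 0,
      rho (NN b) * ho (b.2 - 5))
    fun_prop
  · show Continuous fun b : ℝ × ℝ => (min (ss b.1) 0 + 1 / 8 * max (ss b.1) 0,
      1 / 8 * ho (b.2 - 5))
    fun_prop

/-- the map to the punctured plane -/
def EE (P : ℝ × ℝ) : ℂ := Complex.exp (P.1 + (Real.pi * P.2 / 22 : ℝ) * Complex.I)

lemma EE_cont : Continuous EE := by unfold EE; fun_prop

lemma EE_eq_iff {P P' : ℝ × ℝ} : EE P = EE P' ↔ P.1 = P'.1 ∧ ∃ n : ℤ, P.2 = P'.2 + 44 * n := by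
  have hpi := Real.pi_pos
  unfold EE
  rw [Complex.exp_eq_exp_iff_exists_int]
  constructor
  · rintro ⟨n, hn⟩
    have h1 := congrArg Complex.re hn
    have h2 := congrArg Complex.im hn
    simp at h1 h2
    refine ⟨h1, n, ?_⟩
    have h3 : Real.pi * P.2 = Real.pi * (P'.2 + 44 * n) := by linarith
    exact mul_left_cancel₀ hpi.ne' h3
  · rintro ⟨h1, n, h2⟩
    refine ⟨n, ?_⟩
    apply Complex.ext
    · simp [h1]
    · simp [h2]
      ring

lemma EE_surj {z : ℂ} (hz : z ≠ 0) : ∃ P : ℝ × ℝ, EE P = z ∧ -9 ≤ P.2 ∧ P.2 < 35 := by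
  have hpi := Real.pi_pos
  obtain ⟨W, hW, h1, h2⟩ : ∃ W : ℝ, (∃ n : ℤ, W = 22 * Complex.arg z / Real.pi + 44 * n) ∧
      -9 ≤ W ∧ W < 35 := by
    obtain ⟨n, ⟨hn, hn'⟩, -⟩ := existsUnique_add_zsmul_mem_Ico (show (0:ℝ) < 44 by norm_num)
      (22 * Complex.arg z / Real.pi) (-9)
    refine ⟨_, ⟨n, rfl⟩, ?_, ?_⟩
    · simpa [mul_comm] using hn
    · have : 22 * Complex.arg z / Real.pi + n • (44 : ℝ) < -9 + 44 := hn'
      rw [zsmul_eq_mul] at this
      linarith
  obtain ⟨n, hn⟩ := hW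
  refine ⟨(Real.log ‖z‖, W), ?_, h1, h2⟩
  have e1 : EE (Real.log ‖z‖, W) = EE (Real.log ‖z‖, 22 * Complex.arg z / Real.pi) :=
    EE_eq_iff.2 ⟨rfl, n, hn⟩
  rw [e1]
  unfold EE
  have e2 : Real.pi * (22 * Complex.arg z / Real.pi) / 22 = Complex.arg z := by
    field_simp
  show Complex.exp ((Real.log ‖z‖ : ℝ) + (Real.pi * (22 * Complex.arg z / Real.pi) / 22 : ℝ) * Complex.I) = z
  rw [e2]
  have : ((Real.log ‖z‖ : ℝ) : ℂ) + (Complex.arg z : ℂ) * Complex.I = Complex.log z := by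
    apply Complex.ext <;> simp [Complex.log_re, Complex.log_im]
  rw [this, Complex.exp_log hz]

end

end Pool.Agent.MP_70d14f_gt
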