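import Pool.Agent.Lib.MP_70d14f_gt.Sig

namespace Pool.Agent.MP_70d14f_gt

open Set Topology

noncomputable section

def sW : SCh → Set (ℝ × ℝ × ℝ × ℝ)
  | .UMl => {q | q.2.1 < -2 ∧ -(1 / 2) < q.2.2.2}
  | .TL => {q | (q.2.1 < -2 ∨ NN (bp q) < 3) ∧ q.2.2.2 < -(1 / 2)}
  | .UMN => {q | NN (bp q) < 3 ∧ -(1 / 2) < q.2.2.2}
  | .TM => {q | (-3 < q.2.1 ∧ 2 < NN (bp q)) ∧
      ((5 / 2 < q.2.2.2 ∨ q.2.2.2 < -(5 / 2)) ∨ 19 / 2 < q.2.1)}
  | .Dc => {q | (((-3 < q.2.1 ∧ q.2.1 < 19 / 2) ∧ 2 < NN (bp q)) ∧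
      (-(5 / 2) < q.2.2.2 ∧ q.2.2.2 < 5 / 2)) ∧ (q.2.1 < 3 / 5 ∨ -(1 / 2) < q.1)}
  | .D4 => {q | (((2 / 5 < q.2.1 ∧ q.2.1 < 19 / 2) ∧ 2 < NN (bp q)) ∧
      (-(5 / 2) < q.2.2.2 ∧ q.2.2.2 < 5 / 2)) ∧ q.1 < -(2 / 5)}

def sS : SCh → ℝ
  | .UMl => 1
  | .TL => 1
  | .UMN => 1
  | .TM => 1
  | .Dc => -1
  | .D4 => -1

lemma sW_open (i : SCh) : IsOpen (sW i) := by
  have ht : Continuous fun q : ℝ × ℝ × ℝ × ℝ => q.1 := by fun_prop
  have hx : Continuous fun q : ℝ × ℝ × ℝ × ℝ => q.2.1 := by fun_prop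
  have hz : Continuous fun q : ℝ × ℝ × ℝ × ℝ => q.2.2.2 := by fun_prop
  have hN : Continuous fun q : ℝ × ℝ × ℝ × ℝ => NN (bp q) := NN_cont.comp continuous_bp
  have a1 : ∀ c : ℝ, IsOpen {q : ℝ × ℝ × ℝ × ℝ | q.2.1 < c} := fun c => isOpen_lt hx continuous_const
  have a2 : ∀ c : ℝ, IsOpen {q : ℝ × ℝ × ℝ × ℝ | c < q.2.1} := fun c => isOpen_lt continuous_const hx
  have a3 : ∀ c : ℝ, IsOpen {q : ℝ × ℝ × ℝ × ℝ | q.2.2.2 < c} := fun c => isOpen_lt hz continuous_const
  have a4 : ∀ c : ℝ, IsOpen {q : ℝ × ℝ × ℝ × ℝ | c < q.2.2.2} := fun c => isOpen_lt continuous_const hz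
  have a5 : ∀ c : ℝ, IsOpen {q : ℝ × ℝ × ℝ × ℝ | NN (bp q) < c} := fun c => isOpen_lt hN continuous_const
  have a6 : ∀ c : ℝ, IsOpen {q : ℝ × ℝ × ℝ × ℝ | c < NN (bp q)} := fun c => isOpen_lt continuous_const hN
  have a7 : ∀ c : ℝ, IsOpen {q : ℝ × ℝ × ℝ × ℝ | q.1 < c} := fun c => isOpen_lt ht continuous_const
  have a8 : ∀ c : ℝ, IsOpen {q : ℝ × ℝ × ℝ × ℝ | c < q.1} := fun c => isOpen_lt continuous_const ht
  cases i
  · exact (a1 _).inter (a4 _)
  · exact ((a1 _).union (a5 _)).inter (a3 _)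
  · exact (a5 _).inter (a4 _)
  · exact ((a2 _).inter (a6 _)).inter (((a4 _).union (a3 _)).union (a2 _))
  · exact ((((a2 _).inter (a1 _)).inter (a6 _)).inter ((a4 _).inter (a3 _))).inter
      ((a1 _).union (a8 _))
  · exact ((((a2 _).inter (a1 _)).inter (a6 _)).inter ((a4 _).inter (a3 _))).inter (a7 _)

lemma z_UMl {q : ℝ × ℝ × ℝ × ℝ} (h : q ∈ (sD .UMl).piece) : 1 ≤ q.2.2.2 ∧ q.2.2.2 ≤ 3 ∧ -4 ≤ q.2.1 :=
  height_UMl h
lemma z_TL {q : ℝ × ℝ × ℝ × ℝ} (h : q ∈ (sD .TL).piece) : -3 ≤ q.2.2.2 ∧ q.2.2.2 ≤ -1 ∧ -8 ≤ q.2.1 :=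
  height_TL h
lemma z_TM {q : ℝ × ℝ × ℝ × ℝ} (h : q ∈ (sD .TM).piece) : -3 ≤ q.2.2.2 ∧ q.2.2.2 ≤ 3 ∧ q.2.1 ≤ 11 :=
  height_TM h

lemma N_x {q : ℝ × ℝ × ℝ × ℝ} (h : NN (bp q) < 3) : 2 < q.2.1 ∧ q.2.1 < 8 ∧ q.1 < -1 := by
  have h1 := NN_lt h (by norm_num)
  rw [abs_lt] at h1
  have h2 : (bp q).2 = q.2.1 := rfl
  rw [h2] at h1
  exact ⟨by linarith [h1.1], by linarith [h1.2], NN_t (b := bp q) (by linarith)⟩

/-- in the domain of `Dc` the piece `D4` is empty -/
lemma no_D4 {q : ℝ × ℝ × ℝ × ℝ} (h : q.2.1 < 3 / 5 ∨ -(1 / 2) < q.1) : q ∉ (sD .D4).piece := by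
  intro hc
  obtain ⟨h1, h2, h3, h4⟩ := D4_x hc
  rcases h with h | h <;> linarith

/-- in the domain of `D4` the piece `Dc` is empty -/
lemma no_Dc {q : ℝ × ℝ × ℝ × ℝ} (h : 2 / 5 < q.2.1) (h' : q.1 < -(2 / 5)) : q ∉ (sD .Dc).piece := by
  intro hc
  have := (Dc_x hc).2 (by linarith)
  linarith

lemma s_loc (i : SCh) : ∀ q ∈ sW i, (q ∈ Sg ↔ q ∈ (sD i).piece) := by
  cases i
  · rintro q ⟨h1, h2⟩
    rw [sz1 h1]
    constructor
    · rintro (h | h)
      · exact h
      · linarith [(z_TL h).2.1]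
    · exact Or.inl
  · rintro q ⟨h1 | h1, h2⟩
    · rw [sz1 h1]
      constructor
      · rintro (h | h)
        · linarith [(z_UMl h).1]
        · exact h
      · exact Or.inr
    · rw [sz2 h1]
      constructor
      · rintro (h | h)
        · linarith [(z_UMN h).1]
        · exact h
      · exact Or.inr
  · rintro q ⟨h1, h2⟩
    rw [sz2 h1]
    constructor
    · rintro (h | h)
      · exact h
      · linarith [(z_TL h).2.1]
    · exact Or.inl
  · rintro q ⟨h1, h2⟩
    rw [sz3 h1.1 h1.2]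
    constructor
    · rintro ((h | h) | h)
      · exfalso
        have a := z_Dc h
        have b := Dc_x h
        rcases h2 with (h2 | h2) | h2 <;> linarith [a.1, a.2, b.1]
      · exfalso
        have a := z_D4 h
        have b := D4_x h
        rcases h2 with (h2 | h2) | h2 <;> linarith [a.1, a.2, b.2.2.1]
      · exact h
    · exact Or.inr
  · rintro q ⟨⟨⟨h1, h2⟩, h3⟩, h4⟩
    rw [sz3 h1.1 h2]
    have h5 := no_D4 h4
    constructor
    · rintro ((h | h) | h)
      · exact h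
      · exact absurd h h5
      · exfalso
        rw [m_TM (by linarith [h1.2])] at h
        rcases h.2 with h | h <;> linarith [h3.1, h3.2]
    · intro h; exact Or.inl (Or.inl h)
  · rintro q ⟨⟨⟨h1, h2⟩, h3⟩, h4⟩
    rw [sz3 (by linarith [h1.1]) h2]
    have h5 := no_Dc h1.1 h4
    constructor
    · rintro ((h | h) | h)
      · exact absurd h h5
      · exact h
      · exfalso
        rw [m_TM (by linarith [h1.2])] at h
        rcases h.2 with h | h <;> linarith [h3.1, h3.2]
    · intro h; exact Or.inl (Or.inr h)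

lemma s_cover : ∀ q ∈ Sg, ∃ i, q ∈ sW i := by
  intro q hq
  rcases lt_or_ge q.2.1 (-2) with h1 | h1
  · rcases (sz1 h1).1 hq with h | h
    · exact ⟨.UMl, h1, by linarith [(z_UMl h).1]⟩
    · exact ⟨.TL, Or.inl h1, by linarith [(z_TL h).2.1]⟩
  rcases lt_or_ge (NN (bp q)) 3 with h2 | h2
  · rcases (sz2 h2).1 hq with h | h
    · exact ⟨.UMN, h2, by linarith [(z_UMN h).1]⟩
    · exact ⟨.TL, Or.inr h2, by linarith [(z_TL h).2.1]⟩
  · rcases (sz3 (by linarith) (by linarith)).1 hq with (h | h) | h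
    · have a := z_Dc h
      have b := Dc_x h
      refine ⟨.Dc, ⟨⟨⟨by linarith, by linarith [b.1]⟩, by linarith⟩, by linarith, by linarith⟩, ?_⟩
      rcases le_or_gt q.1 0 with h3 | h3
      · left; linarith [b.2 h3]
      · right; linarith
    · have a := z_D4 h
      obtain ⟨b1, b2, b3, b4⟩ := D4_x h
      exact ⟨.D4, ⟨⟨⟨by linarith, by linarith⟩, by linarith⟩, by linarith, by linarith⟩, by linarith⟩
    · rcases lt_or_ge q.2.1 10 with h4 | h4
      · have h' := h
        rw [m_TM h4] at h'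
        refine ⟨.TM, ⟨by linarith, by linarith⟩, Or.inl ?_⟩
        rcases h'.2 with h3 | h3
        · left; rw [h3]; norm_num
        · right; rw [h3]; norm_num
      · exact ⟨.TM, ⟨by linarith, by linarith⟩, Or.inr (by linarith)⟩

lemma bet_hasDerivAt (t : ℝ) : HasDerivAt bet (6 * (deriv st ((t + 5) / 4) * (1 / 4))) t := by
  have h1 : HasDerivAt (fun t : ℝ => (t + 5) / 4) (1 / 4) t := by
    simpa using ((hasDerivAt_id t).add_const 5).div_const 4
  exact (HasDerivAt.comp (h := fun t : ℝ => (t + 5) / 4) (h₂ := st) t (st_hasDerivAt _) h1).const_mul 6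

lemma betS_d1 (t : ℝ) : betS.d1 t = 6 * (deriv st ((t + 5) / 4) * (1 / 4)) :=
  (bet_hasDerivAt t).deriv
lemma nbetS_d1 (t : ℝ) : nbetS.d1 t = -(6 * (deriv st ((t + 5) / 4) * (1 / 4))) :=
  (bet_hasDerivAt t).neg.deriv
lemma nhS_d1 (x : ℝ) : nhS.d1 x = -deriv hh (x - 5) := by
  have h2 : HasDerivAt (fun x : ℝ => x - 5) 1 x := by simpa using (hasDerivAt_id x).sub_const 5
  have h := (HasDerivAt.comp (h := fun x : ℝ => x - 5) (h₂ := hh) x (hh_hasDerivAt (x - 5)) h2).const_sub 4
  have h' := h.deriv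
  rw [mul_one] at h'
  exact h'

/-- along a level set of `NN` either the sign function is positive or the derivative is nonzero -/
lemma level_cases {b : ℝ × ℝ} (h1 : 1 ≤ NN b) (h2 : NN b < 6) :
    (|deriv hh (b.2 - 5)| = 1) ∨ (0 < kap b.1 ∧ 0 < deriv st ((b.1 + 5) / 4)) := by
  have ht := NN_t h2
  rcases le_or_gt b.1 (-5) with h | h
  · left
    unfold NN at h1
    rw [bet_of_le h] at h1
    have h3 := hh_le_abs (b.2 - 5)
    have h4 : 1 ≤ |b.2 - 5| := by linarith
    rcases le_abs'.1 h4 with h5 | h5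
    · rw [deriv_hh_of_lt (by linarith)]; norm_num
    · rw [deriv_hh_of_gt (by linarith)]; norm_num
  · right
    exact ⟨kap_pos h (by linarith), deriv_st_pos (by linarith) (by linarith)⟩

lemma s_reg (i : SCh) (q : ℝ × ℝ × ℝ × ℝ) (hq : q ∈ (sD i).piece) : (sD i).reg (bp q) := by
  cases i
  · have hw := dUMl.w_nonneg hq
    refine LData.reg _ hw ?_ ?_ ?_ <;> simp [dUMl]
  · have hw := dTL.w_nonneg hq
    refine LData.reg _ hw ?_ ?_ ?_
    · simp [dTL]
    · by_cases hk : kt q.2.1 = 0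
      · right
        refine ⟨deriv_kt_ne hk, ?_⟩
        have : -6 < q.2.1 := by
          by_contra h
          push Not at h
          rw [kt_of_le h] at hk; norm_num at hk
        simp [dTL, LData.w, bp]
        linarith
      · left; exact hk
    · simp [dTL]
  · have hw := ((lUN.spd_mem_sh kapS).1 hq).1
    have key : lUN.w (bp q) = 0 → (|deriv hh ((bp q).2 - 5)| = 1) ∨
        (0 < kap (bp q).1 ∧ 0 < deriv st (((bp q).1 + 5) / 4)) := by
      intro h
      rw [w_lUN] at h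
      exact level_cases (by linarith) (by linarith)
    refine lUN.spd_reg kapS hw (kap_nonneg _) (kap_le_one _) ?_ ?_
    · intro h
      rcases key h with h | h
      · right
        show (hS 5).d1 (bp q).2 ≠ 0
        rw [hS_d1]
        intro h0; rw [h0] at h; norm_num at h
      · exact Or.inl h.1
    · intro h
      rcases key h with h | h
      · right
        show (hS 5).d1 (bp q).2 ≠ 0
        rw [hS_d1]
        intro h0; rw [h0] at h; norm_num at h
      · left
        show betS.d1 (bp q).1 ≠ 0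
        rw [betS_d1]
        have := h.2
        positivity
  · have hw := dTM.w_nonneg hq
    refine LData.reg _ hw ?_ ?_ ?_ <;> simp [dTM]
  · have hw := ((lDc.spd_mem_sh (cS 0)).1 hq).1
    have key : lDc.u.d1 (bp q).2 ≠ 0 := by
      show (aS (-1) (-1)).d1 _ ≠ 0
      rw [aS_d1]; norm_num
    exact lDc.spd_reg (cS 0) hw (by simp) (by simp) (fun _ => Or.inr key) (fun _ => Or.inr key)
  · have hw := ((lD4.spd_mem_sh kapS).1 hq).1
    have key : lD4.w (bp q) = 0 → (|deriv hh ((bp q).2 - 5)| = 1) ∨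
        (0 < kap (bp q).1 ∧ 0 < deriv st (((bp q).1 + 5) / 4)) := by
      intro h
      rw [w_lD4] at h
      exact level_cases (by linarith) (by linarith)
    refine lD4.spd_reg kapS hw (kap_nonneg _) (kap_le_one _) ?_ ?_
    · intro h
      rcases key h with h | h
      · right
        show nhS.d1 (bp q).2 ≠ 0
        rw [nhS_d1]
        intro h0
        have : deriv hh ((bp q).2 - 5) = 0 := by linarith
        rw [this] at h; norm_num at h
      · exact Or.inl h.1
    · intro h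
      rcases key h with h | h
      · right
        show nhS.d1 (bp q).2 ≠ 0
        rw [nhS_d1]
        intro h0
        have : deriv hh ((bp q).2 - 5) = 0 := by linarith
        rw [this] at h; norm_num at h
      · left
        show nbetS.d1 (bp q).1 ≠ 0
        rw [nbetS_d1]
        have := h.2
        apply neg_ne_zero.mpr
        positivity

def sK : SCh → ℝ
  | .UMl => 1
  | .TL => 1
  | .UMN => 1
  | .TM => 3
  | .Dc => 1
  | .D4 => 1

lemma s_ori (i : SCh) {q : ℝ × ℝ × ℝ × ℝ} (hq : q ∈ (sD i).piece) (hf : (sD i).Flat (bp q) (sK i)) :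
    sS i • (sD i).ori q = (2 * sz q.2.2.2) • wedge dt dx := by
  apply hf.ori
  have h := (hf.mem_iff.1 hq).2
  rcases h with h | h <;> rw [h] <;> cases i <;>
    norm_num [sD, LData.pd, LData.spd, dUMl, dTL, dTM, lUN, lDc, lD4, sS, sK, sz]

lemma s_overlap {i j : SCh} (hij : i ≠ j) {q : ℝ × ℝ × ℝ × ℝ} (hq : q ∈ Sg)
    (hi : q ∈ sW i) (hj : q ∈ sW j) : (sD i).Flat (bp q) (sK i) ∧ (sD j).Flat (bp q) (sK j) := by
  have key : ∀ i j : SCh, q ∈ sW i → q ∈ sW j → i ≠ j → (sD i).Flat (bp q) (sK i) := by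
    intro i j hi hj hij
    have hb : (bp q).2 = q.2.1 := rfl
    cases i
    · have h : -3 < q.2.1 := by
        cases j
        · exact absurd rfl hij
        · exact absurd hj.2 (not_lt.2 hi.2.le)
        · linarith [(N_x hj.1).1]
        · exact hj.1.1
        · exact hj.1.1.1.1
        · linarith [hj.1.1.1.1]
      exact fl_UMl h
    · have h : -4 < q.2.1 := by
        cases j
        · exact absurd hi.2 (not_lt.2 hj.2.le)
        · exact absurd rfl hij
        · linarith [(N_x hj.1).1]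
        · linarith [hj.1.1]
        · linarith [hj.1.1.1.1]
        · linarith [hj.1.1.1.1]
      exact fl_TL h
    · have h : 2 < NN (bp q) := by
        cases j
        · exfalso; linarith [(N_x hi.1).1, hj.1]
        · exact absurd hj.2 (not_lt.2 hi.2.le)
        · exact absurd rfl hij
        · exact hj.1.2
        · exact hj.1.1.2
        · exact hj.1.1.2
      exact fl_UMN h
    · have h : q.2.1 < 10 := by
        cases j
        · linarith [hj.1]
        · rcases hj.1 with h | h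
          · linarith
          · linarith [(N_x h).2.1]
        · linarith [(N_x hj.1).2.1]
        · exact absurd rfl hij
        · linarith [hj.1.1.1.2]
        · linarith [hj.1.1.1.2]
      exact fl_TM h
    · have h : q.2.1 < -2 := by
        cases j
        · exact hj.1
        · rcases hj.1 with h | h
          · exact h
          · exfalso
            have := N_x h
            rcases hi.2 with h2 | h2 <;> linarith
        · exfalso
          have := N_x hj.1
          rcases hi.2 with h2 | h2 <;> linarith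
        · exfalso
          rcases hj.2 with (h2 | h2) | h2 <;> linarith [hi.1.2.1, hi.1.2.2, hi.1.1.1.2]
        · exact absurd rfl hij
        · exfalso
          exact no_Dc hj.1.1.1.1 hj.2 ((s_loc .Dc q hi).1 hq)
      exact fl_Dc h
    · have h : NN (bp q) < 3 := by
        cases j
        · exfalso; linarith [hj.1, hi.1.1.1.1]
        · rcases hj.1 with h | h
          · exfalso; linarith [hi.1.1.1.1]
          · exact h
        · exact hj.1
        · exfalso
          rcases hj.2 with (h2 | h2) | h2 <;> linarith [hi.1.2.1, hi.1.2.2, hi.1.1.1.2]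
        · exfalso
          exact no_D4 hj.2 ((s_loc .D4 q hi).1 hq)
        · exact absurd rfl hij
      exact fl_D4 h
  exact ⟨key i j hi hj hij, key j i hj hi hij.symm⟩

/-- the atlas of the smooth annulus -/
def sAtlas : Atlas Sg where
  ι := SCh
  D := sD
  W := sW
  sgn := sS
  open_W := sW_open
  cover := s_cover
  loc := s_loc
  reg := fun i q hq hS => s_reg i q ((s_loc i q hq).1 hS)
  sgn_ne := by intro i; cases i <;> norm_num [sS]
  compat := by
    intro i j q hS hi hj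
    by_cases hij : i = j
    · subst hij; rfl
    · obtain ⟨f1, f2⟩ := s_overlap hij hS hi hj
      rw [s_ori i ((s_loc i q hi).1 hS) f1, s_ori j ((s_loc j q hj).1 hS) f2]

end

end Pool.Agent.MP_70d14f_gt
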