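import Pool.Agent.Lib.MP_70d14f_gt.SAtlas
import Pool.Agent.Lib.MP_70d14f_gt.LTop

namespace Pool.Agent.MP_70d14f_gt

open Set Topology

noncomputable section

/-- function defined by the zones of the annulus -/
def Z3 (A B C : ℝ × ℝ → ℝ × ℝ × ℝ × ℝ) (b : ℝ × ℝ) : ℝ × ℝ × ℝ × ℝ :=
  if b.2 ≤ -(5 / 2) then A b else if NN b ≤ 5 / 2 then B b else C b

lemma Z3_1 {A B C : ℝ × ℝ → ℝ × ℝ × ℝ × ℝ} {b : ℝ × ℝ} (h : b.2 ≤ -(5 / 2)) :
    Z3 A B C b = A b := by unfold Z3; rw [if_pos h]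
lemma Z3_2 {A B C : ℝ × ℝ → ℝ × ℝ × ℝ × ℝ} {b : ℝ × ℝ} (h : -(5 / 2) < b.2) (h' : NN b ≤ 5 / 2) :
    Z3 A B C b = B b := by unfold Z3; rw [if_neg (not_le.2 h), if_pos h']
lemma Z3_3 {A B C : ℝ × ℝ → ℝ × ℝ × ℝ × ℝ} {b : ℝ × ℝ} (h : -(5 / 2) < b.2) (h' : 5 / 2 < NN b) :
    Z3 A B C b = C b := by unfold Z3; rw [if_neg (not_le.2 h), if_neg (not_le.2 h')]

lemma NN_big {b : ℝ × ℝ} (h : b.2 ≤ -(5 / 2)) : 5 < NN b := by
  have := NN_left (b := b) (by linarith); linarith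

lemma NN_x {b : ℝ × ℝ} (h : NN b ≤ 5 / 2) : 5 / 2 ≤ b.2 ∧ b.2 ≤ 15 / 2 ∧ b.1 < -1 := by
  have h1 := NN_le h (by norm_num)
  rw [abs_le] at h1
  exact ⟨by linarith [h1.1], by linarith [h1.2], NN_t (by linarith)⟩

lemma NN_x4 {b : ℝ × ℝ} (h : NN b ≤ 4) : 1 ≤ b.2 ∧ b.2 ≤ 9 ∧ b.1 < -1 := by
  have h1 := NN_le h (by norm_num)
  rw [abs_le] at h1
  exact ⟨by linarith [h1.1], by linarith [h1.2], NN_t (by linarith)⟩

lemma Z3_cont {A B C : ℝ × ℝ → ℝ × ℝ × ℝ × ℝ} (hA : Continuous A) (hB : Continuous B)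
    (hC : Continuous C) (h1 : ∀ b : ℝ × ℝ, b.2 = -(5 / 2) → A b = C b)
    (h2 : ∀ b : ℝ × ℝ, NN b = 5 / 2 → 5 / 2 ≤ b.2 → b.2 ≤ 15 / 2 → B b = C b) :
    Continuous (Z3 A B C) := by
  unfold Z3
  refine Continuous.if_le hA (Continuous.if_le hB hC NN_cont
    continuous_const ?_) continuous_snd continuous_const ?_
  · intro b hb
    have := NN_x (b := b) (by rw [hb])
    exact h2 b hb this.1 this.2.1
  · intro b hb
    rw [h1 b hb, if_neg]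
    have := NN_big (b := b) (by rw [hb])
    linarith

lemma Z3_bp {A B C : ℝ × ℝ → ℝ × ℝ × ℝ × ℝ} (hA : ∀ b, bp (A b) = b) (hB : ∀ b, bp (B b) = b)
    (hC : ∀ b, bp (C b) = b) (b : ℝ × ℝ) : bp (Z3 A B C b) = b := by
  unfold Z3
  split_ifs
  · exact hA b
  · exact hB b
  · exact hC b

/-- sheets of the annulus -/
inductive Sh | M | T | UO | LO | US | LS

def sc : Sh → ℝ × ℝ → ℝ × ℝ × ℝ × ℝ
  | .M => Z3 ((sD .UMl).sh 1) ((sD .UMN).sh 1) ((sD .TM).sh 1)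
  | .T => Z3 ((sD .TL).sh (-1)) ((sD .TL).sh (-1)) ((sD .TM).sh (-1))
  | .UO => Z3 ((sD .UMl).sh (-1)) ((sD .Dc).sh 1) ((sD .Dc).sh 1)
  | .LO => Z3 ((sD .TL).sh 1) ((sD .Dc).sh (-1)) ((sD .Dc).sh (-1))
  | .US => Z3 ((sD .D4).sh 1) ((sD .UMN).sh (-1)) ((sD .D4).sh 1)
  | .LS => Z3 ((sD .D4).sh (-1)) ((sD .TL).sh 1) ((sD .D4).sh (-1))

def cc (t : ℝ) : ℝ := -1 + 10 * st t

def Rg : Sh → Set (ℝ × ℝ)
  | .M => {b | -4 ≤ b.2 ∧ b.2 ≤ 11 ∧ 1 ≤ NN b}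
  | .T => {b | -8 ≤ b.2 ∧ b.2 ≤ 11}
  | .UO => {b | -4 ≤ b.2 ∧ b.2 ≤ cc b.1}
  | .LO => {b | -8 ≤ b.2 ∧ b.2 ≤ cc b.1}
  | .US => {b | 1 ≤ NN b ∧ NN b ≤ 4}
  | .LS => {b | NN b ≤ 4}

lemma cc_ge (t : ℝ) : -1 ≤ cc t := by unfold cc; linarith [st_nonneg t]
lemma cc_le (t : ℝ) : cc t ≤ 9 := by unfold cc; linarith [st_le_one t]
lemma cc_neg {t : ℝ} (h : t ≤ 0) : cc t = -1 := by unfold cc; rw [st_zero h]; ring
lemma cc_top {t : ℝ} (h : 1 ≤ t) : cc t = 9 := by unfold cc; rw [st_one h]; ring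
lemma cc_mono : Monotone cc := by
  intro a b h; unfold cc; linarith [st_mono h]
lemma cc_cont : Continuous cc := by
  have := st_continuous; unfold cc; fun_prop

lemma h_UMl {b : ℝ × ℝ} (h : -3 < b.2) (s : ℝ) : (sD .UMl).sh s b = (b.1, b.2, 0, 2 + s) := by
  rw [(fl_UMl h).sh, mul_one]; rfl
lemma h_TL {b : ℝ × ℝ} (h : -4 < b.2) (s : ℝ) : (sD .TL).sh s b = (b.1, b.2, 0, -2 + s) := by
  rw [(fl_TL h).sh, mul_one]; rfl
lemma h_TM {b : ℝ × ℝ} (h : b.2 < 10) (s : ℝ) : (sD .TM).sh s b = (b.1, b.2, 0, 3 * s) := by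
  rw [(fl_TM h).sh]
  show (b.1, b.2, 0, 0 + s * 3) = _
  rw [zero_add, mul_comm]
lemma h_UMN {b : ℝ × ℝ} (h : 2 < NN b) (s : ℝ) : (sD .UMN).sh s b = (b.1, b.2, 0, 2 + s) := by
  rw [(fl_UMN h).sh, mul_one]; rfl
lemma h_D4 {b : ℝ × ℝ} (h : NN b < 3) (s : ℝ) : (sD .D4).sh s b = (b.1, b.2, 0, s) := by
  rw [(fl_D4 h).sh, mul_one]
  show (b.1, b.2, 0, 0 + s) = _
  rw [zero_add]
lemma h_Dc {b : ℝ × ℝ} (h : b.2 < -2) (s : ℝ) : (sD .Dc).sh s b = (b.1, b.2, 0, s) := by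
  rw [(fl_Dc h).sh, mul_one]
  show (b.1, b.2, 0, 0 + s) = _
  rw [zero_add]

lemma sc_cont (k : Sh) : Continuous (sc k) := by
  cases k
  · refine Z3_cont (PD.sh_cont _ _) (PD.sh_cont _ _) (PD.sh_cont _ _) ?_ ?_
    · intro b hb
      rw [h_UMl (by rw [hb]; norm_num), h_TM (by rw [hb]; norm_num)]; norm_num
    · intro b hb h1 h2
      rw [h_UMN (by rw [hb]; norm_num), h_TM (by linarith)]; norm_num
  · refine Z3_cont (PD.sh_cont _ _) (PD.sh_cont _ _) (PD.sh_cont _ _) ?_ ?_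
    · intro b hb
      rw [h_TL (by rw [hb]; norm_num), h_TM (by rw [hb]; norm_num)]; norm_num
    · intro b hb h1 h2
      rw [h_TL (by linarith), h_TM (by linarith)]; norm_num
  · refine Z3_cont (PD.sh_cont _ _) (PD.sh_cont _ _) (PD.sh_cont _ _) ?_ ?_
    · intro b hb
      rw [h_UMl (by rw [hb]; norm_num), h_Dc (by rw [hb]; norm_num)]; norm_num
    · intro b hb h1 h2
      rfl
  · refine Z3_cont (PD.sh_cont _ _) (PD.sh_cont _ _) (PD.sh_cont _ _) ?_ ?_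
    · intro b hb
      rw [h_TL (by rw [hb]; norm_num), h_Dc (by rw [hb]; norm_num)]; norm_num
    · intro b hb h1 h2
      rfl
  · refine Z3_cont (PD.sh_cont _ _) (PD.sh_cont _ _) (PD.sh_cont _ _) ?_ ?_
    · intro b hb
      rfl
    · intro b hb h1 h2
      rw [h_UMN (by rw [hb]; norm_num), h_D4 (by rw [hb]; norm_num)]; norm_num
  · refine Z3_cont (PD.sh_cont _ _) (PD.sh_cont _ _) (PD.sh_cont _ _) ?_ ?_
    · intro b hb
      rfl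
    · intro b hb h1 h2
      rw [h_TL (by linarith), h_D4 (by rw [hb]; norm_num)]; norm_num

lemma sc_bp (k : Sh) (b : ℝ × ℝ) : bp (sc k b) = b := by
  cases k <;> exact Z3_bp (fun _ => rfl) (fun _ => rfl) (fun _ => rfl) b

lemma Rg_closed (k : Sh) : IsClosed (Rg k) := by
  have hN := NN_cont
  have hc : Continuous fun b : ℝ × ℝ => cc b.1 := cc_cont.comp continuous_fst
  cases k
  · exact (isClosed_le continuous_const continuous_snd).inter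
      ((isClosed_le continuous_snd continuous_const).inter (isClosed_le continuous_const hN))
  · exact (isClosed_le continuous_const continuous_snd).inter
      (isClosed_le continuous_snd continuous_const)
  · exact (isClosed_le continuous_const continuous_snd).inter (isClosed_le continuous_snd hc)
  · exact (isClosed_le continuous_const continuous_snd).inter (isClosed_le continuous_snd hc)
  · exact (isClosed_le continuous_const hN).inter (isClosed_le hN continuous_const)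
  · exact isClosed_le hN continuous_const

lemma Rg_bdd (k : Sh) : ∀ b ∈ Rg k, -8 ≤ b.2 ∧ b.2 ≤ 11 := by
  intro b hb
  cases k
  · exact ⟨by linarith [hb.1], hb.2.1⟩
  · exact hb
  · exact ⟨by linarith [hb.1], by linarith [hb.2, cc_le b.1]⟩
  · exact ⟨hb.1, by linarith [hb.2, cc_le b.1]⟩
  · have := NN_x4 hb.2
    exact ⟨by linarith [this.1], by linarith [this.2.1]⟩
  · have := NN_x4 hb
    exact ⟨by linarith [this.1], by linarith [this.2.1]⟩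

lemma sc_M : sc .M = Z3 ((sD .UMl).sh 1) ((sD .UMN).sh 1) ((sD .TM).sh 1) := rfl
lemma sc_T : sc .T = Z3 ((sD .TL).sh (-1)) ((sD .TL).sh (-1)) ((sD .TM).sh (-1)) := rfl
lemma sc_UO : sc .UO = Z3 ((sD .UMl).sh (-1)) ((sD .Dc).sh 1) ((sD .Dc).sh 1) := rfl
lemma sc_LO : sc .LO = Z3 ((sD .TL).sh 1) ((sD .Dc).sh (-1)) ((sD .Dc).sh (-1)) := rfl
lemma sc_US : sc .US = Z3 ((sD .D4).sh 1) ((sD .UMN).sh (-1)) ((sD .D4).sh 1) := rfl
lemma sc_LS : sc .LS = Z3 ((sD .D4).sh (-1)) ((sD .TL).sh 1) ((sD .D4).sh (-1)) := rfl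

lemma aux_z1 {a b p1 p2 p3 p4 p5 p6 : Prop} : ((a ∧ (p1 ∨ p2)) ∨ (b ∧ (p3 ∨ p4))) ↔
    ((a ∧ p1) ∨ (b ∧ p4) ∨ (a ∧ p2) ∨ (b ∧ p3) ∨ (False ∧ p5) ∨ (False ∧ p6)) := by tauto
lemma aux_z2 {a p1 p2 p3 p4 p5 p6 : Prop} : ((a ∧ (p1 ∨ p2)) ∨ (True ∧ (p3 ∨ p4))) ↔
    ((a ∧ p1) ∨ (True ∧ p4) ∨ (False ∧ p5) ∨ (False ∧ p6) ∨ (a ∧ p2) ∨ (True ∧ p3)) := by tauto
lemma aux_z3 {a b c p1 p2 p3 p4 p5 p6 : Prop} :
    (((a ∧ (p1 ∨ p2)) ∨ (b ∧ (p3 ∨ p4))) ∨ (c ∧ (p5 ∨ p6))) ↔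
    ((c ∧ p5) ∨ (c ∧ p6) ∨ (a ∧ p1) ∨ (a ∧ p2) ∨ (b ∧ p3) ∨ (b ∧ p4)) := by tauto

/-- the description of the annulus by six sheets -/
lemma mem_Sg {q : ℝ × ℝ × ℝ × ℝ} : q ∈ Sg ↔
    (bp q ∈ Rg .M ∧ sc .M (bp q) = q) ∨ (bp q ∈ Rg .T ∧ sc .T (bp q) = q) ∨
    (bp q ∈ Rg .UO ∧ sc .UO (bp q) = q) ∨ (bp q ∈ Rg .LO ∧ sc .LO (bp q) = q) ∨
    (bp q ∈ Rg .US ∧ sc .US (bp q) = q) ∨ (bp q ∈ Rg .LS ∧ sc .LS (bp q) = q) := by
  have hx : (bp q).2 = q.2.1 := rfl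
  rcases le_or_gt (bp q).2 (-(5 / 2)) with h1 | h1
  · have hN := NN_big h1
    rw [sz1 (by rw [hx] at h1; linarith)]
    have a1 : q ∈ (sD .UMl).piece ↔
      0 ≤ dUMl.w (bp q) ∧ ((sD .UMl).sh 1 (bp q) = q ∨ (sD .UMl).sh (-1) (bp q) = q) := dUMl.mem_sh
    have a2 : q ∈ (sD .TL).piece ↔
      0 ≤ dTL.w (bp q) ∧ ((sD .TL).sh 1 (bp q) = q ∨ (sD .TL).sh (-1) (bp q) = q) := dTL.mem_sh
    have e1 : 0 ≤ dUMl.w (bp q) ↔ -4 ≤ (bp q).2 := by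
      simp only [dUMl, LData.w, aS_f, cS_f]; constructor <;> intro h <;> linarith
    have e2 : 0 ≤ dTL.w (bp q) ↔ -8 ≤ (bp q).2 := by
      simp only [dTL, LData.w, aS_f, cS_f]; constructor <;> intro h <;> linarith
    have b1 : (bp q).2 ≤ 11 := by linarith
    have b2 : 1 ≤ NN (bp q) := by linarith
    have b3 : (bp q).2 ≤ cc (bp q).1 := by linarith [cc_ge (bp q).1]
    have b4 : ¬ NN (bp q) ≤ 4 := by linarith
    have r1 : bp q ∈ Rg .M ↔ -4 ≤ (bp q).2 := ⟨fun h => h.1, fun h => ⟨h, b1, b2⟩⟩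
    have r2 : bp q ∈ Rg .T ↔ -8 ≤ (bp q).2 := ⟨fun h => h.1, fun h => ⟨h, b1⟩⟩
    have r3 : bp q ∈ Rg .UO ↔ -4 ≤ (bp q).2 := ⟨fun h => h.1, fun h => ⟨h, b3⟩⟩
    have r4 : bp q ∈ Rg .LO ↔ -8 ≤ (bp q).2 := ⟨fun h => h.1, fun h => ⟨h, b3⟩⟩
    have r5 : bp q ∈ Rg .US ↔ False := ⟨fun h => b4 h.2, fun h => h.elim⟩
    have r6 : bp q ∈ Rg .LS ↔ False := ⟨fun h => b4 h, fun h => h.elim⟩
    rw [a1, a2, e1, e2, r1, r2, r3, r4, r5, r6, sc_M, sc_T, sc_UO, sc_LO, Z3_1 h1, Z3_1 h1,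
      Z3_1 h1, Z3_1 h1]
    exact aux_z1
  rcases le_or_gt (NN (bp q)) (5 / 2) with h2 | h2
  · obtain ⟨c1, c2, c3⟩ := NN_x h2
    rw [sz2 (by linarith)]
    have a1 : q ∈ (sD .UMN).piece ↔
      0 ≤ lUN.w (bp q) ∧ ((sD .UMN).sh 1 (bp q) = q ∨ (sD .UMN).sh (-1) (bp q) = q) :=
      lUN.spd_mem_sh kapS
    have a2 : q ∈ (sD .TL).piece ↔
      0 ≤ dTL.w (bp q) ∧ ((sD .TL).sh 1 (bp q) = q ∨ (sD .TL).sh (-1) (bp q) = q) := dTL.mem_sh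
    have e1 : 0 ≤ lUN.w (bp q) ↔ 1 ≤ NN (bp q) := by
      rw [w_lUN]; constructor <;> intro h <;> linarith
    have e2 : 0 ≤ dTL.w (bp q) ↔ True := by
      simp only [dTL, LData.w, aS_f, cS_f, iff_true]; linarith
    have b1 : (bp q).2 ≤ 11 := by linarith
    have b1' : -4 ≤ (bp q).2 := by linarith
    have b1'' : -8 ≤ (bp q).2 := by linarith
    have b3 : ¬ (bp q).2 ≤ cc (bp q).1 := by rw [cc_neg (by linarith)]; linarith
    have b4 : NN (bp q) ≤ 4 := by linarith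
    have r1 : bp q ∈ Rg .M ↔ 1 ≤ NN (bp q) := ⟨fun h => h.2.2, fun h => ⟨b1', b1, h⟩⟩
    have r2 : bp q ∈ Rg .T ↔ True := ⟨fun _ => trivial, fun _ => ⟨b1'', b1⟩⟩
    have r3 : bp q ∈ Rg .UO ↔ False := ⟨fun h => b3 h.2, fun h => h.elim⟩
    have r4 : bp q ∈ Rg .LO ↔ False := ⟨fun h => b3 h.2, fun h => h.elim⟩
    have r5 : bp q ∈ Rg .US ↔ 1 ≤ NN (bp q) := ⟨fun h => h.1, fun h => ⟨h, b4⟩⟩
    have r6 : bp q ∈ Rg .LS ↔ True := ⟨fun _ => trivial, fun _ => b4⟩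
    rw [a1, a2, e1, e2, r1, r2, r3, r4, r5, r6, sc_M, sc_T, sc_US, sc_LS, Z3_2 h1 h2, Z3_2 h1 h2,
      Z3_2 h1 h2, Z3_2 h1 h2]
    exact aux_z2
  · rw [sz3 (by rw [hx] at h1; linarith) (by linarith)]
    have a1 : q ∈ (sD .Dc).piece ↔
      0 ≤ lDc.w (bp q) ∧ ((sD .Dc).sh 1 (bp q) = q ∨ (sD .Dc).sh (-1) (bp q) = q) :=
      lDc.spd_mem_sh (cS 0)
    have a2 : q ∈ (sD .D4).piece ↔
      0 ≤ lD4.w (bp q) ∧ ((sD .D4).sh 1 (bp q) = q ∨ (sD .D4).sh (-1) (bp q) = q) :=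
      lD4.spd_mem_sh kapS
    have a3 : q ∈ (sD .TM).piece ↔
      0 ≤ dTM.w (bp q) ∧ ((sD .TM).sh 1 (bp q) = q ∨ (sD .TM).sh (-1) (bp q) = q) := dTM.mem_sh
    have e1 : 0 ≤ lDc.w (bp q) ↔ (bp q).2 ≤ cc (bp q).1 := by
      rw [w_lDc]; unfold cc; constructor <;> intro h <;> linarith
    have e2 : 0 ≤ lD4.w (bp q) ↔ NN (bp q) ≤ 4 := by
      rw [w_lD4]; constructor <;> intro h <;> linarith
    have e3 : 0 ≤ dTM.w (bp q) ↔ (bp q).2 ≤ 11 := by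
      simp only [dTM, LData.w, aS_f, cS_f]; constructor <;> intro h <;> linarith
    have b1 : 1 ≤ NN (bp q) := by linarith
    have b1' : -4 ≤ (bp q).2 := by linarith
    have b1'' : -8 ≤ (bp q).2 := by linarith
    have r1 : bp q ∈ Rg .M ↔ (bp q).2 ≤ 11 := ⟨fun h => h.2.1, fun h => ⟨b1', h, b1⟩⟩
    have r2 : bp q ∈ Rg .T ↔ (bp q).2 ≤ 11 := ⟨fun h => h.2, fun h => ⟨b1'', h⟩⟩
    have r3 : bp q ∈ Rg .UO ↔ (bp q).2 ≤ cc (bp q).1 := ⟨fun h => h.2, fun h => ⟨b1', h⟩⟩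
    have r4 : bp q ∈ Rg .LO ↔ (bp q).2 ≤ cc (bp q).1 := ⟨fun h => h.2, fun h => ⟨b1'', h⟩⟩
    have r5 : bp q ∈ Rg .US ↔ NN (bp q) ≤ 4 := ⟨fun h => h.2, fun h => ⟨b1, h⟩⟩
    have r6 : bp q ∈ Rg .LS ↔ NN (bp q) ≤ 4 := Iff.rfl
    rw [a1, a2, a3, e1, e2, e3, r1, r2, r3, r4, r5, r6, sc_M, sc_T, sc_UO, sc_LO, sc_US, sc_LS,
      Z3_3 h1 h2, Z3_3 h1 h2, Z3_3 h1 h2, Z3_3 h1 h2, Z3_3 h1 h2, Z3_3 h1 h2]
    exact aux_z3

lemma mem_Sg' {q : ℝ × ℝ × ℝ × ℝ} : q ∈ Sg ↔ ∃ k, bp q ∈ Rg k ∧ sc k (bp q) = q := by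
  rw [mem_Sg]
  constructor
  · rintro (h | h | h | h | h | h)
    exacts [⟨_, h⟩, ⟨_, h⟩, ⟨_, h⟩, ⟨_, h⟩, ⟨_, h⟩, ⟨_, h⟩]
  · rintro ⟨k, h⟩
    cases k
    · exact Or.inl h
    · exact Or.inr (Or.inl h)
    · exact Or.inr (Or.inr (Or.inl h))
    · exact Or.inr (Or.inr (Or.inr (Or.inl h)))
    · exact Or.inr (Or.inr (Or.inr (Or.inr (Or.inl h))))
    · exact Or.inr (Or.inr (Or.inr (Or.inr (Or.inr h))))

lemma sc_mem {k : Sh} {b : ℝ × ℝ} (h : b ∈ Rg k) : sc k b ∈ Sg := by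
  rw [mem_Sg']
  refine ⟨k, ?_, ?_⟩
  · rw [sc_bp]; exact h
  · rw [sc_bp]

lemma Sg_eq : Sg = ov (sc .M) (Rg .M) ∪ (ov (sc .T) (Rg .T) ∪ (ov (sc .UO) (Rg .UO) ∪
    (ov (sc .LO) (Rg .LO) ∪ (ov (sc .US) (Rg .US) ∪ ov (sc .LS) (Rg .LS))))) := by
  ext q
  exact mem_Sg

lemma Sg_closed : IsClosed Sg := by
  rw [Sg_eq]
  have h := fun k => ov_closed (sc_cont k) (Rg_closed k)
  exact (h _).union ((h _).union ((h _).union ((h _).union ((h _).union (h _)))))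

lemma Sg_compact (T : ℝ) : IsCompact (Sg ∩ {q | -T ≤ q.1 ∧ q.1 ≤ T}) := by
  rw [Sg_eq]
  simp only [union_inter_distrib_right]
  have h := fun k => ov_compact (sc_cont k) (sc_bp k) (Rg_closed k) (Rg_bdd k) T
  exact (h _).union ((h _).union ((h _).union ((h _).union ((h _).union (h _)))))

/-- common points -/
lemma j_MU {t : ℝ} : sc .M (t, -4) = sc .UO (t, -4) := by
  rw [sc_M, sc_UO, Z3_1 (by norm_num), Z3_1 (by norm_num)]
  exact dUMl.sh_eq (by simp [dUMl, LData.w]) _ _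
lemma j_LT {t : ℝ} : sc .LO (t, -8) = sc .T (t, -8) := by
  rw [sc_LO, sc_T, Z3_1 (by norm_num), Z3_1 (by norm_num)]
  exact dTL.sh_eq (by simp [dTL, LData.w]) _ _
lemma j_MT {t : ℝ} : sc .M (t, 11) = sc .T (t, 11) := by
  have h : 5 / 2 < NN (t, 11) := by
    unfold NN
    show 5 / 2 < hh (11 - 5) + bet t
    rw [hh_of_ge (by norm_num)]
    linarith [bet_nonneg t]
  rw [sc_M, sc_T, Z3_3 (by norm_num) h, Z3_3 (by norm_num) h]
  exact dTM.sh_eq (by simp [dTM, LData.w]) _ _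
lemma j_UL {t : ℝ} : sc .UO (t, cc t) = sc .LO (t, cc t) := by
  have h1 : -(5 / 2) < cc t := by linarith [cc_ge t]
  have hz := lDc.spd_sh_eq (cS 0) (b := (t, cc t)) (by rw [w_lDc]; unfold cc; ring) 1 (-1)
  rw [sc_UO, sc_LO]
  rcases le_or_gt (NN (t, cc t)) (5 / 2) with h | h
  · rw [Z3_2 h1 h, Z3_2 h1 h]
    exact hz
  · rw [Z3_3 h1 h, Z3_3 h1 h]
    exact hz
lemma j_MUS {b : ℝ × ℝ} (h : NN b = 1) : sc .M b = sc .US b := by
  obtain ⟨c1, c2, c3⟩ := NN_x (b := b) (by linarith)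
  rw [sc_M, sc_US, Z3_2 (by linarith) (by linarith), Z3_2 (by linarith) (by linarith)]
  exact lUN.spd_sh_eq kapS (by rw [w_lUN, h]; ring) _ _
lemma j_ULS {b : ℝ × ℝ} (h : NN b = 4) : sc .US b = sc .LS b := by
  obtain ⟨c1, c2, c3⟩ := NN_x4 (b := b) (by linarith)
  rw [sc_US, sc_LS, Z3_3 (by linarith) (by linarith), Z3_3 (by linarith) (by linarith)]
  exact lD4.spd_sh_eq kapS (by rw [w_lD4, h]; ring) _ _

lemma aux_u {a b c d e f : Prop} : (a ∨ b ∨ c ∨ d ∨ e ∨ f) ↔ ((d ∨ c ∨ b ∨ a) ∨ e ∨ f) := by tauto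

lemma Sg_connected : IsConnected Sg := by
  rw [Sg_eq, ov_eq (sc_bp _), ov_eq (sc_bp _), ov_eq (sc_bp _), ov_eq (sc_bp _), ov_eq (sc_bp _),
    ov_eq (sc_bp _)]
  have cM : IsConnected (Rg .M) := by
    refine region_conn (t1 := 1) (a := -4) (c := 11) (by norm_num) ?_ ?_
    · intro x hx
      refine ⟨hx.1, hx.2, ?_⟩
      show 1 ≤ hh (x - 5) + bet 1
      rw [bet_of_ge (by norm_num)]
      linarith [hh_nonneg (x - 5)]
    · rintro b ⟨h1, h2, h3⟩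
      refine ⟨⟨h1, h2⟩, ?_⟩
      intro s hs
      refine ⟨h1, h2, ?_⟩
      show 1 ≤ hh (b.2 - 5) + bet s
      rcases le_total b.1 1 with h | h
      · rw [uIcc_of_le h] at hs
        have := bet_mono hs.1
        unfold NN at h3
        linarith
      · rw [uIcc_of_ge h] at hs
        rw [bet_of_ge (by linarith [hs.1])]
        linarith [hh_nonneg (b.2 - 5)]
  have cT : IsConnected (Rg .T) := by
    refine region_conn (t1 := 1) (a := -8) (c := 11) (by norm_num) ?_ ?_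
    · intro x hx; exact ⟨hx.1, hx.2⟩
    · rintro b ⟨h1, h2⟩
      exact ⟨⟨h1, h2⟩, fun s _ => ⟨h1, h2⟩⟩
  have key : ∀ b : ℝ × ℝ, b.2 ≤ cc b.1 → ∀ s ∈ uIcc b.1 1, b.2 ≤ cc s := by
    intro b hb s hs
    rcases le_total b.1 1 with h | h
    · rw [uIcc_of_le h] at hs
      exact hb.trans (cc_mono hs.1)
    · rw [uIcc_of_ge h] at hs
      rw [cc_top hs.1]
      exact hb.trans (cc_le _)
  have cU : IsConnected (Rg .UO) := by
    refine region_conn (t1 := 1) (a := -4) (c := 9) (by norm_num) ?_ ?_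
    · intro x hx; exact ⟨hx.1, by show x ≤ cc 1; rw [cc_top (le_refl _)]; exact hx.2⟩
    · rintro b ⟨h1, h2⟩
      exact ⟨⟨h1, h2.trans (cc_le _)⟩, fun s hs => ⟨h1, key b h2 s hs⟩⟩
  have cL : IsConnected (Rg .LO) := by
    refine region_conn (t1 := 1) (a := -8) (c := 9) (by norm_num) ?_ ?_
    · intro x hx; exact ⟨hx.1, by show x ≤ cc 1; rw [cc_top (le_refl _)]; exact hx.2⟩
    · rintro b ⟨h1, h2⟩
      exact ⟨⟨h1, h2.trans (cc_le _)⟩, fun s hs => ⟨h1, key b h2 s hs⟩⟩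
  have cLS : IsConnected (Rg .LS) := by
    have h5 : ∀ x : ℝ, 1 ≤ x → x ≤ 9 → NN (-5, x) ≤ 4 := by
      intro x h1 h9
      show hh (x - 5) + bet (-5) ≤ 4
      rw [bet_of_le (le_refl _)]
      have := hh_le_abs (x - 5)
      have h2 : |x - 5| ≤ 4 := abs_le.2 ⟨by linarith, by linarith⟩
      linarith
    refine region_conn (t1 := -5) (a := 1) (c := 9) (by norm_num) ?_ ?_
    · intro x hx; exact h5 x hx.1 hx.2
    · intro b hb
      obtain ⟨c1, c2, c3⟩ := NN_x4 hb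
      refine ⟨⟨c1, c2⟩, ?_⟩
      intro s hs
      show hh (b.2 - 5) + bet s ≤ 4
      rcases le_total b.1 (-5) with h | h
      · rw [uIcc_of_le h] at hs
        have := h5 b.2 c1 c2
        unfold NN at this
        have h6 := bet_mono hs.2
        simp only at this
        linarith
      · rw [uIcc_of_ge h] at hs
        have h6 := bet_mono hs.2
        have hb' : NN b ≤ 4 := hb
        unfold NN at hb'
        linarith
  have iM := cM.image _ (sc_cont .M).continuousOn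
  have iT := cT.image _ (sc_cont .T).continuousOn
  have iU := cU.image _ (sc_cont .UO).continuousOn
  have iL := cL.image _ (sc_cont .LO).continuousOn
  have iLS := cLS.image _ (sc_cont .LS).continuousOn
  have iS : IsConnected (sc .US '' Rg .US ∪ sc .LS '' Rg .LS) := by
    obtain ⟨y0, hy0⟩ := iLS.nonempty
    refine ⟨⟨y0, Or.inr hy0⟩, ?_⟩
    apply isPreconnected_of_forall y0
    rintro y (⟨b, hb, rfl⟩ | hy)
    · obtain ⟨c1, c2, c3⟩ := NN_x4 hb.2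
      obtain ⟨s, hs, hs4⟩ : ∃ s ∈ Icc b.1 (-1), NN (s, b.2) = 4 := by
        have hc : ContinuousOn (fun s : ℝ => NN (s, b.2)) (Icc b.1 (-1)) := by
          have := NN_cont
          fun_prop
        have h1 : (4 : ℝ) ∈ Icc (NN (b.1, b.2)) (NN (-1, b.2)) := by
          refine ⟨hb.2, ?_⟩
          show 4 ≤ hh (b.2 - 5) + bet (-1)
          rw [bet_of_ge (le_refl _)]
          linarith [hh_nonneg (b.2 - 5)]
        exact intermediate_value_Icc c3.le hc h1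
      refine ⟨(fun r : ℝ => sc .US (r, b.2)) '' Icc b.1 s ∪ sc .LS '' Rg .LS, ?_, Or.inr hy0, ?_, ?_⟩
      · apply union_subset_union_left
        rintro _ ⟨r, hr, rfl⟩
        refine ⟨(r, b.2), ?_, rfl⟩
        have m1 := bet_mono hr.1
        have m2 := bet_mono hr.2
        have hb1 : 1 ≤ NN b := hb.1
        unfold NN at hs4 hb1
        simp only at hs4
        constructor
        · show 1 ≤ hh (b.2 - 5) + bet r
          linarith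
        · show hh (b.2 - 5) + bet r ≤ 4
          linarith
      · exact Or.inl ⟨b.1, ⟨le_refl _, hs.1⟩, rfl⟩
      · refine IsPreconnected.union (sc .US (s, b.2)) ⟨s, ⟨hs.1, le_refl _⟩, rfl⟩ ?_ ?_ iLS.isPreconnected
        · rw [j_ULS hs4]
          exact ⟨(s, b.2), by show NN (s, b.2) ≤ 4; rw [hs4], rfl⟩
        · refine isPreconnected_Icc.image _ ?_
          have := sc_cont .US
          fun_prop
    · exact ⟨sc .LS '' Rg .LS, subset_union_right, hy0, hy, iLS.isPreconnected⟩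
  have hN5 : NN (-5, 4) = 1 := by
    show hh (4 - 5) + bet (-5) = 1
    rw [bet_of_le (le_refl _), hh_of_le (by norm_num)]; norm_num
  have hc1 : cc 1 = 9 := cc_top (le_refl _)
  have hN1 : ∀ x : ℝ, 1 ≤ NN (1, x) := by
    intro x
    show 1 ≤ hh (x - 5) + bet 1
    rw [bet_of_ge (by norm_num)]
    linarith [hh_nonneg (x - 5)]
  have s1 : sc .M '' Rg .M ∪ (sc .T '' Rg .T ∪ (sc .UO '' Rg .UO ∪ (sc .LO '' Rg .LO ∪
      (sc .US '' Rg .US ∪ sc .LS '' Rg .LS)))) =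
      (sc .LO '' Rg .LO ∪ (sc .UO '' Rg .UO ∪ (sc .T '' Rg .T ∪ sc .M '' Rg .M))) ∪
      (sc .US '' Rg .US ∪ sc .LS '' Rg .LS) := by
    ext q; exact aux_u
  rw [s1]
  have v1 : IsConnected (sc .T '' Rg .T ∪ sc .M '' Rg .M) :=
    IsConnected.union ⟨sc .T (1, 11), ⟨(1, 11), ⟨by norm_num, by norm_num⟩, rfl⟩,
      ⟨(1, 11), ⟨by norm_num, by norm_num, hN1 _⟩, j_MT⟩⟩ iT iM
  have v2 : IsConnected (sc .UO '' Rg .UO ∪ (sc .T '' Rg .T ∪ sc .M '' Rg .M)) :=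
    IsConnected.union ⟨sc .UO (1, -4), ⟨(1, -4), ⟨by norm_num, by show (-4 : ℝ) ≤ cc 1; rw [hc1]; norm_num⟩, rfl⟩,
      Or.inr ⟨(1, -4), ⟨by norm_num, by norm_num, hN1 _⟩, j_MU⟩⟩ iU v1
  have v3 : IsConnected (sc .LO '' Rg .LO ∪ (sc .UO '' Rg .UO ∪ (sc .T '' Rg .T ∪ sc .M '' Rg .M))) :=
    IsConnected.union ⟨sc .LO (1, -8), ⟨(1, -8), ⟨by norm_num, by show (-8 : ℝ) ≤ cc 1; rw [hc1]; norm_num⟩, rfl⟩,
      Or.inr (Or.inl ⟨(1, -8), ⟨by norm_num, by norm_num⟩, j_LT.symm⟩)⟩ iL v2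
  exact IsConnected.union ⟨sc .M (-5, 4),
    Or.inr (Or.inr (Or.inr ⟨(-5, 4), ⟨by norm_num, by norm_num, by rw [hN5]⟩, rfl⟩)),
    Or.inl ⟨(-5, 4), ⟨by rw [hN5], by rw [hN5]; norm_num⟩, (j_MUS hN5).symm⟩⟩ v3 iS

end

end Pool.Agent.MP_70d14f_gt
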