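import Pool.Agent.Lib.MP_70d14f_gt.SEnds
import Pool.Agent.Lib.MP_70d14f_gt.SSheets

namespace Pool.Agent.MP_70d14f_gt

open Set Topology

noncomputable section

variable {δ B : ℝ}

lemma kn_dir (G : Good δ B) {T0 : ℝ} (ht : δ * T0 < -1 ∨ 1 < δ * T0)
    (hc : IsConnected (slc δ T0)) : (kn G ht hc).dir (0, 0, -3) = (-2, 0, 0) := by
  have hm : ((T0, 0, 0, -3) : ℝ × ℝ × ℝ × ℝ) ∈ LL δ := by
    rw [zone2 (by norm_num) (by norm_num)]
    right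
    rw [mem_TM_flat (by norm_num)]
    norm_num
  have hW : ((T0, 0, 0, -3) : ℝ × ℝ × ℝ × ℝ) ∈ chW Ch.TM := by
    left
    norm_num
  have hf : (chD δ Ch.TM).flat (bp ((T0, 0, 0, -3) : ℝ × ℝ × ℝ × ℝ)) :=
    flat_TM (by show (0 : ℝ) < 10; norm_num)
  have hp := (ch_loc G _ _ hW).1 hm
  show (exists_dir G).choose (T0, 0, 0, -3) = _
  rw [(exists_dir G).choose_spec Ch.TM _ hm hW, chV_flat _ hp hf]
  norm_num [sz]

lemma s_base (G : Good δ B) {o : ℝ × ℝ × ℝ × ℝ → LinearMap.BilinForm ℝ (ℝ × ℝ × ℝ × ℝ)}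
    (ho : ∀ i q, q ∈ Sg → q ∈ sW i → o q = sS i • (sD i).ori q) (t T0 : ℝ)
    (ht : δ * T0 < -1 ∨ 1 < δ * T0) (hc : IsConnected (slc δ T0)) :
    ((t, 0, 0, -3) : ℝ × ℝ × ℝ × ℝ) ∈ Sg ∧
    0 < o (t, 0, 0, -3) (1, 0) (0, (kn G ht hc).dir (0, 0, -3)) := by
  have hN : 2 < NN (bp ((t, 0, 0, -3) : ℝ × ℝ × ℝ × ℝ)) := by
    have := NN_left (b := bp ((t, 0, 0, -3) : ℝ × ℝ × ℝ × ℝ)) (by
      show (0 : ℝ) ≤ 9 / 2; norm_num)
    have e : (bp ((t, 0, 0, -3) : ℝ × ℝ × ℝ × ℝ)).2 = 0 := rfl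
    rw [e] at this
    linarith
  have hm : ((t, 0, 0, -3) : ℝ × ℝ × ℝ × ℝ) ∈ Sg := by
    rw [sz3 (by norm_num) hN]
    right
    rw [m_TM (by norm_num)]
    norm_num
  have hW : ((t, 0, 0, -3) : ℝ × ℝ × ℝ × ℝ) ∈ sW SCh.TM := by
    refine ⟨⟨by norm_num, hN⟩, ?_⟩
    norm_num
  have hf : (sD SCh.TM).Flat (bp ((t, 0, 0, -3) : ℝ × ℝ × ℝ × ℝ)) (sK SCh.TM) :=
    fl_TM (by show (0 : ℝ) < 10; norm_num)
  have hp := (s_loc _ _ hW).1 hm
  refine ⟨hm, ?_⟩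
  rw [kn_dir, ho SCh.TM _ hm hW, s_ori _ hp hf]
  norm_num [sz]

theorem Sg_cobordism (G : Good δ B) {T : ℝ} (hT : 1 / δ < T) (h1 : δ * (-T) < -1 ∨ 1 < δ * (-T))
    (h2 : δ * T < -1 ∨ 1 < δ * T) (c1 : IsConnected (slc δ (-T))) (c2 : IsConnected (slc δ T)) :
    IsCobordism (kn G h1 c1).toOrientedKnot (kn G h2 c2).toOrientedKnot 6 Sg := by
  have hδ := G.hδ
  have hT1 : 1 < δ * T := by
    rw [div_lt_iff₀ hδ] at hT; linarith
  have cylm : ∀ q : ℝ × ℝ × ℝ × ℝ, q.1 ∈ Iio (-5 : ℝ) →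
      (q ∈ Sg ↔ q.2 ∈ (kn G h1 c1).carrier) := by
    intro q hq
    exact Sg_left (T0 := -T) (le_of_lt hq) (by linarith) q.2
  have cylp : ∀ q : ℝ × ℝ × ℝ × ℝ, q.1 ∈ Ioi (1 : ℝ) →
      (q ∈ Sg ↔ q.2 ∈ (kn G h2 c2).carrier) := by
    intro q hq
    exact Sg_right (T0 := T) (le_of_lt hq) (by linarith) q.2
  refine ⟨by norm_num, Sg_closed, Sg_connected, Sg_compact 6, ?_, ?_, ?_⟩
  · intro q hq
    exact cylm q (by show q.1 < -5; linarith)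
  · intro q hq
    exact cylp q (by show 1 < q.1; linarith)
  · obtain ⟨o, ho, hoc, hov⟩ := sAtlas.exists_ori
    refine ⟨o, hoc, hov, ?_, ?_⟩
    · obtain ⟨b1, b2⟩ := s_base G ho (-6) (-T) h1 c1
      have := end_sign (I := Iic (-6)) (J := Iio (-5 : ℝ)) isOpen_Iio (by
          intro t ht
          have ht' : t ≤ -6 := ht
          show t < -5
          linarith) isPreconnected_Iic cylm hoc hov b1 (mem_Iic.2 (le_refl (-6 : ℝ))) b2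
      intro p hp ht
      exact this p hp ht
    · obtain ⟨b1, b2⟩ := s_base G ho 6 T h2 c2
      have := end_sign (I := Ici 6) (J := Ioi (1 : ℝ)) isOpen_Ioi (by
          intro t ht
          have ht' : 6 ≤ t := ht
          show 1 < t
          linarith) isPreconnected_Ici cylp hoc hov b1 (mem_Ici.2 (le_refl (6 : ℝ))) b2
      intro p hp ht
      exact this p hp ht

end

end Pool.Agent.MP_70d14f_gt
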