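import Pool.Agent.Lib.MP_70d14f_gt.Sheets
import Pool.Agent.Lib.MP_70d14f_gt.LCharts

namespace Pool.Agent.MP_70d14f_gt

open Set Topology

noncomputable section

/-- flatness of a piece at a base point -/
def PD.Flat (D : PD) (b : ℝ × ℝ) (k : ℝ) : Prop :=
  0 < k ∧ D.g b = 1 ∧ D.P b = k ∧ D.Q b = 0 ∧ D.gt b = 0 ∧ D.gx b = 0

namespace PD

variable {D : PD} {b : ℝ × ℝ} {k : ℝ}

lemma Flat.mem_iff {q : ℝ × ℝ × ℝ × ℝ} (h : D.Flat (bp q) k) : q ∈ D.piece ↔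
    (q.2.2.1 = 0 ∧ (q.2.2.2 = D.m + k ∨ q.2.2.2 = D.m - k)) := by
  obtain ⟨hk, g1, p1, p2, -⟩ := h
  show (∃ η : ℝ, η ^ 2 = D.g (bp q) ∧ q.2.2.1 = η * D.Q (bp q) ∧
    q.2.2.2 = D.m + η * D.P (bp q)) ↔ _
  rw [g1, p1, p2]
  constructor
  · rintro ⟨η, h1, h2, h3⟩
    refine ⟨by rw [h2]; ring, ?_⟩
    have : (η - 1) * (η + 1) = 0 := by linear_combination h1
    rcases mul_eq_zero.1 this with h | h
    · left; rw [h3]; linear_combination k * h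
    · right; rw [h3]; linear_combination k * h
  · rintro ⟨h1, h2 | h2⟩
    · exact ⟨1, by ring, by rw [h1]; ring, by rw [h2]; ring⟩
    · exact ⟨-1, by ring, by rw [h1]; ring, by rw [h2]; ring⟩

lemma Flat.eta {q : ℝ × ℝ × ℝ × ℝ} (h : D.Flat (bp q) k) :
    D.eta q = (q.2.2.2 - D.m) / k := by
  obtain ⟨hk, g1, p1, p2, -⟩ := h
  have hk' := hk.ne'
  show ((q.2.2.2 - D.m) * D.P (bp q) + q.2.2.1 * D.Q (bp q)) / (D.P (bp q) ^ 2 + D.Q (bp q) ^ 2) = _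
  rw [p1, p2]
  field_simp
  ring

lemma Flat.ori {q : ℝ × ℝ × ℝ × ℝ} (h : D.Flat (bp q) k) {s c : ℝ}
    (hc : s * ((q.2.2.2 - D.m) / k) = c) : s • D.ori q = (2 * c) • wedge dt dx := by
  have he := h.eta
  obtain ⟨hk, g1, p1, p2, p3, p4⟩ := h
  apply LinearMap.ext₂
  intro v w
  simp only [LinearMap.smul_apply, smul_eq_mul, PD.ori_flat D q p4 p3, wedge_apply, dt_apply, dx_apply]
  rw [he, ← hc]
  ring

lemma Flat.sh (h : D.Flat b k) (s : ℝ) : D.sh s b = (b.1, b.2, 0, D.m + s * k) := by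
  obtain ⟨hk, g1, p1, p2, -⟩ := h
  unfold PD.sh
  rw [g1, p1, p2]
  simp

end PD

lemma LData.Flat_of (A : LData) {b : ℝ × ℝ} (h : A.flat b) : A.pd.Flat b (A.k.f b.2) := by
  obtain ⟨g1, g2, g3, g4, g5, g6, p1, p2, -⟩ := A.flat_all h
  refine ⟨h.2.1, g1, p1, p2, ?_, ?_⟩
  · show fderiv ℝ A.g b (1, 0) = 0
    rw [A.fderiv_g, g2, g3]; ring
  · show fderiv ℝ A.g b (0, 1) = 0
    rw [A.fderiv_g, g2, g3]; ring

/-- the smooth pieces: `P = g + κ (1 - g)`, `Q = 3/2 g_x` -/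
def LData.spd (A : LData) (κ : SF) : PD where
  g := A.g
  P := fun b => A.g b + κ.f b.1 * (1 - A.g b)
  Q := fun b => 3 / 2 * A.gx b
  m := A.m
  hg := A.g_smooth
  hP := by
    have h1 := A.g_smooth
    have h2 := κ.hf
    fun_prop
  hQ := by
    have h1 := A.gx_smooth
    fun_prop

namespace LData

variable (A : LData) (κ : SF)

lemma spd_gt (b : ℝ × ℝ) : (A.spd κ).gt b = A.gt b := by
  show fderiv ℝ A.g b (1, 0) = _
  rw [A.fderiv_g]; ring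
lemma spd_gx (b : ℝ × ℝ) : (A.spd κ).gx b = A.gx b := by
  show fderiv ℝ A.g b (0, 1) = _
  rw [A.fderiv_g]; ring

lemma spd_Flat {b : ℝ × ℝ} (h : 1 < A.w b) : (A.spd κ).Flat b 1 := by
  have e1 : lamS.d1 (A.w b) = 0 := deriv_lam_of_ge h.le
  have g1 : A.g b = 1 := lam_of_ge h.le
  have g2 : A.gt b = 0 := by unfold gt; rw [e1]; ring
  have g3 : A.gx b = 0 := by unfold gx; rw [e1]; ring
  refine ⟨one_pos, g1, ?_, ?_, ?_, ?_⟩
  · show A.g b + κ.f b.1 * (1 - A.g b) = 1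
    rw [g1]; ring
  · show 3 / 2 * A.gx b = 0
    rw [g3]; ring
  · rw [spd_gt, g2]
  · rw [spd_gx, g3]

lemma spd_mem_sh {q : ℝ × ℝ × ℝ × ℝ} : q ∈ (A.spd κ).piece ↔
    0 ≤ A.w (bp q) ∧ ((A.spd κ).sh 1 (bp q) = q ∨ (A.spd κ).sh (-1) (bp q) = q) := by
  rw [PD.mem_piece_sh]
  have : 0 ≤ (A.spd κ).g (bp q) ↔ 0 ≤ A.w (bp q) := lam_nonneg_iff
  rw [this]

lemma spd_sh_eq {b : ℝ × ℝ} (h : A.w b = 0) (s s' : ℝ) :
    (A.spd κ).sh s b = (A.spd κ).sh s' b := by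
  apply PD.sh_zero
  show lam (A.w b) = 0
  rw [h]; exact lam_of_le (by norm_num)

lemma spd_P_bound {b : ℝ × ℝ} (hw : 0 ≤ A.w b) (h0 : 0 ≤ κ.f b.1) (h1 : κ.f b.1 ≤ 1) :
    0 ≤ (A.spd κ).P b ∧ (A.spd κ).P b ≤ 1 ∧ (0 < A.w b → 0 < (A.spd κ).P b) := by
  have g0 : 0 ≤ A.g b := lam_nonneg_iff.2 hw
  have g1 : A.g b ≤ 1 := lam_le_one _
  show 0 ≤ A.g b + κ.f b.1 * (1 - A.g b) ∧ A.g b + κ.f b.1 * (1 - A.g b) ≤ 1 ∧
    (0 < A.w b → 0 < A.g b + κ.f b.1 * (1 - A.g b))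
  refine ⟨by nlinarith, by nlinarith, ?_⟩
  intro h
  have : 0 < A.g b := lam_pos h
  nlinarith

/-- the height of a smooth sheet -/
lemma spd_sh_z {b : ℝ × ℝ} (hw : 0 ≤ A.w b) (h0 : 0 ≤ κ.f b.1) (h1 : κ.f b.1 ≤ 1) :
    ∃ μ : ℝ, 0 ≤ μ ∧ μ ≤ 1 ∧ (0 < A.w b → 0 < μ) ∧
      ∀ s : ℝ, ((A.spd κ).sh s b).2.2.2 = A.m + s * μ := by
  obtain ⟨p0, p1, p2⟩ := A.spd_P_bound κ hw h0 h1
  have g0 : 0 ≤ A.g b := lam_nonneg_iff.2 hw
  have g1 : √(A.g b) ≤ 1 := Real.sqrt_le_one.2 (lam_le_one _)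
  have g2 := Real.sqrt_nonneg (A.g b)
  refine ⟨√(A.g b) * (A.spd κ).P b, mul_nonneg g2 p0, by nlinarith, ?_, ?_⟩
  · intro h
    exact mul_pos (Real.sqrt_pos.2 (lam_pos h)) (p2 h)
  · intro s
    show A.m + s * √(A.g b) * (A.spd κ).P b = _
    ring

lemma spd_reg {b : ℝ × ℝ} (hw : 0 ≤ A.w b) (h0 : 0 ≤ κ.f b.1) (h1 : κ.f b.1 ≤ 1)
    (h2 : A.w b = 0 → 0 < κ.f b.1 ∨ A.u.d1 b.2 ≠ 0)
    (h3 : A.w b = 0 → A.v.d1 b.1 ≠ 0 ∨ A.u.d1 b.2 ≠ 0) : (A.spd κ).reg b := by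
  constructor
  · show (A.spd κ).P b ^ 2 + (A.spd κ).Q b ^ 2 ≠ 0
    rcases hw.eq_or_lt with h | h
    · have e1 : lamS.d1 (A.w b) = 1 := by
        rw [← h]; exact deriv_lam_of_le (by norm_num)
      have e2 : A.g b = 0 := by
        show lam (A.w b) = 0
        rw [← h]; exact lam_of_le (by norm_num)
      have eP : (A.spd κ).P b = κ.f b.1 := by
        show A.g b + κ.f b.1 * (1 - A.g b) = _
        rw [e2]; ring
      have eQ : (A.spd κ).Q b = 3 / 2 * A.u.d1 b.2 := by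
        show 3 / 2 * (lamS.d1 (A.w b) * A.u.d1 b.2) = _
        rw [e1]; ring
      rw [eP, eQ]
      rcases h2 h.symm with h4 | h4
      · positivity
      · positivity
    · have := (A.spd_P_bound κ hw h0 h1).2.2 h
      positivity
  · intro hg
    have hw0 : A.w b = 0 := lam_eq_zero_iff.1 hg
    have e1 : lamS.d1 (A.w b) = 1 := by
      rw [hw0]; exact deriv_lam_of_le (by norm_num)
    rcases h3 hw0 with h | h
    · refine ⟨(1, 0), ?_⟩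
      show fderiv ℝ A.g b (1, 0) ≠ 0
      rw [fderiv_g]; unfold gt; rw [e1]; simpa using h
    · refine ⟨(0, 1), ?_⟩
      show fderiv ℝ A.g b (0, 1) ≠ 0
      rw [fderiv_g]; unfold gx; rw [e1]; simpa using h

end LData

end

end Pool.Agent.MP_70d14f_gt
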