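import Pool.Agent.Lib.MP_70d14f_gt.SAtlas
import Pool.Agent.Lib.MP_70d14f_gt.LCob

namespace Pool.Agent.MP_70d14f_gt

open Set Topology

noncomputable section

lemma piece_congr {D D' : PD} {t t' : ℝ} {p : ℝ × ℝ × ℝ} (hg : D.g (t, p.1) = D'.g (t', p.1))
    (hP : D.P (t, p.1) = D'.P (t', p.1)) (hQ : D.Q (t, p.1) = D'.Q (t', p.1)) (hm : D.m = D'.m) :
    ((t, p) : ℝ × ℝ × ℝ × ℝ) ∈ D.piece ↔ ((t', p) : ℝ × ℝ × ℝ × ℝ) ∈ D'.piece := by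
  show (∃ η : ℝ, η ^ 2 = D.g (t, p.1) ∧ p.2.1 = η * D.Q (t, p.1) ∧ p.2.2 = D.m + η * D.P (t, p.1)) ↔
    (∃ η : ℝ, η ^ 2 = D'.g (t', p.1) ∧ p.2.1 = η * D'.Q (t', p.1) ∧
      p.2.2 = D'.m + η * D'.P (t', p.1))
  rw [hg, hP, hQ, hm]

/-- comparison of a smooth piece and a Lagrangian piece at static times -/
lemma spd_congr {A A' : LData} {κ : SF} {t t' : ℝ} {p : ℝ × ℝ × ℝ}
    (hw : A.w (t, p.1) = A'.w (t', p.1)) (hκ : κ.f t = 0) (hv : A'.v.d1 t' = 0)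
    (hu : A.u.d1 p.1 = A'.u.d1 p.1) (hk : A'.k = cS 1) (hm : A.m = A'.m) :
    ((t, p) : ℝ × ℝ × ℝ × ℝ) ∈ (A.spd κ).piece ↔ ((t', p) : ℝ × ℝ × ℝ × ℝ) ∈ A'.pd.piece := by
  have hg : A.g (t, p.1) = A'.g (t', p.1) := by unfold LData.g; rw [hw]
  have gt0 : A'.gt (t', p.1) = 0 := by
    show _ * A'.v.d1 t' = 0
    rw [hv, mul_zero]
  refine piece_congr hg ?_ ?_ hm
  · show A.g (t, p.1) + κ.f t * (1 - A.g (t, p.1)) = A'.P (t', p.1)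
    rw [A'.P_eq, gt0, hk, hg, hκ]
    simp
  · show 3 / 2 * A.gx (t, p.1) = A'.Q (t', p.1)
    rw [A'.Q_eq, hk]
    unfold LData.gx
    rw [hw]
    show 3 / 2 * (_ * A.u.d1 p.1) = 3 / 2 * (_ * A'.u.d1 p.1) * (cS 1).f _ + _ * (cS 1).d1 _
    rw [hu, cS_f, cS_d1]
    ring

lemma spd_empty {A : LData} {κ : SF} {q : ℝ × ℝ × ℝ × ℝ} (h : A.w (bp q) < 0) :
    q ∉ (A.spd κ).piece := fun hc => by linarith [((A.spd_mem_sh κ).1 hc).1]

lemma pd_empty {A : LData} {q : ℝ × ℝ × ℝ × ℝ} (h : A.w (bp q) < 0) :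
    q ∉ A.pd.piece := fun hc => by linarith [(A.mem_sh.1 hc).1]

lemma vals_mem {D : PD} {q : ℝ × ℝ × ℝ × ℝ} {k : ℝ} (hg : D.g (bp q) = 1) (hP : D.P (bp q) = k)
    (hQ : D.Q (bp q) = 0) : q ∈ D.piece ↔
    (q.2.2.1 = 0 ∧ (q.2.2.2 = D.m + k ∨ q.2.2.2 = D.m - k)) := by
  show (∃ η : ℝ, η ^ 2 = D.g (bp q) ∧ q.2.2.1 = η * D.Q (bp q) ∧
    q.2.2.2 = D.m + η * D.P (bp q)) ↔ _
  rw [hg, hP, hQ]
  constructor
  · rintro ⟨η, h1, h2, h3⟩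
    refine ⟨by rw [h2]; ring, ?_⟩
    have : (η - 1) * (η + 1) = 0 := by linear_combination h1
    rcases mul_eq_zero.1 this with h | h
    · left; rw [h3]; linear_combination k * h
    · right; rw [h3]; linear_combination k * h
  · rintro ⟨h1, h2 | h2⟩
    · exact ⟨1, by ring, by rw [h1]; ring, by rw [h2]; ring⟩
    · exact ⟨-1, by ring, by rw [h1]; ring, by rw [h2]; ring⟩

lemma pd_vals {A : LData} {q : ℝ × ℝ × ℝ × ℝ} (hk : A.k = cS 1) (hw : 1 ≤ A.w (bp q)) :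
    q ∈ A.pd.piece ↔ (q.2.2.1 = 0 ∧ (q.2.2.2 = A.m + 1 ∨ q.2.2.2 = A.m - 1)) := by
  have e1 : lamS.d1 (A.w (bp q)) = 0 := deriv_lam_of_ge hw
  have g1 : A.g (bp q) = 1 := lam_of_ge hw
  have g2 : A.gt (bp q) = 0 := by unfold LData.gt; rw [e1]; ring
  have g3 : A.gx (bp q) = 0 := by unfold LData.gx; rw [e1]; ring
  refine vals_mem (D := A.pd) g1 ?_ ?_
  · show A.P (bp q) = 1
    rw [A.P_eq, g1, g2, hk]; simp
  · show A.Q (bp q) = 0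
    rw [A.Q_eq, g3, hk]
    simp

lemma spd_vals {A : LData} {κ : SF} {q : ℝ × ℝ × ℝ × ℝ} (hw : 1 ≤ A.w (bp q)) :
    q ∈ (A.spd κ).piece ↔ (q.2.2.1 = 0 ∧ (q.2.2.2 = A.m + 1 ∨ q.2.2.2 = A.m - 1)) := by
  have e1 : lamS.d1 (A.w (bp q)) = 0 := deriv_lam_of_ge hw
  have g1 : A.g (bp q) = 1 := lam_of_ge hw
  have g3 : A.gx (bp q) = 0 := by unfold LData.gx; rw [e1]; ring
  refine vals_mem (D := A.spd κ) g1 ?_ ?_
  · show A.g (bp q) + κ.f (bp q).1 * (1 - A.g (bp q)) = 1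
    rw [g1]; ring
  · show 3 / 2 * A.gx (bp q) = 0
    rw [g3]; ring

lemma or_aux1 {a b c : Prop} (h : ¬ b) : ((a ∨ b) ∨ c) ↔ (a ∨ c) := by tauto
lemma or_aux2 {a b c : Prop} (h : ¬ a) : ((a ∨ b) ∨ c) ↔ (b ∨ c) := by tauto
lemma or_aux3 {a b : Prop} (h : ¬ b) : (a ∨ b) ↔ a := by tauto
lemma or_aux4 {a b : Prop} (h : ¬ a) : (a ∨ b) ↔ b := by tauto
lemma or_aux5 {Y a b c d : Prop} : ((Y ∧ (a ∨ b)) ∨ (Y ∧ (c ∨ d))) ↔
    ((Y ∧ (c ∨ a)) ∨ (Y ∧ (b ∨ d))) := by tauto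

variable {δ : ℝ}

lemma static_mem {A : LData} (hv : A.v = cS 0) (t t' : ℝ) (p : ℝ × ℝ × ℝ) :
    ((t, p) : ℝ × ℝ × ℝ × ℝ) ∈ A.pd.piece ↔ ((t', p) : ℝ × ℝ × ℝ × ℝ) ∈ A.pd.piece :=
  A.piece_static (by rw [hv]; rfl) (by rw [hv, cS_d1, cS_d1]) p

lemma Sg_left {t T0 : ℝ} (ht : t ≤ -5) (hT : δ * T0 ≤ -1) (p : ℝ × ℝ × ℝ) :
    ((t, p) : ℝ × ℝ × ℝ × ℝ) ∈ Sg ↔ ((T0, p) : ℝ × ℝ × ℝ × ℝ) ∈ LL δ := by
  have hT0 : δ * T0 ≤ 0 := by linarith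
  have eUMl := static_mem (A := dUMl) rfl t T0 p
  have eTL := static_mem (A := dTL) rfl t T0 p
  have eTM := static_mem (A := dTM) rfl t T0 p
  have hN : NN (bp ((t, p) : ℝ × ℝ × ℝ × ℝ)) = hh (p.1 - 5) := by
    show hh (p.1 - 5) + bet t = _
    rw [bet_of_le ht]; ring
  have st0 : st t = 0 := st_zero (by linarith)
  have wDc : lDc.w (t, p.1) = -1 - p.1 := by
    rw [w_lDc]; show -1 + 10 * st t - p.1 = _; rw [st0]; ring
  have wD4 : lD4.w (t, p.1) = 4 - hh (p.1 - 5) := by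
    rw [w_lD4]
    have : NN (t, p.1) = hh (p.1 - 5) := hN
    rw [this]
  have hkap : kapS.f t = 0 := kap_of_le ht
  have vLU : (dLU δ).v.d1 T0 = 0 := by
    show (rS δ 0).d1 T0 = 0
    exact rS_d1_zero (Or.inl (by linarith))
  have vUM : (dUM δ).v.d1 T0 = 0 := by
    show (rS δ 1).d1 T0 = 0
    exact rS_d1_zero (Or.inl (by linarith))
  rcases le_or_gt p.1 (-(5 / 2)) with h1 | h1
  · rw [sz1 (by show p.1 < -2; linarith), zone1 (by show p.1 < -2; linarith)]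
    show (((t, p) : ℝ × ℝ × ℝ × ℝ) ∈ dUMl.pd.piece ∨ ((t, p) : ℝ × ℝ × ℝ × ℝ) ∈ dTL.pd.piece) ↔ _
    rw [eUMl, eTL]
  rcases le_or_gt p.1 2 with h2 | h2
  · rw [sz3 (by show -3 < p.1; linarith) (by rw [hN, hh_of_le (by linarith)]; linarith),
      zone2 (by show -3 < p.1; linarith) (by show p.1 < 3; linarith)]
    have eLU : (((t, p) : ℝ × ℝ × ℝ × ℝ) ∈ (sD .Dc).piece ∨
        ((t, p) : ℝ × ℝ × ℝ × ℝ) ∈ (sD .D4).piece) ↔
        ((T0, p) : ℝ × ℝ × ℝ × ℝ) ∈ (dLU δ).pd.piece := by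
      rcases le_or_gt p.1 (-(3 / 4)) with h3 | h3
      · have n4 : ((t, p) : ℝ × ℝ × ℝ × ℝ) ∉ (sD .D4).piece := by
          apply spd_empty
          show lD4.w (t, p.1) < 0
          rw [wD4, hh_of_le (by linarith)]; linarith
        have e : ((t, p) : ℝ × ℝ × ℝ × ℝ) ∈ (sD .Dc).piece ↔
            ((T0, p) : ℝ × ℝ × ℝ × ℝ) ∈ (dLU δ).pd.piece := by
          refine spd_congr ?_ rfl vLU ?_ rfl rfl
          · rw [wDc, w_LU_bot hT0, hh_of_le (by linarith)]; ring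
          · show (aS (-1) (-1)).d1 p.1 = (hS 0).d1 p.1
            rw [aS_d1, hS_d1, sub_zero, deriv_hh_of_lt (by linarith)]
        rw [e]
        exact or_aux3 n4
      rcases lt_or_ge p.1 (3 / 4) with h4 | h4
      · have n4 : ((t, p) : ℝ × ℝ × ℝ × ℝ) ∉ (sD .D4).piece := by
          apply spd_empty
          show lD4.w (t, p.1) < 0
          rw [wD4, hh_of_le (by linarith)]; linarith
        have n5 : ((t, p) : ℝ × ℝ × ℝ × ℝ) ∉ (sD .Dc).piece := by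
          apply spd_empty
          show lDc.w (t, p.1) < 0
          rw [wDc]; linarith
        have n6 : ((T0, p) : ℝ × ℝ × ℝ × ℝ) ∉ (dLU δ).pd.piece := by
          apply pd_empty
          show (dLU δ).w (T0, p.1) < 0
          rw [w_LU_bot hT0]
          have := hh_le_abs p.1
          have h5 : |p.1| < 3 / 4 := abs_lt.2 ⟨by linarith, h4⟩
          linarith
        exact ⟨fun h => absurd h (not_or.2 ⟨n5, n4⟩), fun h => absurd h n6⟩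
      · have n5 : ((t, p) : ℝ × ℝ × ℝ × ℝ) ∉ (sD .Dc).piece := by
          apply spd_empty
          show lDc.w (t, p.1) < 0
          rw [wDc]; linarith
        have e : ((t, p) : ℝ × ℝ × ℝ × ℝ) ∈ (sD .D4).piece ↔
            ((T0, p) : ℝ × ℝ × ℝ × ℝ) ∈ (dLU δ).pd.piece := by
          refine spd_congr ?_ hkap vLU ?_ rfl rfl
          · rw [wD4, w_LU_bot hT0, hh_of_le (x := p.1 - 5) (by linarith),
              hh_of_ge (x := p.1) (by linarith)]; ring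
          · show nhS.d1 p.1 = (hS 0).d1 p.1
            rw [nhS_d1, hS_d1, sub_zero, deriv_hh_of_gt (x := p.1) (by linarith),
              deriv_hh_of_lt (x := p.1 - 5) (by linarith)]
            norm_num
        rw [e]
        exact or_aux4 n5
    rw [eLU]
    show (_ ∨ ((t, p) : ℝ × ℝ × ℝ × ℝ) ∈ dTM.pd.piece) ↔ _
    rw [eTM]
  rcases lt_or_ge p.1 8 with h3 | h3
  · have hN3 : NN (bp ((t, p) : ℝ × ℝ × ℝ × ℝ)) < 3 := by
      rw [hN]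
      have := hh_le_abs (p.1 - 5)
      have h5 : |p.1 - 5| < 3 := abs_lt.2 ⟨by linarith, by linarith⟩
      linarith
    rw [sz2 hN3, zone3 (by exact h2) (by exact h3)]
    have e : ((t, p) : ℝ × ℝ × ℝ × ℝ) ∈ (sD .UMN).piece ↔
        ((T0, p) : ℝ × ℝ × ℝ × ℝ) ∈ (dUM δ).pd.piece := by
      refine spd_congr ?_ hkap vUM rfl rfl rfl
      rw [w_lUN, w_UM_bot hT]
      have : NN (t, p.1) = hh (p.1 - 5) := hN
      rw [this]
    rw [e]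
    show (_ ∨ ((t, p) : ℝ × ℝ × ℝ × ℝ) ∈ dTL.pd.piece) ↔ _
    rw [eTL]
  · rw [sz3 (by show -3 < p.1; linarith) (by rw [hN, hh_of_ge (by linarith)]; linarith),
      zone4 (by show 7 < p.1; linarith)]
    have n5 : ((t, p) : ℝ × ℝ × ℝ × ℝ) ∉ (sD .Dc).piece := by
      apply spd_empty
      show lDc.w (t, p.1) < 0
      rw [wDc]; linarith
    have e : ((t, p) : ℝ × ℝ × ℝ × ℝ) ∈ (sD .D4).piece ↔
        ((T0, p) : ℝ × ℝ × ℝ × ℝ) ∈ dLUr.pd.piece := by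
      refine spd_congr ?_ hkap (cS_d1 _ _) ?_ rfl rfl
      · rw [wD4, hh_of_ge (by linarith)]
        show _ = -1 * p.1 + 9 + 0
        ring
      · show nhS.d1 p.1 = (aS (-1) 9).d1 p.1
        rw [nhS_d1, aS_d1, deriv_hh_of_gt (by linarith)]
    rw [e]
    show ((((t, p) : ℝ × ℝ × ℝ × ℝ) ∈ (sD .Dc).piece ∨ _) ∨
      ((t, p) : ℝ × ℝ × ℝ × ℝ) ∈ dTM.pd.piece) ↔ _
    rw [eTM]
    exact or_aux2 n5

lemma Sg_right {t T0 : ℝ} (ht : 1 ≤ t) (hT : 1 ≤ δ * T0) (p : ℝ × ℝ × ℝ) :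
    ((t, p) : ℝ × ℝ × ℝ × ℝ) ∈ Sg ↔ ((T0, p) : ℝ × ℝ × ℝ × ℝ) ∈ LL δ := by
  have eUMl := static_mem (A := dUMl) rfl t T0 p
  have eTL := static_mem (A := dTL) rfl t T0 p
  have eTM := static_mem (A := dTM) rfl t T0 p
  have hN : 2 < NN (bp ((t, p) : ℝ × ℝ × ℝ × ℝ)) := by
    show 2 < hh (p.1 - 5) + bet t
    rw [bet_of_ge (by linarith)]
    linarith [hh_nonneg (p.1 - 5)]
  have st1 : st t = 1 := st_one ht
  have wDc : lDc.w (t, p.1) = 9 - p.1 := by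
    rw [w_lDc]; show -1 + 10 * st t - p.1 = _; rw [st1]; ring
  have n4 : ((t, p) : ℝ × ℝ × ℝ × ℝ) ∉ (sD .D4).piece := by
    intro hc
    have : t < -1 := (D4_x hc).2.2.2
    linarith
  rcases le_or_gt p.1 (-(5 / 2)) with h1 | h1
  · rw [sz1 (by show p.1 < -2; linarith), zone1 (by show p.1 < -2; linarith)]
    show (((t, p) : ℝ × ℝ × ℝ × ℝ) ∈ dUMl.pd.piece ∨ ((t, p) : ℝ × ℝ × ℝ × ℝ) ∈ dTL.pd.piece) ↔ _
    rw [eUMl, eTL]
  rw [sz3 (by show -3 < p.1; linarith) hN]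
  rcases le_or_gt p.1 (5 / 2) with h2 | h2
  · rw [zone2 (by show -3 < p.1; linarith) (by show p.1 < 3; linarith)]
    have e : ((t, p) : ℝ × ℝ × ℝ × ℝ) ∈ (sD .Dc).piece ↔
        ((T0, p) : ℝ × ℝ × ℝ × ℝ) ∈ (dLU δ).pd.piece := by
      have a1 := spd_vals (A := lDc) (κ := cS 0) (q := ((t, p) : ℝ × ℝ × ℝ × ℝ))
        (by show 1 ≤ lDc.w (t, p.1); rw [wDc]; linarith)
      have a2 := pd_vals (A := dLU δ) (q := ((T0, p) : ℝ × ℝ × ℝ × ℝ)) rfl (by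
        show 1 ≤ hh (p.1 - 0) - 1 + 2 * st (δ * T0 + 0)
        rw [st_one (by linarith)]
        linarith [hh_nonneg (p.1 - 0)])
      exact a1.trans a2.symm
    rw [e]
    show ((_ ∨ ((t, p) : ℝ × ℝ × ℝ × ℝ) ∈ (sD .D4).piece) ∨
      ((t, p) : ℝ × ℝ × ℝ × ℝ) ∈ dTM.pd.piece) ↔ _
    rw [eTM]
    exact or_aux1 n4
  rcases le_or_gt p.1 (15 / 2) with h3 | h3
  · rw [zone3 (by show 2 < p.1; linarith) (by show p.1 < 8; linarith)]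
    have a1 := spd_vals (A := lDc) (κ := cS 0) (q := ((t, p) : ℝ × ℝ × ℝ × ℝ))
      (by show 1 ≤ lDc.w (t, p.1); rw [wDc]; linarith)
    have a2 := pd_vals (A := dUM δ) (q := ((T0, p) : ℝ × ℝ × ℝ × ℝ)) rfl (by
      show 1 ≤ hh (p.1 - 5) - 1 + 2 * st (δ * T0 + 1)
      rw [st_one (by linarith)]
      linarith [hh_nonneg (p.1 - 5)])
    have a3 := m_TM (q := ((t, p) : ℝ × ℝ × ℝ × ℝ)) (by show p.1 < 10; linarith)
    have a4 := mem_TL_flat (q := ((T0, p) : ℝ × ℝ × ℝ × ℝ)) (by show -4 < p.1; linarith)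
    have m1 : lDc.m = 0 := rfl
    have m2 : (dUM δ).m = 2 := rfl
    rw [m1] at a1
    rw [m2] at a2
    rw [zero_add, zero_sub] at a1
    have e3 : (2 : ℝ) + 1 = 3 := by norm_num
    have e1 : (2 : ℝ) - 1 = 1 := by norm_num
    rw [e3, e1] at a2
    rw [or_aux1 n4, a2, a3, a4]
    exact (or_congr a1 Iff.rfl).trans or_aux5
  · rw [zone4 (by show 7 < p.1; linarith)]
    have e : ((t, p) : ℝ × ℝ × ℝ × ℝ) ∈ (sD .Dc).piece ↔
        ((T0, p) : ℝ × ℝ × ℝ × ℝ) ∈ dLUr.pd.piece := by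
      refine spd_congr ?_ rfl (cS_d1 _ _) ?_ rfl rfl
      · rw [wDc]
        show _ = -1 * p.1 + 9 + 0
        ring
      · show (aS (-1) (-1)).d1 p.1 = (aS (-1) 9).d1 p.1
        rw [aS_d1, aS_d1]
    rw [e]
    show ((_ ∨ ((t, p) : ℝ × ℝ × ℝ × ℝ) ∈ (sD .D4).piece) ∨
      ((t, p) : ℝ × ℝ × ℝ × ℝ) ∈ dTM.pd.piece) ↔ _
    rw [eTM]
    exact or_aux1 n4

end

end Pool.Agent.MP_70d14f_gt
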