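import Pool.Agent.Lib.MP_70d14f_gt.Biject
import Pool.Agent.Lib.Jordan.Jordan

namespace Pool.Agent.MP_70d14f_gt

open Set Topology

noncomputable section

/-- the annulus is mapped bijectively and continuously onto the punctured plane -/
theorem exists_planar : ∃ J : ℝ × ℝ × ℝ × ℝ → ℂ, ContinuousOn J Sg ∧ InjOn J Sg ∧
    J '' Sg = {0}ᶜ := by
  obtain ⟨J, hJ⟩ := glue Sg (fun k => ov (sc k) (Rg k)) (fun k q => EE (co k (bp q))) (by
    rintro k l q - ⟨h1, h2⟩ ⟨h3, h4⟩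
    exact compat_EE k l h1 h3 (h2.trans h4.symm))
  refine ⟨J, ?_, ?_, ?_⟩
  · have key : ∀ k, ContinuousOn J (ov (sc k) (Rg k)) := by
      intro k
      have h1 : Continuous fun q => EE (co k (bp q)) := EE_cont.comp ((co_cont k).comp continuous_bp)
      refine h1.continuousOn.congr ?_
      rintro q ⟨h2, h3⟩
      refine hJ k q ?_ ⟨h2, h3⟩
      rw [mem_Sg']
      exact ⟨k, h2, h3⟩
    rw [Sg_eq]
    have cl := fun k => ov_closed (sc_cont k) (Rg_closed k)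
    have u1 := (key .US).union_of_isClosed (key .LS) (cl _) (cl _)
    have c1 := (cl .US).union (cl .LS)
    have u2 := (key .LO).union_of_isClosed u1 (cl _) c1
    have c2 := (cl .LO).union c1
    have u3 := (key .UO).union_of_isClosed u2 (cl _) c2
    have c3 := (cl .UO).union c2
    have u4 := (key .T).union_of_isClosed u3 (cl _) c3
    have c4 := (cl .T).union c3
    exact (key .M).union_of_isClosed u4 (cl _) c4
  · intro q hq q' hq' he
    obtain ⟨k, h1, h2⟩ := mem_Sg'.1 hq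
    obtain ⟨l, h3, h4⟩ := mem_Sg'.1 hq'
    rw [hJ k q hq ⟨h1, h2⟩, hJ l q' hq' ⟨h3, h4⟩] at he
    rw [← h2, ← h4]
    exact EE_inj h1 h3 he
  · ext z
    constructor
    · rintro ⟨q, hq, rfl⟩
      obtain ⟨k, h1, h2⟩ := mem_Sg'.1 hq
      rw [hJ k q hq ⟨h1, h2⟩]
      exact Complex.exp_ne_zero _
    · intro hz
      obtain ⟨P, hP, p1, p2⟩ := EE_surj (z := z) hz
      obtain ⟨k, b, hb, hc⟩ := co_surj p1 p2.le
      refine ⟨sc k b, sc_mem hb, ?_⟩
      rw [hJ k _ (sc_mem hb) ⟨by rw [sc_bp]; exact hb, by rw [sc_bp]⟩, sc_bp, hc, hP]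

/-- passing from the compact part to the whole surface -/
lemma conn_whole {Km Kp : OrientedKnot} {T : ℝ} {S : Set (ℝ × ℝ × ℝ × ℝ)}
    (hS : IsCobordism Km Kp T S) {C : Set (ℝ × ℝ × ℝ × ℝ)} (hC : C ⊆ S ∩ {q | -T < q.1 ∧ q.1 < T})
    (h : IsConnected ((S ∩ {q | -T ≤ q.1 ∧ q.1 ≤ T}) \ C)) : IsConnected (S \ C) := by
  have hT := hS.pos
  have e : S \ C = (Iic (-T) ×ˢ Km.carrier : Set (ℝ × ℝ × ℝ × ℝ)) ∪
      (((S ∩ {q | -T ≤ q.1 ∧ q.1 ≤ T}) \ C) ∪ (Ici T ×ˢ Kp.carrier : Set (ℝ × ℝ × ℝ × ℝ))) := by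
    ext q
    constructor
    · rintro ⟨h1, h2⟩
      rcases le_or_gt q.1 (-T) with h3 | h3
      · exact Or.inl ⟨h3, (hS.left_end q h3).1 h1⟩
      rcases le_or_gt T q.1 with h4 | h4
      · exact Or.inr (Or.inr ⟨h4, (hS.right_end q h4).1 h1⟩)
      · exact Or.inr (Or.inl ⟨⟨h1, h3.le, h4.le⟩, h2⟩)
    · rintro (⟨h1, h2⟩ | ⟨⟨h1, -⟩, h2⟩ | ⟨h1, h2⟩)
      · have h1' : q.1 ≤ -T := h1
        refine ⟨(hS.left_end q h1).2 h2, fun hc => ?_⟩
        have := (hC hc).2.1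
        linarith
      · exact ⟨h1, h2⟩
      · have h1' : T ≤ q.1 := h1
        refine ⟨(hS.right_end q h1).2 h2, fun hc => ?_⟩
        have := (hC hc).2.2
        linarith
  rw [e]
  have cm : IsConnected (Iic (-T) ×ˢ Km.carrier : Set (ℝ × ℝ × ℝ × ℝ)) :=
    isConnected_Iic.prod Km.isConnected
  have cp : IsConnected (Ici T ×ˢ Kp.carrier : Set (ℝ × ℝ × ℝ × ℝ)) :=
    isConnected_Ici.prod Kp.isConnected
  obtain ⟨pm, hpm⟩ := Km.isConnected.nonempty
  obtain ⟨pp, hpp⟩ := Kp.isConnected.nonempty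
  have hm : ((-T, pm) : ℝ × ℝ × ℝ × ℝ) ∈ (S ∩ {q | -T ≤ q.1 ∧ q.1 ≤ T}) \ C := by
    refine ⟨⟨(hS.left_end (-T, pm) (le_refl _)).2 hpm, le_refl _, by show -T ≤ T; linarith⟩, ?_⟩
    intro hc
    exact lt_irrefl _ (hC hc).2.1
  have hp : ((T, pp) : ℝ × ℝ × ℝ × ℝ) ∈ (S ∩ {q | -T ≤ q.1 ∧ q.1 ≤ T}) \ C := by
    refine ⟨⟨(hS.right_end (T, pp) (le_refl _)).2 hpp, by show -T ≤ T; linarith, le_refl _⟩, ?_⟩
    intro hc
    exact lt_irrefl _ (hC hc).2.2
  refine IsConnected.union ⟨(-T, pm), ⟨mem_Iic.2 (le_refl _), hpm⟩, Or.inl hm⟩ cm ?_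
  exact IsConnected.union ⟨(T, pp), hp, ⟨mem_Ici.2 (le_refl _), hpp⟩⟩ h cp

/-- surfaces with a planar embedding have genus zero -/
theorem genus_zero_of_planar {Km Kp : OrientedKnot} {T : ℝ} {S : Set (ℝ × ℝ × ℝ × ℝ)}
    (hS : IsCobordism Km Kp T S) {J : ℝ × ℝ × ℝ × ℝ → ℂ} (hc : ContinuousOn J S)
    (hi : InjOn J S) (him : J '' S = {0}ᶜ) : genus T S = 0 := by
  unfold genus
  rw [ENat.iSup_eq_zero]
  rintro ⟨n, c, h1, h2, h3⟩
  show ((n : ℕ) : ℕ∞) = 0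
  by_contra hn
  have hn' : 0 < n := by
    rcases Nat.eq_zero_or_pos n with h | h
    · subst h; exact absurd rfl hn
    · exact h
  have hsub : (⋃ i, c i) ⊆ S ∩ {q | -T < q.1 ∧ q.1 < T} := iUnion_subset fun i => (h1 i).2
  have h4 := conn_whole hS hsub h3
  -- the images of the curves
  have h5 : ∀ i, ∃ γ : Circle → ℂ, Continuous γ ∧ Function.Injective γ ∧ range γ = J '' c i := by
    intro i
    obtain ⟨⟨γ, g1, g2, g3⟩, g4⟩ := h1 i
    have hmem : ∀ ζ, γ ζ ∈ S := fun ζ => (g4 (by rw [← g3]; exact mem_range_self ζ)).1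
    refine ⟨J ∘ γ, ?_, ?_, ?_⟩
    · exact hc.comp_continuous g1 hmem
    · intro a b hab
      exact g2 (hi (hmem a) (hmem b) hab)
    · rw [range_comp, g3]
  choose γ g1 g2 g3 using h5
  have h6 : IsConnected (J '' (S \ ⋃ i, c i)) := h4.image _ (hc.mono sdiff_subset)
  have h7 : J '' (S \ ⋃ i, c i) = (⋂ i, (range (γ i))ᶜ) ∩ {0}ᶜ := by
    have hsub' : (⋃ i, c i) ⊆ S := fun q hq => (hsub hq).1
    rw [hi.image_sdiff, him, inter_eq_self_of_subset_right hsub', image_iUnion]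
    simp only [g3]
    rw [sdiff_eq, compl_iUnion, inter_comm]
  rw [h7] at h6
  have hclosed : ∀ i, IsClosed (range (γ i)) := fun i => (isCompact_range (g1 i)).isClosed
  have hdense : Dense ((⋂ i, (range (γ i))ᶜ) ∩ {0}ᶜ) := by
    have d1 : Dense (⋂ i, (range (γ i))ᶜ) := by
      apply dense_iInter_of_isOpen
      · intro i; exact (hclosed i).isOpen_compl
      · intro i
        rw [← interior_eq_empty_iff_dense_compl]
        exact Pool.Agent.Lib.Jordan.interior_range_eq_empty (γ i) (g1 i) (g2 i)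
    have d2 : Dense ({0}ᶜ : Set ℂ) := dense_compl_singleton 0
    exact d1.inter_of_isOpen_right d2 isOpen_compl_singleton
  have h8 : IsPreconnected (range (γ ⟨0, hn'⟩))ᶜ := by
    refine h6.isPreconnected.subset_closure ?_ ?_
    · exact inter_subset_left.trans (iInter_subset _ _)
    · rw [hdense.closure_eq]; exact subset_univ _
  exact Pool.Agent.Lib.Jordan.jordan_separation (γ ⟨0, hn'⟩) (g1 _) (g2 _) h8

end

end Pool.Agent.MP_70d14f_gt
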