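import Pool.Agent.Lib.MP_70d14f_gt.LSurf

namespace Pool.Agent.MP_70d14f_gt

open Set Topology

noncomputable section

lemma continuous_bp : Continuous bp := bp_contDiff.continuous

namespace PD

variable (D : PD)

/-- the two sheets of a piece -/
def sh (s : ℝ) (b : ℝ × ℝ) : ℝ × ℝ × ℝ × ℝ :=
  (b.1, b.2, s * √(D.g b) * D.Q b, D.m + s * √(D.g b) * D.P b)

@[simp] lemma bp_sh (s : ℝ) (b : ℝ × ℝ) : bp (D.sh s b) = b := rfl
@[simp] lemma sh_t (s : ℝ) (b : ℝ × ℝ) : (D.sh s b).1 = b.1 := rfl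
@[simp] lemma sh_x (s : ℝ) (b : ℝ × ℝ) : (D.sh s b).2.1 = b.2 := rfl

lemma sh_cont (s : ℝ) : Continuous (D.sh s) := by
  have h1 := D.hg.continuous
  have h2 := D.hP.continuous
  have h3 := D.hQ.continuous
  unfold sh
  fun_prop

lemma sh_zero {b : ℝ × ℝ} (h : D.g b = 0) (s s' : ℝ) : D.sh s b = D.sh s' b := by
  unfold sh; rw [h]; simp

lemma sh_mem {b : ℝ × ℝ} (h : 0 ≤ D.g b) {s : ℝ} (hs : s ^ 2 = 1) : D.sh s b ∈ D.piece := by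
  refine ⟨s * √(D.g b), ?_, rfl, rfl⟩
  rw [mul_pow, hs, Real.sq_sqrt h, one_mul]; rfl

lemma mem_piece_sh {q : ℝ × ℝ × ℝ × ℝ} : q ∈ D.piece ↔
    0 ≤ D.g (bp q) ∧ (D.sh 1 (bp q) = q ∨ D.sh (-1) (bp q) = q) := by
  constructor
  · rintro ⟨η, h1, h2, h3⟩
    have h0 : 0 ≤ D.g (bp q) := by rw [← h1]; positivity
    refine ⟨h0, ?_⟩
    rcases le_total 0 η with h | h
    · left
      have : √(D.g (bp q)) = η := by rw [← h1]; exact Real.sqrt_sq h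
      unfold sh
      rw [this, one_mul, ← h2, ← h3]; rfl
    · right
      have : √(D.g (bp q)) = -η := by
        rw [← h1, ← neg_sq]; exact Real.sqrt_sq (by linarith)
      unfold sh
      rw [this, neg_one_mul, neg_neg, ← h2, ← h3]; rfl
  · rintro ⟨h0, h | h⟩
    · rw [← h]; exact D.sh_mem (by simpa using h0) (by norm_num)
    · rw [← h]; exact D.sh_mem (by simpa using h0) (by norm_num)

end PD

lemma LData.g_nonneg (A : LData) (b : ℝ × ℝ) : 0 ≤ A.pd.g b ↔ 0 ≤ A.w b := lam_nonneg_iff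

lemma LData.mem_sh (A : LData) {q : ℝ × ℝ × ℝ × ℝ} : q ∈ A.pd.piece ↔
    0 ≤ A.w (bp q) ∧ (A.pd.sh 1 (bp q) = q ∨ A.pd.sh (-1) (bp q) = q) := by
  rw [A.pd.mem_piece_sh, A.g_nonneg]

lemma LData.sh_eq (A : LData) {b : ℝ × ℝ} (h : A.w b = 0) (s s' : ℝ) :
    A.pd.sh s b = A.pd.sh s' b := by
  apply A.pd.sh_zero
  show lam (A.w b) = 0
  rw [h]; exact lam_of_le (by norm_num)

lemma LData.sh_flat (A : LData) {b : ℝ × ℝ} (h : A.flat b) (s : ℝ) :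
    A.pd.sh s b = (b.1, b.2, 0, A.m + s * A.k.f b.2) := by
  obtain ⟨g1, g2, g3, g4, g5, g6, p1, p2, -⟩ := A.flat_all h
  show (b.1, b.2, s * √(A.g b) * A.Q b, A.m + s * √(A.g b) * A.P b) = _
  rw [g1, p1, p2]
  simp

/-- function defined by zones -/
def Z4 (A B C D : ℝ × ℝ → ℝ × ℝ × ℝ × ℝ) (b : ℝ × ℝ) : ℝ × ℝ × ℝ × ℝ :=
  if b.2 ≤ -(5 / 2) then A b else if b.2 ≤ 5 / 2 then B b else if b.2 ≤ 15 / 2 then C b else D b

lemma Z4_1 {A B C D : ℝ × ℝ → ℝ × ℝ × ℝ × ℝ} {b : ℝ × ℝ} (h : b.2 ≤ -(5 / 2)) :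
    Z4 A B C D b = A b := by unfold Z4; rw [if_pos h]
lemma Z4_2 {A B C D : ℝ × ℝ → ℝ × ℝ × ℝ × ℝ} {b : ℝ × ℝ} (h : -(5 / 2) < b.2) (h' : b.2 ≤ 5 / 2) :
    Z4 A B C D b = B b := by unfold Z4; rw [if_neg (not_le.2 h), if_pos h']
lemma Z4_3 {A B C D : ℝ × ℝ → ℝ × ℝ × ℝ × ℝ} {b : ℝ × ℝ} (h : 5 / 2 < b.2) (h' : b.2 ≤ 15 / 2) :
    Z4 A B C D b = C b := by
  unfold Z4; rw [if_neg (by linarith), if_neg (not_le.2 h), if_pos h']
lemma Z4_4 {A B C D : ℝ × ℝ → ℝ × ℝ × ℝ × ℝ} {b : ℝ × ℝ} (h : 15 / 2 < b.2) :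
    Z4 A B C D b = D b := by
  unfold Z4; rw [if_neg (by linarith), if_neg (by linarith), if_neg (not_le.2 h)]

lemma Z4_cont {A B C D : ℝ × ℝ → ℝ × ℝ × ℝ × ℝ} (hA : Continuous A) (hB : Continuous B)
    (hC : Continuous C) (hD : Continuous D) (h1 : ∀ b : ℝ × ℝ, b.2 = -(5 / 2) → A b = B b)
    (h2 : ∀ b : ℝ × ℝ, b.2 = 5 / 2 → B b = C b) (h3 : ∀ b : ℝ × ℝ, b.2 = 15 / 2 → C b = D b) :
    Continuous (Z4 A B C D) := by
  unfold Z4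
  refine Continuous.if_le hA (Continuous.if_le hB (Continuous.if_le hC hD continuous_snd
    continuous_const h3) continuous_snd continuous_const ?_) continuous_snd continuous_const ?_
  · intro b hb
    rw [h2 b hb, if_pos (by rw [hb]; norm_num)]
  · intro b hb
    rw [h1 b hb, if_pos (by rw [hb]; norm_num)]

lemma Z4_bp {A B C D : ℝ × ℝ → ℝ × ℝ × ℝ × ℝ} (hA : ∀ b, bp (A b) = b) (hB : ∀ b, bp (B b) = b)
    (hC : ∀ b, bp (C b) = b) (hD : ∀ b, bp (D b) = b) (b : ℝ × ℝ) : bp (Z4 A B C D b) = b := by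
  unfold Z4
  split_ifs
  · exact hA b
  · exact hB b
  · exact hC b
  · exact hD b

variable (δ : ℝ)

def secM : ℝ × ℝ → ℝ × ℝ × ℝ × ℝ :=
  Z4 (dUMl.pd.sh 1) (dTM.pd.sh 1) ((dUM δ).pd.sh 1) (dTM.pd.sh 1)
def secU : ℝ × ℝ → ℝ × ℝ × ℝ × ℝ :=
  Z4 (dUMl.pd.sh (-1)) ((dLU δ).pd.sh 1) ((dUM δ).pd.sh (-1)) (dLUr.pd.sh 1)
def secL : ℝ × ℝ → ℝ × ℝ × ℝ × ℝ :=
  Z4 (dTL.pd.sh 1) ((dLU δ).pd.sh (-1)) (dTL.pd.sh 1) (dLUr.pd.sh (-1))
def secT : ℝ × ℝ → ℝ × ℝ × ℝ × ℝ :=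
  Z4 (dTL.pd.sh (-1)) (dTM.pd.sh (-1)) (dTL.pd.sh (-1)) (dTM.pd.sh (-1))

def RM : Set (ℝ × ℝ) := {b | -4 ≤ b.2 ∧ b.2 ≤ 11 ∧ 0 ≤ (dUM δ).w b}
def RU : Set (ℝ × ℝ) := {b | -4 ≤ b.2 ∧ b.2 ≤ 9 ∧ 0 ≤ (dLU δ).w b ∧ 0 ≤ (dUM δ).w b}
def RL : Set (ℝ × ℝ) := {b | -8 ≤ b.2 ∧ b.2 ≤ 9 ∧ 0 ≤ (dLU δ).w b}
def RT : Set (ℝ × ℝ) := {b | -8 ≤ b.2 ∧ b.2 ≤ 11}

lemma sh_UMl {b : ℝ × ℝ} (h : -3 < b.2) (s : ℝ) : dUMl.pd.sh s b = (b.1, b.2, 0, 2 + s) := by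
  rw [dUMl.sh_flat (flat_UMl h)]; simp [dUMl]
lemma sh_TL {b : ℝ × ℝ} (h : -4 < b.2) (s : ℝ) : dTL.pd.sh s b = (b.1, b.2, 0, -2 + s) := by
  rw [dTL.sh_flat (flat_TL h)]
  simp only [dTL, kS_f]
  rw [kt_of_ge h.le, mul_one]
lemma sh_LU {b : ℝ × ℝ} (h : 2 < |b.2|) (s : ℝ) : (dLU δ).pd.sh s b = (b.1, b.2, 0, s) := by
  rw [(dLU δ).sh_flat (flat_LU h)]; simp [dLU]
lemma sh_TM {b : ℝ × ℝ} (h : b.2 < 10) (s : ℝ) : dTM.pd.sh s b = (b.1, b.2, 0, 3 * s) := by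
  rw [dTM.sh_flat (flat_TM h)]; simp [dTM]; ring
lemma sh_UM {b : ℝ × ℝ} (h : 2 < |b.2 - 5|) (s : ℝ) : (dUM δ).pd.sh s b = (b.1, b.2, 0, 2 + s) := by
  rw [(dUM δ).sh_flat (flat_UM h)]; simp [dUM]
lemma sh_LUr {b : ℝ × ℝ} (h : b.2 < 8) (s : ℝ) : dLUr.pd.sh s b = (b.1, b.2, 0, s) := by
  rw [dLUr.sh_flat (flat_LUr h)]; simp [dLUr]

lemma abs_case1 {x : ℝ} (h : x = -(5 / 2)) : 2 < |x| := by
  rw [h, abs_of_neg (by norm_num)]; norm_num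
lemma abs_case2 {x : ℝ} (h : x = 5 / 2) : 2 < |x| := by
  rw [h, abs_of_pos (by norm_num)]; norm_num
lemma abs_case3 {x : ℝ} (h : x = 5 / 2) : 2 < |x - 5| := by
  rw [h, abs_of_neg (by norm_num)]; norm_num
lemma abs_case4 {x : ℝ} (h : x = 15 / 2) : 2 < |x - 5| := by
  rw [h, abs_of_pos (by norm_num)]; norm_num

lemma secM_cont : Continuous (secM δ) := by
  refine Z4_cont (PD.sh_cont _ _) (PD.sh_cont _ _) (PD.sh_cont _ _) (PD.sh_cont _ _) ?_ ?_ ?_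
  · intro b hb
    rw [sh_UMl (by rw [hb]; norm_num), sh_TM (by rw [hb]; norm_num)]; norm_num
  · intro b hb
    rw [sh_TM (by rw [hb]; norm_num), sh_UM _ (abs_case3 hb)]; norm_num
  · intro b hb
    rw [sh_UM _ (abs_case4 hb), sh_TM (by rw [hb]; norm_num)]; norm_num

lemma secU_cont : Continuous (secU δ) := by
  refine Z4_cont (PD.sh_cont _ _) (PD.sh_cont _ _) (PD.sh_cont _ _) (PD.sh_cont _ _) ?_ ?_ ?_
  · intro b hb
    rw [sh_UMl (by rw [hb]; norm_num), sh_LU _ (abs_case1 hb)]; norm_num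
  · intro b hb
    rw [sh_LU _ (abs_case2 hb), sh_UM _ (abs_case3 hb)]; norm_num
  · intro b hb
    rw [sh_UM _ (abs_case4 hb), sh_LUr (by rw [hb]; norm_num)]; norm_num

lemma secL_cont : Continuous (secL δ) := by
  refine Z4_cont (PD.sh_cont _ _) (PD.sh_cont _ _) (PD.sh_cont _ _) (PD.sh_cont _ _) ?_ ?_ ?_
  · intro b hb
    rw [sh_TL (by rw [hb]; norm_num), sh_LU _ (abs_case1 hb)]; norm_num
  · intro b hb
    rw [sh_LU _ (abs_case2 hb), sh_TL (by rw [hb]; norm_num)]; norm_num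
  · intro b hb
    rw [sh_TL (by rw [hb]; norm_num), sh_LUr (by rw [hb]; norm_num)]; norm_num

lemma secT_cont : Continuous secT := by
  refine Z4_cont (PD.sh_cont _ _) (PD.sh_cont _ _) (PD.sh_cont _ _) (PD.sh_cont _ _) ?_ ?_ ?_
  · intro b hb
    rw [sh_TL (by rw [hb]; norm_num), sh_TM (by rw [hb]; norm_num)]; norm_num
  · intro b hb
    rw [sh_TM (by rw [hb]; norm_num), sh_TL (by rw [hb]; norm_num)]; norm_num
  · intro b hb
    rw [sh_TL (by rw [hb]; norm_num), sh_TM (by rw [hb]; norm_num)]; norm_num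

lemma secM_bp (b : ℝ × ℝ) : bp (secM δ b) = b :=
  Z4_bp (fun _ => rfl) (fun _ => rfl) (fun _ => rfl) (fun _ => rfl) b
lemma secU_bp (b : ℝ × ℝ) : bp (secU δ b) = b :=
  Z4_bp (fun _ => rfl) (fun _ => rfl) (fun _ => rfl) (fun _ => rfl) b
lemma secL_bp (b : ℝ × ℝ) : bp (secL δ b) = b :=
  Z4_bp (fun _ => rfl) (fun _ => rfl) (fun _ => rfl) (fun _ => rfl) b
lemma secT_bp (b : ℝ × ℝ) : bp (secT b) = b :=
  Z4_bp (fun _ => rfl) (fun _ => rfl) (fun _ => rfl) (fun _ => rfl) b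

lemma w_UM_pos {b : ℝ × ℝ} (h : 1 ≤ |b.2 - 5|) : 0 ≤ (dUM δ).w b := by
  simp only [dUM, LData.w, hS_f, rS_f]
  rw [hh_eq_abs (by linarith)]
  have := st_nonneg (δ * b.1 + 1)
  linarith

lemma w_LU_pos {b : ℝ × ℝ} (h : 1 ≤ |b.2|) : 0 ≤ (dLU δ).w b := by
  simp only [dLU, LData.w, hS_f, rS_f, sub_zero]
  rw [hh_eq_abs (by linarith)]
  have := st_nonneg (δ * b.1 + 0)
  linarith

/-- the four-sheet description of the Lagrangian surface -/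
lemma mem_LL {q : ℝ × ℝ × ℝ × ℝ} : q ∈ LL δ ↔
    (bp q ∈ RM δ ∧ secM δ (bp q) = q) ∨ (bp q ∈ RU δ ∧ secU δ (bp q) = q) ∨
    (bp q ∈ RL δ ∧ secL δ (bp q) = q) ∨ (bp q ∈ RT ∧ secT (bp q) = q) := by
  have hx : (bp q).2 = q.2.1 := rfl
  rcases le_or_gt q.2.1 (-(5 / 2)) with h1 | h1
  · rw [zone1 (by linarith), dUMl.mem_sh, dTL.mem_sh]
    unfold secM secU secL secT
    have h1' : (bp q).2 ≤ -(5 / 2) := h1
    rw [Z4_1 h1', Z4_1 h1', Z4_1 h1', Z4_1 h1']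
    have e1 : 0 ≤ dUMl.w (bp q) ↔ -4 ≤ (bp q).2 := by
      simp only [dUMl, LData.w, aS_f, cS_f]; constructor <;> intro h <;> linarith
    have e2 : 0 ≤ dTL.w (bp q) ↔ -8 ≤ (bp q).2 := by
      simp only [dTL, LData.w, aS_f, cS_f]; constructor <;> intro h <;> linarith
    have a1 : 0 ≤ (dUM δ).w (bp q) := by
      apply w_UM_pos; rw [hx, abs_of_neg (by linarith)]; linarith
    have a2 : 0 ≤ (dLU δ).w (bp q) := by
      apply w_LU_pos; rw [hx, abs_of_neg (by linarith)]; linarith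
    have a3 : (bp q).2 ≤ 9 := by rw [hx]; linarith
    have a4 : (bp q).2 ≤ 11 := by rw [hx]; linarith
    rw [e1, e2]
    unfold RM RU RL RT
    simp only [mem_ofPred_eq]
    tauto
  rcases le_or_gt q.2.1 (5 / 2) with h2 | h2
  · rw [zone2 (by linarith) (by linarith), (dLU δ).mem_sh, dTM.mem_sh]
    unfold secM secU secL secT
    have h1' : -(5 / 2) < (bp q).2 := h1
    have h2' : (bp q).2 ≤ 5 / 2 := h2
    rw [Z4_2 h1' h2', Z4_2 h1' h2', Z4_2 h1' h2', Z4_2 h1' h2']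
    have e2 : 0 ≤ dTM.w (bp q) := by
      simp only [dTM, LData.w, aS_f, cS_f]; linarith
    have a1 : 0 ≤ (dUM δ).w (bp q) := by
      apply w_UM_pos; rw [hx, abs_of_neg (by linarith)]; linarith
    have a3 : (bp q).2 ≤ 9 := by rw [hx]; linarith
    have a4 : (bp q).2 ≤ 11 := by rw [hx]; linarith
    have a5 : -4 ≤ (bp q).2 := by rw [hx]; linarith
    have a6 : -8 ≤ (bp q).2 := by rw [hx]; linarith
    unfold RM RU RL RT
    simp only [mem_ofPred_eq]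
    tauto
  rcases le_or_gt q.2.1 (15 / 2) with h3 | h3
  · rw [zone3 (by linarith) (by linarith), (dUM δ).mem_sh, dTL.mem_sh]
    unfold secM secU secL secT
    have h1' : 5 / 2 < (bp q).2 := h2
    have h2' : (bp q).2 ≤ 15 / 2 := h3
    rw [Z4_3 h1' h2', Z4_3 h1' h2', Z4_3 h1' h2', Z4_3 h1' h2']
    have e2 : 0 ≤ dTL.w (bp q) := by
      simp only [dTL, LData.w, aS_f, cS_f]; linarith
    have a1 : 0 ≤ (dLU δ).w (bp q) := by
      apply w_LU_pos; rw [hx, abs_of_pos (by linarith)]; linarith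
    have a3 : (bp q).2 ≤ 9 := by rw [hx]; linarith
    have a4 : (bp q).2 ≤ 11 := by rw [hx]; linarith
    have a5 : -4 ≤ (bp q).2 := by rw [hx]; linarith
    have a6 : -8 ≤ (bp q).2 := by rw [hx]; linarith
    unfold RM RU RL RT
    simp only [mem_ofPred_eq]
    tauto
  · rw [zone4 (by linarith), dLUr.mem_sh, dTM.mem_sh]
    unfold secM secU secL secT
    have h1' : 15 / 2 < (bp q).2 := h3
    rw [Z4_4 h1', Z4_4 h1', Z4_4 h1', Z4_4 h1']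
    have e1 : 0 ≤ dLUr.w (bp q) ↔ (bp q).2 ≤ 9 := by
      simp only [dLUr, LData.w, aS_f, cS_f]; constructor <;> intro h <;> linarith
    have e2 : 0 ≤ dTM.w (bp q) ↔ (bp q).2 ≤ 11 := by
      simp only [dTM, LData.w, aS_f, cS_f]; constructor <;> intro h <;> linarith
    have a1 : 0 ≤ (dLU δ).w (bp q) := by
      apply w_LU_pos; rw [hx, abs_of_pos (by linarith)]; linarith
    have a2 : 0 ≤ (dUM δ).w (bp q) := by
      apply w_UM_pos; rw [hx, abs_of_pos (by linarith)]; linarith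
    have a5 : -4 ≤ (bp q).2 := by rw [hx]; linarith
    have a6 : -8 ≤ (bp q).2 := by rw [hx]; linarith
    rw [e1, e2]
    unfold RM RU RL RT
    simp only [mem_ofPred_eq]
    tauto

end

end Pool.Agent.MP_70d14f_gt
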