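import Pool.Agent.Lib.MP_70d14f_gt.SData

namespace Pool.Agent.MP_70d14f_gt

open Set Topology

noncomputable section

def bet (t : ℝ) : ℝ := 6 * st ((t + 5) / 4)
def kap (t : ℝ) : ℝ := st (t + 5) * (1 - st t)
def NN (b : ℝ × ℝ) : ℝ := hh (b.2 - 5) + bet b.1

lemma bet_smooth : ContDiff ℝ (⊤ : ℕ∞) bet := by
  have := st_contDiff
  unfold bet; fun_prop
lemma kap_smooth : ContDiff ℝ (⊤ : ℕ∞) kap := by
  have := st_contDiff
  unfold kap; fun_prop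
lemma NN_cont : Continuous NN := by
  have h1 := bet_smooth.continuous
  have h2 := hh_contDiff.continuous
  unfold NN; fun_prop

lemma bet_mono : Monotone bet := by
  intro a b h
  unfold bet
  have := st_mono (by linarith : (a + 5) / 4 ≤ (b + 5) / 4)
  linarith
lemma bet_of_le {t : ℝ} (h : t ≤ -5) : bet t = 0 := by
  unfold bet; rw [st_zero (by linarith)]; ring
lemma bet_of_ge {t : ℝ} (h : -1 ≤ t) : bet t = 6 := by
  unfold bet; rw [st_one (by linarith)]; ring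
lemma bet_nonneg (t : ℝ) : 0 ≤ bet t := by
  unfold bet; linarith [st_nonneg ((t + 5) / 4)]
lemma kap_nonneg (t : ℝ) : 0 ≤ kap t :=
  mul_nonneg (st_nonneg _) (by linarith [st_le_one t])
lemma kap_le_one (t : ℝ) : kap t ≤ 1 := by
  unfold kap
  nlinarith [st_nonneg (t + 5), st_le_one (t + 5), st_nonneg t, st_le_one t]
lemma kap_pos {t : ℝ} (h : -5 < t) (h' : t < 1) : 0 < kap t :=
  mul_pos (st_pos (by linarith)) (by linarith [st_lt_one h'])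
lemma kap_of_le {t : ℝ} (h : t ≤ -5) : kap t = 0 := by
  unfold kap; rw [st_zero (by linarith)]; ring
lemma kap_of_ge {t : ℝ} (h : 1 ≤ t) : kap t = 0 := by
  unfold kap; rw [st_one h]; ring

def kapS : SF := ⟨kap, kap_smooth⟩
def betS : SF := ⟨bet, bet_smooth⟩
def nbetS : SF := ⟨fun t => -bet t, by have := bet_smooth; fun_prop⟩
def nhS : SF := ⟨fun x => 4 - hh (x - 5), by have := hh_contDiff; fun_prop⟩
def cstS : SF := ⟨fun t => 10 * st t, by have := st_contDiff; fun_prop⟩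

def lUN : LData := ⟨hS 5, betS, cS 1, 2⟩
def lDc : LData := ⟨aS (-1) (-1), cstS, cS 1, 0⟩
def lD4 : LData := ⟨nhS, nbetS, cS 1, 0⟩

lemma w_lUN (b : ℝ × ℝ) : lUN.w b = NN b - 1 := by
  show hh (b.2 - 5) - 1 + bet b.1 = _
  unfold NN; ring
lemma w_lDc (b : ℝ × ℝ) : lDc.w b = -1 + 10 * st b.1 - b.2 := by
  show -1 * b.2 + -1 + 10 * st b.1 = _
  ring
lemma w_lD4 (b : ℝ × ℝ) : lD4.w b = 4 - NN b := by
  show 4 - hh (b.2 - 5) + -bet b.1 = _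
  unfold NN; ring

/-- charts of the smooth annulus -/
inductive SCh | UMl | TL | UMN | TM | Dc | D4

def sD : SCh → PD
  | .UMl => dUMl.pd
  | .TL => dTL.pd
  | .UMN => lUN.spd kapS
  | .TM => dTM.pd
  | .Dc => lDc.spd (cS 0)
  | .D4 => lD4.spd kapS

/-- the smooth annulus -/
def Sg : Set (ℝ × ℝ × ℝ × ℝ) :=
  {q | (q.2.1 ≤ -(5 / 2) ∧ (q ∈ (sD .UMl).piece ∨ q ∈ (sD .TL).piece)) ∨
    (-(5 / 2) < q.2.1 ∧ NN (bp q) ≤ 5 / 2 ∧ (q ∈ (sD .UMN).piece ∨ q ∈ (sD .TL).piece)) ∨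
    (-(5 / 2) < q.2.1 ∧ 5 / 2 < NN (bp q) ∧
      ((q ∈ (sD .Dc).piece ∨ q ∈ (sD .D4).piece) ∨ q ∈ (sD .TM).piece))}

/-- consequences of the value of `NN` -/
lemma NN_lt {b : ℝ × ℝ} {c : ℝ} (h : NN b < c) (hc : 1 / 2 ≤ c) : |b.2 - 5| < c := by
  have h1 := bet_nonneg b.1
  have h2 : hh (b.2 - 5) < c := by unfold NN at h; linarith
  by_contra hcon
  push Not at hcon
  rw [hh_eq_abs (hc.trans hcon)] at h2
  linarith

lemma NN_le {b : ℝ × ℝ} {c : ℝ} (h : NN b ≤ c) (hc : 1 / 2 ≤ c) : |b.2 - 5| ≤ c := by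
  have h1 := bet_nonneg b.1
  have h2 : hh (b.2 - 5) ≤ c := by unfold NN at h; linarith
  by_contra hcon
  push Not at hcon
  rw [hh_eq_abs (hc.trans hcon.le)] at h2
  linarith

lemma NN_t {b : ℝ × ℝ} (h : NN b < 6) : b.1 < -1 := by
  by_contra hcon
  push Not at hcon
  have h2 := hh_nonneg (b.2 - 5)
  unfold NN at h
  rw [bet_of_ge hcon] at h
  linarith

lemma NN_left {b : ℝ × ℝ} (h : b.2 ≤ 9 / 2) : 5 - b.2 ≤ NN b := by
  have h1 := bet_nonneg b.1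
  unfold NN
  rw [hh_of_le (by linarith)]; linarith

/-- the piece `Dc` in the region where `t < 0` -/
lemma Dc_x {q : ℝ × ℝ × ℝ × ℝ} (h : q ∈ (sD .Dc).piece) :
    q.2.1 ≤ 9 ∧ (q.1 ≤ 0 → q.2.1 ≤ -1) := by
  have h1 := (lDc.spd_mem_sh _).1 h
  have h2 := h1.1
  rw [w_lDc] at h2
  have h3 : 0 ≤ -1 + 10 * st q.1 - q.2.1 := h2
  constructor
  · have := st_le_one q.1
    linarith
  · intro h4
    rw [st_zero h4] at h3
    linarith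

lemma D4_x {q : ℝ × ℝ × ℝ × ℝ} (h : q ∈ (sD .D4).piece) :
    NN (bp q) ≤ 4 ∧ 1 ≤ q.2.1 ∧ q.2.1 ≤ 9 ∧ q.1 < -1 := by
  have h1 := (lD4.spd_mem_sh _).1 h
  have h2 := h1.1
  rw [w_lD4] at h2
  have h3 := NN_le (b := bp q) (c := 4) (by linarith) (by norm_num)
  rw [abs_le] at h3
  have h4 : (bp q).2 = q.2.1 := rfl
  rw [h4] at h3
  exact ⟨by linarith, by linarith [h3.1], by linarith [h3.2], NN_t (b := bp q) (by linarith)⟩

lemma z_of_spd {A : LData} {κ : SF} {q : ℝ × ℝ × ℝ × ℝ} (h : q ∈ (A.spd κ).piece)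
    (h0 : 0 ≤ κ.f q.1) (h1 : κ.f q.1 ≤ 1) : A.m - 1 ≤ q.2.2.2 ∧ q.2.2.2 ≤ A.m + 1 := by
  obtain ⟨h2, h3⟩ := (A.spd_mem_sh κ).1 h
  obtain ⟨μ, m1, m2, -, m3⟩ := A.spd_sh_z κ h2 h0 h1
  rcases h3 with h3 | h3
  · have := m3 1
    rw [h3] at this
    constructor <;> linarith
  · have := m3 (-1)
    rw [h3] at this
    constructor <;> linarith

lemma z_UMN {q : ℝ × ℝ × ℝ × ℝ} (h : q ∈ (sD .UMN).piece) : 1 ≤ q.2.2.2 ∧ q.2.2.2 ≤ 3 := by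
  have := z_of_spd h (kap_nonneg _) (kap_le_one _)
  have e : lUN.m = 2 := rfl
  rw [e] at this
  constructor <;> linarith [this.1, this.2]
lemma z_Dc {q : ℝ × ℝ × ℝ × ℝ} (h : q ∈ (sD .Dc).piece) : -1 ≤ q.2.2.2 ∧ q.2.2.2 ≤ 1 := by
  have := z_of_spd h (by simp) (by simp)
  have e : lDc.m = 0 := rfl
  rw [e] at this
  constructor <;> linarith [this.1, this.2]
lemma z_D4 {q : ℝ × ℝ × ℝ × ℝ} (h : q ∈ (sD .D4).piece) : -1 ≤ q.2.2.2 ∧ q.2.2.2 ≤ 1 := by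
  have := z_of_spd h (kap_nonneg _) (kap_le_one _)
  have e : lD4.m = 0 := rfl
  rw [e] at this
  constructor <;> linarith [this.1, this.2]

section flats

lemma fl_UMl {b : ℝ × ℝ} (h : -3 < b.2) : (sD .UMl).Flat b 1 := dUMl.Flat_of (flat_UMl h)
lemma fl_TL {b : ℝ × ℝ} (h : -4 < b.2) : (sD .TL).Flat b 1 := by
  have := dTL.Flat_of (flat_TL h)
  have e : dTL.k.f b.2 = 1 := kt_of_ge h.le
  rwa [e] at this
lemma fl_TM {b : ℝ × ℝ} (h : b.2 < 10) : (sD .TM).Flat b 3 := dTM.Flat_of (flat_TM h)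
lemma fl_UMN {b : ℝ × ℝ} (h : 2 < NN b) : (sD .UMN).Flat b 1 :=
  lUN.spd_Flat kapS (by rw [w_lUN]; linarith)
lemma fl_D4 {b : ℝ × ℝ} (h : NN b < 3) : (sD .D4).Flat b 1 :=
  lD4.spd_Flat kapS (by rw [w_lD4]; linarith)
lemma fl_Dc {b : ℝ × ℝ} (h : b.2 < -2) : (sD .Dc).Flat b 1 :=
  lDc.spd_Flat (cS 0) (by rw [w_lDc]; linarith [st_nonneg b.1])

end flats

lemma m_UMl {q : ℝ × ℝ × ℝ × ℝ} (h : -3 < q.2.1) :
    q ∈ (sD .UMl).piece ↔ (q.2.2.1 = 0 ∧ (q.2.2.2 = 3 ∨ q.2.2.2 = 1)) := by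
  rw [(fl_UMl (b := bp q) h).mem_iff]; norm_num [sD, LData.pd, dUMl]
lemma m_TL {q : ℝ × ℝ × ℝ × ℝ} (h : -4 < q.2.1) :
    q ∈ (sD .TL).piece ↔ (q.2.2.1 = 0 ∧ (q.2.2.2 = -1 ∨ q.2.2.2 = -3)) := by
  rw [(fl_TL (b := bp q) h).mem_iff]; norm_num [sD, LData.pd, dTL]
lemma m_TM {q : ℝ × ℝ × ℝ × ℝ} (h : q.2.1 < 10) :
    q ∈ (sD .TM).piece ↔ (q.2.2.1 = 0 ∧ (q.2.2.2 = 3 ∨ q.2.2.2 = -3)) := by
  rw [(fl_TM (b := bp q) h).mem_iff]; norm_num [sD, LData.pd, dTM]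
lemma m_UMN {q : ℝ × ℝ × ℝ × ℝ} (h : 2 < NN (bp q)) :
    q ∈ (sD .UMN).piece ↔ (q.2.2.1 = 0 ∧ (q.2.2.2 = 3 ∨ q.2.2.2 = 1)) := by
  rw [(fl_UMN h).mem_iff]; norm_num [sD, LData.spd, lUN]
lemma m_D4 {q : ℝ × ℝ × ℝ × ℝ} (h : NN (bp q) < 3) :
    q ∈ (sD .D4).piece ↔ (q.2.2.1 = 0 ∧ (q.2.2.2 = 1 ∨ q.2.2.2 = -1)) := by
  rw [(fl_D4 h).mem_iff]; norm_num [sD, LData.spd, lD4]
lemma m_Dc {q : ℝ × ℝ × ℝ × ℝ} (h : q.2.1 < -2) :
    q ∈ (sD .Dc).piece ↔ (q.2.2.1 = 0 ∧ (q.2.2.2 = 1 ∨ q.2.2.2 = -1)) := by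
  rw [(fl_Dc (b := bp q) h).mem_iff]; norm_num [sD, LData.spd, lDc]

lemma s1_F4 {q : ℝ × ℝ × ℝ × ℝ} (h : -3 < q.2.1) :
    (q ∈ (sD .UMl).piece ∨ q ∈ (sD .TL).piece) ↔ F4 q := by
  rw [m_UMl h, m_TL (by linarith)]; unfold F4; tauto

lemma s2_F4 {q : ℝ × ℝ × ℝ × ℝ} (h : 2 < NN (bp q)) (h' : -4 < q.2.1) :
    (q ∈ (sD .UMN).piece ∨ q ∈ (sD .TL).piece) ↔ F4 q := by
  rw [m_UMN h, m_TL h']; unfold F4; tauto

lemma s3_F4l {q : ℝ × ℝ × ℝ × ℝ} (h : q.2.1 < -2) :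
    ((q ∈ (sD .Dc).piece ∨ q ∈ (sD .D4).piece) ∨ q ∈ (sD .TM).piece) ↔ F4 q := by
  have h4 : q ∉ (sD .D4).piece := fun hc => by linarith [(D4_x hc).2.1]
  rw [m_Dc h, m_TM (by linarith)]; unfold F4; tauto

lemma s3_F4r {q : ℝ × ℝ × ℝ × ℝ} (h : NN (bp q) < 3) :
    ((q ∈ (sD .Dc).piece ∨ q ∈ (sD .D4).piece) ∨ q ∈ (sD .TM).piece) ↔ F4 q := by
  have h1 := NN_lt h (by norm_num)
  rw [abs_lt] at h1
  have h2 : (bp q).2 = q.2.1 := rfl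
  rw [h2] at h1
  have h3 := NN_t (b := bp q) (by linarith)
  have h3' : q.1 < -1 := h3
  have h4 : q ∉ (sD .Dc).piece := fun hc => by
    have := (Dc_x hc).2 (by linarith)
    linarith [h1.1]
  rw [m_D4 h, m_TM (by linarith)]; unfold F4; tauto

lemma sz1 {q : ℝ × ℝ × ℝ × ℝ} (h : q.2.1 < -2) :
    q ∈ Sg ↔ (q ∈ (sD .UMl).piece ∨ q ∈ (sD .TL).piece) := by
  by_cases h1 : q.2.1 ≤ -(5 / 2)
  · unfold Sg
    simp only [Set.mem_ofPred_eq]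
    constructor
    · rintro (h2 | h2 | h2)
      · exact h2.2
      all_goals exact absurd h2.1 (not_lt.2 h1)
    · intro h2; exact Or.inl ⟨h1, h2⟩
  · have hN : 5 / 2 < NN (bp q) := by
      have := NN_left (b := bp q) (by show q.2.1 ≤ 9 / 2; linarith)
      have h2 : (bp q).2 = q.2.1 := rfl
      linarith
    have e : q ∈ Sg ↔ ((q ∈ (sD .Dc).piece ∨ q ∈ (sD .D4).piece) ∨ q ∈ (sD .TM).piece) := by
      unfold Sg
      simp only [Set.mem_ofPred_eq]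
      constructor
      · rintro (h2 | h2 | h2)
        · exact absurd h2.1 h1
        · exact absurd h2.2.1 (not_le.2 hN)
        · exact h2.2.2
      · intro h2; exact Or.inr (Or.inr ⟨by linarith, hN, h2⟩)
    rw [e, s3_F4l h, s1_F4 (by linarith)]

lemma sz2 {q : ℝ × ℝ × ℝ × ℝ} (h : NN (bp q) < 3) :
    q ∈ Sg ↔ (q ∈ (sD .UMN).piece ∨ q ∈ (sD .TL).piece) := by
  have h1 := NN_lt h (by norm_num)
  rw [abs_lt] at h1
  have h2 : (bp q).2 = q.2.1 := rfl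
  rw [h2] at h1
  by_cases h3 : NN (bp q) ≤ 5 / 2
  · unfold Sg
    simp only [Set.mem_ofPred_eq]
    constructor
    · rintro (h4 | h4 | h4)
      · exfalso; linarith [h4.1, h1.1]
      · exact h4.2.2
      · exact absurd h4.2.1 (not_lt.2 h3)
    · intro h4; exact Or.inr (Or.inl ⟨by linarith [h1.1], h3, h4⟩)
  · have e : q ∈ Sg ↔ ((q ∈ (sD .Dc).piece ∨ q ∈ (sD .D4).piece) ∨ q ∈ (sD .TM).piece) := by
      unfold Sg
      simp only [Set.mem_ofPred_eq]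
      constructor
      · rintro (h4 | h4 | h4)
        · exfalso; linarith [h4.1, h1.1]
        · exact absurd h4.2.1 h3
        · exact h4.2.2
      · intro h4; exact Or.inr (Or.inr ⟨by linarith [h1.1], by linarith, h4⟩)
    rw [e, s3_F4r h, s2_F4 (by linarith) (by linarith [h1.1])]

lemma sz3 {q : ℝ × ℝ × ℝ × ℝ} (h : -3 < q.2.1) (h' : 2 < NN (bp q)) :
    q ∈ Sg ↔ ((q ∈ (sD .Dc).piece ∨ q ∈ (sD .D4).piece) ∨ q ∈ (sD .TM).piece) := by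
  by_cases h1 : q.2.1 ≤ -(5 / 2)
  · rw [sz1 (by linarith), s1_F4 h, s3_F4l (by linarith)]
  · by_cases h3 : NN (bp q) ≤ 5 / 2
    · rw [sz2 (by linarith), s2_F4 h' (by linarith), s3_F4r (by linarith)]
    · unfold Sg
      simp only [Set.mem_ofPred_eq]
      constructor
      · rintro (h4 | h4 | h4)
        · exact absurd h4.1 h1
        · exact absurd h4.2.1 h3
        · exact h4.2.2
      · intro h4; exact Or.inr (Or.inr ⟨by linarith, by linarith, h4⟩)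

end

end Pool.Agent.MP_70d14f_gt
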