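import Pool.Agent.Lib.MP_70d14f_gt.Defs

namespace Pool.Agent.MP_70d14f_gt

open Set Topology

noncomputable section

variable {E : Type} [NormedAddCommGroup E] [NormedSpace ℝ E]

/-- the velocity of a curve in `S` is tangent -/
lemma curve_mem {S : Set E} {p v : E} {V : Submodule ℝ E} (h : HasTangentSpace S p V)
    {c : ℝ → E} (hc : HasDerivAt c v 0) (h0 : c 0 = p) (hS : ∀ᶠ s in 𝓝 (0 : ℝ), c s ∈ S) :
    v ∈ V := by
  obtain ⟨U, f, hU, hpU, hsm, hz, hsurj, rfl⟩ := h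
  have hd : HasFDerivAt f (fderiv ℝ f p) (c 0) := by
    rw [h0]
    exact ((hsm.contDiffAt (hU.mem_nhds hpU)).differentiableAt (by simp)).hasFDerivAt
  have h1 := hd.comp_hasDerivAt 0 hc
  have h2 : ∀ᶠ s in 𝓝 (0 : ℝ), (f ∘ c) s = 0 := by
    have : ∀ᶠ s in 𝓝 (0 : ℝ), c s ∈ U := hc.continuousAt.eventually_mem (by
      rw [h0]; exact hU.mem_nhds hpU)
    filter_upwards [this, hS] with s hs1 hs2
    exact (hz _ hs1).1 hs2
  have h3 : HasDerivAt (f ∘ c) 0 0 := by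
    have : HasDerivAt (fun _ : ℝ => (0 : ℝ × ℝ)) 0 0 := hasDerivAt_const _ _
    exact this.congr_of_eventuallyEq h2
  have h4 := h1.unique h3
  exact h4

/-- every tangent vector is the velocity of a curve in `S` -/
lemma tangent_curve [CompleteSpace E] {S : Set E} {p v : E} {V : Submodule ℝ E}
    (h : HasTangentSpace S p V) (hp : p ∈ S) (hv : v ∈ V) :
    ∃ c : ℝ → E, HasDerivAt c v 0 ∧ c 0 = p ∧ ∀ᶠ s in 𝓝 (0 : ℝ), c s ∈ S := by
  obtain ⟨U, f, hU, hpU, hsm, hz, hsurj, rfl⟩ := h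
  have hf : HasStrictFDerivAt f (fderiv ℝ f p) p :=
    (hsm.contDiffAt (hU.mem_nhds hpU)).hasStrictFDerivAt (by simp)
  have hr : (fderiv ℝ f p).range = ⊤ := LinearMap.range_eq_top.2 hsurj
  set v' : (fderiv ℝ f p).ker := ⟨v, hv⟩ with hv'
  set φ := hf.implicitFunction f (fderiv ℝ f p) hr (f p) with hφ
  have h1 : HasFDerivAt φ (fderiv ℝ f p).ker.subtypeL ((0 : ℝ) • v') := by
    rw [zero_smul]; exact (hf.to_implicitFunction hr).hasFDerivAt
  have h2 : HasDerivAt (fun s : ℝ => s • v') v' 0 := by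
    simpa using (hasDerivAt_id (0 : ℝ)).smul_const v'
  have h3 := h1.comp_hasDerivAt 0 h2
  have h0 : φ ((0 : ℝ) • v') = p := by
    rw [zero_smul]; exact hf.implicitFunction_apply_image hr
  refine ⟨φ ∘ fun s : ℝ => s • v', h3, h0, ?_⟩
  have h4 : ∀ᶠ s in 𝓝 (0 : ℝ), (φ ∘ fun s : ℝ => s • v') s ∈ U :=
    h3.continuousAt.eventually_mem (by
      show U ∈ 𝓝 (φ ((0 : ℝ) • v'))
      rw [h0]; exact hU.mem_nhds hpU)
  have h5 : Filter.Tendsto (fun s : ℝ => (f p, s • v')) (𝓝 0) (𝓝 (f p, 0)) := by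
    have : ContinuousAt (fun s : ℝ => (f p, s • v')) 0 := by fun_prop
    have h := this.tendsto
    simpa using h
  have h6 := h5.eventually (hf.map_implicitFunction_eq hr)
  filter_upwards [h4, h6] with s hs1 hs2
  refine (hz _ hs1).2 ?_
  have : f p = 0 := (hz p hpU).1 hp
  rw [← this]
  exact hs2

/-- tangent spaces are unique -/
theorem tangentSpace_unique [CompleteSpace E] {S : Set E} {p : E} {V W : Submodule ℝ E}
    (hp : p ∈ S) (hV : HasTangentSpace S p V) (hW : HasTangentSpace S p W) : V = W := by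
  apply le_antisymm
  · intro v hv
    obtain ⟨c, h1, h2, h3⟩ := tangent_curve hV hp hv
    exact curve_mem hW h1 h2 h3
  · intro v hv
    obtain ⟨c, h1, h2, h3⟩ := tangent_curve hW hp hv
    exact curve_mem hV h1 h2 h3

/-- slices of a surface which are transverse -/
lemma slice_tangent {S : Set (ℝ × ℝ × ℝ × ℝ)} {T : ℝ} {p : ℝ × ℝ × ℝ}
    {V : Submodule ℝ (ℝ × ℝ × ℝ × ℝ)} (h : HasTangentSpace S (T, p) V)
    (h1 : ((1, 0) : ℝ × ℝ × ℝ × ℝ) ∈ V) :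
    HasTangentSpace {q : ℝ × ℝ × ℝ | (T, q) ∈ S} p (V.comap (LinearMap.inr ℝ ℝ (ℝ × ℝ × ℝ))) := by
  obtain ⟨U, f, hU, hpU, hsm, hz, hsurj, rfl⟩ := h
  have hi : ContDiff ℝ (⊤ : ℕ∞) (fun q : ℝ × ℝ × ℝ => ((T, q) : ℝ × ℝ × ℝ × ℝ)) := by fun_prop
  have hd : HasFDerivAt f (fderiv ℝ f (T, p)) (T, p) :=
    ((hsm.contDiffAt (hU.mem_nhds hpU)).differentiableAt (by simp)).hasFDerivAt
  have hdi : HasFDerivAt (fun q : ℝ × ℝ × ℝ => ((T, q) : ℝ × ℝ × ℝ × ℝ))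
      (ContinuousLinearMap.inr ℝ ℝ (ℝ × ℝ × ℝ)) p := by
    have := (hasFDerivAt_const T p).prodMk (hasFDerivAt_id (𝕜 := ℝ) p)
    exact this
  have hcomp := (hd.comp p hdi).fderiv
  refine ⟨(fun q => (T, q)) ⁻¹' U, f ∘ fun q => (T, q), hU.preimage hi.continuous, hpU,
    hsm.comp hi.contDiffOn (fun q hq => hq), fun q hq => hz _ hq, ?_, ?_⟩
  · rw [hcomp]
    intro y
    obtain ⟨v, hv⟩ := hsurj y
    refine ⟨v.2, ?_⟩
    show fderiv ℝ f (T, p) ((0, v.2) : ℝ × ℝ × ℝ × ℝ) = y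
    have e : v = v.1 • ((1, 0) : ℝ × ℝ × ℝ × ℝ) + ((0, v.2) : ℝ × ℝ × ℝ × ℝ) := by
      ext <;> simp
    have h1' : fderiv ℝ f (T, p) ((1, 0) : ℝ × ℝ × ℝ × ℝ) = 0 := h1
    rw [e, map_add, map_smul, h1', smul_zero, zero_add] at hv
    exact hv
  · rw [hcomp]
    ext v
    rfl

end

end Pool.Agent.MP_70d14f_gt
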